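import Pool.Agent.Lib.MP_9c5702_nt.AC.Defs

/-! Fourier coefficients of a periodic function on an interval. -/

set_option autoImplicit false

namespace Pool.Agent.Lib.MP_9c5702_nt.AC

open Finset Pool.Agent.Lib.MP_9c5702_nt.Cube

lemma abound_split (L K : ℕ) (hL : 1 ≤ L) (g : ℕ → ℂ) :
    ∑ i ∈ range K, g i =
      ∑ r ∈ range L, ∑ s ∈ range ((K + L - 1 - r) / L), g (r + L * s) := by
  rw [← sum_fiberwise_of_maps_to (s := range K) (t := range L) (g := fun i => i % L)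
    (fun i _ => mem_range.2 (Nat.mod_lt _ hL))]
  refine sum_congr rfl fun r hr => ?_
  have hr' : r < L := mem_range.1 hr
  symm
  refine sum_nbij' (fun s => r + L * s) (fun i => i / L) (fun s hs => ?_) (fun i hi => ?_)
    (fun s _ => ?_) (fun i hi => ?_) (fun _ _ => rfl)
  · have h1 : (s + 1) * L ≤ K + L - 1 - r :=
      (Nat.le_div_iff_mul_le hL).1 (mem_range.1 hs)
    rw [add_mul, one_mul, mul_comm] at h1
    refine mem_filter.2 ⟨mem_range.2 (by omega), ?_⟩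
    rw [Nat.add_mul_mod_self_left, Nat.mod_eq_of_lt hr']
  · obtain ⟨h1, h2⟩ := mem_filter.1 hi
    have h3 : i < K := mem_range.1 h1
    have h4 := Nat.mod_add_div i L
    refine mem_range.2 ((Nat.le_div_iff_mul_le hL).2 ?_)
    rw [Nat.succ_mul, mul_comm]
    omega
  · show (r + L * s) / L = s
    rw [Nat.add_mul_div_left _ _ hL, Nat.div_eq_of_lt hr', zero_add]
  · obtain ⟨-, h2⟩ := mem_filter.1 hi
    have h4 := Nat.mod_add_div i L
    show r + L * (i / L) = i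
    omega

lemma abound_two (S : Finset ℤ) (J : Finset ℕ) (hJ : ∀ h ∈ S, h.natAbs ∈ J) :
    ∑ h ∈ S, 1 / (2 * |(h : ℝ)|) ≤ ∑ j ∈ J, (1 : ℝ) / j := by
  rw [← sum_fiberwise_of_maps_to hJ]
  refine sum_le_sum fun j _ => ?_
  have h1 : ∀ h ∈ S.filter (fun h => h.natAbs = j), 1 / (2 * |(h : ℝ)|) = 1 / (2 * (j : ℝ)) := by
    intro h hh
    rw [← (mem_filter.1 hh).2, Nat.cast_natAbs, Int.cast_abs]
  have h2 : (S.filter (fun h => h.natAbs = j)).card ≤ 2 := by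
    refine (card_le_card (t := {(j : ℤ), -(j : ℤ)}) fun h hh => ?_).trans card_le_two
    have := (mem_filter.1 hh).2
    simp only [mem_insert, mem_singleton]
    omega
  rw [sum_congr rfl h1, sum_const, nsmul_eq_mul]
  have h3 : ((S.filter (fun h => h.natAbs = j)).card : ℝ) ≤ 2 := by exact_mod_cast h2
  calc _ ≤ 2 * (1 / (2 * (j : ℝ))) := mul_le_mul_of_nonneg_right h3 (by positivity)
    _ = 1 / j := by rw [one_div, mul_inv, ← mul_assoc, mul_inv_cancel₀ two_ne_zero, one_mul, one_div]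

theorem a_bound (q L : ℕ) (hL : 1 ≤ L) (φ : ℤ → ℝ) (hp : Function.Periodic φ L)
    (h1 : ∀ x, |φ x| ≤ 1) (L' h : ℤ) (hL' : (q : ℤ) ∣ L * L' - 1) (h0 : h ≠ 0) (h2 : 2 * |h| ≤ q)
    (k0 : ℤ) (K : ℕ) :
    ‖∑ κ ∈ Ico k0 (k0 + K), (φ κ : ℂ) * ec q (h * L' * κ)‖ ≤ L * (q / (2 * |(h : ℝ)|)) := by
  rw [Int.Ico_eq_finset_map, sum_map, show (k0 + K - k0).toNat = K by omega,
    abound_split L K hL]
  refine (norm_sum_le _ _).trans ?_
  refine (sum_le_card_nsmul _ _ (q / (2 * |(h : ℝ)|)) fun r _ => ?_).trans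
    (by rw [card_range, nsmul_eq_mul])
  have e : ∀ s : ℕ, (φ (k0 + ((r + L * s : ℕ) : ℤ)) : ℂ) *
      ec q (h * L' * (k0 + ((r + L * s : ℕ) : ℤ))) =
      (φ (k0 + r) : ℂ) * ec q (h * L' * (k0 + r)) * ec q (h * s) := by
    intro s
    have e1 : φ (k0 + ((r + L * s : ℕ) : ℤ)) = φ (k0 + r) := by
      rw [← hp.nat_mul s (k0 + r)]
      congr 1
      push_cast
      ring
    rw [e1, mul_assoc (φ (k0 + r) : ℂ), ← ec_add]
    congr 1
    obtain ⟨j, hj⟩ := hL'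
    refine ec_congr ⟨h * s * j, ?_⟩
    push_cast
    linear_combination (h * s) * hj
  have e2 : ∑ s ∈ range ((K + L - 1 - r) / L), (φ (k0 + ((r + L * s : ℕ) : ℤ)) : ℂ) *
      ec q (h * L' * (k0 + ((r + L * s : ℕ) : ℤ))) =
      (φ (k0 + r) : ℂ) * ec q (h * L' * (k0 + r)) *
        ∑ s ∈ range ((K + L - 1 - r) / L), ec q (h * s) := by
    rw [mul_sum]
    exact sum_congr rfl fun s _ => e s
  refine (congrArg norm e2).trans_le ?_
  rw [norm_mul, norm_mul, norm_ec, mul_one, Complex.norm_real, Real.norm_eq_abs]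
  exact (mul_le_of_le_one_left (norm_nonneg _) (h1 _)).trans (ec_geom h0 h2 _)

theorem gcd_harm (q0 q T V : ℕ) (hq0 : 1 ≤ q0) (hV : 1 ≤ V) (hτ : q0.divisors.card ≤ T)
    (hH : ∑ j ∈ Icc 1 q, (1 : ℝ) / j ≤ T) (Hs : Finset ℤ) (hs : ∀ h ∈ Hs, h ≠ 0 ∧ |h| ≤ q) :
    ∑ h ∈ Hs, 1 / (2 * |(h : ℝ)|) ≤ T ∧
      ∑ h ∈ Hs.filter (fun h => V < Int.gcd h q0), 1 / (2 * |(h : ℝ)|) ≤ (T : ℝ) ^ 2 / V := by
  have hm : ∀ h ∈ Hs, h.natAbs ∈ Icc 1 q := fun h hh => by
    obtain ⟨a, b⟩ := hs h hh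
    rw [Int.abs_eq_natAbs] at b
    exact mem_Icc.2 ⟨by omega, by exact_mod_cast b⟩
  refine ⟨(abound_two Hs _ hm).trans hH, ?_⟩
  have hV' : (0 : ℝ) < V := by exact_mod_cast hV
  have hT0 : (0 : ℝ) ≤ T := Nat.cast_nonneg _
  refine (abound_two _ ((Icc 1 q).filter fun j => V < Nat.gcd j q0) fun h hh => ?_).trans ?_
  · obtain ⟨a, b⟩ := mem_filter.1 hh
    exact mem_filter.2 ⟨hm h a, by simpa [Int.gcd] using b⟩
  rw [← sum_fiberwise_of_maps_to (t := q0.divisors) (g := fun j => Nat.gcd j q0)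
    (fun j _ => Nat.mem_divisors.2 ⟨Nat.gcd_dvd_right _ _, by omega⟩)]
  refine (sum_le_card_nsmul _ _ ((T : ℝ) / V) fun g hg => ?_).trans ?_
  · have hg0 : 0 < g := Nat.pos_of_mem_divisors hg
    by_cases hgV : V < g
    · have hsub : (((Icc 1 q).filter fun j => V < Nat.gcd j q0).filter
          fun j => Nat.gcd j q0 = g) ⊆ (Icc 1 q).image fun i => g * i := by
        intro j hj
        obtain ⟨a, b⟩ := mem_filter.1 hj
        obtain ⟨c, d⟩ := mem_Icc.1 (mem_filter.1 a).1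
        obtain ⟨i, rfl⟩ : g ∣ j := b ▸ Nat.gcd_dvd_left _ _
        refine mem_image.2 ⟨i, mem_Icc.2 ⟨Nat.pos_of_ne_zero ?_, ?_⟩, rfl⟩
        · rintro rfl
          omega
        · exact (Nat.le_mul_of_pos_left i hg0).trans d
      refine (sum_le_sum_of_subset_of_nonneg hsub fun _ _ _ => by positivity).trans ?_
      rw [sum_image fun a _ b _ e => Nat.eq_of_mul_eq_mul_left hg0 e]
      have hgV' : (V : ℝ) ≤ g := by exact_mod_cast hgV.le
      calc ∑ i ∈ Icc 1 q, (1 : ℝ) / ((g * i : ℕ) : ℝ)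
          = (∑ i ∈ Icc 1 q, (1 : ℝ) / i) / g := by
            rw [sum_div]
            refine sum_congr rfl fun i _ => ?_
            rw [Nat.cast_mul, div_div, mul_comm]
        _ ≤ T / V := div_le_div₀ hT0 hH hV' hgV'
    · rw [sum_eq_zero]
      · positivity
      · intro j hj
        obtain ⟨a, b⟩ := mem_filter.1 hj
        exact absurd (b ▸ (mem_filter.1 a).2) hgV
  · rw [nsmul_eq_mul, sq, mul_div_assoc]
    exact mul_le_mul_of_nonneg_right (by exact_mod_cast hτ) (by positivity)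

end Pool.Agent.Lib.MP_9c5702_nt.AC
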