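import Pool.Agent.Lib.MP_9c5702_nt.AC.StepB

/-! The number of solutions of a trace equation. -/

set_option autoImplicit false

namespace Pool.Agent.Lib.MP_9c5702_nt.AC

open Polynomial Finset

theorem stepc_deg {F : Type} [Field F] (p k J D E : ℕ) (V R : F[X]) (x0 : F)
    (hV : V.natDegree ≤ D) (hR : R.natDegree ≤ D) (e : Fin p × Fin (J + 1) → F[X])
    (he : ∀ i, (e i).natDegree ≤ E) :
    (asPhi p k J V R x0 e).natDegree ≤ E + p ^ k * (D * p + p ^ k * J) := by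
  unfold asPhi
  refine natDegree_sum_le_of_forall_le _ _ fun i _ => ?_
  refine natDegree_mul_le.trans (add_le_add (he i) (natDegree_pow_le.trans ?_))
  refine Nat.mul_le_mul_left _ (natDegree_mul_le.trans (add_le_add ?_ ?_))
  · have h1 : (V ^ (i.1 : ℕ)).natDegree ≤ (i.1 : ℕ) * D :=
      natDegree_pow_le.trans (Nat.mul_le_mul_left _ hV)
    have h2 : (R ^ (p - 1 - i.1)).natDegree ≤ (p - 1 - i.1) * D :=
      natDegree_pow_le.trans (Nat.mul_le_mul_left _ hR)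
    refine natDegree_mul_le.trans ((add_le_add h1 h2).trans ?_)
    rw [← add_mul, mul_comm]
    have := i.1.2
    exact Nat.mul_le_mul_left _ (by omega)
  · refine natDegree_pow_le.trans ?_
    rw [natDegree_X_sub_C, mul_one]
    exact Nat.mul_le_mul_left _ (Nat.lt_succ_iff.1 i.2.2)

theorem stepc_card {F : Type} [Field F] [DecidableEq F] (S : Finset F) (M : ℕ) (Φ : F[X])
    (h0 : Φ ≠ 0) (h : ∀ x ∈ S, (X - C x) ^ M ∣ Φ) : S.card * M ≤ Φ.natDegree := by
  have hd : ∏ x ∈ S, (X - C x) ^ M ∣ Φ :=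
    Finset.prod_dvd_of_coprime (fun x _ y _ hxy =>
      (pairwise_coprime_X_sub_C (s := id) Function.injective_id hxy).pow) h
  have := natDegree_le_of_dvd hd h0
  rwa [natDegree_prod_of_monic _ _ fun x _ => (monic_X_sub_C x).pow M,
    Finset.sum_congr rfl fun x _ => (by rw [natDegree_pow, natDegree_X_sub_C, mul_one] :
      ((X - C x) ^ M : F[X]).natDegree = M), sum_const, smul_eq_mul] at this

theorem stepanov_as {F : Type} [Field F] [Fintype F] [DecidableEq F] (p k : ℕ) [Fact p.Prime]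
    [CharP F p] (hk : 1 ≤ k) (hq : Fintype.card F = p ^ (2 * k)) (h7 : 7 ≤ p ^ k) (P R1 : F[X])
    (x0 c : F) (hP : P.natDegree ≤ 5) (hR : R1.natDegree ≤ 3) (hP0 : P.eval x0 ≠ 0)
    (hR0 : R1.eval x0 ≠ 0) :
    (univ.filter fun x : F => (x - x0) * R1.eval x ≠ 0 ∧
      ∑ s ∈ range (2 * k), (P.eval x / ((x - x0) * R1.eval x)) ^ p ^ s = c).card ≤
      p ^ (2 * k - 1) + 12 * p ^ k := by
  have hp : p.Prime := Fact.out
  obtain ⟨n, rfl⟩ : ∃ n, k = n + 1 := ⟨k - 1, by omega⟩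
  have hle : ∀ s ∈ range (n + 1), p ^ s ≤ p ^ n := fun s hs =>
    Nat.pow_le_pow_right hp.pos (Nat.lt_succ_iff.1 (mem_range.1 hs))
  obtain ⟨V, hVdef⟩ : ∃ V : F[X],
      V = ∑ s ∈ range (n + 1), P ^ p ^ s * ((X - C x0) * R1) ^ (p ^ n - p ^ s) := ⟨_, rfl⟩
  obtain ⟨R, hRdef⟩ : ∃ R : F[X], R = (X - C x0) ^ p ^ n * R1 ^ p ^ n := ⟨_, rfl⟩
  have h4 : ((X - C x0) * R1).natDegree ≤ 4 := by
    refine natDegree_mul_le.trans ?_
    rw [natDegree_X_sub_C]
    omega
  have hVd : V.natDegree ≤ 5 * p ^ n := by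
    rw [hVdef]
    refine natDegree_sum_le_of_forall_le _ _ fun s hs => natDegree_mul_le.trans ?_
    have h1 : (P ^ p ^ s).natDegree ≤ p ^ s * 5 :=
      natDegree_pow_le.trans (Nat.mul_le_mul_left _ hP)
    have h2 : (((X - C x0) * R1) ^ (p ^ n - p ^ s)).natDegree ≤ (p ^ n - p ^ s) * 4 :=
      natDegree_pow_le.trans (Nat.mul_le_mul_left _ h4)
    have := hle s hs
    omega
  have hRd : R.natDegree ≤ 5 * p ^ n := by
    rw [hRdef, ← mul_pow]
    have : (((X - C x0) * R1) ^ p ^ n).natDegree ≤ p ^ n * 4 :=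
      natDegree_pow_le.trans (Nat.mul_le_mul_left _ h4)
    omega
  have hV0 : V.eval x0 ≠ 0 := by
    rw [hVdef, eval_finsetSum, sum_range_succ, sum_eq_zero fun s hs => ?_]
    · simpa using fun h => (hP0 h).elim
    · have : p ^ s < p ^ n := Nat.pow_lt_pow_right hp.one_lt (mem_range.1 hs)
      have h : p ^ n - p ^ s ≠ 0 := by omega
      simp [h]
  obtain ⟨e, he0, hed, hθ⟩ : ∃ e : Fin p × Fin (p ^ n + 6 + 1) → F[X], e ≠ 0 ∧
      (∀ i, (e i).degree < (p ^ (2 * (n + 1) - 1) : ℕ)) ∧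
      ∀ l < p ^ (n + 1), asTheta p (p ^ n + 6) V R x0 c e l = 0 :=
    as_exists p (n + 1) hp hk h7 V R hVd hRd x0 c
  have hne : asPhi p (n + 1) (p ^ n + 6) V R x0 e ≠ 0 := by
    rw [hRdef]
    exact as_nonzero p (n + 1) (p ^ n + 6) hp hk V (R1 ^ p ^ n) x0 hV0
      (by rw [eval_pow]; exact pow_ne_zero _ hR0) e hed he0
  have hdeg := stepc_deg p (n + 1) (p ^ n + 6) (5 * p ^ n) (p ^ (2 * (n + 1) - 1)) V R x0 hVd hRd e
    fun i => natDegree_le_iff_degree_le.2 (hed i).le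
  have hc := stepc_card (univ.filter fun x : F => (x - x0) * R1.eval x ≠ 0 ∧
      ∑ s ∈ range (2 * (n + 1)), (P.eval x / ((x - x0) * R1.eval x)) ^ p ^ s = c) (p ^ (n + 1)) _
      hne fun x hx => by
    obtain ⟨h1, h2⟩ := (mem_filter.1 hx).2
    have hRx : R.eval x = ((x - x0) * R1.eval x) ^ p ^ n := by
      rw [hRdef, ← mul_pow]
      simp
    have hq' : V.eval x / R.eval x =
        ∑ s ∈ range (n + 1), (P.eval x / ((x - x0) * R1.eval x)) ^ p ^ s := by
      rw [hVdef, hRx, eval_finsetSum, sum_div]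
      refine sum_congr rfl fun s hs => ?_
      obtain ⟨t, ht⟩ := Nat.exists_eq_add_of_le (hle s hs)
      rw [eval_mul, eval_pow, eval_pow, eval_mul, eval_sub, eval_X, eval_C, ht,
        Nat.add_sub_cancel_left, pow_add, div_pow, mul_div_mul_right _ _ (pow_ne_zero _ h1)]
    refine as_vanish p (n + 1) (p ^ n + 6) hq V R x0 c e hθ x (hRx ▸ pow_ne_zero _ h1) ?_
    rw [hq', sum_pow_char_pow, ← h2, two_mul, sum_range_add _ (n + 1) (n + 1)]
    congr 1
    refine sum_congr rfl fun s _ => ?_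
    rw [← pow_mul, ← pow_add, add_comm s]
  have e1 : p ^ (2 * (n + 1) - 1) = p ^ n * p ^ (n + 1) := by
    rw [← pow_add]
    congr 1
    omega
  have e2 : p ^ n ≤ p ^ (n + 1) := Nat.pow_le_pow_right hp.pos (Nat.le_succ n)
  have e3 : 5 * p ^ n * p = 5 * p ^ (n + 1) := by rw [pow_succ, mul_assoc]
  have hpos : 0 < p ^ (n + 1) := pow_pos hp.pos _
  rw [e1, e3] at hdeg
  rw [e1]
  refine Nat.le_of_mul_le_mul_right (hc.trans (hdeg.trans ?_)) hpos
  generalize p ^ (n + 1) = Q at *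
  generalize p ^ n = m at *
  nlinarith [Nat.mul_le_mul_left Q e2]

end Pool.Agent.Lib.MP_9c5702_nt.AC
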