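import Pool.Agent.Lib.MP_9c5702_nt.AC.EtaCp
import Pool.Agent.Lib.MP_9c5702_nt.AC.StepC

/-! The character sum over an extension of even degree. -/

set_option autoImplicit false

namespace Pool.Agent.Lib.MP_9c5702_nt.AC

open Polynomial Finset Pool.Agent.Shared.Weil

variable {p : ℕ} [Fact p.Prime]

lemma assum_fibres {α : Type} (G : Finset α) (t : α → ZMod p) (U : ℕ)
    (hU : ∀ c, (G.filter fun x => t x = c).card ≤ U) :
    ‖∑ x ∈ G, (ZMod.stdAddChar (t x) : ℂ)‖ ≤ (p : ℝ) * U - G.card := by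
  have h0 : ∑ c : ZMod p, (ZMod.stdAddChar c : ℂ) = 0 := by
    simpa using AddChar.sum_mulShift (1 : ZMod p) (ZMod.isPrimitive_stdAddChar p)
  have h1 : ∑ x ∈ G, (ZMod.stdAddChar (t x) : ℂ) =
      ∑ c : ZMod p, ((G.filter fun x => t x = c).card : ℂ) * ZMod.stdAddChar c := by
    rw [← sum_fiberwise G t]
    refine sum_congr rfl fun c _ => ?_
    rw [sum_congr rfl fun x hx => by rw [(mem_filter.1 hx).2], sum_const, nsmul_eq_mul]
  have h2 : (G.card : ℝ) = ∑ c : ZMod p, ((G.filter fun x => t x = c).card : ℝ) := by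
    rw [card_eq_sum_card_fiberwise (f := t) (t := univ) fun _ _ => mem_coe.2 (mem_univ _)]
    push_cast
    rfl
  have h3 : ∑ x ∈ G, (ZMod.stdAddChar (t x) : ℂ) =
      ∑ c : ZMod p, ((((G.filter fun x => t x = c).card : ℝ) - U : ℝ) : ℂ) *
        ZMod.stdAddChar c := by
    push_cast
    simp only [sub_mul]
    rw [sum_sub_distrib, ← mul_sum, h0, mul_zero, sub_zero, h1]
  rw [h3, h2]
  refine (norm_sum_le _ _).trans (le_of_eq ?_)
  have h4 : ∀ c : ZMod p, ‖((((G.filter fun x => t x = c).card : ℝ) - U : ℝ) : ℂ) *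
      ZMod.stdAddChar c‖ = U - ((G.filter fun x => t x = c).card : ℝ) := fun c => by
    have h5 : (((G.filter fun x => t x = c).card : ℝ)) ≤ U := by exact_mod_cast hU c
    rw [norm_mul, Complex.norm_real, Real.norm_eq_abs, abs_of_nonpos (by linarith),
      ZMod.stdAddChar_apply, Circle.norm_coe]
    ring
  rw [sum_congr rfl fun c _ => h4 c, sum_sub_distrib, sum_const, card_univ, ZMod.card,
    nsmul_eq_mul]

lemma assum_poly {F ι : Type} [Field F] [DecidableEq ι] (S : Finset ι) (hS : S.card ≤ 4)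
    (a c : ι → F) (ha : Function.Injective a) (k0 : F) (x0 : ι) (hx0 : x0 ∈ S) (hc : c x0 ≠ 0) :
    ∃ P R1 : F[X], P.natDegree ≤ 5 ∧ R1.natDegree ≤ 3 ∧ P.eval (a x0) ≠ 0 ∧
      R1.eval (a x0) ≠ 0 ∧ ∀ x : F, (∀ y ∈ S, x ≠ a y) → (x - a x0) * R1.eval x ≠ 0 ∧
        P.eval x / ((x - a x0) * R1.eval x) = ∑ y ∈ S, c y * (x - a y)⁻¹ + k0 * x := by
  have hdeg : ∀ T : Finset ι, (∏ y ∈ T, (X - C (a y))).natDegree = T.card := fun T => by
    rw [natDegree_prod_of_monic _ _ fun y _ => monic_X_sub_C _]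
    simp
  have hev : ∀ (T : Finset ι) (x : F), (∏ y ∈ T, (X - C (a y))).eval x = ∏ y ∈ T, (x - a y) :=
    fun T x => by simp [eval_prod]
  have hR : ∏ y ∈ S.erase x0, (a x0 - a y) ≠ 0 :=
    prod_ne_zero_iff.2 fun y hy => sub_ne_zero.2 fun h => ne_of_mem_erase hy (ha h).symm
  refine ⟨∑ y ∈ S, C (c y) * ∏ y' ∈ S.erase y, (X - C (a y')) +
    C k0 * (X * ∏ y ∈ S, (X - C (a y))), ∏ y ∈ S.erase x0, (X - C (a y)), ?_, ?_, ?_, ?_, ?_⟩
  · refine natDegree_add_le_of_degree_le (natDegree_sum_le_of_forall_le _ _ fun y _ => ?_) ?_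
    · refine (natDegree_C_mul_le _ _).trans ?_
      rw [hdeg]
      exact card_erase_le.trans (by omega)
    · refine (natDegree_C_mul_le _ _).trans (natDegree_mul_le.trans ?_)
      rw [hdeg, natDegree_X]
      omega
  · rw [hdeg, card_erase_of_mem hx0]
    omega
  · rw [eval_add, eval_finsetSum, eval_mul, eval_mul, hev, prod_eq_zero hx0 (sub_self _),
      mul_zero, mul_zero, add_zero, sum_eq_single_of_mem x0 hx0 fun y _ hy => ?_]
    · rw [eval_mul, eval_C, hev]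
      exact mul_ne_zero hc hR
    · rw [eval_mul, hev, prod_eq_zero (mem_erase.2 ⟨hy.symm, hx0⟩) (sub_self _), mul_zero]
  · rw [hev]
    exact hR
  · intro x hx
    have h1 : ∏ y ∈ S, (x - a y) ≠ 0 := prod_ne_zero_iff.2 fun y hy => sub_ne_zero.2 (hx y hy)
    rw [hev, mul_prod_erase S (fun y => x - a y) hx0]
    refine ⟨h1, ?_⟩
    rw [div_eq_iff h1, eval_add, eval_finsetSum, eval_mul, eval_mul, hev, eval_C, eval_X, add_mul,
      sum_mul, mul_assoc]
    congr 1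
    refine sum_congr rfl fun y hy => ?_
    rw [eval_mul, eval_C, hev, ← mul_prod_erase S (fun y => x - a y) hy, mul_assoc,
      inv_mul_cancel_left₀ (sub_ne_zero.2 (hx y hy))]

theorem as_sum (S : Finset (ZMod p)) (hS : S.card ≤ 4) (c : ZMod p → ZMod p) (k0 x0 : ZMod p)
    (hx0 : x0 ∈ S) (hc : c x0 ≠ 0) (k : ℕ) (hk : 3 ≤ k) :
    ‖∑ x : GaloisField p (2 * k), eta4 S c k0 (cp (ZMod p) x)‖ ≤ (12 * p + 4) * (p : ℝ) ^ k := by
  classical
  have hp := (Fact.out : p.Prime)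
  have hr : 2 * k ≠ 0 := by omega
  have h7 : 7 ≤ p ^ k :=
    le_trans (by norm_num) ((Nat.pow_le_pow_left hp.two_le 3).trans
      (Nat.pow_le_pow_right hp.pos hk))
  set ι := algebraMap (ZMod p) (GaloisField p (2 * k)) with hι
  obtain ⟨P, R1, hP, hR, hP0, hR0, hx⟩ := assum_poly S hS ι (fun y => ι (c y)) ι.injective (ι k0)
    x0 hx0 ((_root_.map_ne_zero _).2 hc)
  set G : Finset (GaloisField p (2 * k)) := univ \ S.image ι with hG
  have hmem : ∀ x ∈ G, ∀ y ∈ S, x ≠ ι y := fun x hxG y hy h =>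
    (mem_sdiff.1 hxG).2 (mem_image.2 ⟨y, hy, h.symm⟩)
  set t : GaloisField p (2 * k) → ZMod p := fun x => Algebra.trace (ZMod p) _
    (∑ y ∈ S, ι (c y) * (x - ι y)⁻¹ + ι k0 * x) with ht
  have e1 : ∑ x : GaloisField p (2 * k), eta4 S c k0 (cp (ZMod p) x) =
      ∑ x ∈ G, (ZMod.stdAddChar (t x) : ℂ) := by
    rw [← sum_subset (subset_univ G) fun x _ hxG => (eta4_cp S c k0 x).1 ?_]
    · exact sum_congr rfl fun x hxG => (eta4_cp S c k0 x).2 (hmem x hxG)
    · by_contra h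
      refine hxG (mem_sdiff.2 ⟨mem_univ _, fun h' => h ?_⟩)
      obtain ⟨y, hy, rfl⟩ := mem_image.1 h'
      exact ⟨y, hy, rfl⟩
  have hU : ∀ v, (G.filter fun x => t x = v).card ≤ p ^ (2 * k - 1) + 12 * p ^ k := fun v => by
    refine le_trans (card_le_card fun x hxG => ?_)
      (stepanov_as p k (by omega) (card_gf hr) h7 P R1 (ι x0) (ι v) hP hR hP0 hR0)
    obtain ⟨h1, h2⟩ := mem_filter.1 hxG
    obtain ⟨h3, h4⟩ := hx x (hmem x h1)
    refine mem_filter.2 ⟨mem_univ _, h3, ?_⟩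
    rw [h4, ← h2, ht, hι, FiniteField.algebraMap_trace_eq_sum_pow, GaloisField.finrank p hr,
      Nat.card_zmod]
  have hcard : p ^ (2 * k) ≤ G.card + 4 := by
    have h1 : (S.image ι).card ≤ 4 := card_image_le.trans hS
    have h2 := card_sdiff_add_card_eq_card (subset_univ (S.image ι))
    rw [card_univ, card_gf hr, ← hG] at h2
    omega
  have h1 : (p : ℝ) ^ (2 * k) ≤ G.card + 4 := by exact_mod_cast hcard
  have h2 : (p : ℝ) * (p : ℝ) ^ (2 * k - 1) = (p : ℝ) ^ (2 * k) := by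
    rw [← pow_succ', Nat.sub_add_cancel (by omega)]
  have h3 : (1 : ℝ) ≤ (p : ℝ) ^ k := one_le_pow₀ (by exact_mod_cast hp.one_lt.le)
  rw [e1]
  refine (assum_fibres G t _ hU).trans ?_
  push_cast
  linarith

end Pool.Agent.Lib.MP_9c5702_nt.AC
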