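import Pool.Agent.Lib.MP_9c5702_nt.AC.Defs

/-! The algebra of the parametrisation. -/

set_option autoImplicit false

namespace Pool.Agent.Lib.MP_9c5702_nt.AC

open Finset Pool.Agent.Lib.MP_9c5702_nt.Cube

theorem param_two (a w d z t u v : ℤ) (hc : IsCoprime d w) (h1 : d ∣ z ^ 3 - a * w ^ 3)
    (h2 : d ∣ t * w ^ 2 + u * z * w + v * z ^ 2) : d ∣ a * v * w ^ 2 + t * z * w + u * z ^ 2 := by
  refine hc.dvd_of_dvd_mul_left ?_
  rw [show w * (a * v * w ^ 2 + t * z * w + u * z ^ 2) =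
    z * (t * w ^ 2 + u * z * w + v * z ^ 2) - v * (z ^ 3 - a * w ^ 3) by ring]
  exact dvd_sub (h2.mul_left z) (h1.mul_left v)

theorem param (a w d z t u v : ℤ) (hc : IsCoprime d w) (h1 : d ∣ z ^ 3 - a * w ^ 3)
    (h2 : Rel w d z t u v) :
    ∃ m κ : ℤ, m * d = Nm a t u v ∧ d * κ = -(z * qf a u v + w * Rf a t u v) ∧
      (d ≠ 0 → qf a u v ∣ Cf t u v * κ - v ^ 2 * m * w) ∧
      ∀ e g, Gp a e g w m u v t κ = Dl a e g w d z * (m ^ 2 * qf a u v ^ 2) ^ 2 := by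
  have r1 : d ∣ t * w ^ 2 + u * z * w + v * z ^ 2 := h2
  have r2 : d ∣ a * v * w ^ 2 + t * z * w + u * z ^ 2 := param_two a w d z t u v hc h1 r1
  have r3 : d ∣ a * u * w ^ 2 + a * v * z * w + t * z ^ 2 := param_two a w d z (a * v) t u hc h1 r2
  have e2 : d ∣ z * (u ^ 2 - t * v) - w * (a * v ^ 2 - t * u) := by
    refine hc.dvd_of_dvd_mul_left ?_
    rw [show w * (z * (u ^ 2 - t * v) - w * (a * v ^ 2 - t * u)) =
      u * (t * w ^ 2 + u * z * w + v * z ^ 2) - v * (a * v * w ^ 2 + t * z * w + u * z ^ 2) by ring]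
    exact dvd_sub (r1.mul_left u) (r2.mul_left v)
  have e1 : d ∣ z * (a * v ^ 2 - t * u) - w * (t ^ 2 - a * u * v) := by
    refine hc.dvd_of_dvd_mul_left ?_
    rw [show w * (z * (a * v ^ 2 - t * u) - w * (t ^ 2 - a * u * v)) =
      v * (a * u * w ^ 2 + a * v * z * w + t * z ^ 2) - t * (t * w ^ 2 + u * z * w + v * z ^ 2) by
        ring]
    exact dvd_sub (r3.mul_left v) (r1.mul_left t)
  have en : d ∣ Nm a t u v := by
    refine (hc.pow_right (n := 2)).dvd_of_dvd_mul_left ?_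
    rw [show w ^ 2 * Nm a t u v = (t ^ 2 - a * u * v) * (t * w ^ 2 + u * z * w + v * z ^ 2) +
      (a * v ^ 2 - t * u) * (a * v * w ^ 2 + t * z * w + u * z ^ 2) +
      (u ^ 2 - t * v) * (a * u * w ^ 2 + a * v * z * w + t * z ^ 2) by rw [Nm]; ring]
    exact dvd_add (dvd_add (r1.mul_left _) (r2.mul_left _)) (r3.mul_left _)
  obtain ⟨δ2, hδ2⟩ := e2
  obtain ⟨δ1, hδ1⟩ := e1
  obtain ⟨m, hm⟩ := en
  have hk : d * (v * δ1 - u * δ2) = -(z * qf a u v + w * Rf a t u v) := by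
    rw [qf, Rf]
    linear_combination u * hδ2 - v * hδ1
  refine ⟨m, v * δ1 - u * δ2, by rw [hm, mul_comm], hk, fun hd => ⟨-δ2, ?_⟩, fun e g => ?_⟩
  · refine mul_left_cancel₀ hd ?_
    rw [qf, Rf] at hk
    rw [Nm] at hm
    rw [qf, Cf]
    linear_combination (u ^ 2 - t * v) * hk + v ^ 2 * w * hm - (u ^ 3 - a * v ^ 3) * hδ2
  · have h3 : Nm a t u v * (v * δ1 - u * δ2) + m * w * Rf a t u v = -(m * z * qf a u v) := by
      rw [hm]
      linear_combination m * hk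
    rw [Gp, h3, hm, Dl]
    ring

theorem rel_mul (a w d z t u v l : ℤ) (hc : IsCoprime d w) (h1 : d ∣ z ^ 3 - a * w ^ 3)
    (h2 : Rel w d z t u v) : Rel w d z (l * t + a * v) (l * u + t) (l * v + u) := by
  have r1 : d ∣ t * w ^ 2 + u * z * w + v * z ^ 2 := h2
  have r2 : d ∣ a * v * w ^ 2 + t * z * w + u * z ^ 2 := param_two a w d z t u v hc h1 r1
  rw [Rel, show (l * t + a * v) * w ^ 2 + (l * u + t) * z * w + (l * v + u) * z ^ 2 =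
    l * (t * w ^ 2 + u * z * w + v * z ^ 2) + (a * v * w ^ 2 + t * z * w + u * z ^ 2) by ring]
  exact dvd_add (r1.mul_left l) r2

theorem param_abs3 {A x y z : ℤ} (hx : |x| ≤ A) (hy : |y| ≤ A) (hz : |z| ≤ A) :
    |x * y * z| ≤ A ^ 3 := by
  have h0 : 0 ≤ A := (abs_nonneg x).trans hx
  rw [abs_mul, abs_mul, show A ^ 3 = A * A * A by ring]
  exact mul_le_mul (mul_le_mul hx hy (abs_nonneg _) h0) hz (abs_nonneg _) (mul_nonneg h0 h0)

theorem sizes (a A : ℕ) (ha : 1 ≤ a) (t u v : ℤ) (ht : |t| ≤ A) (hu : |u| ≤ A) (hv : |v| ≤ A) :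
    |qf a u v| ≤ 2 * a * (A : ℤ) ^ 3 ∧ |Rf a t u v| ≤ 4 * a * (A : ℤ) ^ 3 ∧
      |Nm a t u v| ≤ 6 * (a : ℤ) ^ 2 * (A : ℤ) ^ 3 := by
  have ha' : (1 : ℤ) ≤ a := by exact_mod_cast ha
  have key : ∀ (c : ℤ) {x y z : ℤ}, 0 ≤ c → |x| ≤ A → |y| ≤ A → |z| ≤ A →
      -(c * (A : ℤ) ^ 3) ≤ c * (x * y * z) ∧ c * (x * y * z) ≤ c * (A : ℤ) ^ 3 := by
    intro c x y z h0 hx hy hz
    have h := abs_le.1 (param_abs3 hx hy hz)
    exact ⟨by nlinarith [h.1], mul_le_mul_of_nonneg_left h.2 h0⟩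
  have h0 : (0 : ℤ) ≤ a := by positivity
  have hA : (0 : ℤ) ≤ (A : ℤ) ^ 3 := by positivity
  have s1 : (A : ℤ) ^ 3 ≤ a * (A : ℤ) ^ 3 := le_mul_of_one_le_left hA ha'
  have s2 : a * (A : ℤ) ^ 3 ≤ (a : ℤ) ^ 2 * (A : ℤ) ^ 3 :=
    mul_le_mul_of_nonneg_right (by nlinarith) hA
  have uuu := key 1 zero_le_one hu hu hu
  have avvv := key a h0 hv hv hv
  have ttv := key 1 zero_le_one ht ht hv
  have tuu := key 1 zero_le_one ht hu hu
  have auvv := key a h0 hu hv hv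
  have ttt := key 1 zero_le_one ht ht ht
  have auuu := key a h0 hu hu hu
  have aavvv := key ((a : ℤ) ^ 2) (by positivity) hv hv hv
  have atuv := key a h0 ht hu hv
  refine ⟨abs_le.2 ⟨?_, ?_⟩, abs_le.2 ⟨?_, ?_⟩, abs_le.2 ⟨?_, ?_⟩⟩
  · rw [qf]; linarith [uuu.1, avvv.2]
  · rw [qf]; linarith [uuu.2, avvv.1]
  · rw [Rf]; linarith [ttv.1, tuu.1, auvv.2]
  · rw [Rf]; linarith [ttv.2, tuu.2, auvv.1]
  · rw [Nm]; linarith [ttt.1, auuu.1, aavvv.1, atuv.2]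
  · rw [Nm]; linarith [ttt.2, auuu.2, aavvv.2, atuv.1]

theorem qf_ne {a : ℕ} (ha : NC a) (u v : ℤ) (h : u ≠ 0 ∨ v ≠ 0) : qf a u v ≠ 0 := by
  intro h0
  have h1 : u ^ 3 = a * v ^ 3 := by rw [qf] at h0; linarith
  have hv : v ≠ 0 := by
    rintro rfl
    rcases h with h | h
    · exact h (pow_eq_zero_iff (n := 3) (by norm_num) |>.1 (by rw [h1]; ring))
    · exact h rfl
  have h2 : v ^ 3 ∣ u ^ 3 := ⟨a, by rw [h1, mul_comm]⟩
  obtain ⟨k, rfl⟩ := (Int.pow_dvd_pow_iff (by norm_num : 3 ≠ 0)).1 h2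
  have h3 : k ^ 3 = a := mul_left_cancel₀ (pow_ne_zero 3 hv) (by linear_combination h1)
  refine ha k.natAbs ?_
  rw [← Int.natAbs_pow, h3, Int.natAbs_natCast]

theorem nm_ne {a : ℕ} (ha : NC a) (t u v : ℤ) (h : t ≠ 0 ∨ u ≠ 0 ∨ v ≠ 0) : Nm a t u v ≠ 0 := by
  intro h0
  rw [Nm] at h0
  have z : ∀ x y : ℤ, qf a x y = 0 → x = 0 ∧ y = 0 := by
    intro x y hq
    by_contra hn
    exact qf_ne ha x y (by tauto) hq
  obtain ⟨hB, hC⟩ := z (a * v ^ 2 - t * u) (u ^ 2 - t * v) (by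
    rw [qf]
    linear_combination ((a * v ^ 2 - t * u) * v - (u ^ 2 - t * v) * u) * h0)
  obtain ⟨hu, hv⟩ := z u v (by
    rw [qf]
    linear_combination u * hC - v * hB)
  subst hu hv
  have ht : t = 0 := pow_eq_zero_iff (n := 3) (by norm_num) |>.1 (by linear_combination h0)
  rcases h with h | h | h
  · exact h ht
  · exact h rfl
  · exact h rfl

theorem short_vec (d A0 : ℕ) (hd : 1 ≤ d) (h : d < (A0 + 1) ^ 3) (c0 c1 c2 : ℤ) :
    ∃ α : ℤ × ℤ × ℤ, α ≠ 0 ∧ α ∈ box3 A0 ∧ (d : ℤ) ∣ α.1 * c0 + α.2.1 * c1 + α.2.2 * c2 := by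
  have hd' : (0 : ℤ) < d := by exact_mod_cast hd
  have hI : (Icc (0 : ℤ) A0).card = A0 + 1 := by
    rw [Int.card_Icc]
    omega
  obtain ⟨x, hx, y, hy, hne, hxy⟩ := exists_ne_map_eq_of_card_lt_of_maps_to
    (s := Icc (0 : ℤ) A0 ×ˢ Icc (0 : ℤ) A0 ×ˢ Icc (0 : ℤ) A0) (t := Ico (0 : ℤ) d)
    (f := fun α => (α.1 * c0 + α.2.1 * c1 + α.2.2 * c2) % d)
    (by
      rw [card_product, card_product, hI, Int.card_Ico, sub_zero, Int.toNat_natCast]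
      calc d < (A0 + 1) ^ 3 := h
        _ = _ := by ring)
    (fun α _ => by
      simp only [coe_Ico, Set.mem_Ico]
      exact ⟨Int.emod_nonneg _ hd'.ne', Int.emod_lt_of_pos _ hd'⟩)
  simp only [mem_product, mem_Icc] at hx hy
  refine ⟨x - y, sub_ne_zero.2 hne, ?_, ?_⟩
  · rw [mem_box3]
    simp only [Prod.fst_sub, Prod.snd_sub, abs_le]
    omega
  · have h2 : (d : ℤ) ∣ (x.1 * c0 + x.2.1 * c1 + x.2.2 * c2) -
        (y.1 * c0 + y.2.1 * c1 + y.2.2 * c2) := (Int.ModEq.symm hxy).dvd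
    simp only [Prod.fst_sub, Prod.snd_sub]
    rw [show (x.1 - y.1) * c0 + (x.2.1 - y.2.1) * c1 + (x.2.2 - y.2.2) * c2 =
      (x.1 * c0 + x.2.1 * c1 + x.2.2 * c2) - (y.1 * c0 + y.2.1 * c1 + y.2.2 * c2) by ring]
    exact h2

end Pool.Agent.Lib.MP_9c5702_nt.AC
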