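import Pool.Agent.Lib.MP_9c5702_nt.AC.Defs

/-! Primitive points of a plane lattice in a square. -/

set_option autoImplicit false

namespace Pool.Agent.Lib.MP_9c5702_nt.AC

open Finset Pool.Agent.Lib.MP_9c5702_nt.Cube

lemma primlat_one (A m : ℕ) (hA : 1 ≤ A) (hm : 1 ≤ m) (S : Finset (ℤ × ℤ)) (f g : ℤ × ℤ → ℤ)
    (hinj : ∀ x y, f x = f y → g x = g y → x = y)
    (h1 : ∀ x ∈ S, |f x| ≤ g x ∧ g x ≤ A ∧ IsCoprime (f x) (g x))
    (h2 : ∀ x ∈ S, ∀ y ∈ S, (m : ℤ) ∣ f x * g y - f y * g x) :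
    (S.card : ℝ) ≤ 2 * ((A : ℝ) ^ 2 / m) + 2 := by
  have hm' : (0 : ℝ) < m := by exact_mod_cast hm
  have hA' : (0 : ℝ) < A := by exact_mod_cast hA
  have hc : 0 < (A : ℝ) ^ 2 / m := by positivity
  have hg : ∀ x ∈ S, 0 < g x := by
    intro x hx
    obtain ⟨a1, -, a3⟩ := h1 x hx
    refine lt_of_le_of_ne ((abs_nonneg _).trans a1) fun h0 => ?_
    rw [← h0] at a1 a3
    rw [abs_nonpos_iff.1 a1] at a3
    exact not_isCoprime_zero_zero a3
  have key := card_le_card_of_injOn (s := S)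
    (t := Icc ⌊-((A : ℝ) ^ 2 / m)⌋ ⌊(A : ℝ) ^ 2 / m⌋)
    (fun x => ⌊(f x : ℝ) / (g x : ℝ) * ((A : ℝ) ^ 2 / m)⌋) (by
      intro x hx
      have b1 : (0 : ℝ) < g x := by exact_mod_cast hg x hx
      have b2 : |(f x : ℝ)| ≤ g x := by exact_mod_cast (h1 x hx).1
      have b3 : |(f x : ℝ) / (g x : ℝ)| ≤ 1 := by
        rw [abs_div, abs_of_pos b1, div_le_one b1]
        exact b2
      obtain ⟨b4, b5⟩ := abs_le.1 b3
      exact mem_coe.2 (mem_Icc.2 ⟨Int.floor_le_floor (by nlinarith),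
        Int.floor_le_floor (by nlinarith)⟩)) (by
      intro x hx y hy hxy
      have b1 : (0 : ℝ) < g x := by exact_mod_cast hg x hx
      have b2 : (0 : ℝ) < g y := by exact_mod_cast hg y hy
      have b3 : (g x : ℝ) ≤ A := by exact_mod_cast (h1 x hx).2.1
      have b4 : (g y : ℝ) ≤ A := by exact_mod_cast (h1 y hy).2.1
      have b5 := Int.abs_sub_lt_one_of_floor_eq_floor hxy
      have b6 : (f x : ℝ) / (g x : ℝ) * ((A : ℝ) ^ 2 / m) -
          (f y : ℝ) / (g y : ℝ) * ((A : ℝ) ^ 2 / m) =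
          ((f x * g y - f y * g x : ℤ) : ℝ) * ((A : ℝ) ^ 2 / (g x * g y * m)) := by
        push_cast
        field_simp
      have b7 : (0 : ℝ) < g x * g y * m := by positivity
      rw [b6, abs_mul, abs_of_pos (by positivity : (0 : ℝ) < (A : ℝ) ^ 2 / (g x * g y * m)),
        ← mul_div_assoc, div_lt_one b7] at b5
      have b8 : (g x : ℝ) * g y ≤ (A : ℝ) ^ 2 := by nlinarith
      have b9 : |((f x * g y - f y * g x : ℤ) : ℝ)| < m := by
        refine lt_of_mul_lt_mul_right (b5.trans_le ?_) (sq_nonneg (A : ℝ))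
        rw [mul_comm (m : ℝ)]
        exact mul_le_mul_of_nonneg_right b8 hm'.le
      have c1 : f x * g y - f y * g x = 0 :=
        Int.eq_zero_of_abs_lt_dvd (h2 x hx y hy) (by exact_mod_cast b9)
      have c2 : g x ∣ g y := (h1 x hx).2.2.symm.dvd_of_dvd_mul_left ⟨f y, by linarith⟩
      have c3 : g y ∣ g x := (h1 y hy).2.2.symm.dvd_of_dvd_mul_left ⟨f x, by linarith⟩
      have c4 : g x = g y := Int.dvd_antisymm (hg x hx).le (hg y hy).le c2 c3
      refine hinj x y (mul_right_cancel₀ (hg y hy).ne' ?_) c4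
      rw [c4] at c1
      linarith)
  have d1 := Int.floor_le ((A : ℝ) ^ 2 / m)
  have d2 := Int.lt_floor_add_one (-((A : ℝ) ^ 2 / m))
  have d3 : ⌊-((A : ℝ) ^ 2 / m)⌋ ≤ ⌊(A : ℝ) ^ 2 / m⌋ + 1 :=
    (Int.floor_le_floor (neg_le_self hc.le)).trans (Int.le_add_one le_rfl)
  have d4 : (S.card : ℤ) ≤ ⌊(A : ℝ) ^ 2 / m⌋ + 1 - ⌊-((A : ℝ) ^ 2 / m)⌋ := by
    rw [← Int.card_Icc_of_le _ _ d3]
    exact_mod_cast key
  have d5 : (S.card : ℝ) ≤ (⌊(A : ℝ) ^ 2 / m⌋ : ℝ) + 1 - (⌊-((A : ℝ) ^ 2 / m)⌋ : ℝ) := by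
    exact_mod_cast d4
  linarith

theorem prim_lattice (A m : ℕ) (hA : 1 ≤ A) (hm : 1 ≤ m) (ρ : ℤ) (S : Finset (ℤ × ℤ))
    (hS : ∀ x ∈ S, x ∈ box2 A ∧ IsCoprime x.1 x.2 ∧ (m : ℤ) ∣ x.1 - ρ * x.2) :
    (S.card : ℝ) ≤ 8 * (A : ℝ) ^ 2 / m + 8 := by
  have hb : ∀ x ∈ S, |x.1| ≤ A ∧ |x.2| ≤ A := fun x hx => mem_box2.1 (hS x hx).1
  have hd : ∀ x ∈ S, ∀ y ∈ S, (m : ℤ) ∣ x.1 * y.2 - y.1 * x.2 := by
    intro x hx y hy
    have := dvd_sub ((hS x hx).2.2.mul_right y.2) ((hS y hy).2.2.mul_right x.2)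
    rwa [show (x.1 - ρ * x.2) * y.2 - (y.1 - ρ * y.2) * x.2 = x.1 * y.2 - y.1 * x.2 by ring] at this
  have r1 := primlat_one A m hA hm (S.filter fun x => |x.1| ≤ x.2) (fun x => x.1) (fun x => x.2)
    (fun x y a b => Prod.ext a b)
    (fun x hx => ⟨(mem_filter.1 hx).2, (abs_le.1 (hb x (mem_filter.1 hx).1).2).2,
      (hS x (mem_filter.1 hx).1).2.1⟩)
    (fun x hx y hy => hd x (mem_filter.1 hx).1 y (mem_filter.1 hy).1)
  have r2 := primlat_one A m hA hm (S.filter fun x => |x.1| ≤ -x.2) (fun x => x.1) (fun x => -x.2)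
    (fun x y a b => Prod.ext a (neg_injective b))
    (fun x hx => ⟨(mem_filter.1 hx).2, neg_le.1 (abs_le.1 (hb x (mem_filter.1 hx).1).2).1,
      (hS x (mem_filter.1 hx).1).2.1.neg_right⟩)
    (fun x hx y hy => by
      have := hd y (mem_filter.1 hy).1 x (mem_filter.1 hx).1
      rwa [show y.1 * x.2 - x.1 * y.2 = x.1 * -y.2 - y.1 * -x.2 by ring] at this)
  have r3 := primlat_one A m hA hm (S.filter fun x => |x.2| ≤ x.1) (fun x => x.2) (fun x => x.1)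
    (fun x y a b => Prod.ext b a)
    (fun x hx => ⟨(mem_filter.1 hx).2, (abs_le.1 (hb x (mem_filter.1 hx).1).1).2,
      (hS x (mem_filter.1 hx).1).2.1.symm⟩)
    (fun x hx y hy => by
      have := hd y (mem_filter.1 hy).1 x (mem_filter.1 hx).1
      rwa [show y.1 * x.2 - x.1 * y.2 = x.2 * y.1 - y.2 * x.1 by ring] at this)
  have r4 := primlat_one A m hA hm (S.filter fun x => |x.2| ≤ -x.1) (fun x => x.2) (fun x => -x.1)
    (fun x y a b => Prod.ext (neg_injective b) a)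
    (fun x hx => ⟨(mem_filter.1 hx).2, neg_le.1 (abs_le.1 (hb x (mem_filter.1 hx).1).1).1,
      (hS x (mem_filter.1 hx).1).2.1.symm.neg_right⟩)
    (fun x hx y hy => by
      have := hd x (mem_filter.1 hx).1 y (mem_filter.1 hy).1
      rwa [show x.1 * y.2 - y.1 * x.2 = x.2 * -y.1 - y.2 * -x.1 by ring] at this)
  have hsub : S ⊆ (S.filter fun x => |x.1| ≤ x.2) ∪ (S.filter fun x => |x.1| ≤ -x.2) ∪
      (S.filter fun x => |x.2| ≤ x.1) ∪ (S.filter fun x => |x.2| ≤ -x.1) := by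
    intro x hx
    simp only [mem_union, mem_filter, hx, true_and, abs_le]
    omega
  have hc := (card_le_card hsub).trans ((card_union_le _ _).trans (Nat.add_le_add_right
    ((card_union_le _ _).trans (Nat.add_le_add_right (card_union_le _ _) _)) _))
  have hc' := (Nat.cast_le (α := ℝ)).2 hc
  push_cast at hc'
  rw [mul_div_assoc]
  linarith

end Pool.Agent.Lib.MP_9c5702_nt.AC
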