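import Pool.Agent.Lib.MP_9c5702_nt.AC.Roots
import Pool.Agent.Lib.MP_9c5702_nt.AC.PrimLat
import Pool.Agent.Lib.MP_9c5702_nt.AC.Param

/-! Values of the cubic form with a large square divisor. -/

set_option autoImplicit false

namespace Pool.Agent.Lib.MP_9c5702_nt.AC

open Finset Pool.Agent.Lib.MP_9c5702_nt.Cube

theorem bsq_sum (n m : ℕ) (hn : 1 ≤ n) : ∑ i ∈ Ioc n m, ((i : ℝ) ^ 2)⁻¹ ≤ (n : ℝ)⁻¹ := by
  rcases le_total n m with h | h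
  · exact (sum_Ioc_inv_sq_le_sub (by omega) h).trans (sub_le_self _ (by positivity))
  · rw [Ioc_eq_empty (by omega), sum_empty]
    positivity

theorem bsq_root (a m : ℕ) (hm : 1 ≤ m) (u v : ℤ) (hc : IsCoprime u v) (h : (m : ℤ) ∣ qf a u v) :
    ∃ z : ℕ, z < m ∧ (m : ℤ) ∣ (z : ℤ) ^ 3 - a * ((1 : ℕ) : ℤ) ^ 3 ∧ (m : ℤ) ∣ u - z * v := by
  obtain ⟨c, hq⟩ := h
  rw [qf] at hq
  have h1 : IsCoprime v ((m : ℤ) * c) := by
    have := (hc.symm.pow_right (n := 3)).add_mul_left_right (-(a * v ^ 2))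
    rwa [show u ^ 3 + v * -(a * v ^ 2) = m * c by rw [← hq]; ring] at this
  obtain ⟨y, j, hj⟩ := exists_inv h1.of_mul_right_left
  have hm' : (0 : ℤ) < m := by exact_mod_cast hm
  obtain ⟨z, hz⟩ := Int.eq_ofNat_of_zero_le (Int.emod_nonneg (u * y) hm'.ne')
  have hlt := Int.emod_lt_of_pos (u * y) hm'
  have he := Int.emod_add_mul_ediv (u * y) m
  rw [hz] at hlt he
  set k := u * y / m
  have e : (z : ℤ) = u * y - m * k := by linarith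
  have e2 : v * y = 1 + m * j := by linarith
  refine ⟨z, by exact_mod_cast hlt, ?_, ⟨k * v - u * j, ?_⟩⟩
  · have d1 : (m : ℤ) ∣ (z : ℤ) ^ 3 - (u * y) ^ 3 :=
      (Dvd.intro (-k) (by rw [e]; ring)).trans (sub_dvd_pow_sub_pow _ _ 3)
    have d2 : (m : ℤ) ∣ (v * y) ^ 3 - 1 ^ 3 :=
      (Dvd.intro j (by rw [e2]; ring)).trans (sub_dvd_pow_sub_pow _ _ 3)
    have d3 : (m : ℤ) ∣ (u ^ 3 - a * v ^ 3) * y ^ 3 := Dvd.dvd.mul_right ⟨c, hq⟩ _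
    have := dvd_add (dvd_add d1 d3) (d2.mul_left a)
    rwa [show (z : ℤ) ^ 3 - (u * y) ^ 3 + (u ^ 3 - a * v ^ 3) * y ^ 3 + a * ((v * y) ^ 3 - 1 ^ 3) =
      (z : ℤ) ^ 3 - a * ((1 : ℕ) : ℤ) ^ 3 by push_cast; ring] at this
  · rw [e]
    linear_combination (-u) * e2

theorem bsq_prim (a T X A W Dm : ℕ) (hDB : DB T X) (ha : NC a) (hA : 1 ≤ A) (hW : 1 ≤ W)
    (hX : 2 * a * A ^ 3 ≤ X) (hD : 2 * a * A ^ 3 ≤ Dm ^ 2) (P : Finset (ℤ × ℤ))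
    (hP : ∀ x ∈ P, x ∈ box2 A ∧ IsCoprime x.1 x.2 ∧
      ∃ E : ℕ, W < E ∧ (E : ℤ) ^ 2 ∣ qf a x.1 x.2) :
    (P.card : ℝ) ≤ 9 * (a : ℝ) ^ 2 * (T : ℝ) ^ 2 * (8 * (A : ℝ) ^ 2 / W + 8 * Dm) := by
  classical
  set I := (Ioc W Dm).filter fun E => E ^ 2 ≤ X with hI
  set R : ℕ → Finset ℕ := fun E => (range (E ^ 2)).filter fun z : ℕ =>
    ((E ^ 2 : ℕ) : ℤ) ∣ (z : ℤ) ^ 3 - a * ((1 : ℕ) : ℤ) ^ 3 with hR
  set L : ℕ → ℕ → Finset (ℤ × ℤ) := fun E z =>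
    P.filter fun x => ((E ^ 2 : ℕ) : ℤ) ∣ x.1 - (z : ℤ) * x.2 with hL
  have hsub : P ⊆ I.biUnion fun E => (R E).biUnion (L E) := by
    intro x hx
    obtain ⟨hb, hc, E, hE, hq⟩ := hP x hx
    obtain ⟨b1, b2⟩ := mem_box2.1 hb
    have hne : qf a x.1 x.2 ≠ 0 := qf_ne ha _ _ (by
      by_contra hn
      push Not at hn
      rw [hn.1, hn.2] at hc
      exact not_isCoprime_zero_zero hc)
    have h1 : (E : ℤ) ^ 2 ≤ 2 * a * (A : ℤ) ^ 3 :=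
      (Int.le_of_dvd (abs_pos.2 hne) ((dvd_abs _ _).2 hq)).trans
        (sizes a A ha.pos 0 _ _ (by simp) b1 b2).1
    have h2 : E ^ 2 ≤ 2 * a * A ^ 3 := by exact_mod_cast h1
    have h3 : E ≤ Dm := by
      by_contra hn
      have := Nat.pow_lt_pow_left (not_le.1 hn) (n := 2) (by norm_num)
      omega
    obtain ⟨z, z1, z2, z3⟩ := bsq_root a (E ^ 2) (Nat.one_le_pow _ _ (by omega)) x.1 x.2 hc
      (by exact_mod_cast hq)
    exact mem_biUnion.2 ⟨E, mem_filter.2 ⟨mem_Ioc.2 ⟨hE, h3⟩, h2.trans hX⟩,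
      mem_biUnion.2 ⟨z, mem_filter.2 ⟨mem_range.2 z1, z2⟩, mem_filter.2 ⟨hx, z3⟩⟩⟩
  have h1 : ∀ E ∈ I, (((R E).biUnion (L E)).card : ℝ) ≤
      9 * (a : ℝ) ^ 2 * (T : ℝ) ^ 2 * (8 * (A : ℝ) ^ 2 * ((E : ℝ) ^ 2)⁻¹ + 8) := by
    intro E hE
    obtain ⟨e1, e2⟩ := mem_filter.1 hE
    have e3 : 1 ≤ E ^ 2 := Nat.one_le_pow _ _ (by have := (mem_Ioc.1 e1).1; omega)
    have r1 : (R E).card ≤ 9 * a ^ 2 * T ^ 2 :=
      (roots_cube a 1 (E ^ 2) ha.pos e3 (Nat.coprime_one_right _)).trans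
        (Nat.mul_le_mul_left _ (Nat.pow_le_pow_left (hDB _ e3 e2) 2))
    have r2 : ((R E).card : ℝ) ≤ 9 * (a : ℝ) ^ 2 * (T : ℝ) ^ 2 := by exact_mod_cast r1
    have r3 : ∀ z ∈ R E, ((L E z).card : ℝ) ≤ 8 * (A : ℝ) ^ 2 * ((E : ℝ) ^ 2)⁻¹ + 8 := by
      intro z _
      have := prim_lattice A (E ^ 2) hA e3 z (L E z) fun x hx =>
        ⟨(hP x (mem_filter.1 hx).1).1, (hP x (mem_filter.1 hx).1).2.1, (mem_filter.1 hx).2⟩
      rwa [Nat.cast_pow, div_eq_mul_inv] at this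
    calc (((R E).biUnion (L E)).card : ℝ) ≤ ∑ z ∈ R E, ((L E z).card : ℝ) := by
          exact_mod_cast card_biUnion_le
      _ ≤ (R E).card • (8 * (A : ℝ) ^ 2 * ((E : ℝ) ^ 2)⁻¹ + 8) := sum_le_card_nsmul _ _ _ r3
      _ ≤ _ := by
          rw [nsmul_eq_mul]
          exact mul_le_mul_of_nonneg_right r2 (by positivity)
  have h2 : ∑ E ∈ Ioc W Dm, (8 * (A : ℝ) ^ 2 * ((E : ℝ) ^ 2)⁻¹ + 8) ≤
      8 * (A : ℝ) ^ 2 / W + 8 * Dm := by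
    rw [sum_add_distrib, ← mul_sum, sum_const, Nat.card_Ioc, nsmul_eq_mul, div_eq_mul_inv]
    have s1 := mul_le_mul_of_nonneg_left (bsq_sum W Dm hW) (show 0 ≤ 8 * (A : ℝ) ^ 2 by positivity)
    have s2 : ((Dm - W : ℕ) : ℝ) ≤ Dm := by exact_mod_cast Nat.sub_le _ _
    linarith
  calc (P.card : ℝ) ≤ ((I.biUnion fun E => (R E).biUnion (L E)).card : ℝ) := by
        exact_mod_cast card_le_card hsub
    _ ≤ ∑ E ∈ I, (((R E).biUnion (L E)).card : ℝ) := by exact_mod_cast card_biUnion_le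
    _ ≤ ∑ E ∈ I, 9 * (a : ℝ) ^ 2 * (T : ℝ) ^ 2 * (8 * (A : ℝ) ^ 2 * ((E : ℝ) ^ 2)⁻¹ + 8) :=
        sum_le_sum h1
    _ ≤ ∑ E ∈ Ioc W Dm, 9 * (a : ℝ) ^ 2 * (T : ℝ) ^ 2 *
          (8 * (A : ℝ) ^ 2 * ((E : ℝ) ^ 2)⁻¹ + 8) :=
        sum_le_sum_of_subset_of_nonneg (filter_subset _ _) fun _ _ _ => by positivity
    _ ≤ _ := by
        rw [← mul_sum]
        exact mul_le_mul_of_nonneg_left h2 (by positivity)

theorem bsq_red (h D V : ℕ) (q : ℤ) (h1 : 1 ≤ h) (hV : h ≤ V) (hD : V ^ 4 < D)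
    (hq : (D : ℤ) ^ 2 ∣ (h : ℤ) ^ 3 * q) : ∃ E : ℕ, V ^ 2 < E ∧ (E : ℤ) ^ 2 ∣ q := by
  have hg : 0 < Nat.gcd D (h ^ 2) := Nat.gcd_pos_of_pos_right _ (by positivity)
  obtain ⟨E, k, hc, e1, e2⟩ := Nat.exists_coprime D (h ^ 2)
  set g := Nat.gcd D (h ^ 2)
  have g1 : g ≤ V ^ 2 :=
    (Nat.le_of_dvd (by positivity) (Nat.gcd_dvd_right D (h ^ 2))).trans (Nat.pow_le_pow_left hV 2)
  refine ⟨E, ?_, ?_⟩
  · by_contra hn
    have := Nat.mul_le_mul (not_lt.1 hn) g1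
    rw [← e1, ← pow_add] at this
    exact absurd hD (not_lt.2 this)
  · have a1 : (D : ℤ) = E * g := by exact_mod_cast e1
    have a2 : (h : ℤ) ^ 2 = k * g := by exact_mod_cast e2
    have a3 : (g : ℤ) ^ 2 * (E : ℤ) ^ 2 ∣ (g : ℤ) ^ 2 * ((k : ℤ) ^ 2 * q) := by
      have := hq.mul_left (h : ℤ)
      rwa [show (h : ℤ) * ((h : ℤ) ^ 3 * q) = ((h : ℤ) ^ 2) ^ 2 * q by ring, a2, a1,
        show ((E : ℤ) * g) ^ 2 = (g : ℤ) ^ 2 * (E : ℤ) ^ 2 by ring,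
        show ((k : ℤ) * g) ^ 2 * q = (g : ℤ) ^ 2 * ((k : ℤ) ^ 2 * q) by ring] at this
    have a4 := (mul_dvd_mul_iff_left (by positivity)).1 a3
    exact (Nat.isCoprime_iff_coprime.2 hc).pow.dvd_of_dvd_mul_left a4

theorem bad_sq (a T X A V Dm : ℕ) (hDB : DB T X) (ha : NC a) (hA : 1 ≤ A) (hV : 1 ≤ V)
    (hX : 2 * a * A ^ 3 ≤ X) (hD : 2 * a * A ^ 3 ≤ Dm ^ 2) (S : Finset (ℤ × ℤ))
    (hS : ∀ x ∈ S, x ∈ box2 A ∧ ∃ D : ℕ, V ^ 4 < D ∧ (D : ℤ) ^ 2 ∣ qf a x.1 x.2) :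
    (S.card : ℝ) ≤ 1 + 9 * (A : ℝ) ^ 2 / V +
      9 * (a : ℝ) ^ 2 * (T : ℝ) ^ 2 * (8 * (A : ℝ) ^ 2 / V + 8 * V * Dm) := by
  classical
  set P := (box2 A).filter fun x => IsCoprime x.1 x.2 ∧
    ∃ E : ℕ, V ^ 2 < E ∧ (E : ℤ) ^ 2 ∣ qf a x.1 x.2 with hP
  set f : ℕ → ℤ × ℤ → ℤ × ℤ := fun h x => (x.1 * h, x.2 * h) with hf
  set B1 := (Ioc V A).biUnion fun h => (box2 (A / h)).image (f h) with hB1
  set B2 := (Icc 1 V).biUnion fun h => P.image (f h) with hB2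
  have hsub : S ⊆ insert 0 (B1 ∪ B2) := by
    rintro ⟨u, v⟩ hx
    obtain ⟨hb, D, hD1, hD2⟩ := hS _ hx
    obtain ⟨b1, b2⟩ := mem_box2.1 hb
    simp only at b1 b2 hD2
    rcases Nat.eq_zero_or_pos (Int.gcd u v) with h0 | h0
    · obtain ⟨rfl, rfl⟩ := Int.gcd_eq_zero_iff.1 h0
      exact mem_insert_self _ _
    refine mem_insert_of_mem ?_
    obtain ⟨u', v', hc, e1, e2⟩ := Int.exists_gcd_one h0
    generalize Int.gcd u v = h at h0 e1 e2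
    subst e1 e2
    have hh : (0 : ℤ) < h := by exact_mod_cast h0
    rw [abs_mul, abs_of_pos hh] at b1 b2
    have hd : ∀ y : ℤ, |y| * h ≤ A → |y| ≤ ((A / h : ℕ) : ℤ) := fun y hy => by
      rw [Int.natCast_div]
      exact Int.le_ediv_of_mul_le hh hy
    by_cases hV' : V < h
    · have hA' : h ≤ A := by
        have : 1 ≤ |u'| ∨ 1 ≤ |v'| := by
          by_contra hn
          push Not at hn
          rw [Int.abs_lt_one_iff.1 hn.1, Int.abs_lt_one_iff.1 hn.2] at hc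
          simp at hc
        have : (h : ℤ) ≤ A := by rcases this with t | t <;> nlinarith
        exact_mod_cast this
      exact mem_union_left _ (mem_biUnion.2 ⟨h, mem_Ioc.2 ⟨hV', hA'⟩,
        mem_image.2 ⟨(u', v'), mem_box2.2 ⟨hd _ b1, hd _ b2⟩, rfl⟩⟩)
    · refine mem_union_right _ (mem_biUnion.2 ⟨h, mem_Icc.2 ⟨h0, not_lt.1 hV'⟩,
        mem_image.2 ⟨(u', v'), mem_filter.2 ⟨mem_box2.2 ⟨?_, ?_⟩,
          Int.isCoprime_iff_gcd_eq_one.2 hc, bsq_red h D V _ h0 (not_lt.1 hV') hD1 ?_⟩, rfl⟩⟩)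
      · nlinarith [abs_nonneg u']
      · nlinarith [abs_nonneg v']
      · rwa [show qf a (u' * h) (v' * h) = (h : ℤ) ^ 3 * qf a u' v' by simp only [qf]; ring] at hD2
  have V0 : (0 : ℝ) < V := by exact_mod_cast hV
  have c1 : (B1.card : ℝ) ≤ 9 * (A : ℝ) ^ 2 / V := by
    have t : ∀ h ∈ Ioc V A, (((box2 (A / h)).image (f h)).card : ℝ) ≤
        9 * (A : ℝ) ^ 2 * ((h : ℝ) ^ 2)⁻¹ := by
      intro h hh
      obtain ⟨h1, h2⟩ := mem_Ioc.1 hh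
      have h0 : (0 : ℝ) < h := by exact_mod_cast (by omega : 0 < h)
      have h3 : 1 ≤ A / h := (Nat.one_le_div_iff (by omega)).2 h2
      have h4 : ((box2 (A / h)).image (f h)).card ≤ (3 * (A / h)) ^ 2 :=
        card_image_le.trans (by rw [card_box2]; exact Nat.pow_le_pow_left (by omega) 2)
      have h5 : (((box2 (A / h)).image (f h)).card : ℝ) ≤ (3 * ((A / h : ℕ) : ℝ)) ^ 2 := by
        exact_mod_cast h4
      refine h5.trans ?_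
      calc (3 * ((A / h : ℕ) : ℝ)) ^ 2 ≤ (3 * ((A : ℝ) / h)) ^ 2 := by
            gcongr
            exact Nat.cast_div_le
        _ = _ := by field_simp; ring
    calc (B1.card : ℝ) ≤ ∑ h ∈ Ioc V A, (((box2 (A / h)).image (f h)).card : ℝ) := by
          exact_mod_cast card_biUnion_le
      _ ≤ ∑ h ∈ Ioc V A, 9 * (A : ℝ) ^ 2 * ((h : ℝ) ^ 2)⁻¹ := sum_le_sum t
      _ ≤ _ := by
          rw [← mul_sum, div_eq_mul_inv]
          exact mul_le_mul_of_nonneg_left (bsq_sum V A hV) (by positivity)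
  have c2 : (B2.card : ℝ) ≤ V * P.card := by
    have : B2.card ≤ V * P.card := by
      refine card_biUnion_le.trans ((sum_le_card_nsmul _ _ P.card fun _ _ => card_image_le).trans ?_)
      simp
    exact_mod_cast this
  have c3 := bsq_prim a T X A (V ^ 2) Dm hDB ha hA (Nat.one_le_pow _ _ hV) hX hD P
    fun x hx => mem_filter.1 hx
  have c4 : (S.card : ℝ) ≤ B1.card + B2.card + 1 := by
    exact_mod_cast (card_le_card hsub).trans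
      ((card_insert_le _ _).trans (Nat.succ_le_succ (card_union_le _ _)))
  have c5 := mul_le_mul_of_nonneg_left c3 V0.le
  have c6 : (V : ℝ) * (9 * (a : ℝ) ^ 2 * (T : ℝ) ^ 2 * (8 * (A : ℝ) ^ 2 / ((V ^ 2 : ℕ) : ℝ) + 8 * Dm))
      = 9 * (a : ℝ) ^ 2 * (T : ℝ) ^ 2 * (8 * (A : ℝ) ^ 2 / V + 8 * V * Dm) := by
    push_cast
    field_simp
  linarith

end Pool.Agent.Lib.MP_9c5702_nt.AC
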