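import Pool.Agent.Lib.MP_9c5702_nt.AC.Defs

/-! Small values of the cubic form and values with a large common factor. -/

set_option autoImplicit false

namespace Pool.Agent.Lib.MP_9c5702_nt.AC

open Finset Pool.Agent.Lib.MP_9c5702_nt.Cube

lemma badw_one {g : ℕ} (hg : Squarefree g) (c : ℤ) (A : ℕ) :
    (((Iv A).filter fun u => (g : ℤ) ∣ u ^ 3 - c).card : ℝ) ≤
      ((2 * A + 1) / g + 1) * (g.divisors.card : ℝ) ^ 2 := by
  have hg0 : 0 < g := Nat.pos_of_ne_zero hg.ne_zero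
  have hp : Function.Periodic (fun u : ℤ => if (g : ℤ) ∣ u ^ 3 - c then (1 : ℝ) else 0) g := by
    intro u
    have : (g : ℤ) ∣ (u + g) ^ 3 - c ↔ (g : ℤ) ∣ u ^ 3 - c := by
      rw [show (u + g) ^ 3 - c = u ^ 3 - c + g * (3 * u ^ 2 + 3 * u * g + g ^ 2) by ring]
      exact dvd_add_left (dvd_mul_right _ _)
    simp only [this]
  have h1 := sum_le_periods hg0 _ hp (fun x => by positivity) (-(A : ℤ)) (2 * A + 1)
  rw [sum_boole, sum_boole] at h1
  have hm : (Polynomial.X ^ 3 - Polynomial.C c).Monic := Polynomial.monic_X_pow_sub_C c (by norm_num)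
  have h2 := card_roots_sqfree hg (Polynomial.X ^ 3 - Polynomial.C c) (D := 3) (by norm_num)
    (Polynomial.natDegree_X_pow_sub_C).le 1 fun p hp _ _ => by
      have : Fact p.Prime := ⟨hp⟩
      exact (hm.map _).ne_zero
  simp only [Polynomial.eval_sub, Polynomial.eval_pow, Polynomial.eval_X, Polynomial.eval_C,
    Int.gcd_one_right, mul_one] at h2
  have h3 : 3 ^ g.primeFactors.card ≤ g.divisors.card ^ 2 :=
    calc 3 ^ g.primeFactors.card ≤ (2 ^ 2) ^ g.primeFactors.card :=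
          Nat.pow_le_pow_left (by norm_num) _
      _ = (2 ^ g.primeFactors.card) ^ 2 := by rw [← pow_mul, ← pow_mul, mul_comm]
      _ ≤ _ := Nat.pow_le_pow_left (Q4.omega_le g hg.ne_zero) 2
  push_cast at h1
  refine le_trans (by simpa only [Iv, Nat.cast_add, Nat.cast_mul, Nat.cast_ofNat, Nat.cast_one]
    using h1) (mul_le_mul_of_nonneg_left ?_ (by positivity))
  exact_mod_cast h2.trans h3

lemma badw_fiber {V N : ℕ} (hV : 1 ≤ V) (c : ℤ) (F : Finset ℤ)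
    (hF : ∀ u ∈ F, (V : ℤ) ^ 3 * |u ^ 3 - c| < (N : ℤ) ^ 3) : F.card ≤ 2 * N / V + 1 := by
  rcases F.eq_empty_or_nonempty with rfl | hne
  · simp
  have h1 := hF _ (F.min'_mem hne)
  have h2 := hF _ (F.max'_mem hne)
  have h3 : F ⊆ Icc (F.min' hne) (F.max' hne) := fun u hu =>
    mem_Icc.2 ⟨F.min'_le u hu, F.le_max' u hu⟩
  have h4 := F.min'_le_max' hne
  generalize F.min' hne = x at *
  generalize F.max' hne = y at *
  obtain ⟨k, rfl⟩ : ∃ k : ℕ, y = x + k := ⟨(y - x).toNat, by omega⟩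
  have hV3 : (0 : ℤ) ≤ (V : ℤ) ^ 3 := by positivity
  have h5 : (k : ℤ) ^ 3 ≤ 4 * (|(x + k) ^ 3 - c| + |x ^ 3 - c|) := by
    have e1 := le_abs_self ((x + k) ^ 3 - c)
    have e2 := neg_abs_le (x ^ 3 - c)
    have e3 : (0 : ℤ) ≤ k * (2 * x + k) ^ 2 := by positivity
    nlinarith
  have h6 : ((k : ℤ) * V) ^ 3 < (2 * N) ^ 3 := by
    have := mul_le_mul_of_nonneg_left h5 hV3
    nlinarith
  have h7 : (k : ℤ) * V < 2 * N := lt_of_pow_lt_pow_left₀ 3 (by positivity) h6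
  have h8 : k ≤ 2 * N / V := (Nat.le_div_iff_mul_le hV).2 (by exact_mod_cast h7.le)
  have h9 := card_le_card h3
  rw [Int.card_Icc] at h9
  omega

theorem bad_w (a w T X A V : ℕ) (hDB : DB T X) (hw1 : 1 ≤ w) (hw : w ≤ X) (hV : 1 ≤ V)
    (S : Finset (ℤ × ℤ))
    (hS : ∀ x ∈ S, x ∈ box2 A ∧
      ∃ g : ℕ, Squarefree g ∧ g ∣ w ∧ V < g ∧ (g : ℤ) ∣ qf a x.1 x.2) :
    (S.card : ℝ) ≤ (T : ℝ) ^ 3 * (2 * A + 1) * ((2 * A + 1) / V + 1) := by
  classical
  let D := w.divisors.filter fun g => Squarefree g ∧ V < g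
  have h1 : S ⊆ (D ×ˢ Iv A).biUnion fun y =>
      ((Iv A).filter fun u => (y.1 : ℤ) ∣ u ^ 3 - a * y.2 ^ 3).image fun u => (u, y.2) := by
    intro x hx
    obtain ⟨hb, g, h2, h3, h4, h5⟩ := hS x hx
    rw [box2, mem_product] at hb
    refine mem_biUnion.2 ⟨(g, x.2), mem_product.2 ⟨mem_filter.2
      ⟨Nat.mem_divisors.2 ⟨h3, by omega⟩, h2, h4⟩, hb.2⟩, ?_⟩
    exact mem_image.2 ⟨x.1, mem_filter.2 ⟨hb.1, h5⟩, rfl⟩
  have h2 := (card_le_card h1).trans card_biUnion_le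
  have h3 : (S.card : ℝ) ≤ ∑ y ∈ D ×ˢ Iv A, ((2 * (A : ℝ) + 1) / V + 1) * (T : ℝ) ^ 2 := by
    refine le_trans (Nat.cast_le.2 h2) ((Nat.cast_sum _ _).le.trans (sum_le_sum fun y hy => ?_))
    obtain ⟨h4, h5, h6⟩ := mem_filter.1 (mem_product.1 hy).1
    have h7 : y.1 ≤ w := Nat.divisor_le h4
    have h8 : (y.1.divisors.card : ℝ) ≤ T := by exact_mod_cast hDB y.1 (by omega) (by omega)
    have h9 : (V : ℝ) ≤ y.1 := by exact_mod_cast h6.le
    have h10 : (0 : ℝ) < V := by exact_mod_cast hV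
    refine le_trans (Nat.cast_le.2 card_image_le) ((badw_one h5 _ A).trans ?_)
    gcongr
  have h4 : (D.card : ℝ) ≤ T := by
    exact_mod_cast (card_filter_le _ _).trans (hDB w hw1 hw)
  rw [sum_const, card_product, card_Iv, nsmul_eq_mul] at h3
  push_cast at h3
  refine h3.trans ?_
  calc _ ≤ (T : ℝ) * (2 * A + 1) * (((2 * (A : ℝ) + 1) / V + 1) * (T : ℝ) ^ 2) := by gcongr
    _ = _ := by ring

theorem bad_small (a A V N : ℕ) (hV : 1 ≤ V) (S : Finset (ℤ × ℤ))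
    (hS : ∀ x ∈ S, x ∈ box2 A ∧ (V : ℤ) ^ 3 * |qf a x.1 x.2| < (N : ℤ) ^ 3) :
    (S.card : ℝ) ≤ (2 * A + 1) * (2 * N / V + 1) := by
  have h1 : S.card ≤ (2 * N / V + 1) * (Iv A).card := by
    refine card_le_mul_card_image_of_maps_to (f := Prod.snd)
      (fun x hx => (mem_product.1 (hS x hx).1).2) _ fun v _ => ?_
    rw [← card_image_of_injOn (f := Prod.fst) fun x hx y hy h =>
      Prod.ext h ((mem_filter.1 hx).2.trans (mem_filter.1 hy).2.symm)]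
    refine badw_fiber hV (a * v ^ 3) _ fun u hu => ?_
    obtain ⟨x, hx, rfl⟩ := mem_image.1 hu
    rw [← (mem_filter.1 hx).2]
    exact (hS x (mem_filter.1 hx).1).2
  rw [card_Iv, mul_comm] at h1
  refine le_trans (Nat.cast_le.2 h1) ?_
  have h2 := Nat.cast_div_le (α := ℝ) (m := 2 * N) (n := V)
  push_cast at h2 ⊢
  gcongr

theorem bad_alpha (a w V N Y A0 A : ℕ) (hA : (Y + 1) * A0 ≤ A) :
    (Bad2 a w V N Y A0).card ≤ Y * (2 * A0 + 1) * (Bad0 a w V N A).card := by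
  classical
  have h1 : Bad2 a w V N Y A0 ⊆ (Icc 1 Y ×ˢ Iv A0 ×ˢ Bad0 a w V N A).image fun y =>
      (y.2.2.1 - y.1 * (y.2.2.2 - y.1 * y.2.1), y.2.2.2 - y.1 * y.2.1, y.2.1) := by
    intro α hα
    rw [Bad2, mem_filter, mem_box3] at hα
    obtain ⟨⟨h0, h1, h2⟩, l, hl, h3⟩ := hα
    have key : ∀ s t : ℤ, |s| ≤ A0 → |t| ≤ A0 → |(l : ℤ) * s + t| ≤ A := by
      intro s t hs ht
      have e1 : (l : ℤ) ≤ Y := by exact_mod_cast (mem_Icc.1 hl).2
      have e2 : ((Y : ℤ) + 1) * A0 ≤ A := by exact_mod_cast hA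
      have e3 := abs_add_le ((l : ℤ) * s) t
      rw [abs_mul, Nat.abs_cast] at e3
      have e4 : (l : ℤ) * |s| ≤ Y * A0 := mul_le_mul e1 hs (abs_nonneg _) (by positivity)
      linarith
    refine mem_image.2 ⟨(l, α.2.2, (l * α.2.1 + α.1, l * α.2.2 + α.2.1)), ?_, ?_⟩
    · refine mem_product.2 ⟨hl, mem_product.2 ⟨mem_Iv.2 h2, ?_⟩⟩
      rw [Bad0, mem_filter, mem_box2]
      exact ⟨⟨key _ _ h1 h0, key _ _ h2 h1⟩, h3⟩
    · refine Prod.ext ?_ (Prod.ext ?_ rfl)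
      · show _ = α.1
        ring
      · show _ = α.2.1
        ring
  refine (card_le_card h1).trans (card_image_le.trans ?_)
  rw [card_product, card_product, card_Iv, Nat.card_Icc, Nat.add_sub_cancel, mul_assoc]

end Pool.Agent.Lib.MP_9c5702_nt.AC
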