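import Pool.Agent.Lib.MP_9c5702_nt.AC.Defs

/-! The sieving characters have mean zero. -/

set_option autoImplicit false

namespace Pool.Agent.Lib.MP_9c5702_nt.AC

open Finset Pool.Agent.Lib.MP_9c5702_nt.Cube

lemma chi_cube_inj {q : ℕ} [Fact q.Prime] (h3 : q % 3 = 2) {x y : ZMod q}
    (h : x ^ 3 = y ^ 3) : x = y := by
  have key : ∀ x : ZMod q, (x ^ 3) ^ (2 * (q / 3) + 1) = x := by
    intro x
    have h1 : 3 * (2 * (q / 3) + 1) = q + (q - 1) := by omega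
    have h2 : q - 1 + 1 = q := by omega
    rw [← pow_mul, h1, pow_add, ZMod.pow_card, ← pow_succ', h2, ZMod.pow_card]
  rw [← key x, h, key y]

/-- An affine function of the cube of an affine function has character sum zero. -/
lemma chi_aff {l : ℕ} (hl : l.Prime) (h3 : l % 3 = 2) (h2 : l ≠ 2) (A B N c : ℤ)
    (hA : ¬ (l : ℤ) ∣ A) (hN : ¬ (l : ℤ) ∣ N) :
    ∑ κ ∈ range l, jacobiSym (A * (N * κ + c) ^ 3 + B) l = 0 := by
  have := Fact.mk hl
  have hA0 : (A : ZMod l) ≠ 0 := by rwa [Ne, ZMod.intCast_zmod_eq_zero_iff_dvd]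
  have hN0 : (N : ZMod l) ≠ 0 := by rwa [Ne, ZMod.intCast_zmod_eq_zero_iff_dvd]
  let G : ZMod l → ZMod l := fun x => A * (N * x + c) ^ 3 + B
  have hG : Function.Injective G := fun x y h =>
    mul_left_cancel₀ hN0 (add_right_cancel
      (chi_cube_inj h3 (mul_left_cancel₀ hA0 (add_right_cancel h))))
  have hterm : ∀ e : ℕ, jacobiSym (A * (N * e + c) ^ 3 + B) l =
      quadraticChar (ZMod l) (G (e : ZMod l)) := by
    intro e
    rw [← jacobiSym.legendreSym.to_jacobiSym, legendreSym]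
    congr 1
    simp only [G]
    push_cast
    ring
  rw [sum_congr rfl fun e _ => hterm e]
  have hsum : ∑ e ∈ range l, quadraticChar (ZMod l) (G (e : ZMod l)) =
      ∑ x : ZMod l, quadraticChar (ZMod l) (G x) := by
    refine sum_bij (fun e _ => (e : ZMod l)) (fun _ _ => mem_univ _) ?_ ?_ fun _ _ => rfl
    · intro a ha b hb h
      rw [ZMod.natCast_eq_natCast_iff', Nat.mod_eq_of_lt (mem_range.1 ha),
        Nat.mod_eq_of_lt (mem_range.1 hb)] at h
      exact h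
    · intro x _
      exact ⟨x.val, mem_range.2 (ZMod.val_lt x), ZMod.natCast_zmod_val x⟩
  rw [hsum, (Finite.injective_iff_bijective.1 hG).sum_comp (fun x => quadraticChar (ZMod l) x)]
  apply quadraticChar_sum_zero
  rw [ZMod.ringChar_zmod_n]
  exact h2

theorem chi_mean (a e g w m u v t : ℤ) (l : ℕ) (hl : l.Prime) (h3 : l % 3 = 2) (h2 : l ≠ 2)
    (hne : ¬ (l : ℤ) ∣ e * g * qf a u v) :
    ∑ κ ∈ range l, jacobiSym (Gp a e g w m u v t κ) l = 0 := by
  have hp : Prime (l : ℤ) := Nat.prime_iff_prime_int.1 hl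
  by_cases hN : (l : ℤ) ∣ Nm a t u v
  · refine sum_eq_zero fun κ _ => ?_
    have hd : (l : ℤ) ∣ Gp a e g w m u v t κ := (hN.mul_left (3 * e)).mul_right _
    rw [jacobiSym.mod_left, Int.emod_eq_zero_of_dvd hd]
    exact jacobiSym.zero_left hl.one_lt
  have e1 : ∀ κ : ℕ, Gp a e g w m u v t κ =
      (2 ^ 2 * 3 * (e * g * qf a u v) * g ^ 2 * Nm a t u v) *
        (Nm a t u v * κ + m * w * Rf a t u v) ^ 3 +
      3 * e * Nm a t u v * (4 * g ^ 3 * (a * w ^ 3 * m ^ 3 * qf a u v ^ 4) -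
        e ^ 3 * Nm a t u v ^ 3 * qf a u v ^ 4) := fun κ => by
    rw [Gp]
    ring
  simp only [e1]
  refine chi_aff hl h3 h2 _ _ _ _ (fun h => ?_) hN
  rcases hp.dvd_or_dvd h with h | h
  · rcases hp.dvd_or_dvd h with h | h
    · rcases hp.dvd_or_dvd h with h | h
      · rcases hp.dvd_or_dvd h with h | h
        · have h1 : l ∣ 2 := by exact_mod_cast hp.dvd_of_dvd_pow h
          exact h2 ((Nat.prime_dvd_prime_iff_eq hl Nat.prime_two).1 h1)
        · have h1 : l ∣ 3 := by exact_mod_cast h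
          have := (Nat.prime_dvd_prime_iff_eq hl Nat.prime_three).1 h1
          omega
      · exact hne h
    · exact hne (((hp.dvd_of_dvd_pow h).mul_left e).mul_right _)
  · exact hN h

lemma chi_congr (a e g w m u v : ℤ) (l : ℕ) {t t' κ κ' : ℤ} (ht : t ≡ t' [ZMOD l])
    (hκ : κ ≡ κ' [ZMOD l]) :
    jacobiSym (Gp a e g w m u v t κ) l = jacobiSym (Gp a e g w m u v t' κ') l := by
  refine jacobiSym.mod_left' ?_
  rw [← ZMod.intCast_eq_intCast_iff] at ht hκ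
  refine (ZMod.intCast_eq_intCast_iff _ _ _).1 ?_
  simp only [Gp, Nm, Rf]
  push_cast
  rw [ht, hκ]

theorem chi_phi (a e g w m u v : ℤ) (l l' : ℕ) (hl : l.Prime) (hl' : l'.Prime) (hne : l ≠ l')
    (h3 : l % 3 = 2) (h2 : l ≠ 2) (hd : ¬ (l : ℤ) ∣ e * g * qf a u v) (φ : ℤ → ℤ → ℝ)
    (hφ : ∀ t κ, φ t κ =
      ((jacobiSym (Gp a e g w m u v t κ) l * jacobiSym (Gp a e g w m u v t κ) l' : ℤ) : ℝ)) :
    (∀ t κ, |φ t κ| ≤ 1) ∧ (∀ t κ, φ (t + (l * l' : ℕ)) κ = φ t κ) ∧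
      (∀ t κ, φ t (κ + (l * l' : ℕ)) = φ t κ) ∧ ∀ t, ∑ κ ∈ range (l * l'), φ t κ = 0 := by
  have m1 : ∀ x : ℤ, x + (l * l' : ℕ) ≡ x [ZMOD l] := fun x =>
    (Int.modEq_iff_dvd.2 ⟨-l', by push_cast; ring⟩)
  have m2 : ∀ x : ℤ, x + (l * l' : ℕ) ≡ x [ZMOD l'] := fun x =>
    (Int.modEq_iff_dvd.2 ⟨-l, by push_cast; ring⟩)
  have m3 : ∀ (n : ℕ) (x : ℤ), x + n ≡ x [ZMOD n] := fun n x =>
    (Int.modEq_iff_dvd.2 ⟨-1, by ring⟩)
  refine ⟨fun t κ => ?_, fun t κ => ?_, fun t κ => ?_, fun t => ?_⟩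
  · rw [hφ]
    rcases jacobiSym.trichotomy (Gp a e g w m u v t κ) l with h | h | h <;>
      rcases jacobiSym.trichotomy (Gp a e g w m u v t κ) l' with h' | h' | h' <;>
      rw [h, h'] <;> norm_num
  · rw [hφ, hφ, chi_congr a e g w m u v l (m1 t) (Int.ModEq.refl κ),
      chi_congr a e g w m u v l' (m2 t) (Int.ModEq.refl κ)]
  · rw [hφ, hφ, chi_congr a e g w m u v l (Int.ModEq.refl t) (m1 κ),
      chi_congr a e g w m u v l' (Int.ModEq.refl t) (m2 κ)]
  · simp only [hφ]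
    rw [← Int.cast_sum, sum_crt ((Nat.coprime_primes hl hl').2 hne)
      (fun κ => jacobiSym (Gp a e g w m u v t κ) l) (fun κ => jacobiSym (Gp a e g w m u v t κ) l')
      (fun κ => chi_congr a e g w m u v l (Int.ModEq.refl t) (m3 l κ))
      (fun κ => chi_congr a e g w m u v l' (Int.ModEq.refl t) (m3 l' κ)),
      chi_mean a e g w m u v t l hl h3 h2 hd, zero_mul, Int.cast_zero]

end Pool.Agent.Lib.MP_9c5702_nt.AC
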