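import Pool.Agent.Lib.MP_9c5702_nt.AC.Defs
import Pool.Agent.Lib.MP_9c5702_nt.Cube.Dir

/-! Completion of sums and harmonic sums. -/

set_option autoImplicit false

namespace Pool.Agent.Lib.MP_9c5702_nt.AC

open Finset Pool.Agent.Lib.MP_9c5702_nt.Cube

lemma complete_pow (j : ℕ) : ∑ h ∈ Ico 1 (2 ^ j), (1 : ℝ) / (h : ℕ) ≤ j := by
  induction j with
  | zero => simp
  | succ j ih =>
    have h1 : 1 ≤ 2 ^ j := Nat.one_le_two_pow
    have h2 : 2 ^ (j + 1) = 2 ^ j + 2 ^ j := by rw [pow_succ]; omega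
    rw [← sum_Ico_consecutive _ h1 (by omega : 2 ^ j ≤ 2 ^ (j + 1))]
    have h3 : (0 : ℝ) < (2 ^ j : ℕ) := by exact_mod_cast h1
    have : ∑ h ∈ Ico (2 ^ j) (2 ^ (j + 1)), (1 : ℝ) / (h : ℕ) ≤ 1 := by
      refine (sum_le_card_nsmul _ _ ((1 : ℝ) / (2 ^ j : ℕ)) fun x hx => ?_).trans ?_
      · exact one_div_le_one_div_of_le h3 (by exact_mod_cast (mem_Ico.1 hx).1)
      · rw [Nat.card_Ico, nsmul_eq_mul, h2, Nat.add_sub_cancel, mul_one_div_cancel h3.ne']
    rw [Nat.cast_succ]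
    linarith

theorem harm_le {T X q : ℕ} (h : DB T X) (hX : 1 ≤ X) (hq : q ≤ X) :
    ∑ j ∈ Icc 1 q, (1 : ℝ) / j ≤ T := by
  have h1 := h (2 ^ Nat.log 2 X) Nat.one_le_two_pow (Nat.pow_log_le_self 2 (by omega))
  have h2 := Nat.lt_pow_succ_log_self one_lt_two X
  rw [Nat.divisors_prime_pow Nat.prime_two, card_map, card_range] at h1
  refine le_trans (sum_le_sum_of_subset_of_nonneg (t := Ico 1 (2 ^ (Nat.log 2 X + 1)))
    (fun x hx => ?_) fun x _ _ => by positivity) ((complete_pow _).trans (by exact_mod_cast h1))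
  rw [mem_Icc] at hx
  rw [Nat.succ_eq_add_one] at h2
  rw [mem_Ico]
  omega

lemma complete_sym (n : ℕ) :
    ∑ h ∈ Icc (-(n : ℤ)) n, 1 / (2 * |(h : ℝ)|) = ∑ j ∈ Icc 1 n, (1 : ℝ) / j := by
  induction n with
  | zero => simp
  | succ n ih =>
    have e : Icc (-((n + 1 : ℕ) : ℤ)) ((n + 1 : ℕ) : ℤ)
        = insert (-((n : ℤ) + 1)) (insert ((n : ℤ) + 1) (Icc (-(n : ℤ)) n)) := by
      ext x
      simp only [mem_Icc, mem_insert]
      omega
    have h0 : (0 : ℝ) < (n : ℝ) + 1 := by positivity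
    rw [e, sum_insert (by simp only [mem_Icc, mem_insert]; omega),
      sum_insert (by simp only [mem_Icc]; omega), ih, sum_Icc_succ_top (by omega)]
    push_cast
    rw [abs_neg, abs_of_pos h0]
    field_simp
    ring

lemma complete_shift (q : ℕ) (h a : ℤ) (X : ℕ) :
    ∑ t ∈ Ico a (a + X), ec q (h * t) = ec q (h * a) * ∑ e ∈ range X, ec q (h * e) := by
  induction X with
  | zero => simp
  | succ X ih =>
    have e : Ico a (a + (X + 1 : ℕ)) = insert (a + X) (Ico a (a + X)) := by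
      ext x
      simp only [mem_Ico, mem_insert]
      omega
    rw [e, sum_insert (by simp), ih, sum_range_succ, mul_add h, ec_add]
    ring

theorem complete (q T : ℕ) (hq : 1 ≤ q) (hT : ∑ j ∈ Icc 1 q, (1 : ℝ) / j ≤ T) (W : ℤ → ℂ)
    (hW : Function.Periodic W q) (B : ℝ)
    (hB : ∀ k : ℤ, ‖∑ t ∈ range q, W t * ec q (k * t)‖ ≤ B) (a : ℤ) (X : ℕ) :
    ‖∑ t ∈ Ico a (a + X), W t‖ ≤ B * (X / q + T) := by
  have hq' : (0 : ℝ) < q := by exact_mod_cast hq
  have B0 : 0 ≤ B := (norm_nonneg _).trans (hB 0)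
  set F := Ico (-((q / 2 : ℕ) : ℤ)) (-((q / 2 : ℕ) : ℤ) + q) with hF
  have e : (q : ℂ) * ∑ t ∈ Ico a (a + X), W t = ∑ h ∈ F, (∑ t ∈ Ico a (a + X), ec q (h * t)) *
      ∑ y ∈ range q, W y * ec q (-h * y) := by
    rw [mul_sum]
    simp only [Fou.expand hq W hW (-((q / 2 : ℕ) : ℤ)), sum_mul, neg_mul]
    exact sum_comm
  have key : ∀ h ∈ F, ‖(∑ t ∈ Ico a (a + X), ec q (h * t)) *
      ∑ y ∈ range q, W y * ec q (-h * y)‖ ≤
        (if h = 0 then B * X else 0) + B * q * (1 / (2 * |(h : ℝ)|)) := by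
    intro h hh
    rw [norm_mul, complete_shift, norm_mul, norm_ec, one_mul, mul_comm]
    split_ifs with hz
    · have : ‖∑ e ∈ range X, ec q (h * e)‖ ≤ X := by
        refine (norm_sum_le _ _).trans ?_
        simp [norm_ec]
      exact le_add_of_le_of_nonneg (mul_le_mul (hB _) this (norm_nonneg _) B0) (by positivity)
    · have h2 : 2 * |h| ≤ q := by
        have := mem_Ico.1 hh
        rcases abs_cases h with h1 | h1 <;> omega
      rw [zero_add, mul_assoc, mul_one_div]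
      exact mul_le_mul (hB _) (ec_geom hz h2 X) (norm_nonneg _) B0
  have h1 : ∑ h ∈ F, (if h = 0 then B * X else 0) ≤ B * X := by
    rw [sum_ite_eq']
    split_ifs
    · exact le_rfl
    · positivity
  have h2 : ∑ h ∈ F, 1 / (2 * |(h : ℝ)|) ≤ T := by
    refine le_trans (sum_le_sum_of_subset_of_nonneg (t := Icc (-(q : ℤ)) q) (fun x hx => ?_)
      fun x _ _ => by positivity) ((complete_sym q).le.trans hT)
    have := mem_Ico.1 hx
    rw [mem_Icc]
    omega
  have h3 := (norm_sum_le _ _).trans (sum_le_sum key)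
  rw [← e, norm_mul, Complex.norm_natCast, sum_add_distrib, ← mul_sum] at h3
  refine le_of_mul_le_mul_left (h3.trans ?_) hq'
  rw [show (q : ℝ) * (B * (X / q + T)) = B * X + B * q * T by field_simp]
  exact add_le_add h1 (mul_le_mul_of_nonneg_left h2 (by positivity))

end Pool.Agent.Lib.MP_9c5702_nt.AC
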