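import Pool.Agent.Lib.MP_9c5702_nt.AC.Defs

/-! Fractions near integers. -/

set_option autoImplicit false

namespace Pool.Agent.Lib.MP_9c5702_nt.AC

open Finset Pool.Agent.Lib.MP_9c5702_nt.Cube

theorem near_alg (ε Y : ℝ) (hY : 1 ≤ Y) (l l' : ℤ) (hl' : |(l' : ℝ)| ≤ Y) (x y x' y' : ℝ)
    (h0 : Near ε (x + x')) (h1 : Near ε ((l * x - y) + (l' * x' - y')))
    (h2 : Near ε (-(l * y) + -(l' * y'))) :
    Near (3 * Y ^ 2 * ε) (((l : ℝ) - l') * (y + l' * x)) := by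
  obtain ⟨j0, h0⟩ := h0
  obtain ⟨j1, h1⟩ := h1
  obtain ⟨j2, h2⟩ := h2
  have hε : 0 ≤ ε := (abs_nonneg _).trans h0
  refine ⟨-j2 - l' ^ 2 * j0 + l' * j1, ?_⟩
  have e : ((l : ℝ) - l') * (y + l' * x) - ((-j2 - l' ^ 2 * j0 + l' * j1 : ℤ) : ℝ) =
      -(-(l * y) + -(l' * y') - j2) - l' * (l' * (x + x' - j0)) +
        l' * ((l * x - y) + (l' * x' - y') - j1) := by
    push_cast
    ring
  have b : ∀ u v : ℝ, |u| ≤ v → |(l' : ℝ) * u| ≤ Y * v := fun u v h => by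
    rw [abs_mul]
    exact mul_le_mul hl' h (abs_nonneg _) (by linarith)
  have b1 := abs_le.1 (b _ _ (b _ _ h0))
  have b2 := abs_le.1 (b _ _ h1)
  have b3 := abs_le.1 h2
  have b4 : ε ≤ Y * ε := le_mul_of_one_le_left hε hY
  have b5 : Y * ε ≤ Y * (Y * ε) := le_mul_of_one_le_left (hε.trans b4) hY
  rw [e, abs_le, show 3 * Y ^ 2 * ε = 3 * (Y * (Y * ε)) by ring]
  constructor <;> linarith [b1.1, b1.2, b2.1, b2.2, b3.1, b3.2]

theorem count_k (Q : ℕ) (hQ : 1 ≤ Q) (c : ℤ) (hc : IsCoprime c (Q : ℤ)) (η : ℝ) (hη : 0 ≤ η)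
    (S : Finset ℕ) (hS : ∀ k ∈ S, k < Q ∧ Near η ((c : ℝ) * k / Q)) :
    (S.card : ℝ) ≤ 2 * η * Q + 1 := by
  choose! j hj using fun k hk => (hS k hk).2
  have hQ0 : (0 : ℝ) < Q := by exact_mod_cast hQ
  have h1 : S.card ≤ (Icc (-(⌊η * Q⌋₊ : ℤ)) ⌊η * Q⌋₊).card := by
    refine card_le_card_of_injOn (fun k => c * k - j k * Q) (fun k hk => ?_) fun k hk k' hk' e => ?_
    · have e1 : |((c * k - j k * Q : ℤ) : ℝ)| ≤ η * Q := by
        have e2 : ((c * k - j k * Q : ℤ) : ℝ) = ((c : ℝ) * k / Q - j k) * Q := by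
          push_cast
          field_simp
        rw [e2, abs_mul, abs_of_pos hQ0]
        exact mul_le_mul_of_nonneg_right (hj k hk) hQ0.le
      have e3 : (c * k - j k * Q).natAbs ≤ ⌊η * Q⌋₊ := by
        refine Nat.le_floor ?_
        rwa [Nat.cast_natAbs, Int.cast_abs]
      rw [mem_coe, mem_Icc, ← abs_le, Int.abs_eq_natAbs]
      exact_mod_cast e3
    · have e1 : (Q : ℤ) ∣ c * (k - k') := ⟨j k - j k', by
        have : c * k - j k * Q = c * k' - j k' * Q := e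
        linear_combination this⟩
      have e2 := Int.eq_zero_of_abs_lt_dvd (hc.symm.dvd_of_dvd_mul_left e1) (by
        have := (hS k hk).1
        have := (hS k' hk').1
        rw [abs_lt]
        omega)
      omega
  have h2 : (Icc (-(⌊η * Q⌋₊ : ℤ)) ⌊η * Q⌋₊).card = 2 * ⌊η * Q⌋₊ + 1 := by
    rw [Int.card_Icc]
    omega
  have h3 := Nat.floor_le (mul_nonneg hη hQ0.le)
  have h4 : (S.card : ℝ) ≤ 2 * (⌊η * Q⌋₊ : ℝ) + 1 := by exact_mod_cast h2 ▸ h1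
  linarith

theorem rho_exists (a : ℕ) (Ps : Finset ℕ) (hPs : ∀ p ∈ Ps, p.Prime ∧ p % 3 = 2) :
    ∃ ρ : ℕ × ℕ → ℤ, ∀ π ∈ Ps.offDiag, ((π.1 * π.2 : ℕ) : ℤ) ∣ ρ π ^ 3 - a := by
  have key : ∀ p ∈ Ps, ∀ r : ℕ, r ≡ a ^ (2 * (p / 3) + 1) [MOD p] → (p : ℤ) ∣ (r : ℤ) ^ 3 - a := by
    intro p hp r hr
    obtain ⟨h1, h2⟩ := hPs p hp
    have := Fact.mk h1
    have e1 : (2 * (p / 3) + 1) * 3 = p + (p - 1) := by omega
    have e2 : p - 1 + 1 = p := by omega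
    rw [← ZMod.intCast_zmod_eq_zero_iff_dvd]
    push_cast
    rw [(ZMod.natCast_eq_natCast_iff _ _ _).2 hr, Nat.cast_pow, ← pow_mul, e1, pow_add,
      ZMod.pow_card, ← pow_succ', e2, ZMod.pow_card, sub_self]
  have : ∀ π ∈ Ps.offDiag, ∃ r : ℤ, ((π.1 * π.2 : ℕ) : ℤ) ∣ r ^ 3 - a := fun π hπ => by
    obtain ⟨h1, h2, h3⟩ := mem_offDiag.1 hπ
    have co : π.1.Coprime π.2 := (Nat.coprime_primes (hPs _ h1).1 (hPs _ h2).1).2 h3
    obtain ⟨r, r1, r2⟩ := Nat.chineseRemainder co (a ^ (2 * (π.1 / 3) + 1))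
      (a ^ (2 * (π.2 / 3) + 1))
    exact ⟨r, by
      rw [Nat.cast_mul]
      exact (Nat.isCoprime_iff_coprime.2 co).mul_dvd (key _ h1 r r1) (key _ h2 r r2)⟩
  choose! ρ hρ using this
  exact ⟨ρ, hρ⟩

theorem mu_bounds (T P : ℕ) (hP : 1 ≤ P) (hT : 1 ≤ T) (Ps : Finset ℕ)
    (hPs : ∀ p ∈ Ps, P < p ∧ p ≤ P * T) (hc : 3 * P ≤ Ps.card) :
    1 / (T : ℝ) ^ 2 ≤ mu Ps ∧ mu Ps ≤ (T : ℝ) ^ 2 := by
  have hP0 : (0 : ℝ) < P := by exact_mod_cast hP
  have hT0 : (0 : ℝ) < T := by exact_mod_cast hT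
  have c1 : Ps.card ≤ P * T := by
    simpa using card_le_card (t := Icc 1 (P * T)) fun p hp =>
      mem_Icc.2 ⟨by have := (hPs p hp).1; omega, (hPs p hp).2⟩
  have c2 : P ^ 2 ≤ Ps.offDiag.card ∧ Ps.offDiag.card ≤ (P * T) ^ 2 := by
    rw [offDiag_card]
    refine ⟨?_, (Nat.sub_le _ _).trans (by rw [sq]; exact Nat.mul_le_mul c1 c1)⟩
    rw [← Nat.mul_sub_one, sq]
    exact Nat.mul_le_mul (by omega) (by omega)
  have c3 : (P : ℝ) ^ 2 ≤ Ps.offDiag.card := by exact_mod_cast c2.1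
  have c4 : (Ps.offDiag.card : ℝ) ≤ (P * T) ^ 2 := by exact_mod_cast c2.2
  have b : ∀ p ∈ Ps, (P : ℝ) ≤ p ∧ (p : ℝ) ≤ P * T := fun p hp =>
    ⟨by exact_mod_cast (hPs p hp).1.le, by exact_mod_cast (hPs p hp).2⟩
  constructor
  · have := card_nsmul_le_sum Ps.offDiag (fun π => 1 / ((π.1 : ℝ) * π.2)) (1 / ((P : ℝ) * T) ^ 2)
      fun π hπ => by
        obtain ⟨h1, h2, -⟩ := mem_offDiag.1 hπ
        have := (b _ h1).1
        have := (b _ h2).1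
        refine one_div_le_one_div_of_le (mul_pos (by linarith) (by linarith)) ?_
        rw [sq]
        exact mul_le_mul (b _ h1).2 (b _ h2).2 (by linarith) (by positivity)
    refine le_trans ?_ this
    rw [nsmul_eq_mul]
    refine le_trans (le_of_eq ?_) (mul_le_mul_of_nonneg_right c3 (by positivity))
    field_simp
  · have := sum_le_card_nsmul Ps.offDiag (fun π => 1 / ((π.1 : ℝ) * π.2)) (1 / (P : ℝ) ^ 2)
      fun π hπ => by
        obtain ⟨h1, h2, -⟩ := mem_offDiag.1 hπ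
        refine one_div_le_one_div_of_le (by positivity) ?_
        rw [sq]
        exact mul_le_mul (b _ h1).1 (b _ h2).1 hP0.le (by positivity)
    refine this.trans ?_
    rw [nsmul_eq_mul]
    refine (mul_le_mul_of_nonneg_right c4 (by positivity)).trans (le_of_eq ?_)
    field_simp

end Pool.Agent.Lib.MP_9c5702_nt.AC
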