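import Pool.Agent.Lib.MP_9c5702_nt.AC.Sieve
import Pool.Agent.Lib.MP_9c5702_nt.AC.Param

/-! Roots of the cubic congruence do not cluster. -/

set_option autoImplicit false

namespace Pool.Agent.Lib.MP_9c5702_nt.AC

open Finset Pool.Agent.Lib.MP_9c5702_nt.Cube

lemma window_v {Q k τ0 Pm : ℕ} {t j0 : ℤ} {x ε : ℝ} (hQ0 : 0 < Q) (hQ : Q ≤ Pm ^ 2)
    (hτ1 : 1 ≤ τ0) (ht0 : 0 < t) (ht : t ≤ τ0) (hx : |(t : ℝ) * x - j0| ≤ 1 / ((τ0 : ℝ) + 1))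
    (hε : ε * (τ0 : ℝ) ^ 2 ≤ 1) (h1 : Near ε (x + (k : ℝ) / (Q : ℝ))) :
    ∃ v : ℤ, |v| ≤ (2 * Pm ^ 2 / τ0 : ℕ) ∧ (Q : ℤ) ∣ t * k - v := by
  obtain ⟨n, hn⟩ := h1
  have hε0 : 0 ≤ ε := (abs_nonneg _).trans hn
  have hQr : (0 : ℝ) < Q := by exact_mod_cast hQ0
  have hQr' : (Q : ℝ) ≤ (Pm : ℝ) ^ 2 := by exact_mod_cast hQ
  have hτr : (1 : ℝ) ≤ τ0 := by exact_mod_cast hτ1
  have htr0 : (0 : ℝ) < t := by exact_mod_cast ht0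
  have htr : (t : ℝ) ≤ τ0 := by exact_mod_cast ht
  refine ⟨t * k + (j0 - t * n) * Q, ?_, ⟨-(j0 - t * n), by ring⟩⟩
  have e : ((t * k + (j0 - t * n) * Q : ℤ) : ℝ) =
      Q * (t * (x + (k : ℝ) / Q - n) - (t * x - j0)) := by
    push_cast
    field_simp
    ring
  have h2 : |(t : ℝ) * (x + (k : ℝ) / Q - n) - (t * x - j0)| * τ0 ≤ 2 := by
    have h3 := abs_sub ((t : ℝ) * (x + (k : ℝ) / Q - n)) (t * x - j0)
    have h4 : |(t : ℝ) * (x + (k : ℝ) / Q - n)| ≤ τ0 * ε := by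
      rw [abs_mul, abs_of_pos htr0]
      exact mul_le_mul htr hn (abs_nonneg _) (by linarith)
    have h5 : 1 / ((τ0 : ℝ) + 1) * τ0 ≤ 1 := by
      rw [div_mul_eq_mul_div, div_le_one (by linarith)]
      linarith
    have h6 := mul_le_mul_of_nonneg_right (h3.trans (add_le_add h4 hx)) (by linarith : (0 : ℝ) ≤ τ0)
    nlinarith
  have h7 : |((t * k + (j0 - t * n) * Q : ℤ) : ℝ)| * τ0 ≤ 2 * (Pm : ℝ) ^ 2 := by
    rw [e, abs_mul, abs_of_pos hQr, mul_assoc]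
    nlinarith [mul_le_mul_of_nonneg_left h2 hQr.le]
  rw [Int.natCast_div]
  refine Int.le_ediv_of_mul_le (by exact_mod_cast hτ1) ?_
  exact_mod_cast h7

lemma window_j {Q k Pm J : ℕ} {c : ℤ} {η : ℝ} (hQ0 : 0 < Q) (hQ : Q ≤ Pm ^ 2) (hη : 0 ≤ η)
    (hJ : η * (Pm : ℝ) ^ 2 ≤ J) (h1 : Near η ((c : ℝ) * k / (Q : ℝ))) :
    ∃ j : ℤ, |j| ≤ J ∧ (Q : ℤ) ∣ c * k - j := by
  obtain ⟨n, hn⟩ := h1
  have hQr : (0 : ℝ) < Q := by exact_mod_cast hQ0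
  have hQr' : (Q : ℝ) ≤ (Pm : ℝ) ^ 2 := by exact_mod_cast hQ
  refine ⟨c * k - n * Q, ?_, ⟨n, by ring⟩⟩
  have e : ((c * k - n * Q : ℤ) : ℝ) = Q * ((c : ℝ) * k / Q - n) := by
    push_cast
    field_simp
  have h7 : |((c * k - n * Q : ℤ) : ℝ)| ≤ J := by
    rw [e, abs_mul, abs_of_pos hQr]
    nlinarith [mul_le_mul_of_nonneg_left hn hQr.le, mul_le_mul_of_nonneg_left hQr' hη]
  exact_mod_cast h7

lemma window_size {a τ0 J Y W X : ℕ} {t j v Δ l : ℤ} (ht0 : 0 < t) (ht : t ≤ τ0) (hj : |j| ≤ J)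
    (hv : |v| ≤ W) (hΔ : |Δ| ≤ Y) (hl : |l| ≤ Y)
    (hX : a * (W * Y) ^ 3 + (τ0 * J + W * Y ^ 2) ^ 3 ≤ X) :
    |qf a (t * j - v * Δ * l) (v * Δ)| ≤ X := by
  have h1 : |v * Δ| ≤ W * Y := by
    rw [abs_mul]
    exact mul_le_mul hv hΔ (abs_nonneg _) (by positivity)
  have h2 : |t * j - v * Δ * l| ≤ τ0 * J + W * Y ^ 2 := by
    refine (abs_sub _ _).trans (add_le_add ?_ ?_)
    · rw [abs_mul, abs_of_pos ht0]
      exact mul_le_mul ht hj (abs_nonneg _) (by positivity)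
    · rw [abs_mul, sq, ← mul_assoc]
      exact mul_le_mul h1 hl (abs_nonneg _) (by positivity)
  have h3 : (a : ℤ) * (W * Y) ^ 3 + (τ0 * J + W * Y ^ 2) ^ 3 ≤ X := by exact_mod_cast hX
  rw [qf]
  refine (abs_sub _ _).trans (le_trans ?_ h3)
  rw [add_comm, abs_mul, abs_pow, abs_pow, Nat.abs_cast]
  exact add_le_add (mul_le_mul_of_nonneg_left (pow_le_pow_left₀ (abs_nonneg _) h1 3)
    (by positivity)) (pow_le_pow_left₀ (abs_nonneg _) h2 3)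

theorem window (a T X P Pm Y τ0 J : ℕ) (hDB : DB T X) (ha : NC a) (Ps : Finset ℕ)
    (hPs : ∀ p ∈ Ps, p.Prime ∧ P < p ∧ p ≤ Pm) (ρ : ℕ × ℕ → ℤ)
    (hρ : ∀ π ∈ Ps.offDiag, ((π.1 * π.2 : ℕ) : ℤ) ∣ ρ π ^ 3 - a) (hτ1 : 1 ≤ τ0) (hτ : τ0 ≤ P)
    (ε η : ℝ) (hε : ε * (τ0 : ℝ) ^ 2 ≤ 1) (hη : 0 ≤ η) (hJ : η * (Pm : ℝ) ^ 2 ≤ J) (Δ l : ℤ)
    (hΔ0 : Δ ≠ 0) (hΔ : |Δ| ≤ Y) (hl : |l| ≤ Y)
    (hX : a * (2 * Pm ^ 2 * Y) ^ 3 + (τ0 * J + 2 * Pm ^ 2 * Y ^ 2) ^ 3 ≤ X) (x : ℝ)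
    (S : Finset ((ℕ × ℕ) × ℕ))
    (hS : ∀ i ∈ S, i.1 ∈ Ps.offDiag ∧ 1 ≤ i.2 ∧ i.2 < i.1.1 * i.1.2 ∧
      Near ε (x + (i.2 : ℝ) / ((i.1.1 * i.1.2 : ℕ) : ℝ)) ∧
      Near η (((Δ * (ρ i.1 + l) : ℤ) : ℝ) * i.2 / ((i.1.1 * i.1.2 : ℕ) : ℝ))) :
    (S.card : ℝ) ≤ (4 * (Pm : ℝ) ^ 2 / τ0 + 1) * (2 * J + 1) * (T : ℝ) ^ 2 := by
  classical
  obtain ⟨j0, t, ht0, ht, hx⟩ := Real.exists_int_int_abs_mul_sub_le x (n := τ0) hτ1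
  have hcop : ∀ π ∈ Ps.offDiag, IsCoprime ((π.1 * π.2 : ℕ) : ℤ) t := by
    have key : ∀ p ∈ Ps, IsCoprime (p : ℤ) t := fun p hp => by
      obtain ⟨h1, h2, -⟩ := hPs p hp
      refine (Nat.prime_iff_prime_int.1 h1).irreducible.coprime_iff_not_dvd.2 fun h => ?_
      have := Int.le_of_dvd ht0 h
      omega
    intro π hπ
    rw [mem_offDiag] at hπ
    rw [Nat.cast_mul]
    exact (key _ hπ.1).mul_left (key _ hπ.2.1)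
  have hQ : ∀ π ∈ Ps.offDiag, π.1 * π.2 ≤ Pm ^ 2 := fun π hπ => by
    rw [mem_offDiag] at hπ
    rw [sq]
    exact Nat.mul_le_mul (hPs _ hπ.1).2.2 (hPs _ hπ.2.1).2.2
  set V : ℕ := 2 * Pm ^ 2 / τ0 with hV
  let F : ℤ × ℤ → Finset ((ℕ × ℕ) × ℕ) := fun y => S.filter fun i => y.1 ≠ 0 ∧
    ((i.1.1 * i.1.2 : ℕ) : ℤ) ∣ t * i.2 - y.1 ∧
    ((i.1.1 * i.1.2 : ℕ) : ℤ) ∣ qf a (t * y.2 - y.1 * Δ * l) (y.1 * Δ)
  have hsub : S ⊆ (Iv V ×ˢ Iv J).biUnion F := fun i hi => by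
    obtain ⟨h1, h2, h3, h4, h5⟩ := hS i hi
    obtain ⟨v, hv, hv'⟩ := window_v (by omega) (hQ _ h1) hτ1 ht0 ht hx hε h4
    obtain ⟨j, hj, hj'⟩ := window_j (by omega) (hQ _ h1) hη hJ h5
    refine mem_biUnion.2 ⟨(v, j), mem_product.2 ⟨mem_Iv.2 hv, mem_Iv.2 hj⟩,
      mem_filter.2 ⟨hi, ?_, hv', ?_⟩⟩
    · rintro (rfl : v = 0)
      rw [sub_zero] at hv'
      have h6 := Int.le_of_dvd (by exact_mod_cast h2) ((hcop _ h1).dvd_of_dvd_mul_left hv')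
      have h7 : i.1.1 * i.1.2 ≤ i.2 := by exact_mod_cast h6
      omega
    · have h6 : ((i.1.1 * i.1.2 : ℕ) : ℤ) ∣ (t * j - v * Δ * l) - v * Δ * ρ i.1 := by
        rw [show (t * j - v * Δ * l) - v * Δ * ρ i.1 = (t * i.2 - v) * (Δ * (ρ i.1 + l)) -
          (Δ * (ρ i.1 + l) * i.2 - j) * t by ring]
        exact dvd_sub (hv'.mul_right _) (hj'.mul_right _)
      rw [show qf a (t * j - v * Δ * l) (v * Δ) =
        ((t * j - v * Δ * l) ^ 3 - (v * Δ * ρ i.1) ^ 3) + (ρ i.1 ^ 3 - a) * (v * Δ) ^ 3 by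
          rw [qf]; ring]
      exact dvd_add (h6.trans (sub_dvd_pow_sub_pow _ _ 3)) ((hρ _ h1).mul_right _)
  have hF : ∀ y ∈ Iv V ×ˢ Iv J, (F y).card ≤ T ^ 2 := fun y hy => by
    rcases eq_or_ne y.1 0 with h0 | h0
    · rw [show F y = ∅ from filter_eq_empty_iff.2 fun i _ h => h.1 h0]
      simp
    obtain ⟨hy1, hy2⟩ := mem_product.1 hy
    have hVle : (V : ℤ) ≤ (2 * Pm ^ 2 : ℕ) := by exact_mod_cast Nat.div_le_self _ _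
    refine le_trans ?_ (pairs_dvd_le hDB Ps _
      (qf_ne ha (t * y.2 - y.1 * Δ * l) (y.1 * Δ) (Or.inr (mul_ne_zero h0 hΔ0)))
      (window_size ht0 ht (mem_Iv.1 hy2) ((mem_Iv.1 hy1).trans hVle) hΔ hl hX))
    refine card_le_card_of_injOn (fun i => i.1) (fun i hi => ?_) fun i hi i' hi' h => ?_
    · obtain ⟨h1, -, -, h2⟩ := mem_filter.1 hi
      exact mem_filter.2 ⟨(hS i h1).1, h2⟩
    · obtain ⟨h1, -, h2, -⟩ := mem_filter.1 hi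
      obtain ⟨h1', -, h2', -⟩ := mem_filter.1 hi'
      have h : i.1 = i'.1 := h
      refine Prod.ext h ?_
      rw [← h] at h2'
      have h3 : ((i.1.1 * i.1.2 : ℕ) : ℤ) ∣ t * ((i'.2 : ℤ) - i.2) := by
        rw [show t * ((i'.2 : ℤ) - i.2) = (t * i'.2 - y.1) - (t * i.2 - y.1) by ring]
        exact dvd_sub h2' h2
      have h4 : i.2 ≡ i'.2 [MOD i.1.1 * i.1.2] :=
        Nat.modEq_iff_dvd.2 ((hcop _ (hS i h1).1).dvd_of_dvd_mul_left h3)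
      exact h4.eq_of_lt_of_lt (hS i h1).2.2.1 (by rw [h]; exact (hS i' h1').2.2.1)
  have h1 := (card_le_card hsub).trans (card_biUnion_le_card_mul _ _ _ hF)
  rw [card_product, card_Iv, card_Iv] at h1
  have h2 : (S.card : ℝ) ≤ (2 * (V : ℝ) + 1) * (2 * J + 1) * (T : ℝ) ^ 2 := by exact_mod_cast h1
  have h3 : (V : ℝ) ≤ 2 * (Pm : ℝ) ^ 2 / τ0 := by
    have := @Nat.cast_div_le ℝ _ _ _ (2 * Pm ^ 2) τ0
    push_cast at this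
    exact this
  refine h2.trans (mul_le_mul_of_nonneg_right (mul_le_mul_of_nonneg_right ?_ (by positivity))
    (by positivity))
  rw [show 4 * (Pm : ℝ) ^ 2 / τ0 = 2 * (2 * (Pm : ℝ) ^ 2 / τ0) by ring]
  linarith

end Pool.Agent.Lib.MP_9c5702_nt.AC
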