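import Pool.Agent.Lib.MP_9c5702_nt.AC.Four3
import Pool.Agent.Lib.MP_9c5702_nt.AC.NearC
import Pool.Agent.Lib.MP_9c5702_nt.AC.Window

/-! The correlation of two directions. -/

set_option autoImplicit false

namespace Pool.Agent.Lib.MP_9c5702_nt.AC

open Finset Pool.Agent.Lib.MP_9c5702_nt.Cube

lemma corr_ind {Q : ℕ} (hQ : 0 < Q) (D : ℤ) :
    ((if (Q : ℤ) ∣ D then 1 else 0 : ℂ)) - 1 / (Q : ℂ) =
      ∑ k ∈ Ico 1 Q, 1 / (Q : ℂ) * ec Q (k * D) := by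
  have h1 := ec_orth hQ 0 D
  rw [sum_Ico_period (fun y => ec Q (y * D)) (fun y => ec_congr ⟨D, by ring⟩),
    sum_range_eq_add_Ico _ hQ] at h1
  have h0 : (Q : ℂ) ≠ 0 := Nat.cast_ne_zero.2 hQ.ne'
  rw [Nat.cast_zero, zero_mul, ec_zero] at h1
  rw [← mul_sum, eq_sub_of_add_eq' h1]
  split_ifs
  · field_simp
  · ring

lemma corr_expand (Ps : Finset ℕ) (hPs : ∀ p ∈ Ps, 0 < p) (ρ : ℕ × ℕ → ℤ) (l : ℕ)
    (s : Finset ((ℕ × ℕ) × ℕ))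
    (hs : ∀ i, i ∈ s ↔ i.1 ∈ Ps.offDiag ∧ i.2 ∈ Ico 1 (i.1.1 * i.1.2))
    (x : (ℕ × ℕ) × ℕ → ℝ) (hx : ∀ i, x i = (i.2 : ℝ) / ((i.1.1 * i.1.2 : ℕ) : ℝ))
    (α : ℤ × ℤ × ℤ) :
    (((Xl Ps ρ l α : ℝ) - mu Ps : ℝ) : ℂ) =
      ∑ i ∈ s, ((1 / ((i.1.1 * i.1.2 : ℕ) : ℝ) : ℝ) : ℂ) *
        er (x i * α.1 + (((l : ℤ) : ℝ) * x i - ρ i.1 * x i) * α.2.1 +
          -(((l : ℤ) : ℝ) * (ρ i.1 * x i)) * α.2.2) := by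
  rw [sum_finset_product s Ps.offDiag (fun π => Ico 1 (π.1 * π.2)) hs, Xl, mu, card_filter]
  push_cast
  rw [← sum_sub_distrib]
  refine sum_congr rfl fun π hπ => ?_
  obtain ⟨h1, h2, -⟩ := mem_offDiag.1 hπ
  have h3 := corr_ind (Nat.mul_pos (hPs _ h1) (hPs _ h2))
    (((l : ℤ) * α.2.1 + α.1) - ρ π * ((l : ℤ) * α.2.2 + α.2.1))
  push_cast at h3
  rw [apply_ite ((↑) : ℝ → ℂ), Complex.ofReal_one, Complex.ofReal_zero, h3]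
  refine sum_congr rfl fun k _ => ?_
  rw [ec_eq_er, hx]
  congr 2
  push_cast
  ring

lemma corr_cop {a P Y p : ℕ} (hp : p.Prime) (hPp : P < p) (hP : a + Y ^ 3 ≤ P) {r : ℤ}
    (hr : (p : ℤ) ∣ r ^ 3 - a) {l l' : ℕ} (hl : l ∈ Icc 1 Y) (hl' : l' ∈ Icc 1 Y) (hne : l ≠ l') :
    IsCoprime (((l : ℤ) - l') * (r + l')) (p : ℤ) := by
  obtain ⟨h1, h2⟩ := mem_Icc.1 hl
  obtain ⟨h3, h4⟩ := mem_Icc.1 hl'
  have h5 : Y ≤ Y ^ 3 := Nat.le_self_pow (by norm_num) Y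
  have hp' : Prime (p : ℤ) := Nat.prime_iff_prime_int.1 hp
  refine (hp'.irreducible.coprime_iff_not_dvd.2 fun h => ?_).symm
  rcases hp'.dvd_or_dvd h with h | h
  · have h6 := Int.le_of_dvd (abs_pos.2 (by omega)) ((dvd_abs _ _).2 h)
    rcases abs_cases ((l : ℤ) - l') with h7 | h7 <;> omega
  · have h6 : (p : ℤ) ∣ ((a + l' ^ 3 : ℕ) : ℤ) := by
      rw [show ((a + l' ^ 3 : ℕ) : ℤ) = (r + l') * (r ^ 2 - r * l' + l' ^ 2) - (r ^ 3 - a) by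
        push_cast; ring]
      exact dvd_sub (h.mul_right _) hr
    have h7 : l' ^ 3 ≤ Y ^ 3 := Nat.pow_le_pow_left h4 3
    have h8 : 0 < l' ^ 3 := by positivity
    have h9 := Nat.le_of_dvd (by omega) (Int.natCast_dvd_natCast.1 h6)
    omega

theorem corr (a T X P Pm Y τ0 J n : ℕ) (hDB : DB T X) (ha : NC a) (Ps : Finset ℕ)
    (hPs : ∀ p ∈ Ps, p.Prime ∧ P < p ∧ p ≤ Pm) (ρ : ℕ × ℕ → ℤ)
    (hρ : ∀ π ∈ Ps.offDiag, ((π.1 * π.2 : ℕ) : ℤ) ∣ ρ π ^ 3 - a) (hτ1 : 1 ≤ τ0) (hτ : τ0 ≤ P)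
    (hP : a + Y ^ 3 ≤ P) (ε η : ℝ) (hε0 : 0 ≤ ε) (hε : ε * (τ0 : ℝ) ^ 2 ≤ 1) (hη : 0 ≤ η)
    (hJ : 3 * (Y : ℝ) ^ 2 * ε * (Pm : ℝ) ^ 2 ≤ J)
    (hX : a * (2 * Pm ^ 2 * Y) ^ 3 + (τ0 * J + 2 * Pm ^ 2 * Y ^ 2) ^ 3 ≤ X) (W : ℤ → ℝ)
    (hW : ∀ x, 0 ≤ W x ∧ W x ≤ 1)
    (hdec : ∀ θ : ℝ, ¬ Near ε θ → ‖∑ x ∈ Iv n, (W x : ℂ) * er (θ * x)‖ ≤ η) (l l' : ℕ)
    (hl : l ∈ Icc 1 Y) (hl' : l' ∈ Icc 1 Y) (hne : l ≠ l') :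
    ∑ α ∈ box3 n, W3 W α * (((Xl Ps ρ l α : ℝ) - mu Ps) * ((Xl Ps ρ l' α : ℝ) - mu Ps)) ≤
      (2 * n + 1) ^ 3 * (1 / (P : ℝ) ^ 2) ^ 2 * ((Pm : ℝ) ^ 2 * (2 * J + 1) *
        ((4 * (Pm : ℝ) ^ 2 / τ0 + 1) * (2 * J + 1) * (T : ℝ) ^ 2)) +
      (Pm : ℝ) ^ 4 * (2 * n + 1) ^ 2 * η := by
  classical
  have hP1 : 1 ≤ P := hτ1.trans hτ
  have hPR : (0 : ℝ) < P := by exact_mod_cast hP1
  obtain ⟨hl1, hl2⟩ := mem_Icc.1 hl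
  obtain ⟨hl1', hl2'⟩ := mem_Icc.1 hl'
  have hY : (1 : ℝ) ≤ Y := by exact_mod_cast hl1.trans hl2
  have hQ : ∀ π ∈ Ps.offDiag, P ^ 2 ≤ π.1 * π.2 ∧ π.1 * π.2 ≤ Pm ^ 2 := fun π hπ => by
    obtain ⟨h1, h2, -⟩ := mem_offDiag.1 hπ
    rw [sq, sq]
    exact ⟨Nat.mul_le_mul (hPs _ h1).2.1.le (hPs _ h2).2.1.le,
      Nat.mul_le_mul (hPs _ h1).2.2 (hPs _ h2).2.2⟩
  have hQ0 : ∀ π ∈ Ps.offDiag, 1 ≤ π.1 * π.2 := fun π hπ =>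
    (Nat.one_le_pow _ _ hP1).trans (hQ π hπ).1
  have hoff : (Ps.offDiag.card : ℝ) ≤ (Pm : ℝ) ^ 2 := by
    have c1 : Ps.card ≤ Pm := by
      simpa using card_le_card (t := Icc 1 Pm) fun p hp =>
        mem_Icc.2 ⟨(hPs p hp).1.pos, (hPs p hp).2.2⟩
    have c2 : Ps.offDiag.card ≤ Pm ^ 2 := by
      rw [offDiag_card]
      exact (Nat.sub_le _ _).trans (by rw [sq]; exact Nat.mul_le_mul c1 c1)
    exact_mod_cast c2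
  obtain ⟨s, hs⟩ : ∃ s : Finset ((ℕ × ℕ) × ℕ),
      ∀ i, i ∈ s ↔ i.1 ∈ Ps.offDiag ∧ i.2 ∈ Ico 1 (i.1.1 * i.1.2) := by
    refine ⟨(Ps.offDiag ×ˢ range (Pm ^ 2)).filter fun i => i.2 ∈ Ico 1 (i.1.1 * i.1.2),
      fun i => ?_⟩
    rw [mem_filter, mem_product]
    exact ⟨fun h => ⟨h.1.1, h.2⟩,
      fun h => ⟨⟨h.1, mem_range.2 ((mem_Ico.1 h.2).2.trans_le (hQ _ h.1).2)⟩, h.2⟩⟩
  obtain ⟨x, hx⟩ : ∃ x : (ℕ × ℕ) × ℕ → ℝ,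
      ∀ i, x i = (i.2 : ℝ) / ((i.1.1 * i.1.2 : ℕ) : ℝ) := ⟨_, fun _ => rfl⟩
  have hc : ∀ i ∈ s, 0 ≤ 1 / ((i.1.1 * i.1.2 : ℕ) : ℝ) ∧
      1 / ((i.1.1 * i.1.2 : ℕ) : ℝ) ≤ 1 / (P : ℝ) ^ 2 := fun i hi =>
    ⟨by positivity, one_div_le_one_div_of_le (by positivity)
      (by exact_mod_cast (hQ _ ((hs i).1 hi).1).1)⟩
  have hcs : ∑ i ∈ s, 1 / ((i.1.1 * i.1.2 : ℕ) : ℝ) ≤ (Pm : ℝ) ^ 2 := by
    rw [sum_finset_product s Ps.offDiag (fun π => Ico 1 (π.1 * π.2)) hs]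
    refine (sum_le_card_nsmul _ _ 1 fun π hπ => ?_).trans (by rw [nsmul_one]; exact hoff)
    have h1 : (0 : ℝ) < ((π.1 * π.2 : ℕ) : ℝ) := by exact_mod_cast hQ0 π hπ
    show ∑ k ∈ Ico 1 (π.1 * π.2), 1 / ((π.1 * π.2 : ℕ) : ℝ) ≤ 1
    rw [sum_const, Nat.card_Ico, nsmul_eq_mul, mul_one_div, div_le_one h1]
    exact_mod_cast Nat.sub_le _ _
  have hcs0 : 0 ≤ ∑ i ∈ s, 1 / ((i.1.1 * i.1.2 : ℕ) : ℝ) := sum_nonneg fun i hi => (hc i hi).1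
  have hη0 : 0 ≤ 3 * (Y : ℝ) ^ 2 * ε := by positivity
  obtain ⟨s1, hs1⟩ : ∃ s1 : Finset ((ℕ × ℕ) × ℕ), ∀ i, i ∈ s1 ↔ i ∈ s ∧
      Near (3 * (Y : ℝ) ^ 2 * ε) (((((l : ℤ) - l') * (ρ i.1 + l') : ℤ) : ℝ) * i.2 /
        ((i.1.1 * i.1.2 : ℕ) : ℝ)) := ⟨s.filter _, fun i => mem_filter⟩
  have hs1c : (s1.card : ℝ) ≤ (Pm : ℝ) ^ 2 * (2 * J + 1) := by
    rw [card_eq_sum_card_fiberwise (f := Prod.fst) (t := Ps.offDiag)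
      fun i hi => ((hs i).1 ((hs1 i).1 hi).1).1, Nat.cast_sum]
    refine (sum_le_card_nsmul _ _ (2 * (J : ℝ) + 1) fun π hπ => ?_).trans
      (by rw [nsmul_eq_mul]; exact mul_le_mul_of_nonneg_right hoff (by positivity))
    obtain ⟨h1, h2, -⟩ := mem_offDiag.1 hπ
    have hd := hρ π hπ
    have hcop : IsCoprime (((l : ℤ) - l') * (ρ π + l')) ((π.1 * π.2 : ℕ) : ℤ) := by
      rw [Nat.cast_mul] at hd ⊢
      exact IsCoprime.mul_right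
        (corr_cop (hPs _ h1).1 (hPs _ h1).2.1 hP ((dvd_mul_right _ _).trans hd) hl hl' hne)
        (corr_cop (hPs _ h2).1 (hPs _ h2).2.1 hP ((dvd_mul_left _ _).trans hd) hl hl' hne)
    rw [← card_image_of_injOn (f := Prod.snd) fun i hi j hj e =>
      Prod.ext ((mem_filter.1 hi).2.trans (mem_filter.1 hj).2.symm) e]
    refine (count_k _ (hQ0 π hπ) _ hcop _ hη0 _ fun k hk => ?_).trans ?_
    · obtain ⟨i, hi, rfl⟩ := mem_image.1 hk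
      obtain ⟨h3, rfl⟩ := mem_filter.1 hi
      exact ⟨(mem_Ico.1 ((hs i).1 ((hs1 i).1 h3).1).2).2, ((hs1 i).1 h3).2⟩
    · have h3 : ((π.1 * π.2 : ℕ) : ℝ) ≤ (Pm : ℝ) ^ 2 := by exact_mod_cast (hQ π hπ).2
      have h4 := (mul_le_mul_of_nonneg_left h3 hη0).trans hJ
      linarith
  obtain ⟨Cl, hCl⟩ : ∃ Cl : Finset (((ℕ × ℕ) × ℕ) × ((ℕ × ℕ) × ℕ)), ∀ z, z ∈ Cl ↔
      (z.1 ∈ s ∧ z.2 ∈ s) ∧ Near ε (x z.1 + x z.2) ∧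
      Near ε ((((l : ℤ) : ℝ) * x z.1 - ρ z.1.1 * x z.1) +
        (((l' : ℤ) : ℝ) * x z.2 - ρ z.2.1 * x z.2)) ∧
      Near ε (-(((l : ℤ) : ℝ) * (ρ z.1.1 * x z.1)) + -(((l' : ℤ) : ℝ) * (ρ z.2.1 * x z.2))) :=
    ⟨(s ×ˢ s).filter _, fun z => mem_filter.trans (and_congr_left' mem_product)⟩
  have hlR : |((l : ℤ) : ℝ)| ≤ Y := by
    rw [Int.cast_natCast, Nat.abs_cast]
    exact_mod_cast hl2
  have hlR' : |((l' : ℤ) : ℝ)| ≤ Y := by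
    rw [Int.cast_natCast, Nat.abs_cast]
    exact_mod_cast hl2'
  have hClc : (Cl.card : ℝ) ≤ (Pm : ℝ) ^ 2 * (2 * J + 1) *
      ((4 * (Pm : ℝ) ^ 2 / τ0 + 1) * (2 * J + 1) * (T : ℝ) ^ 2) := by
    rw [card_eq_sum_card_fiberwise (f := Prod.fst) (t := s1) fun z hz => ?_, Nat.cast_sum]
    · refine (sum_le_card_nsmul _ _
        ((4 * (Pm : ℝ) ^ 2 / τ0 + 1) * (2 * J + 1) * (T : ℝ) ^ 2) fun i _ => ?_).trans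
        (by rw [nsmul_eq_mul]; exact mul_le_mul_of_nonneg_right hs1c (by positivity))
      rw [← card_image_of_injOn (f := Prod.snd) fun z hz z' hz' e =>
        Prod.ext ((mem_filter.1 hz).2.trans (mem_filter.1 hz').2.symm) e]
      refine window a T X P Pm Y τ0 J hDB ha Ps hPs ρ hρ hτ1 hτ ε _ hε hη0 hJ ((l' : ℤ) - l) l
        (by omega) (abs_le.2 ⟨by omega, by omega⟩) (abs_le.2 ⟨by omega, by omega⟩) hX (x i) _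
        fun j hj => ?_
      obtain ⟨z, hz, rfl⟩ := mem_image.1 hj
      obtain ⟨h3, rfl⟩ := mem_filter.1 hz
      obtain ⟨⟨-, h4⟩, n0, n1, n2⟩ := (hCl z).1 h3
      obtain ⟨h5, h6⟩ := (hs _).1 h4
      refine ⟨h5, (mem_Ico.1 h6).1, (mem_Ico.1 h6).2, by rw [← hx]; exact n0, ?_⟩
      have h7 := near_alg ε Y hY l' l hlR (x z.2) (ρ z.2.1 * x z.2) (x z.1) (ρ z.1.1 * x z.1)
        (by rw [add_comm]; exact n0) (by rw [add_comm]; exact n1) (by rw [add_comm]; exact n2)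
      convert h7 using 1
      rw [hx]
      push_cast
      ring
    · obtain ⟨⟨h4, -⟩, n0, n1, n2⟩ := (hCl z).1 hz
      refine (hs1 _).2 ⟨h4, ?_⟩
      have h7 := near_alg ε Y hY l l' hlR' (x z.1) (ρ z.1.1 * x z.1) (x z.2) (ρ z.2.1 * x z.2)
        n0 n1 n2
      convert h7 using 1
      rw [hx]
      push_cast
      ring
  have hF := four3 s s (fun i => 1 / ((i.1.1 * i.1.2 : ℕ) : ℝ))
    (fun i => 1 / ((i.1.1 * i.1.2 : ℕ) : ℝ)) (1 / (P : ℝ) ^ 2) (by positivity) hc hc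
    (fun i => (x i, ((l : ℤ) : ℝ) * x i - ρ i.1 * x i, -(((l : ℤ) : ℝ) * (ρ i.1 * x i))))
    (fun i => (x i, ((l' : ℤ) : ℝ) * x i - ρ i.1 * x i, -(((l' : ℤ) : ℝ) * (ρ i.1 * x i))))
    W n hW ε η hη hdec Cl fun i hi j hj n0 n1 n2 => (hCl (i, j)).2 ⟨⟨hi, hj⟩, n0, n1, n2⟩
  have hpos : ∀ p ∈ Ps, 0 < p := fun p hp => (hPs p hp).1.pos
  simp only [← corr_expand Ps hpos ρ l s hs x hx, ← corr_expand Ps hpos ρ l' s hs x hx,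
    ← Complex.ofReal_mul, ← Complex.ofReal_sum, Complex.norm_real, Real.norm_eq_abs] at hF
  refine (le_abs_self _).trans (hF.trans (add_le_add
    (mul_le_mul_of_nonneg_left hClc (by positivity)) ?_))
  refine mul_le_mul_of_nonneg_right (mul_le_mul_of_nonneg_right ?_ (by positivity)) hη
  exact (mul_le_mul hcs hcs hcs0 (by positivity)).trans (le_of_eq (by ring))

end Pool.Agent.Lib.MP_9c5702_nt.AC
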