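import Pool.Agent.Lib.MP_9c5702_nt.Cube.Reduce
import Pool.Agent.Lib.MP_9c5702_nt.Q4.Cov

/-! Representations of `a w^3` with a small `a` that is not a cube: notions. -/

set_option autoImplicit false

namespace Pool.Agent.Lib.MP_9c5702_nt.AC

open Finset Pool.Agent.Lib.MP_9c5702_nt.Cube

/-- the divisor bound with constant `T` up to `X` -/
def DB (T X : ℕ) : Prop := ∀ m : ℕ, 1 ≤ m → m ≤ X → m.divisors.card ≤ T

/-- `a` is not a cube -/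
def NC (a : ℕ) : Prop := ∀ b : ℕ, b ^ 3 ≠ a

open Classical in
/-- the Kloosterman fraction `e(c / x mod q)`, zero when `x` is not prime to `q` -/
noncomputable def kf (q : ℕ) (c x : ℤ) : ℂ :=
  if IsCoprime x (q : ℤ) then ec q (c * Int.gcdA x q) else 0

/-- the twice differenced fraction -/
noncomputable def W4 (q : ℕ) (c b s1 s2 s3 t : ℤ) : ℂ :=
  kf q c (b * t + s1) * (starRingEnd ℂ) (kf q c (b * t + s2)) *
    (starRingEnd ℂ) (kf q c (b * t + s3)) * kf q c (b * t + (s2 + s3 - s1))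

noncomputable def er (θ : ℝ) : ℂ := Complex.exp (2 * Real.pi * Complex.I * θ)

/-- `θ` is within `ε` of an integer -/
def Near (ε θ : ℝ) : Prop := ∃ j : ℤ, |θ - j| ≤ ε

def qf (a u v : ℤ) : ℤ := u ^ 3 - a * v ^ 3

def Nm (a t u v : ℤ) : ℤ := t ^ 3 + a * u ^ 3 + a ^ 2 * v ^ 3 - 3 * a * t * u * v

def Cf (t u v : ℤ) : ℤ := u ^ 2 - t * v

def Rf (a t u v : ℤ) : ℤ := t ^ 2 * v + t * u ^ 2 - 2 * a * u * v ^ 2

def Dl (a e g w d z : ℤ) : ℤ := 3 * e * d * (4 * g ^ 3 * (a * w ^ 3 - z ^ 3) - e ^ 3 * d ^ 3)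

def Gp (a e g w m u v t κ : ℤ) : ℤ :=
  3 * e * Nm a t u v * (4 * g ^ 3 * (a * w ^ 3 * m ^ 3 * qf a u v ^ 4 +
    qf a u v * (Nm a t u v * κ + m * w * Rf a t u v) ^ 3) - e ^ 3 * Nm a t u v ^ 3 * qf a u v ^ 4)

def Rel (w d z t u v : ℤ) : Prop := d ∣ t * w ^ 2 + u * z * w + v * z ^ 2

def Good (a w V N : ℕ) (u v : ℤ) : Prop :=
  (N : ℤ) ^ 3 ≤ (V : ℤ) ^ 3 * |qf a u v| ∧ (∀ D : ℕ, (D : ℤ) ^ 2 ∣ qf a u v → D ≤ V ^ 4) ∧
    ∀ g : ℕ, Squarefree g → g ∣ w → (g : ℤ) ∣ qf a u v → g ≤ V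

def HasPair (Ps : Finset ℕ) (a : ℕ) (u v : ℤ) : Prop :=
  ∃ p1 ∈ Ps, ∃ p2 ∈ Ps, p1 ≠ p2 ∧ ((p1 * p2 : ℕ) : ℤ) ∣ qf a u v

/-- the integers of absolute value at most `A` -/
noncomputable def Iv (A : ℕ) : Finset ℤ := Ico (-(A : ℤ)) (-(A : ℤ) + (2 * A + 1 : ℕ))

noncomputable def box2 (A : ℕ) : Finset (ℤ × ℤ) := Iv A ×ˢ Iv A

noncomputable def box3 (A : ℕ) : Finset (ℤ × ℤ × ℤ) := Iv A ×ˢ Iv A ×ˢ Iv A

open Classical in
noncomputable def PS (a w B : ℕ) : Finset (ℕ × ℕ) :=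
  (Icc 1 (2 * B) ×ˢ Icc 1 B).filter fun x => w ≤ 2 * x.1 ∧ x.2 ^ 3 < a * w ^ 3 ∧
    (x.1 : ℤ) ∣ (x.2 : ℤ) ^ 3 - a * (w : ℤ) ^ 3 ∧ IsSquare (Dl a 1 1 w x.1 x.2) ∧
    Dl a 1 1 w x.1 x.2 ≠ 0

open Classical in
noncomputable def PF (a e g w' w G B : ℕ) : Finset (ℕ × ℕ) :=
  (Icc 1 (2 * B) ×ˢ Icc 1 B).filter fun x => w ≤ 2 * G ^ 3 * x.1 ∧ x.1.Coprime w' ∧
    (x.1 : ℤ) ∣ (x.2 : ℤ) ^ 3 - a * (w' : ℤ) ^ 3 ∧ IsSquare (Dl a e g w' x.1 x.2) ∧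
    Dl a e g w' x.1 x.2 ≠ 0 ∧ |Dl a e g w' x.1 x.2| ≤ 72 * (B : ℤ) ^ 4

open Classical in
noncomputable def RS (a e g w' w G B : ℕ) (α : ℤ × ℤ × ℤ) : Finset (ℕ × ℕ) :=
  (PF a e g w' w G B).filter fun x => Rel w' x.1 x.2 α.1 α.2.1 α.2.2

open Classical in
noncomputable def LS (a e g w' : ℕ) (m u v : ℤ) (A K X : ℕ) : Finset (ℤ × ℤ) :=
  (Iv A ×ˢ Iv K).filter fun x => qf a u v ∣ Cf x.1 u v * x.2 - v ^ 2 * m * w' ∧
    IsSquare (Gp a e g w' m u v x.1 x.2) ∧ Gp a e g w' m u v x.1 x.2 ≠ 0 ∧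
    |Gp a e g w' m u v x.1 x.2| ≤ X

open Classical in
noncomputable def Bad0 (a w V N A : ℕ) : Finset (ℤ × ℤ) :=
  (box2 A).filter fun x => ¬ Good a w V N x.1 x.2

open Classical in
noncomputable def Bad1 (Ps : Finset ℕ) (a Y A0 : ℕ) : Finset (ℤ × ℤ × ℤ) :=
  (box3 A0).filter fun α => ∀ l ∈ Icc 1 Y,
    ¬ HasPair Ps a ((l : ℕ) * α.2.1 + α.1) ((l : ℕ) * α.2.2 + α.2.1)

open Classical in
noncomputable def Bad2 (a w V N Y A0 : ℕ) : Finset (ℤ × ℤ × ℤ) :=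
  (box3 A0).filter fun α => ∃ l ∈ Icc 1 Y,
    ¬ Good a w V N ((l : ℕ) * α.2.1 + α.1) ((l : ℕ) * α.2.2 + α.2.1)

/-- the number of pairs of primes that see `α` in direction `l` -/
def Xl (Ps : Finset ℕ) (ρ : ℕ × ℕ → ℤ) (l : ℕ) (α : ℤ × ℤ × ℤ) : ℕ :=
  (Ps.offDiag.filter fun π => ((π.1 * π.2 : ℕ) : ℤ) ∣
    ((l : ℤ) * α.2.1 + α.1) - ρ π * ((l : ℤ) * α.2.2 + α.2.1)).card

noncomputable def mu (Ps : Finset ℕ) : ℝ := ∑ π ∈ Ps.offDiag, 1 / ((π.1 : ℝ) * π.2)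

def W3 (W : ℤ → ℝ) (α : ℤ × ℤ × ℤ) : ℝ := W α.1 * W α.2.1 * W α.2.2

lemma mem_Iv {A : ℕ} {x : ℤ} : x ∈ Iv A ↔ |x| ≤ A := by
  rw [Iv, mem_Ico, abs_le]
  push_cast
  omega

lemma card_Iv (A : ℕ) : (Iv A).card = 2 * A + 1 := by
  rw [Iv, Int.card_Ico]
  omega

lemma mem_box2 {A : ℕ} {x : ℤ × ℤ} : x ∈ box2 A ↔ |x.1| ≤ A ∧ |x.2| ≤ A := by
  simp only [box2, mem_product, mem_Iv]

lemma mem_box3 {A : ℕ} {x : ℤ × ℤ × ℤ} :
    x ∈ box3 A ↔ |x.1| ≤ A ∧ |x.2.1| ≤ A ∧ |x.2.2| ≤ A := by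
  simp only [box3, mem_product, mem_Iv]

lemma card_box2 (A : ℕ) : (box2 A).card = (2 * A + 1) ^ 2 := by
  rw [box2, card_product, card_Iv, sq]

lemma card_box3 (A : ℕ) : (box3 A).card = (2 * A + 1) ^ 3 := by
  rw [box3, card_product, card_product, card_Iv]
  ring

lemma NC.pos {a : ℕ} (h : NC a) : 1 ≤ a :=
  Nat.pos_of_ne_zero fun h0 => h 0 (by simp [h0])

lemma DB.one_le {T X : ℕ} (h : DB T X) (hX : 1 ≤ X) : 1 ≤ T := by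
  simpa using h 1 le_rfl hX

lemma kf_eq {q : ℕ} (c : ℤ) {x y : ℤ} (h : (q : ℤ) ∣ x * y - 1) : kf q c x = ec q (c * y) := by
  obtain ⟨j, hj⟩ := h
  have hc : IsCoprime x (q : ℤ) := ⟨y, -j, by linear_combination hj⟩
  have h1 := Int.gcd_eq_gcd_ab x q
  rw [Int.isCoprime_iff_gcd_eq_one.1 hc] at h1
  rw [kf, if_pos hc]
  refine ec_congr ⟨c * (y * Int.gcdB x q * (-1) - j * Int.gcdA x q), ?_⟩
  push_cast at h1
  linear_combination (-(c * y)) * h1 - c * Int.gcdA x q * hj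

lemma kf_zero {q : ℕ} (c : ℤ) {x : ℤ} (h : ¬ IsCoprime x (q : ℤ)) : kf q c x = 0 := by
  rw [kf, if_neg h]

lemma exists_inv {q : ℕ} {x : ℤ} (h : IsCoprime x (q : ℤ)) : ∃ y : ℤ, (q : ℤ) ∣ x * y - 1 := by
  obtain ⟨y, j, hj⟩ := h
  exact ⟨y, -j, by linear_combination hj⟩

lemma norm_kf_le (q : ℕ) (c x : ℤ) : ‖kf q c x‖ ≤ 1 := by
  rw [kf]
  split_ifs
  · exact (norm_ec _ _).le
  · simp

lemma kf_congr {q : ℕ} {c c' x x' : ℤ} (hc : (q : ℤ) ∣ c - c') (hx : (q : ℤ) ∣ x - x') :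
    kf q c x = kf q c' x' := by
  obtain ⟨j, hj⟩ := hx
  by_cases h : IsCoprime x' (q : ℤ)
  · obtain ⟨y, hy⟩ := exists_inv h
    have hy' : (q : ℤ) ∣ x * y - 1 := by
      rw [show x * y - 1 = (x' * y - 1) + q * (j * y) by linear_combination y * hj]
      exact dvd_add hy (dvd_mul_right _ _)
    rw [kf_eq c hy', kf_eq c' hy]
    exact ec_congr (by rw [← sub_mul]; exact hc.mul_right _)
  · rw [kf_zero c' h, kf_zero c]
    intro h'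
    apply h
    rw [show x' = x + q * (-j) by linear_combination -hj]
    exact h'.add_mul_left_left _

lemma kf_mul {n m : ℕ} (hn : 0 < n) (hm : 0 < m) {u v : ℤ} (h : u * m + v * n = 1) (c x : ℤ) :
    kf (n * m) c x = kf n (c * u) x * kf m (c * v) x := by
  by_cases hx : IsCoprime x ((n * m : ℕ) : ℤ)
  · obtain ⟨y, hy⟩ := exists_inv hx
    have h1 : (n : ℤ) ∣ x * y - 1 := (Int.natCast_dvd_natCast.2 (dvd_mul_right n m)).trans hy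
    have h2 : (m : ℤ) ∣ x * y - 1 := (Int.natCast_dvd_natCast.2 (dvd_mul_left m n)).trans hy
    rw [kf_eq c hy, kf_eq _ h1, kf_eq _ h2, ec_split hn hm h]
    congr 2 <;> ring
  · rw [kf_zero c hx]
    rw [Nat.cast_mul, IsCoprime.mul_right_iff, not_and_or] at hx
    rcases hx with hx | hx
    · rw [kf_zero _ hx, zero_mul]
    · rw [kf_zero _ hx, mul_zero]

lemma er_add (x y : ℝ) : er (x + y) = er x * er y := by
  rw [er, er, er, ← Complex.exp_add]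
  congr 1
  push_cast
  ring

lemma norm_er (x : ℝ) : ‖er x‖ = 1 := by
  rw [er, show 2 * (Real.pi : ℂ) * Complex.I * x = ((2 * Real.pi * x : ℝ) : ℂ) * Complex.I by
    push_cast; ring, Complex.norm_exp_ofReal_mul_I]

lemma ec_eq_er (M : ℕ) (k : ℤ) : ec M k = er ((k : ℝ) / M) := by
  rw [ec, er]
  congr 1
  push_cast
  ring

end Pool.Agent.Lib.MP_9c5702_nt.AC
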