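import Pool.Agent.Shared.Weil.LFun

/-! The multiplicative function attached to a sum of simple fractions. -/

set_option autoImplicit false

namespace Pool.Agent.Lib.MP_9c5702_nt.AC

open Polynomial Finset Pool.Agent.Shared.Weil

variable {p : ℕ} [Fact p.Prime]

open Classical in
noncomputable def eta4 (S : Finset (ZMod p)) (c : ZMod p → ZMod p) (k0 : ZMod p)
    (g : (ZMod p)[X]) : ℂ :=
  if ∃ y ∈ S, g.eval y = 0 then 0 else
    ZMod.stdAddChar (-(∑ y ∈ S, c y * (g.derivative.eval y / g.eval y)) - k0 * g.nextCoeff)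

theorem eta4_mul (S : Finset (ZMod p)) (c : ZMod p → ZMod p) (k0 : ZMod p) (f g : (ZMod p)[X])
    (hf : f.Monic) (hg : g.Monic) : eta4 S c k0 (f * g) = eta4 S c k0 f * eta4 S c k0 g := by
  unfold eta4
  by_cases h : ∃ y ∈ S, f.eval y = 0
  · obtain ⟨y, hy, h0⟩ := h
    rw [if_pos ⟨y, hy, by rw [eval_mul, h0, zero_mul]⟩, if_pos ⟨y, hy, h0⟩, zero_mul]
  by_cases h' : ∃ y ∈ S, g.eval y = 0
  · obtain ⟨y, hy, h0⟩ := h'
    rw [if_pos ⟨y, hy, by rw [eval_mul, h0, mul_zero]⟩, if_neg h, if_pos ⟨y, hy, h0⟩, mul_zero]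
  have h2 : ¬ ∃ y ∈ S, (f * g).eval y = 0 := by
    rintro ⟨y, hy, h0⟩
    rw [eval_mul, mul_eq_zero] at h0
    rcases h0 with h0 | h0
    · exact h ⟨y, hy, h0⟩
    · exact h' ⟨y, hy, h0⟩
  rw [if_neg h, if_neg h', if_neg h2, hf.nextCoeff_mul hg, ← AddChar.map_add_eq_mul]
  have e : ∑ y ∈ S, c y * ((f * g).derivative.eval y / (f * g).eval y) =
      ∑ y ∈ S, c y * (f.derivative.eval y / f.eval y) +
        ∑ y ∈ S, c y * (g.derivative.eval y / g.eval y) := by
    rw [← Finset.sum_add_distrib]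
    refine Finset.sum_congr rfl fun y hy => ?_
    have h3 : f.eval y ≠ 0 := fun h0 => h ⟨y, hy, h0⟩
    have h4 : g.eval y ≠ 0 := fun h0 => h' ⟨y, hy, h0⟩
    rw [derivative_mul, eval_add, eval_mul, eval_mul, eval_mul]
    field_simp
  rw [e]
  congr 1; ring

theorem eta4_zero (S : Finset (ZMod p)) (c : ZMod p → ZMod p) (k0 : ZMod p) :
    ∑ f ∈ mon p 0, eta4 S c k0 f = 1 := by
  have : mon p 0 = {1} := by
    ext f
    simp only [mem_mon, mem_singleton]
    exact ⟨fun h => h.1.natDegree_eq_zero.1 h.2, by rintro rfl; simp⟩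
  have h1 : (1 : (ZMod p)[X]).nextCoeff = 0 := by rw [← C_1, nextCoeff_C_eq_zero]
  simp [this, eta4, h1]

theorem eta4_one (S : Finset (ZMod p)) (c : ZMod p → ZMod p) (k0 : ZMod p) :
    ∑ f ∈ mon p 1, eta4 S c k0 f = ∑ x ∈ univ \ S,
      (ZMod.stdAddChar (∑ y ∈ S, c y * (x - y)⁻¹ + k0 * x) : ℂ) := by
  have e : ∑ x : ZMod p, eta4 S c k0 (X - C x) = ∑ f ∈ mon p 1, eta4 S c k0 f := by
    refine Finset.sum_bij (fun x _ => X - C x) (fun x _ => mem_mon.2 ⟨monic_X_sub_C x, by simp⟩)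
      (fun x _ y _ h => C_injective (sub_right_injective h)) (fun f hf => ?_) fun x _ => rfl
    obtain ⟨hm, hd⟩ := mem_mon.1 hf
    exact ⟨-f.coeff 0, mem_univ _, by rw [map_neg, sub_neg_eq_add, ← hm.eq_X_add_C hd]⟩
  rw [← e]
  symm
  refine (Finset.sum_congr rfl fun x hx => ?_).trans
    (Finset.sum_subset (subset_univ (univ \ S)) fun x _ hx => ?_)
  · have hxS : x ∉ S := (mem_sdiff.1 hx).2
    have h2 : ¬ ∃ y ∈ S, (X - C x : (ZMod p)[X]).eval y = 0 := by
      rintro ⟨y, hy, h0⟩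
      rw [eval_sub, eval_X, eval_C, sub_eq_zero] at h0
      exact hxS (h0 ▸ hy)
    rw [eta4, if_neg h2, nextCoeff_X_sub_C, ← Finset.sum_neg_distrib]
    congr 1
    rw [mul_neg, sub_neg_eq_add]
    congr 1
    refine Finset.sum_congr rfl fun y _ => ?_
    rw [derivative_X_sub_C, eval_one, eval_sub, eval_X, eval_C, one_div, ← mul_neg, ← inv_neg,
      neg_sub]
  · have hxS : x ∈ S := by
      by_contra h
      exact hx (mem_sdiff.2 ⟨mem_univ _, h⟩)
    rw [eta4, if_pos ⟨x, hxS, by simp⟩]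

theorem eta4_big (S : Finset (ZMod p)) (c : ZMod p → ZMod p) (k0 x0 : ZMod p) (hx0 : x0 ∈ S)
    (hc : c x0 ≠ 0) (d : ℕ) (hd : 2 * S.card < d) : ∑ f ∈ mon p d, eta4 S c k0 f = 0 := by
  classical
  obtain ⟨Q, hQ⟩ : ∃ Q : (ZMod p)[X], Q = ∏ y ∈ S.erase x0, (X - C y) := ⟨_, rfl⟩
  obtain ⟨Pz, hPz⟩ : ∃ Pz : (ZMod p)[X], Pz = (X - C x0) * Q ^ 2 := ⟨_, rfl⟩
  have hcard : 0 < S.card := card_pos.2 ⟨x0, hx0⟩
  have hQm : Q.Monic := hQ ▸ monic_prod_of_monic _ _ fun y _ => monic_X_sub_C y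
  have hQd : Q.natDegree = S.card - 1 := by
    rw [hQ, natDegree_prod_of_monic _ _ fun y _ => monic_X_sub_C y]
    simp [card_erase_of_mem hx0]
  have hPd : Pz.natDegree = 2 * S.card - 1 := by
    rw [hPz, (monic_X_sub_C x0).natDegree_mul (hQm.pow 2), natDegree_X_sub_C, hQm.natDegree_pow,
      hQd]
    omega
  have hQ0 : ∀ y ∈ S.erase x0, Q.eval y = 0 := fun y hy => by
    rw [hQ, eval_prod]
    exact Finset.prod_eq_zero hy (by simp)
  have hQx : Q.eval x0 ≠ 0 := by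
    rw [hQ, eval_prod]
    refine Finset.prod_ne_zero_iff.2 fun y hy => ?_
    rw [eval_sub, eval_X, eval_C]
    exact sub_ne_zero.2 (ne_of_mem_erase hy).symm
  have hP0 : ∀ y ∈ S, Pz.eval y = 0 := fun y hy => by
    by_cases h : y = x0
    · simp [hPz, h]
    · simp [hPz, hQ0 y (mem_erase.2 ⟨h, hy⟩)]
  have hP1 : ∀ y ∈ S.erase x0, Pz.derivative.eval y = 0 := fun y hy => by
    simp [hPz, derivative_mul, derivative_pow, hQ0 y hy]
  have hP2 : Pz.derivative.eval x0 = Q.eval x0 ^ 2 := by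
    simp [hPz, derivative_mul]
  have hdeg : ∀ lam : ZMod p, (C lam * Pz).natDegree < d - 1 := fun lam =>
    (natDegree_C_mul_le lam Pz).trans_lt (by omega)
  have hsh : ∀ lam : ZMod p, ∀ f ∈ mon p d, f + C lam * Pz ∈ mon p d := fun lam f hf => by
    obtain ⟨hm, hf⟩ := mem_mon.1 hf
    have h1 : (C lam * Pz).natDegree < f.natDegree := (hdeg lam).trans_le (by omega)
    exact mem_mon.2 ⟨hm.add_of_left (degree_lt_degree h1),
      (natDegree_add_eq_left_of_natDegree_lt h1).trans hf⟩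
  have e : ∀ lam : ZMod p, ∑ f ∈ mon p d, eta4 S c k0 (f + C lam * Pz) =
      ∑ f ∈ mon p d, eta4 S c k0 f := fun lam =>
    Finset.sum_nbij' (fun f => f + C lam * Pz) (fun f => f + C (-lam) * Pz)
      (hsh lam) (hsh (-lam)) (fun f _ => by simp) (fun f _ => by simp) fun f _ => rfl
  have e2 : ∀ f ∈ mon p d, ∑ lam : ZMod p, eta4 S c k0 (f + C lam * Pz) = 0 := fun f hf => by
    have hev : ∀ lam : ZMod p, ∀ y ∈ S, (f + C lam * Pz).eval y = f.eval y := fun lam y hy => by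
      rw [eval_add, eval_mul, hP0 y hy, mul_zero, add_zero]
    by_cases h : ∃ y ∈ S, f.eval y = 0
    · obtain ⟨y, hy, h0⟩ := h
      exact Finset.sum_eq_zero fun lam _ => by
        rw [eta4, if_pos ⟨y, hy, (hev lam y hy).trans h0⟩]
    have hf0 : f.eval x0 ≠ 0 := fun h0 => h ⟨x0, hx0, h0⟩
    have e3 : ∀ lam : ZMod p, eta4 S c k0 (f + C lam * Pz) = eta4 S c k0 f *
        ZMod.stdAddChar (lam * -(c x0 * Q.eval x0 ^ 2 / f.eval x0)) := fun lam => by
      have h2 : ¬ ∃ y ∈ S, (f + C lam * Pz).eval y = 0 := by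
        rintro ⟨y, hy, h0⟩
        exact h ⟨y, hy, (hev lam y hy).symm.trans h0⟩
      have h3 := (mem_mon.1 (hsh lam f hf)).2
      have h4 := (mem_mon.1 hf).2
      have h5 : (f + C lam * Pz).nextCoeff = f.nextCoeff := by
        rw [nextCoeff_of_natDegree_pos (p := f) (by omega),
          nextCoeff_of_natDegree_pos (by omega), h3, h4, coeff_add,
          coeff_eq_zero_of_natDegree_lt (hdeg lam), add_zero]
      have h6 : ∑ y ∈ S, c y * ((f + C lam * Pz).derivative.eval y / (f + C lam * Pz).eval y) =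
          ∑ y ∈ S, c y * (f.derivative.eval y / f.eval y) +
            lam * (c x0 * Q.eval x0 ^ 2 / f.eval x0) := by
        rw [← Finset.add_sum_erase S _ hx0, ← Finset.add_sum_erase S _ hx0]
        have h7 : ∑ y ∈ S.erase x0,
            c y * ((f + C lam * Pz).derivative.eval y / (f + C lam * Pz).eval y) =
            ∑ y ∈ S.erase x0, c y * (f.derivative.eval y / f.eval y) :=
          Finset.sum_congr rfl fun y hy => by
            rw [hev lam y (mem_of_mem_erase hy), derivative_add, derivative_C_mul, eval_add,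
              eval_mul, hP1 y hy, mul_zero, add_zero]
        rw [h7, hev lam x0 hx0, derivative_add, derivative_C_mul, eval_add, eval_mul, eval_C, hP2]
        ring
      rw [eta4, eta4, if_neg h2, if_neg h, h5, h6, ← AddChar.map_add_eq_mul]
      congr 1; ring
    simp only [e3]
    rw [← Finset.mul_sum, AddChar.sum_mulShift _ (ZMod.isPrimitive_stdAddChar p), if_neg,
      Nat.cast_zero, mul_zero]
    exact neg_ne_zero.2 (div_ne_zero (mul_ne_zero hc (pow_ne_zero 2 hQx)) hf0)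
  have e4 : ∑ lam : ZMod p, ∑ f ∈ mon p d, eta4 S c k0 (f + C lam * Pz) = 0 := by
    rw [Finset.sum_comm]
    exact Finset.sum_eq_zero e2
  simp only [e, Finset.sum_const, card_univ, ZMod.card, nsmul_eq_mul] at e4
  exact (mul_eq_zero.1 e4).resolve_left (Nat.cast_ne_zero.2 (Fact.out : p.Prime).ne_zero)

end Pool.Agent.Lib.MP_9c5702_nt.AC
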