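import Pool.Agent.Lib.MP_9c5702_nt.AC.Eta

/-! The value at a characteristic polynomial is the character of a trace. -/

set_option autoImplicit false

namespace Pool.Agent.Lib.MP_9c5702_nt.AC

open Polynomial Finset Pool.Agent.Shared.Weil

variable {p : ℕ} [Fact p.Prime]

lemma etacp_sub {K L : Type} [Field K] [Field L] [Algebra K L] [FiniteDimensional K L]
    (x : L) (y : K) : cp K (x - algebraMap K L y) = (cp K x).comp (X + C y) := by
  have hadj : IntermediateField.adjoin K {x - algebraMap K L y} = IntermediateField.adjoin K {x} := by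
    refine le_antisymm (IntermediateField.adjoin_simple_le_iff.2 ?_)
      (IntermediateField.adjoin_simple_le_iff.2 ?_)
    · exact sub_mem (IntermediateField.mem_adjoin_simple_self K x)
        (IntermediateField.algebraMap_mem _ y)
    · have h := add_mem (IntermediateField.mem_adjoin_simple_self K (x - algebraMap K L y))
        (IntermediateField.algebraMap_mem
          (IntermediateField.adjoin K {x - algebraMap K L y}) y)
      rwa [sub_add_cancel] at h
  rw [cp, cp, minpoly.sub_algebraMap, hadj, pow_comp]

lemma etacp_coeff_zero {K L : Type} [Field K] [Field L] [Algebra K L] [FiniteDimensional K L]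
    (x : L) (y : K) : (cp K (x - algebraMap K L y)).coeff 0 = (cp K x).eval y := by
  rw [etacp_sub, ← taylor_apply, taylor_coeff_zero]

lemma etacp_coeff_one {K L : Type} [Field K] [Field L] [Algebra K L] [FiniteDimensional K L]
    (x : L) (y : K) : (cp K (x - algebraMap K L y)).coeff 1 = (cp K x).derivative.eval y := by
  rw [etacp_sub, ← taylor_apply, taylor_coeff_one]

theorem eta4_cp {L : Type} [Field L] [Algebra (ZMod p) L] [FiniteDimensional (ZMod p) L]
    (S : Finset (ZMod p)) (c : ZMod p → ZMod p) (k0 : ZMod p) (x : L) :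
    ((∃ y ∈ S, x = algebraMap (ZMod p) L y) → eta4 S c k0 (cp (ZMod p) x) = 0) ∧
    ((∀ y ∈ S, x ≠ algebraMap (ZMod p) L y) → eta4 S c k0 (cp (ZMod p) x) =
      ZMod.stdAddChar (Algebra.trace (ZMod p) L
        (∑ y ∈ S, algebraMap (ZMod p) L (c y) * (x - algebraMap (ZMod p) L y)⁻¹ +
          algebraMap (ZMod p) L k0 * x))) := by
  constructor
  · rintro ⟨y, hy, h⟩
    rw [eta4, if_pos]
    refine ⟨y, hy, ?_⟩
    rw [← etacp_coeff_zero, h, sub_self, cp_zero]
  · intro h
    have hne : ∀ y ∈ S, x - algebraMap (ZMod p) L y ≠ 0 := fun y hy => sub_ne_zero.2 (h y hy)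
    rw [eta4, if_neg]
    · congr 1
      rw [map_add, map_sum, ← Algebra.smul_def, map_smul, trace_cp, smul_eq_mul,
        ← Finset.sum_neg_distrib, sub_eq_add_neg, mul_neg]
      congr 1
      refine Finset.sum_congr rfl fun y hy => ?_
      rw [← Algebra.smul_def, map_smul, trace_inv_cp _ (hne y hy), ld, etacp_coeff_zero,
        etacp_coeff_one, smul_eq_mul, mul_neg]
    · rintro ⟨y, hy, h0⟩
      exact cp_coeff_zero _ (hne y hy) (by rw [etacp_coeff_zero, h0])

end Pool.Agent.Lib.MP_9c5702_nt.AC
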