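import Pool.Agent.Lib.MP_9c5702_nt.AC.Param

/-! The count for fixed common factors. -/

set_option autoImplicit false

namespace Pool.Agent.Lib.MP_9c5702_nt.AC

open Finset Pool.Agent.Lib.MP_9c5702_nt.Cube

theorem fixed_abs {l Y b A0 : ℕ} {x y c : ℤ} (hl : l ≤ Y) (hx : |x| ≤ A0) (hy : |y| ≤ A0)
    (hc0 : 0 ≤ c) (hc : c ≤ b) : |(l : ℤ) * x + c * y| ≤ ((Y + b) * A0 : ℕ) := by
  have h1 : (l : ℤ) ≤ Y := by exact_mod_cast hl
  calc |(l : ℤ) * x + c * y| ≤ |(l : ℤ) * x| + |c * y| := abs_add_le _ _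
    _ = l * |x| + c * |y| := by
        rw [abs_mul, abs_mul, abs_of_nonneg hc0, abs_of_nonneg (Int.natCast_nonneg l)]
    _ ≤ Y * A0 + b * A0 := by gcongr
    _ = _ := by push_cast; ring

theorem fixed_le {x d w G S M : ℤ} (hx : 0 ≤ x) (hw : 1 ≤ w) (hG : 0 ≤ G) (h1 : x * d ≤ S)
    (h2 : w ≤ 2 * G * d) (h3 : 2 * G * S ≤ M * w) : x ≤ M := by
  refine le_of_mul_le_mul_right ?_ (show 0 < w by omega)
  calc x * w ≤ x * (2 * G * d) := by gcongr
    _ = 2 * G * (x * d) := by ring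
    _ ≤ 2 * G * S := by gcongr
    _ ≤ M * w := h3

theorem count_fixed (a e g w' w G B X A0 Y A V N M K : ℕ) (Ps : Finset ℕ) (ha : NC a) (hN : 1 ≤ N)
    (hw : 1 ≤ w) (hw' : w' ≤ B) (hA0 : 2 * B < (A0 + 1) ^ 3) (hA : (Y + a) * A0 ≤ A)
    (hM : 12 * G ^ 3 * a ^ 2 * A ^ 3 ≤ M * w) (hK : 12 * G ^ 3 * a * A ^ 3 * B ≤ K * w)
    (hX : 72 * B ^ 4 * (M ^ 2 * (2 * a * A ^ 3) ^ 2) ^ 2 ≤ X) (μ ℓ : ℝ) (hμ0 : 0 ≤ μ) (hℓ0 : 0 ≤ ℓ)
    (hμ : ∀ α ∈ box3 A0, α ≠ 0 → ((RS a e g w' w G B α).card : ℝ) ≤ μ)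
    (hl : ∀ u v m : ℤ, |u| ≤ A → |v| ≤ A → Good a w V N u v → HasPair Ps a u v → m ≠ 0 →
      |m| ≤ M → ((LS a e g w' m u v A K X).card : ℝ) ≤ ℓ) :
    ((PF a e g w' w G B).card : ℝ) ≤
      μ * ((Bad1 Ps a Y A0).card + (Bad2 a w V N Y A0).card) +
        (2 * A + 1) ^ 2 * (2 * M + 1) * ℓ := by
  classical
  set Bd := (Bad1 Ps a Y A0 ∪ Bad2 a w V N Y A0).erase 0 with hBd
  set U := Bd.biUnion fun α => RS a e g w' w G B α with hU
  set Idx := (Iv A ×ˢ Iv A ×ˢ Iv M).filter fun i : ℤ × ℤ × ℤ =>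
    Good a w V N i.1 i.2.1 ∧ HasPair Ps a i.1 i.2.1 ∧ i.2.2 ≠ 0 ∧ qf a i.1 i.2.1 ≠ 0 with hIdx
  set T := Idx.sigma fun i => LS a e g w' i.2.2 i.1 i.2.1 A K X with hT
  have ha1 := ha.pos
  have h1 : (U.card : ℝ) ≤ μ * ((Bad1 Ps a Y A0).card + (Bad2 a w V N Y A0).card) := by
    have c1 : (U.card : ℝ) ≤ ∑ α ∈ Bd, ((RS a e g w' w G B α).card : ℝ) := by
      exact_mod_cast card_biUnion_le
    have c2 : ∑ α ∈ Bd, ((RS a e g w' w G B α).card : ℝ) ≤ Bd.card • μ := by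
      refine sum_le_card_nsmul _ _ _ fun α hα => hμ α ?_ (mem_erase.1 hα).1
      rcases mem_union.1 (mem_erase.1 hα).2 with h | h
      · exact (mem_filter.1 h).1
      · exact (mem_filter.1 h).1
    have c3 : (Bd.card : ℝ) ≤ (Bad1 Ps a Y A0).card + (Bad2 a w V N Y A0).card := by
      exact_mod_cast card_erase_le.trans (card_union_le _ _)
    rw [nsmul_eq_mul, mul_comm] at c2
    exact c1.trans (c2.trans (mul_le_mul_of_nonneg_left c3 hμ0))
  have h2 : (T.card : ℝ) ≤ (2 * A + 1) ^ 2 * (2 * M + 1) * ℓ := by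
    rw [hT, card_sigma]
    push_cast
    have c2 : ∑ i ∈ Idx, ((LS a e g w' i.2.2 i.1 i.2.1 A K X).card : ℝ) ≤ Idx.card • ℓ := by
      refine sum_le_card_nsmul _ _ _ fun i hi => ?_
      obtain ⟨b1, b2, b3, b4, -⟩ := mem_filter.1 hi
      simp only [mem_product, mem_Iv] at b1
      exact hl _ _ _ b1.1 b1.2.1 b2 b3 b4 b1.2.2
    have c3 : Idx.card ≤ (2 * A + 1) ^ 2 * (2 * M + 1) := by
      refine (card_filter_le _ _).trans (le_of_eq ?_)
      rw [card_product, card_product, card_Iv, card_Iv]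
      ring
    rw [nsmul_eq_mul] at c2
    refine c2.trans (mul_le_mul_of_nonneg_right ?_ hℓ0)
    exact_mod_cast c3
  have h3 : (PF a e g w' w G B \ U).card ≤ T.card := by
    refine card_le_card_of_forall_subsingleton
      (fun (x : ℕ × ℕ) (y : (_ : ℤ × ℤ × ℤ) × (ℤ × ℤ)) =>
        y.1.2.2 * x.1 = Nm a y.2.1 y.1.1 y.1.2.1 ∧
          x.1 * y.2.2 = -(x.2 * qf a y.1.1 y.1.2.1 + w' * Rf a y.2.1 y.1.1 y.1.2.1)) ?_ ?_
    · rintro ⟨d, z⟩ hx
      obtain ⟨hP, hnU⟩ := mem_sdiff.1 hx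
      obtain ⟨b0, b1, b2, b3, b4, b5, b6⟩ := mem_filter.1 hP
      simp only [mem_product, mem_Icc] at b0 b1 b2 b3 b4 b5 b6
      obtain ⟨⟨d1, d2⟩, z1, z2⟩ := b0
      have hc : IsCoprime (d : ℤ) (w' : ℤ) := Nat.isCoprime_iff_coprime.2 b2
      obtain ⟨α, α0, αb, αd⟩ := short_vec d A0 d1 (by omega) ((w' : ℤ) ^ 2) (z * w') ((z : ℤ) ^ 2)
      have hrel : Rel w' d z α.1 α.2.1 α.2.2 := by
        rw [Rel, mul_assoc]
        exact αd
      have hnb : α ∉ Bad1 Ps a Y A0 ∪ Bad2 a w V N Y A0 := fun h =>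
        hnU (mem_biUnion.2 ⟨α, mem_erase.2 ⟨α0, h⟩, mem_filter.2 ⟨hP, hrel⟩⟩)
      rw [mem_union, not_or, Bad1, Bad2, mem_filter, mem_filter] at hnb
      obtain ⟨n1, n2⟩ := hnb
      push Not at n1 n2
      obtain ⟨l, hl1, hpair⟩ := n1 αb
      have hgood := n2 αb l hl1
      obtain ⟨s1, s2, s3⟩ := mem_box3.1 αb
      have hlY := (mem_Icc.1 hl1).2
      have hA' : (((Y + a) * A0 : ℕ) : ℤ) ≤ A := by exact_mod_cast hA
      have ha' : (1 : ℤ) ≤ a := by exact_mod_cast ha1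
      have ht : |(l : ℤ) * α.1 + a * α.2.2| ≤ A :=
        (fixed_abs hlY s1 s3 (Int.natCast_nonneg a) le_rfl).trans hA'
      have hu : |(l : ℤ) * α.2.1 + α.1| ≤ A := by
        simpa only [one_mul] using (fixed_abs hlY s2 s1 zero_le_one ha').trans hA'
      have hv : |(l : ℤ) * α.2.2 + α.2.1| ≤ A := by
        simpa only [one_mul] using (fixed_abs hlY s3 s2 zero_le_one ha').trans hA'
      have hrel' := rel_mul a w' d z _ _ _ l hc b3 hrel
      generalize (l : ℤ) * α.1 + a * α.2.2 = t at ht hrel'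
      generalize (l : ℤ) * α.2.1 + α.1 = u at hu hrel' hpair hgood
      generalize (l : ℤ) * α.2.2 + α.2.1 = v at hv hrel' hpair hgood
      obtain ⟨m, κ, p1, p2, p3, p4⟩ := param a w' d z t u v hc b3 hrel'
      obtain ⟨q1, q2, q3⟩ := sizes a A ha1 t u v ht hu hv
      have hq : qf a u v ≠ 0 := fun h => by
        have h4 := hgood.1
        rw [h, abs_zero, mul_zero] at h4
        have h5 : (0 : ℤ) < (N : ℤ) ^ 3 := by positivity
        omega
      have huv : u ≠ 0 ∨ v ≠ 0 := by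
        by_contra h
        push Not at h
        exact hq (by rw [h.1, h.2, qf]; simp)
      have hm : m ≠ 0 := fun h => nm_ne ha t u v (Or.inr huv) (by rw [← p1, h, zero_mul])
      have hw1 : (1 : ℤ) ≤ w := by exact_mod_cast hw
      have hd0 : (0 : ℤ) ≤ d := Int.natCast_nonneg d
      have hb1 : (w : ℤ) ≤ 2 * (G : ℤ) ^ 3 * d := by exact_mod_cast b1
      have hmM : |m| ≤ M := by
        refine fixed_le (S := 6 * (a : ℤ) ^ 2 * (A : ℤ) ^ 3) (abs_nonneg m) hw1 (by positivity) ?_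
          hb1 ?_
        · rw [← abs_of_nonneg hd0, ← abs_mul, p1]
          exact q3
        · have : ((12 * G ^ 3 * a ^ 2 * A ^ 3 : ℕ) : ℤ) ≤ (M * w : ℕ) := by exact_mod_cast hM
          push_cast at this
          linarith
      have hκ : |κ| ≤ K := by
        refine fixed_le (S := 6 * (a : ℤ) * (A : ℤ) ^ 3 * B) (abs_nonneg κ) hw1 (by positivity) ?_
          hb1 ?_
        · rw [← abs_of_nonneg hd0, ← abs_mul, mul_comm, p2, abs_neg]
          have e1 : (z : ℤ) ≤ B := by exact_mod_cast z2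
          have e2 : (w' : ℤ) ≤ B := by exact_mod_cast hw'
          calc |(z : ℤ) * qf a u v + w' * Rf a t u v|
              ≤ |(z : ℤ) * qf a u v| + |(w' : ℤ) * Rf a t u v| := abs_add_le _ _
            _ = z * |qf a u v| + w' * |Rf a t u v| := by
                rw [abs_mul, abs_mul, abs_of_nonneg (Int.natCast_nonneg z),
                  abs_of_nonneg (Int.natCast_nonneg w')]
            _ ≤ B * (2 * a * (A : ℤ) ^ 3) + B * (4 * a * (A : ℤ) ^ 3) := by gcongr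
            _ = _ := by ring
        · have : ((12 * G ^ 3 * a * A ^ 3 * B : ℕ) : ℤ) ≤ (K * w : ℕ) := by exact_mod_cast hK
          push_cast at this
          linarith
      refine ⟨⟨(u, v, m), (t, κ)⟩, mem_sigma.2 ⟨mem_filter.2 ⟨?_, hgood, hpair, hm, hq⟩,
        mem_filter.2 ⟨?_, p3 (by omega), ?_, ?_, ?_⟩⟩, p1, p2⟩
      · simp only [mem_product, mem_Iv]
        exact ⟨hu, hv, hmM⟩
      · simp only [mem_product, mem_Iv]
        exact ⟨ht, hκ⟩
      · simp only [p4]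
        exact b4.mul (IsSquare.sq _)
      · simp only [p4]
        exact mul_ne_zero b5 (by positivity)
      · simp only [p4]
        have e1 : ((72 * B ^ 4 * (M ^ 2 * (2 * a * A ^ 3) ^ 2) ^ 2 : ℕ) : ℤ) ≤ X := by
          exact_mod_cast hX
        push_cast at e1
        refine le_trans ?_ e1
        rw [abs_mul, abs_pow, abs_mul, abs_pow, abs_pow]
        gcongr
    · rintro ⟨⟨u, v, m⟩, t, κ⟩ hy ⟨d, z⟩ ⟨-, a1, a2⟩ ⟨d', z'⟩ ⟨-, a3, a4⟩
      obtain ⟨-, -, -, hm, hq⟩ := mem_filter.1 (mem_sigma.1 hy).1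
      simp only at a1 a2 a3 a4 hm hq
      have e1 : (d : ℤ) = d' := mul_left_cancel₀ hm (a1.trans a3.symm)
      rw [← e1, a2] at a4
      have e2 : (z : ℤ) = z' := mul_right_cancel₀ hq (by linarith)
      exact Prod.ext (by exact_mod_cast e1) (by exact_mod_cast e2)
  have h4 : (PF a e g w' w G B).card ≤ U.card + T.card :=
    (card_le_card_sdiff_add_card.trans (Nat.add_le_add_right h3 _)).trans (le_of_eq (add_comm _ _))
  have h5 : ((PF a e g w' w G B).card : ℝ) ≤ U.card + T.card := by exact_mod_cast h4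
  linarith

end Pool.Agent.Lib.MP_9c5702_nt.AC
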