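import Pool.Agent.Lib.MP_9c5702_nt.AC.Defs

/-! Products of two trigonometric sums against a weight. -/

set_option autoImplicit false

namespace Pool.Agent.Lib.MP_9c5702_nt.AC

open Finset Pool.Agent.Lib.MP_9c5702_nt.Cube

lemma four3_norm (W : ℤ → ℝ) (n : ℕ) (hW : ∀ x, 0 ≤ W x ∧ W x ≤ 1) (θ : ℝ) :
    ‖∑ x ∈ Iv n, (W x : ℂ) * er (θ * x)‖ ≤ 2 * n + 1 := by
  refine (norm_sum_le _ _).trans ?_
  have h : ∀ x ∈ Iv n, ‖(W x : ℂ) * er (θ * x)‖ ≤ (1 : ℝ) := by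
    intro x _
    rw [norm_mul, norm_er, mul_one, Complex.norm_real, Real.norm_eq_abs, abs_of_nonneg (hW x).1]
    exact (hW x).2
  refine (sum_le_card_nsmul _ _ _ h).trans ?_
  rw [card_Iv, nsmul_eq_mul, mul_one]
  push_cast
  exact le_rfl

lemma four3_fac (W : ℤ → ℝ) (n : ℕ) (a b d : ℝ) :
    ∑ α ∈ box3 n, (W3 W α : ℂ) * er (a * α.1 + b * α.2.1 + d * α.2.2) =
      (∑ x ∈ Iv n, (W x : ℂ) * er (a * x)) * ((∑ x ∈ Iv n, (W x : ℂ) * er (b * x)) *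
        ∑ x ∈ Iv n, (W x : ℂ) * er (d * x)) := by
  rw [sum_mul_sum (Iv n) (Iv n) (fun x : ℤ => (W x : ℂ) * er (b * x)), ← sum_product',
    sum_mul_sum, ← sum_product', box3]
  refine sum_congr rfl fun α _ => ?_
  rw [er_add, er_add, W3]
  push_cast
  ring

lemma four3_term (W : ℤ → ℝ) (n : ℕ) (hW : ∀ x, 0 ≤ W x ∧ W x ≤ 1) (ε η : ℝ) (hη : 0 ≤ η)
    (hdec : ∀ θ : ℝ, ¬ Near ε θ → ‖∑ x ∈ Iv n, (W x : ℂ) * er (θ * x)‖ ≤ η) (a b d : ℝ) :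
    ‖∑ α ∈ box3 n, (W3 W α : ℂ) * er (a * α.1 + b * α.2.1 + d * α.2.2)‖ ≤ (2 * n + 1) ^ 3 ∧
      (¬ (Near ε a ∧ Near ε b ∧ Near ε d) →
        ‖∑ α ∈ box3 n, (W3 W α : ℂ) * er (a * α.1 + b * α.2.1 + d * α.2.2)‖ ≤
          (2 * n + 1) ^ 2 * η) := by
  rw [four3_fac, norm_mul, norm_mul]
  have ha := four3_norm W n hW a
  have hb := four3_norm W n hW b
  have hd := four3_norm W n hW d
  have hn : (0 : ℝ) ≤ 2 * n + 1 := by positivity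
  refine ⟨?_, fun h => ?_⟩
  · calc _ ≤ (2 * n + 1 : ℝ) * ((2 * n + 1) * (2 * n + 1)) := by gcongr
      _ = _ := by ring
  · by_cases h1 : Near ε a
    · by_cases h2 : Near ε b
      · have h3 := hdec d fun h3 => h ⟨h1, h2, h3⟩
        calc _ ≤ (2 * n + 1 : ℝ) * ((2 * n + 1) * η) := by gcongr
          _ = _ := by ring
      · have h3 := hdec b h2
        calc _ ≤ (2 * n + 1 : ℝ) * (η * (2 * n + 1)) := by gcongr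
          _ = _ := by ring
    · have h3 := hdec a h1
      calc _ ≤ η * ((2 * n + 1 : ℝ) * (2 * n + 1)) := by gcongr
        _ = _ := by ring

theorem four3 {ι κ : Type} (s : Finset ι) (s' : Finset κ) (c : ι → ℝ) (c' : κ → ℝ) (cb : ℝ)
    (hcb : 0 ≤ cb) (hc : ∀ i ∈ s, 0 ≤ c i ∧ c i ≤ cb) (hc' : ∀ j ∈ s', 0 ≤ c' j ∧ c' j ≤ cb)
    (ξ : ι → ℝ × ℝ × ℝ) (ξ' : κ → ℝ × ℝ × ℝ) (W : ℤ → ℝ) (n : ℕ) (hW : ∀ x, 0 ≤ W x ∧ W x ≤ 1)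
    (ε η : ℝ) (hη : 0 ≤ η)
    (hdec : ∀ θ : ℝ, ¬ Near ε θ → ‖∑ x ∈ Iv n, (W x : ℂ) * er (θ * x)‖ ≤ η)
    (Cl : Finset (ι × κ))
    (hCl : ∀ i ∈ s, ∀ j ∈ s', Near ε ((ξ i).1 + (ξ' j).1) → Near ε ((ξ i).2.1 + (ξ' j).2.1) →
      Near ε ((ξ i).2.2 + (ξ' j).2.2) → (i, j) ∈ Cl) :
    ‖∑ α ∈ box3 n, (W3 W α : ℂ) *
      ((∑ i ∈ s, (c i : ℂ) * er ((ξ i).1 * α.1 + (ξ i).2.1 * α.2.1 + (ξ i).2.2 * α.2.2)) *
        ∑ j ∈ s', (c' j : ℂ) * er ((ξ' j).1 * α.1 + (ξ' j).2.1 * α.2.1 + (ξ' j).2.2 * α.2.2))‖ ≤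
      (2 * n + 1) ^ 3 * cb ^ 2 * Cl.card +
        (∑ i ∈ s, c i) * (∑ j ∈ s', c' j) * (2 * n + 1) ^ 2 * η := by
  classical
  have e1 : ∑ α ∈ box3 n, (W3 W α : ℂ) *
      ((∑ i ∈ s, (c i : ℂ) * er ((ξ i).1 * α.1 + (ξ i).2.1 * α.2.1 + (ξ i).2.2 * α.2.2)) *
        ∑ j ∈ s', (c' j : ℂ) * er ((ξ' j).1 * α.1 + (ξ' j).2.1 * α.2.1 + (ξ' j).2.2 * α.2.2)) =
      ∑ x ∈ s ×ˢ s', ((c x.1 * c' x.2 : ℝ) : ℂ) * ∑ α ∈ box3 n, (W3 W α : ℂ) *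
        er (((ξ x.1).1 + (ξ' x.2).1) * α.1 + ((ξ x.1).2.1 + (ξ' x.2).2.1) * α.2.1 +
          ((ξ x.1).2.2 + (ξ' x.2).2.2) * α.2.2) := by
    simp_rw [mul_sum (box3 n)]
    rw [sum_comm]
    refine sum_congr rfl fun α _ => ?_
    rw [sum_mul_sum, ← sum_product', mul_sum]
    refine sum_congr rfl fun x _ => ?_
    rw [show ((ξ x.1).1 + (ξ' x.2).1) * (α.1 : ℝ) + ((ξ x.1).2.1 + (ξ' x.2).2.1) * α.2.1 +
        ((ξ x.1).2.2 + (ξ' x.2).2.2) * α.2.2 =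
        ((ξ x.1).1 * α.1 + (ξ x.1).2.1 * α.2.1 + (ξ x.1).2.2 * α.2.2) +
        ((ξ' x.2).1 * α.1 + (ξ' x.2).2.1 * α.2.1 + (ξ' x.2).2.2 * α.2.2) by ring,
      er_add ((ξ x.1).1 * α.1 + (ξ x.1).2.1 * α.2.1 + (ξ x.1).2.2 * α.2.2)]
    push_cast
    ring
  rw [e1]
  refine (norm_sum_le _ _).trans ?_
  have hn : (0 : ℝ) ≤ 2 * n + 1 := by positivity
  have h2 : ∀ x ∈ s ×ˢ s', ‖((c x.1 * c' x.2 : ℝ) : ℂ) * ∑ α ∈ box3 n, (W3 W α : ℂ) *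
        er (((ξ x.1).1 + (ξ' x.2).1) * α.1 + ((ξ x.1).2.1 + (ξ' x.2).2.1) * α.2.1 +
          ((ξ x.1).2.2 + (ξ' x.2).2.2) * α.2.2)‖ ≤
      (if x ∈ Cl then (2 * n + 1 : ℝ) ^ 3 * cb ^ 2 else 0) +
        c x.1 * c' x.2 * ((2 * n + 1) ^ 2 * η) := by
    intro x hx
    rw [mem_product] at hx
    obtain ⟨a1, a2⟩ := hc x.1 hx.1
    obtain ⟨b1, b2⟩ := hc' x.2 hx.2
    have hp : 0 ≤ c x.1 * c' x.2 := mul_nonneg a1 b1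
    obtain ⟨t1, t2⟩ := four3_term W n hW ε η hη hdec ((ξ x.1).1 + (ξ' x.2).1)
      ((ξ x.1).2.1 + (ξ' x.2).2.1) ((ξ x.1).2.2 + (ξ' x.2).2.2)
    rw [norm_mul, Complex.norm_real, Real.norm_eq_abs, abs_of_nonneg hp]
    split_ifs with h
    · have h4 : c x.1 * c' x.2 ≤ cb ^ 2 := by
        rw [sq]
        exact mul_le_mul a2 b2 b1 hcb
      have h5 : 0 ≤ c x.1 * c' x.2 * ((2 * n + 1 : ℝ) ^ 2 * η) := by positivity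
      refine le_trans ?_ (le_add_of_nonneg_right h5)
      rw [mul_comm ((2 * n + 1 : ℝ) ^ 3)]
      exact mul_le_mul h4 t1 (norm_nonneg _) (sq_nonneg _)
    · rw [zero_add]
      exact mul_le_mul_of_nonneg_left
        (t2 fun h' => h (hCl x.1 hx.1 x.2 hx.2 h'.1 h'.2.1 h'.2.2)) hp
  refine (sum_le_sum h2).trans ?_
  rw [sum_add_distrib, ← sum_mul, ← sum_filter, sum_const, nsmul_eq_mul, sum_mul_sum,
    ← sum_product', mul_assoc (∑ x ∈ s ×ˢ s', c x.1 * c' x.2), mul_comm _ (Cl.card : ℝ)]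
  have h6 : (((s ×ˢ s').filter fun x => x ∈ Cl).card : ℝ) ≤ Cl.card := by
    exact_mod_cast card_le_card fun x hx => (mem_filter.1 hx).2
  have h7 : (0 : ℝ) ≤ (2 * n + 1) ^ 3 * cb ^ 2 := by positivity
  exact add_le_add (mul_le_mul_of_nonneg_right h6 h7) le_rfl

end Pool.Agent.Lib.MP_9c5702_nt.AC
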