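import Pool.Agent.Lib.MP_9c5702_nt.Defs

/-! The bound for large cube divisors contains the bound for cubes. -/

set_option autoImplicit false

namespace Pool.Agent.Lib.MP_9c5702_nt.AC

open Pool.Agent.Lib.MP_9c5702_nt

theorem implies_cube (h : ∃ C : ℝ, ∀ n w : ℕ, 1 ≤ n → w ^ 3 ∣ n → n ^ 5 ≤ w ^ 21 →
      (r33 n : ℝ) ≤ C * (n : ℝ) ^ ((1 : ℝ) / 3 - 1 / 10 ^ 8)) :
    ∃ C : ℝ, ∀ w : ℕ, 1 ≤ w →
      (r33 (w ^ 3) : ℝ) ≤ C * ((w ^ 3 : ℕ) : ℝ) ^ ((1 : ℝ) / 3 - 1 / 10 ^ 8) := by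
  obtain ⟨C, hC⟩ := h
  refine ⟨C, fun w hw => hC _ w (Nat.pow_pos hw) dvd_rfl ?_⟩
  rw [← pow_mul]
  exact Nat.pow_le_pow_right hw (by norm_num)

end Pool.Agent.Lib.MP_9c5702_nt.AC
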