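import Pool.Agent.Lib.MP_9c5702_nt.AC.Defs

/-! One differencing step. -/

set_option autoImplicit false

namespace Pool.Agent.Lib.MP_9c5702_nt.AC

open Finset Pool.Agent.Lib.MP_9c5702_nt.Cube

lemma vdc_sq (G : ℤ → ℂ) (r H : ℕ) (hG1 : ∀ t, ‖G t‖ ≤ 1) (Bad : Finset (ℕ × ℕ)) (S : ℝ)
    (hS0 : 0 ≤ S) (a : ℤ) (X : ℕ)
    (hS : ∀ h < H, ∀ h' < H, (h, h') ∉ Bad →
      ‖∑ t ∈ Ico a (a + X), G (t + h * r) * (starRingEnd ℂ) (G (t + h' * r))‖ ≤ S) :
    ∑ t ∈ Ico a (a + X), ‖∑ h ∈ range H, G (t + (h : ℕ) * r)‖ ^ 2 ≤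
      Bad.card * X + (H : ℝ) ^ 2 * S := by
  have e1 : ((∑ t ∈ Ico a (a + X), ‖∑ h ∈ range H, G (t + (h : ℕ) * r)‖ ^ 2 : ℝ) : ℂ) =
      ∑ x ∈ range H ×ˢ range H, ∑ t ∈ Ico a (a + X),
        G (t + (x.1 : ℕ) * r) * (starRingEnd ℂ) (G (t + (x.2 : ℕ) * r)) := by
    rw [sum_comm, Complex.ofReal_sum]
    refine sum_congr rfl fun t _ => ?_
    rw [Complex.ofReal_pow, ← Complex.mul_conj', map_sum, sum_mul_sum, sum_product]
  have e2 : ∀ x ∈ range H ×ˢ range H, ‖∑ t ∈ Ico a (a + X),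
      G (t + (x.1 : ℕ) * r) * (starRingEnd ℂ) (G (t + (x.2 : ℕ) * r))‖ ≤
      (if x ∈ Bad then (X : ℝ) else 0) + S := by
    intro x hx
    obtain ⟨h1, h2⟩ := mem_product.1 hx
    split_ifs with hb
    · refine le_add_of_le_of_nonneg ((norm_sum_le _ _).trans
        ((sum_le_card_nsmul _ _ 1 fun t _ => ?_).trans (by simp))) hS0
      rw [norm_mul, Complex.norm_conj]
      exact mul_le_one₀ (hG1 _) (norm_nonneg _) (hG1 _)
    · rw [zero_add]
      exact hS _ (mem_range.1 h1) _ (mem_range.1 h2) hb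
  have e3 : ∑ x ∈ range H ×ˢ range H, (if x ∈ Bad then (X : ℝ) else 0) ≤ Bad.card * X := by
    rw [← sum_filter, sum_const, nsmul_eq_mul]
    refine mul_le_mul_of_nonneg_right (Nat.cast_le.2 (card_le_card fun x hx => ?_)) (by positivity)
    exact (mem_filter.1 hx).2
  refine (le_abs_self _).trans ?_
  rw [← Real.norm_eq_abs, ← Complex.norm_real, e1]
  refine (norm_sum_le _ _).trans ((sum_le_sum e2).trans ?_)
  rw [sum_add_distrib, sum_const, card_product, card_range, nsmul_eq_mul]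
  push_cast
  nlinarith [e3]

theorem vdc (F G : ℤ → ℂ) (r H : ℕ) (hH : 1 ≤ H) (hF : Function.Periodic F r)
    (hF1 : ∀ t, ‖F t‖ ≤ 1) (hG1 : ∀ t, ‖G t‖ ≤ 1) (Bad : Finset (ℕ × ℕ)) (β S : ℝ) (hS0 : 0 ≤ S)
    (hβ : (Bad.card : ℝ) ≤ β * (H : ℝ) ^ 2) (a : ℤ) (X : ℕ)
    (hS : ∀ h < H, ∀ h' < H, (h, h') ∉ Bad →
      ‖∑ t ∈ Ico a (a + X), G (t + h * r) * (starRingEnd ℂ) (G (t + h' * r))‖ ≤ S) :
    ‖∑ t ∈ Ico a (a + X), F t * G t‖ ≤ 2 * H * r + √(X * (β * X + S)) := by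
  have hH0 : (0 : ℝ) < H := by exact_mod_cast hH
  have hb : ∀ x, ‖F x * G x‖ ≤ 1 := fun x => by
    rw [norm_mul]
    exact mul_le_one₀ (hF1 _) (norm_nonneg _) (hG1 _)
  have s1 : ∀ h ∈ range H, ‖∑ t ∈ Ico a (a + X), F t * G t -
      ∑ t ∈ Ico a (a + X), F t * G (t + (h : ℕ) * r)‖ ≤ 2 * H * r := by
    intro h hh
    have h1 := norm_sum_shift (fun t => F t * G t) hb a X (h * r)
    have hper : ∀ t, F (t + (h : ℤ) * r) = F t := fun t => by
      simpa using (hF.nat_mul h) t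
    simp only [Nat.cast_mul, hper] at h1
    refine h1.trans ?_
    have : (h : ℝ) ≤ H := by exact_mod_cast (mem_range.1 hh).le
    rw [mul_one, mul_assoc]
    gcongr
  set A : ℤ → ℂ := fun t => ∑ h ∈ range H, G (t + (h : ℕ) * r) with hA
  have s2 : (H : ℂ) * ∑ t ∈ Ico a (a + X), F t * G t = ∑ h ∈ range H,
      (∑ t ∈ Ico a (a + X), F t * G t - ∑ t ∈ Ico a (a + X), F t * G (t + (h : ℕ) * r)) +
      ∑ t ∈ Ico a (a + X), F t * A t := by
    rw [sum_sub_distrib, sum_const, card_range, nsmul_eq_mul, sum_comm]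
    simp only [hA, mul_sum]
    ring
  have s3 : ‖∑ t ∈ Ico a (a + X), F t * A t‖ ≤ ∑ t ∈ Ico a (a + X), ‖A t‖ := by
    refine (norm_sum_le _ _).trans (sum_le_sum fun t _ => ?_)
    rw [norm_mul]
    exact mul_le_of_le_one_left (norm_nonneg _) (hF1 _)
  have s4 : (∑ t ∈ Ico a (a + X), ‖A t‖) ^ 2 ≤ (H : ℝ) ^ 2 * (X * (β * X + S)) := by
    refine sq_sum_le_card_mul_sum_sq.trans ?_
    have c : ((Ico a (a + X)).card : ℝ) = X := by simp
    rw [c, mul_left_comm]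
    refine mul_le_mul_of_nonneg_left ((vdc_sq G r H hG1 Bad S hS0 a X hS).trans ?_) (by positivity)
    have := mul_le_mul_of_nonneg_right hβ (Nat.cast_nonneg (α := ℝ) X)
    nlinarith
  have s5 : ∑ t ∈ Ico a (a + X), ‖A t‖ ≤ H * √(X * (β * X + S)) := by
    refine (Real.le_sqrt_of_sq_le s4).trans ?_
    rw [Real.sqrt_mul (by positivity), Real.sqrt_sq hH0.le]
  have s6 : (H : ℝ) * ‖∑ t ∈ Ico a (a + X), F t * G t‖ ≤
      H * (2 * H * r) + H * √(X * (β * X + S)) := by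
    have := congrArg norm s2
    rw [norm_mul, Complex.norm_natCast] at this
    rw [this]
    refine (norm_add_le _ _).trans (add_le_add ?_ (s3.trans s5))
    refine (norm_sum_le _ _).trans ((sum_le_card_nsmul _ _ _ s1).trans ?_)
    simp
  rw [← mul_add] at s6
  exact le_of_mul_le_mul_left s6 hH0

lemma vdc_cls (g H h : ℕ) (hg : 0 < g) (hh : h < H) :
    (((range H).filter fun h' : ℕ => h ≠ h' ∧ (g : ℤ) ∣ (h : ℤ) - h').card : ℝ) ≤ (H : ℝ) / g := by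
  have h1 := card_dvd_le hg (-(h : ℤ)) 0 H
  have hm : (h : ℤ) ∈ (Ico (0 : ℤ) (0 + H)).filter fun x => (g : ℤ) ∣ x + -(h : ℤ) := by
    rw [mem_filter, mem_Ico]
    exact ⟨⟨by omega, by omega⟩, by simp⟩
  have h2 := card_erase_add_one hm
  have h3 : ((range H).filter fun h' : ℕ => h ≠ h' ∧ (g : ℤ) ∣ (h : ℤ) - h').card ≤
      (((Ico (0 : ℤ) (0 + H)).filter fun x => (g : ℤ) ∣ x + -(h : ℤ)).erase h).card := by
    refine card_le_card_of_injOn (fun x : ℕ => (x : ℤ)) (fun x hx => ?_)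
      (fun x _ y _ e => Nat.cast_injective e)
    obtain ⟨a1, a2, a3⟩ := mem_filter.1 (mem_coe.1 hx)
    rw [mem_range] at a1
    beta_reduce
    refine mem_coe.2 (mem_erase.2 ⟨fun e => a2 (by exact_mod_cast e.symm), mem_filter.2
      ⟨mem_Ico.2 ⟨by omega, by omega⟩, ?_⟩⟩)
    rw [← dvd_neg]
    simpa [sub_eq_add_neg, add_comm] using a3
  rw [← h2] at h1
  have h4 := (Nat.cast_le (α := ℝ)).2 h3
  push_cast at h1
  linarith

theorem bad_pairs (q T V H : ℕ) (hq : 1 ≤ q) (hτ : q.divisors.card ≤ T) (hV : 1 ≤ V) (hH : 1 ≤ H) :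
    ∃ Bad : Finset (ℕ × ℕ), (Bad.card : ℝ) ≤ (1 / H + 2 * T / V) * (H : ℝ) ^ 2 ∧
      ∀ h < H, ∀ h' < H, (h, h') ∉ Bad → h ≠ h' ∧ Int.gcd ((h : ℤ) - h') q ≤ V := by
  have hH0 : (0 : ℝ) < H := by exact_mod_cast hH
  have hV0 : (0 : ℝ) < V := by exact_mod_cast hV
  set D := q.divisors.filter fun g => V < g with hD
  set P : ℕ → Finset (ℕ × ℕ) := fun g => (range H).biUnion fun h =>
    ((range H).filter fun h' : ℕ => h ≠ h' ∧ (g : ℤ) ∣ (h : ℤ) - h').image fun h' => (h, h') with hP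
  have cP : ∀ g ∈ D, ((P g).card : ℝ) ≤ H * (H / V) := by
    intro g hg
    have hg' : V < g := (mem_filter.1 hg).2
    have c1 : ((P g).card : ℝ) ≤ ∑ h ∈ range H,
        (((range H).filter fun h' : ℕ => h ≠ h' ∧ (g : ℤ) ∣ (h : ℤ) - h').card : ℝ) := by
      rw [← Nat.cast_sum, Nat.cast_le]
      exact card_biUnion_le.trans (sum_le_sum fun h _ => card_image_le)
    refine c1.trans ((sum_le_card_nsmul _ _ ((H : ℝ) / V) fun h hh => ?_).trans (by simp))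
    refine (vdc_cls g H h (by omega) (mem_range.1 hh)).trans ?_
    have : (V : ℝ) ≤ g := by exact_mod_cast hg'.le
    gcongr
  refine ⟨(range H).image (fun h => (h, h)) ∪ D.biUnion P, ?_, fun h hh h' hh' hb => ?_⟩
  · have c1 : (((range H).image (fun h => (h, h)) ∪ D.biUnion P).card : ℝ) ≤
        H + ∑ g ∈ D, ((P g).card : ℝ) := by
      have a1 : ((range H).image (fun h => (h, h))).card ≤ H := card_image_le.trans (by simp)
      exact_mod_cast (card_union_le _ _).trans (add_le_add a1 card_biUnion_le)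
    have c2 := sum_le_card_nsmul _ _ _ cP
    have c3 : (D.card : ℝ) ≤ T := by exact_mod_cast (card_filter_le _ _).trans hτ
    rw [nsmul_eq_mul] at c2
    have c4 : (D.card : ℝ) * (H * (H / V)) ≤ T * (H * (H / V)) := by gcongr
    have c5 : (0 : ℝ) ≤ T * (H * (H / V)) := by positivity
    have c6 : (1 / H + 2 * T / V) * (H : ℝ) ^ 2 = H + 2 * (T * (H * (H / V))) := by
      field_simp
    linarith
  · rw [mem_union, not_or] at hb
    have ne : h ≠ h' := fun e => hb.1 (mem_image.2 ⟨h, mem_range.2 hh, by rw [e]⟩)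
    refine ⟨ne, not_lt.1 fun hv => hb.2 (mem_biUnion.2 ⟨Int.gcd ((h : ℤ) - h') q, ?_, ?_⟩)⟩
    · refine mem_filter.2 ⟨Nat.mem_divisors.2 ⟨?_, by omega⟩, hv⟩
      exact_mod_cast Int.gcd_dvd_right ((h : ℤ) - h') q
    · exact mem_biUnion.2 ⟨h, mem_range.2 hh, mem_image.2 ⟨h', mem_filter.2
        ⟨mem_range.2 hh', ne, Int.gcd_dvd_left _ _⟩, rfl⟩⟩

end Pool.Agent.Lib.MP_9c5702_nt.AC
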