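import Pool.Agent.Lib.MP_9c5702_nt.AC.QuadSq
import Pool.Agent.Lib.MP_9c5702_nt.AC.Complete
import Pool.Agent.Lib.MP_9c5702_nt.AC.Vdc

/-! Short sums of Kloosterman fractions to factorable moduli. -/

set_option autoImplicit false

namespace Pool.Agent.Lib.MP_9c5702_nt.AC

open Finset Pool.Agent.Lib.MP_9c5702_nt.Cube

lemma incomplete_gcd {q : ℕ} (hq : 1 ≤ q) (x y : ℤ) :
    Int.gcd (x * y) q ≤ Int.gcd x q * Int.gcd y q := by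
  simp only [Int.gcd, Int.natAbs_mul, Int.natAbs_natCast]
  exact Nat.le_of_dvd (Nat.mul_pos (Nat.gcd_pos_of_pos_right _ hq) (Nat.gcd_pos_of_pos_right _ hq))
    (Nat.gcd_mul_left_dvd_mul_gcd _ _ _)

lemma incomplete_unit {q : ℕ} (hq : 1 ≤ q) {u : ℤ} (hu : IsCoprime u (q : ℤ)) (x : ℤ) :
    Int.gcd (u * x) q ≤ Int.gcd x q := by
  have h := incomplete_gcd hq u x
  rwa [Int.isCoprime_iff_gcd_eq_one.1 hu, one_mul] at h

/-- the four-pole sum over an interval -/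
lemma incomplete_W4 (q0 T Z X0 : ℕ) (hq : Squarefree q0) (hZ : 1 ≤ Z)
    (hτ : q0.divisors.card ≤ T) (hH : ∑ j ∈ Icc 1 q0, (1 : ℝ) / j ≤ T) (b c s1 s2 s3 : ℤ)
    (hb : IsCoprime b (q0 : ℤ))
    (hg : Int.gcd (c * (s1 - s2) * (s1 - s3)) q0 ≤ (4 * T ^ 2 * Z ^ 4) ^ 2)
    (hlo : (8 * T ^ 6 * Z ^ 8) ^ 2 ≤ q0) (hhi : (8 * T ^ 6 * Z ^ 8) ^ 2 * q0 ≤ X0 ^ 2) (a : ℤ) :
    ‖∑ t ∈ Ico a (a + X0), W4 q0 c b s1 s2 s3 t‖ ≤ X0 / (Z : ℝ) ^ 4 := by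
  have q1 : 1 ≤ q0 := Nat.pos_of_ne_zero hq.ne_zero
  have T1 : 1 ≤ T := (card_pos.2 ⟨1, Nat.one_mem_divisors.2 hq.ne_zero⟩).trans_le hτ
  have per : Function.Periodic (W4 q0 c b s1 s2 s3) (q0 : ℤ) := fun t => by
    have h : ∀ s : ℤ, kf q0 c (b * (t + q0) + s) = kf q0 c (b * t + s) := fun s =>
      kf_congr (by simp) ⟨b, by ring⟩
    simp only [W4, h]
  have ω : (8 : ℝ) ^ q0.primeFactors.card ≤ (T : ℝ) ^ 3 := by
    have h := Nat.pow_le_pow_left ((Q4.omega_le q0 hq.ne_zero).trans hτ) 3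
    rw [← pow_mul, mul_comm, pow_mul] at h
    exact_mod_cast h
  have g : √(Int.gcd (c * (s1 - s2) * (s1 - s3)) q0 : ℝ) ≤ 4 * (T : ℝ) ^ 2 * (Z : ℝ) ^ 4 :=
    Real.sqrt_le_iff.2 ⟨by positivity, by exact_mod_cast hg⟩
  obtain ⟨s, hs⟩ : ∃ s, s = √(q0 : ℝ) := ⟨_, rfl⟩
  have s0 : 0 < s := hs ▸ Real.sqrt_pos.2 (by exact_mod_cast q1)
  have ss : (q0 : ℝ) = s * s := by rw [hs, Real.mul_self_sqrt (Nat.cast_nonneg _)]
  have lo : 8 * (T : ℝ) ^ 6 * (Z : ℝ) ^ 8 ≤ s :=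
    hs ▸ Real.le_sqrt_of_sq_le (by exact_mod_cast hlo)
  have hi : 8 * (T : ℝ) ^ 6 * (Z : ℝ) ^ 8 * s ≤ X0 := by
    refine (pow_le_pow_iff_left₀ (by positivity) (Nat.cast_nonneg _) two_ne_zero).1 ?_
    rw [mul_pow, sq s, ← ss]
    exact_mod_cast hhi
  refine (complete q0 T q1 hH _ per ((T : ℝ) ^ 3 * s * (4 * (T : ℝ) ^ 2 * (Z : ℝ) ^ 4))
    (fun k => (quad_sqfree q0 hq c b s1 s2 s3 k hb).trans (by rw [hs]; gcongr)) a X0).trans ?_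
  have t1 : (1 : ℝ) ≤ T := by exact_mod_cast T1
  have z1 : (1 : ℝ) ≤ Z := by exact_mod_cast hZ
  have x0 : (0 : ℝ) ≤ X0 := Nat.cast_nonneg _
  rw [ss]
  generalize (T : ℝ) = τ at *
  generalize (Z : ℝ) = z at *
  generalize (X0 : ℝ) = x at *
  have e : τ ^ 3 * s * (4 * τ ^ 2 * z ^ 4) * (x / (s * s) + τ) =
      ((8 * τ ^ 5 * z ^ 8) / s * x + 8 * τ ^ 6 * z ^ 8 * s) / (2 * z ^ 4) := by
    field_simp
    ring
  have k : 8 * τ ^ 5 * z ^ 8 / s ≤ 1 := by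
    refine (div_le_one s0).2 (le_trans ?_ lo)
    gcongr
    norm_num
  rw [e, div_le_div_iff₀ (by positivity) (by positivity)]
  have k2 := mul_le_mul_of_nonneg_right k x0
  have k3 : 8 * τ ^ 5 * z ^ 8 / s * x + 8 * τ ^ 6 * z ^ 8 * s ≤ 2 * x := by linarith
  calc _ ≤ 2 * x * z ^ 4 := by gcongr
    _ = _ := by ring

theorem incomplete (q0 T Z X0 r1 r2 : ℕ) (hq : Squarefree q0) (hZ : 1 ≤ Z)
    (hτ : q0.divisors.card ≤ T) (hH : ∑ j ∈ Icc 1 q0, (1 : ℝ) / j ≤ T) (b b0 c : ℤ)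
    (hb : IsCoprime b (q0 : ℤ)) (h1 : r1.Coprime q0) (h2 : r2.Coprime q0)
    (hc : Int.gcd c q0 ≤ T * Z) (hr1 : 2 * Z ^ 5 * r1 ≤ X0) (hr2 : 2 * Z ^ 6 * r2 ≤ X0)
    (hlo : (8 * T ^ 6 * Z ^ 8) ^ 2 ≤ q0) (hhi : (8 * T ^ 6 * Z ^ 8) ^ 2 * q0 ≤ X0 ^ 2)
    (F1 F2 : ℤ → ℂ) (p1 : Function.Periodic F1 r1) (p2 : Function.Periodic F2 r2)
    (n1 : ∀ t, ‖F1 t‖ ≤ 1) (n2 : ∀ t, ‖F2 t‖ ≤ 1) (a : ℤ) :
    ‖∑ t ∈ Ico a (a + X0), F1 t * (F2 t * kf q0 c (b * t + b0))‖ ≤ 5 * X0 / Z := by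
  have q1 : 1 ≤ q0 := Nat.pos_of_ne_zero hq.ne_zero
  have T1 : 1 ≤ T := (card_pos.2 ⟨1, Nat.one_mem_divisors.2 hq.ne_zero⟩).trans_le hτ
  have H1 : 1 ≤ 2 * Z ^ 4 := Nat.mul_pos two_pos (Nat.pow_pos hZ)
  obtain ⟨B1, c1, d1⟩ := bad_pairs q0 T (4 * T * Z ^ 2) (2 * Z ^ 4) q1 hτ
    (Nat.mul_pos (Nat.mul_pos four_pos T1) (Nat.pow_pos hZ)) H1
  obtain ⟨B2, c2, d2⟩ := bad_pairs q0 T (4 * T * Z ^ 4) (2 * Z ^ 4) q1 hτ
    (Nat.mul_pos (Nat.mul_pos four_pos T1) (Nat.pow_pos hZ)) H1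
  have t1 : (1 : ℝ) ≤ T := by exact_mod_cast T1
  have z1 : (1 : ℝ) ≤ Z := by exact_mod_cast hZ
  have x0 : (0 : ℝ) ≤ X0 := Nat.cast_nonneg _
  have β1 : (B1.card : ℝ) ≤ 1 / (Z : ℝ) ^ 2 * ((2 * Z ^ 4 : ℕ) : ℝ) ^ 2 := by
    refine c1.trans (mul_le_mul_of_nonneg_right ?_ (sq_nonneg _))
    push_cast
    have e : 2 * (T : ℝ) / (4 * T * (Z : ℝ) ^ 2) = 1 / (2 * (Z : ℝ) ^ 2) := by
      field_simp
      ring
    have l : 1 / (2 * (Z : ℝ) ^ 4) ≤ 1 / (2 * (Z : ℝ) ^ 2) := by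
      gcongr
      norm_num
    have e2 : 1 / (Z : ℝ) ^ 2 = 1 / (2 * (Z : ℝ) ^ 2) + 1 / (2 * (Z : ℝ) ^ 2) := by
      field_simp
      ring
    rw [e, e2]
    linarith
  have β2 : (B2.card : ℝ) ≤ 1 / (Z : ℝ) ^ 4 * ((2 * Z ^ 4 : ℕ) : ℝ) ^ 2 := by
    refine c2.trans (mul_le_mul_of_nonneg_right (le_of_eq ?_) (sq_nonneg _))
    push_cast
    field_simp
    ring
  have nm : ∀ x y : ℂ, ‖x‖ ≤ 1 → ‖y‖ ≤ 1 → ‖x * (starRingEnd ℂ) y‖ ≤ 1 := fun x y hx hy => by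
    rw [norm_mul, RCLike.norm_conj]
    exact mul_le_one₀ hx (norm_nonneg _) hy
  have u1 : IsCoprime (b * r1) (q0 : ℤ) := hb.mul_left (Nat.isCoprime_iff_coprime.2 h1)
  have u2 : IsCoprime (b * r2) (q0 : ℤ) := hb.mul_left (Nat.isCoprime_iff_coprime.2 h2)
  refine (vdc F1 (fun t => F2 t * kf q0 c (b * t + b0)) r1 (2 * Z ^ 4) H1 p1 n1
    (fun t => by
      rw [norm_mul]
      exact mul_le_one₀ (n2 t) (norm_nonneg _) (norm_kf_le _ _ _))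
    B1 (1 / (Z : ℝ) ^ 2) (4 * X0 / (Z : ℝ) ^ 2) (by positivity) β1 a X0
    fun h hh h' hh' hB => ?_).trans ?_
  · have key := vdc (fun t => F2 (t + h * r1) * (starRingEnd ℂ) (F2 (t + h' * r1)))
      (fun t => kf q0 c (b * (t + h * r1) + b0) *
        (starRingEnd ℂ) (kf q0 c (b * (t + h' * r1) + b0))) r2 (2 * Z ^ 4) H1
      (fun t => by
        beta_reduce
        rw [add_right_comm t (r2 : ℤ), p2, add_right_comm t (r2 : ℤ), p2])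
      (fun t => nm _ _ (n2 _) (n2 _)) (fun t => nm _ _ (norm_kf_le _ _ _) (norm_kf_le _ _ _))
      B2 (1 / (Z : ℝ) ^ 4) (X0 / (Z : ℝ) ^ 4) (by positivity) β2 a X0
      fun k hk k' hk' hB' => by
        refine le_trans (le_of_eq ?_) (incomplete_W4 q0 T Z X0 hq hZ hτ hH b c
          (b0 + b * (h * r1 + k * r2)) (b0 + b * (h' * r1 + k * r2))
          (b0 + b * (h * r1 + k' * r2)) hb ?_ hlo hhi a)
        · refine congrArg _ (sum_congr rfl fun t _ => ?_)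
          rw [W4, map_mul, Complex.conj_conj,
            show b * t + (b0 + b * (h * r1 + k * r2)) = b * (t + k * r2 + h * r1) + b0 by ring,
            show b * t + (b0 + b * (h' * r1 + k * r2)) = b * (t + k * r2 + h' * r1) + b0 by ring,
            show b * t + (b0 + b * (h * r1 + k' * r2)) = b * (t + k' * r2 + h * r1) + b0 by ring,
            show b * t + (b0 + b * (h' * r1 + k * r2) + (b0 + b * (h * r1 + k' * r2)) -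
              (b0 + b * (h * r1 + k * r2))) = b * (t + k' * r2 + h' * r1) + b0 by ring]
          ring
        · rw [show b0 + b * (h * r1 + k * r2) - (b0 + b * (h' * r1 + k * r2)) =
              b * r1 * ((h : ℤ) - h') by ring,
            show b0 + b * (h * r1 + k * r2) - (b0 + b * (h * r1 + k' * r2)) =
              b * r2 * ((k : ℤ) - k') by ring]
          have g1 := (incomplete_unit q1 u1 _).trans (d1 h hh h' hh' hB).2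
          have g2 := (incomplete_unit q1 u2 _).trans (d2 k hk k' hk' hB').2
          calc _ ≤ T * Z * (4 * T * Z ^ 2) * (4 * T * Z ^ 4) :=
                (incomplete_gcd q1 _ _).trans (Nat.mul_le_mul
                  ((incomplete_gcd q1 _ _).trans (Nat.mul_le_mul hc g1)) g2)
            _ = 16 * T ^ 3 * Z ^ 7 := by ring
            _ ≤ 16 * T ^ 4 * Z ^ 8 := by gcongr <;> norm_num
            _ = _ := by ring
    refine le_trans (le_of_eq (congrArg _ (sum_congr rfl fun t _ => ?_))) (key.trans ?_)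
    · rw [map_mul]
      ring
    · have r : 2 * (Z : ℝ) ^ 6 * r2 ≤ X0 := by exact_mod_cast hr2
      have a1 : 2 * ((2 * Z ^ 4 : ℕ) : ℝ) * r2 ≤ 2 * X0 / (Z : ℝ) ^ 2 := by
        rw [le_div_iff₀ (by positivity)]
        push_cast
        linarith
      have a2 : √((X0 : ℝ) * (1 / (Z : ℝ) ^ 4 * X0 + X0 / (Z : ℝ) ^ 4)) ≤ 2 * X0 / (Z : ℝ) ^ 2 := by
        refine Real.sqrt_le_iff.2 ⟨by positivity, ?_⟩
        have e1 : (X0 : ℝ) * (1 / (Z : ℝ) ^ 4 * X0 + X0 / (Z : ℝ) ^ 4) =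
            2 * (X0 / (Z : ℝ) ^ 2) ^ 2 := by
          field_simp
          ring
        have e2 : (2 * X0 / (Z : ℝ) ^ 2) ^ 2 = 4 * (X0 / (Z : ℝ) ^ 2) ^ 2 := by ring
        rw [e1, e2]
        linarith [sq_nonneg ((X0 : ℝ) / (Z : ℝ) ^ 2)]
      calc _ ≤ 2 * X0 / (Z : ℝ) ^ 2 + 2 * X0 / (Z : ℝ) ^ 2 := add_le_add a1 a2
        _ = _ := by ring
  · have r : 2 * (Z : ℝ) ^ 5 * r1 ≤ X0 := by exact_mod_cast hr1
    have a1 : 2 * ((2 * Z ^ 4 : ℕ) : ℝ) * r1 ≤ 2 * X0 / (Z : ℝ) := by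
      rw [le_div_iff₀ (by positivity)]
      push_cast
      linarith
    have a2 : √((X0 : ℝ) * (1 / (Z : ℝ) ^ 2 * X0 + 4 * X0 / (Z : ℝ) ^ 2)) ≤ 3 * X0 / (Z : ℝ) := by
      refine Real.sqrt_le_iff.2 ⟨by positivity, ?_⟩
      have e1 : (X0 : ℝ) * (1 / (Z : ℝ) ^ 2 * X0 + 4 * X0 / (Z : ℝ) ^ 2) =
          5 * (X0 / (Z : ℝ)) ^ 2 := by
        field_simp
        ring
      have e2 : (3 * X0 / (Z : ℝ)) ^ 2 = 9 * (X0 / (Z : ℝ)) ^ 2 := by ring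
      rw [e1, e2]
      linarith [sq_nonneg ((X0 : ℝ) / (Z : ℝ))]
    calc _ ≤ 2 * X0 / (Z : ℝ) + 3 * X0 / (Z : ℝ) := add_le_add a1 a2
      _ = _ := by ring

end Pool.Agent.Lib.MP_9c5702_nt.AC
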