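import Pool.Agent.Lib.MP_9c5702_nt.QS.Main

/-! Large cofactors. -/

set_option autoImplicit false

namespace Pool.Agent.Lib.MP_9c5702_nt.AC

open Pool.Agent.Lib.MP_9c5702_nt

lemma large_prod {q : ℕ} (hq : 1 ≤ q) :
    ∏ p ∈ q.primeFactors, (p : ℝ) ^ (((3 * q.factorization p : ℕ) : ℝ) / 6 -
      √((q.factorization p : ℝ) * ((3 * q.factorization p : ℕ) : ℝ))) =
      (q : ℝ) ^ ((1 : ℝ) / 2 - √3) := by
  have h1 : ∏ p ∈ q.primeFactors, (p : ℝ) ^ q.factorization p = (q : ℝ) := by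
    have h2 := Nat.prod_factorization_pow_eq_self (by omega : q ≠ 0)
    rw [Finsupp.prod, Nat.support_factorization] at h2
    exact_mod_cast h2
  have h3 := Real.finsetProd_rpow q.primeFactors (fun p => (p : ℝ) ^ q.factorization p)
    (fun p _ => by positivity) ((1 : ℝ) / 2 - √3)
  rw [h1] at h3
  rw [← h3]
  refine Finset.prod_congr rfl fun p _ => ?_
  rw [← Real.rpow_natCast, ← Real.rpow_mul (Nat.cast_nonneg _)]
  congr 1
  have h5 : √3 * √3 = (3 : ℝ) := Real.mul_self_sqrt (by norm_num)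
  have h4 : √((q.factorization p : ℝ) * ((3 * q.factorization p : ℕ) : ℝ)) =
      √3 * (q.factorization p : ℝ) := by
    rw [Real.sqrt_eq_iff_mul_self_eq (by positivity) (by positivity)]
    push_cast
    linear_combination (-(q.factorization p : ℝ) ^ 2) * h5
  rw [h4]
  push_cast
  ring

lemma large_num {x y : ℝ} (hx : 0 ≤ x) (hy : 0 ≤ y) (h1 : y ≤ 4320000 * x) (h2 : 5 * x ≤ 6 * y) :
    (x + 3 * y) * (2 / 10 ^ 9) + y +
      max 0 ((x + 3 * y) * (1 / 3) + y * (1 / 2 - √3)) * (2 / √3) + x * (1 / 6) ≤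
      (x + 3 * y) * (1 / 3 - 1 / 10 ^ 8) := by
  have h5 : √3 * √3 = (3 : ℝ) := Real.mul_self_sqrt (by norm_num)
  have h6 : (0 : ℝ) < √3 := Real.sqrt_pos.2 (by norm_num)
  have h7 : √3 ≤ (17321 / 10000 : ℝ) := by
    rw [Real.sqrt_le_iff]
    norm_num
  have h8 : (2 : ℝ) / √3 = 2 * √3 / 3 := by
    rw [div_eq_div_iff h6.ne' (by norm_num)]
    linear_combination (-2) * h5
  rcases le_total 0 ((x + 3 * y) * (1 / 3) + y * (1 / 2 - √3)) with h | h
  · rw [max_eq_right h, h8]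
    have e : ((x + 3 * y) * (1 / 3) + y * (1 / 2 - √3)) * (2 * √3 / 3) =
        2 / 9 * (√3 * x) + √3 * y - 2 * y := by
      linear_combination (-(2 / 3) * y) * h5
    have b1 : √3 * x ≤ 17321 / 10000 * x := mul_le_mul_of_nonneg_right h7 hx
    have b2 : √3 * y ≤ 17321 / 10000 * y := mul_le_mul_of_nonneg_right h7 hy
    rw [e]
    linarith
  · rw [max_eq_left h, zero_mul]
    linarith

theorem large_case : ∃ C : ℝ, 0 ≤ C ∧ ∀ a w : ℕ, 1 ≤ a → 1 ≤ w → w ≤ a ^ 4320000 → a ^ 5 ≤ w ^ 6 →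
    (r33 (a * w ^ 3) : ℝ) ≤ C * ((a * w ^ 3 : ℕ) : ℝ) ^ ((1 : ℝ) / 3 - 1 / 10 ^ 8) := by
  obtain ⟨C, hC⟩ := QS.main (2 / 10 ^ 9) (by positivity)
  refine ⟨max C 0, le_max_right _ _, fun a w ha hw h1 h2 => ?_⟩
  have hn : 1 ≤ a * w ^ 3 := Nat.mul_pos ha (Nat.pow_pos hw)
  have h3 := hC (a * w ^ 3) w (fun p => 3 * w.factorization p) hn hw fun p _ =>
    ⟨by omega, by
      rw [mul_comm 3, pow_mul]
      exact Dvd.dvd.mul_left (pow_dvd_pow_of_dvd (Nat.ordProj_dvd w p) 3) a⟩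
  rw [large_prod hw] at h3
  have ha1 : (1 : ℝ) ≤ a := by exact_mod_cast ha
  have hw1 : (1 : ℝ) ≤ w := by exact_mod_cast hw
  have ha0 : (0 : ℝ) < a := by linarith
  have hw0 : (0 : ℝ) < w := by linarith
  have hnc : ((a * w ^ 3 : ℕ) : ℝ) = (a : ℝ) * (w : ℝ) ^ 3 := by push_cast; ring
  have hn0 : (0 : ℝ) < ((a * w ^ 3 : ℕ) : ℝ) := by rw [hnc]; positivity
  have hlog : Real.log ((a * w ^ 3 : ℕ) : ℝ) = Real.log a + 3 * Real.log w := by
    rw [hnc, Real.log_mul ha0.ne' (by positivity), Real.log_pow]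
    norm_num
  have hx : 0 ≤ Real.log a := Real.log_nonneg ha1
  have hy : 0 ≤ Real.log w := Real.log_nonneg hw1
  have l1 : Real.log w ≤ 4320000 * Real.log a := by
    have key : ∀ k : ℕ, w ≤ a ^ k → Real.log w ≤ (k : ℝ) * Real.log a := by
      intro k hk
      rw [← Real.log_pow]
      exact Real.log_le_log hw0 (by exact_mod_cast hk)
    have := key 4320000 h1
    rwa [Nat.cast_ofNat] at this
  have l2 : 5 * Real.log a ≤ 6 * Real.log w := by
    have h4 : (a : ℝ) ^ 5 ≤ (w : ℝ) ^ 6 := by exact_mod_cast h2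
    have h5 := Real.log_le_log (by positivity) h4
    rw [Real.log_pow, Real.log_pow] at h5
    exact_mod_cast h5
  have e2 : ((a * w ^ 3 : ℕ) : ℝ) / (w : ℝ) ^ 3 = (a : ℝ) := by
    rw [hnc]
    field_simp
  have hE : ∀ t : ℝ, (max 1 (Real.exp t)) ^ (2 / √3 : ℝ) = Real.exp (max 0 t * (2 / √3)) := by
    intro t
    rw [Real.exp_mul, Real.exp_monotone.map_max, Real.exp_zero]
  rw [e2, max_eq_right ha1, Real.rpow_def_of_pos hn0, Real.rpow_def_of_pos hn0,
    Real.rpow_def_of_pos hw0, ← Real.exp_add, hE, Real.rpow_def_of_pos ha0, hlog] at h3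
  rw [Real.rpow_def_of_pos hn0, hlog]
  have h6 := Real.exp_le_exp.2 (large_num hx hy l1 l2)
  rw [Real.exp_add, Real.exp_add, Real.exp_add, Real.exp_log hw0] at h6
  refine h3.trans ?_
  refine le_trans ?_ (mul_le_mul_of_nonneg_left h6 (le_max_right C 0))
  have h7 : C ≤ max C 0 := le_max_left _ _
  rw [← mul_assoc, ← mul_assoc, ← mul_assoc]
  gcongr

end Pool.Agent.Lib.MP_9c5702_nt.AC
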