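import Pool.Agent.Lib.MP_9c5702_nt.AC.Defs

/-! The usable part of the modulus. -/

set_option autoImplicit false

namespace Pool.Agent.Lib.MP_9c5702_nt.AC

open Finset Pool.Agent.Lib.MP_9c5702_nt.Cube

theorem q_split (a w V N M : ℕ) (u v m : ℤ) (hN : 1 ≤ N) (hG : Good a w V N u v) (hm0 : m ≠ 0)
    (hm : |m| ≤ M) (w' : ℕ) (hw : w' ∣ w) (p1 p2 : ℕ) (h1 : p1.Prime) (h2 : p2.Prime)
    (hne : p1 ≠ p2) (hd : ((p1 * p2 : ℕ) : ℤ) ∣ qf a u v) (hb1 : V ^ 13 * M < p1)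
    (hb2 : V ^ 13 * M < p2) :
    ∃ q0 : ℕ, Squarefree q0 ∧ p1.Coprime q0 ∧ p2.Coprime q0 ∧
      ((p1 * p2 * q0 : ℕ) : ℤ) ∣ qf a u v ∧ IsCoprime (v ^ 2 * m * w') ((p1 * p2 * q0 : ℕ) : ℤ) ∧
      |qf a u v| ≤ ((V ^ 13 * M * (p1 * p2 * q0) : ℕ) : ℤ) := by
  obtain ⟨g1, g2, g3⟩ := hG
  have hN3 : (1 : ℤ) ≤ (N : ℤ) ^ 3 := one_le_pow₀ (by exact_mod_cast hN)
  have hq : qf a u v ≠ 0 := fun h => by
    rw [h, abs_zero, mul_zero] at g1
    omega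
  have hV : 1 ≤ V := Nat.pos_of_ne_zero fun h => by
    rw [h] at g1
    simp only [Nat.cast_zero, ne_eq, OfNat.ofNat_ne_zero, not_false_eq_true, zero_pow,
      zero_mul] at g1
    omega
  have hm1 : 0 < m.natAbs := Int.natAbs_pos.2 hm0
  have hm2 : m.natAbs ≤ M := by
    rw [← Int.natCast_natAbs] at hm
    exact_mod_cast hm
  have hdn : p1 * p2 ∣ (qf a u v).natAbs := Int.natCast_dvd.1 hd
  have hw0 : w' ≠ 0 := by
    rintro rfl
    have h3 := g3 p1 h1.squarefree (by rw [zero_dvd_iff.1 hw]; exact dvd_zero _)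
      (Int.natCast_dvd.2 ((dvd_mul_right _ _).trans hdn))
    have h4 : V * 1 ≤ V ^ 13 * M :=
      Nat.mul_le_mul (Nat.le_self_pow (by norm_num) V) (hm1.trans_le hm2)
    omega
  obtain ⟨s, b, hs0, hb0, hn, hs⟩ := Nat.sq_mul_squarefree_of_pos (Int.natAbs_pos.2 hq)
  have hbV : b ≤ V ^ 4 := g2 b (by
    rw [← Nat.cast_pow]
    exact Int.natCast_dvd.2 ⟨s, hn.symm⟩)
  have hx : b * m.natAbs * w' ≠ 0 := by positivity
  have hco := Nat.coprime_div_gcd_of_squarefree hs hx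
  obtain ⟨q1, hq1⟩ := Nat.gcd_dvd_left s (b * m.natAbs * w')
  have hr0 : 0 < s.gcd (b * m.natAbs * w') := Nat.gcd_pos_of_pos_left _ hs0
  rw [Nat.div_eq_of_eq_mul_right hr0 hq1] at hco
  obtain ⟨r1, r2, hr1, hr2, hr⟩ :=
    exists_dvd_and_dvd_of_dvd_mul (Nat.gcd_dvd_right s (b * m.natAbs * w'))
  rw [hr] at hq1 hr0
  have hr2s : r2 ∣ s := ⟨r1 * q1, by rw [hq1]; ring⟩
  have hr2V : r2 ≤ V := g3 r2 (hs.squarefree_of_dvd hr2s) (hr2.trans hw)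
    (Int.natCast_dvd.2 (hn ▸ hr2s.mul_left _))
  have hr1V : r1 ≤ V ^ 4 * M :=
    (Nat.le_of_dvd (by positivity) hr1).trans (Nat.mul_le_mul hbV hm2)
  have hy : b ^ 2 * (r1 * r2) ≤ V ^ 13 * M := by
    calc b ^ 2 * (r1 * r2) ≤ (V ^ 4) ^ 2 * (V ^ 4 * M * V) := by gcongr
      _ = V ^ 13 * M := by ring
  have hny : (qf a u v).natAbs = b ^ 2 * (r1 * r2) * q1 := by rw [← hn, hq1]; ring
  have hkey : ∀ p : ℕ, p.Prime → V ^ 13 * M < p → p ∣ (qf a u v).natAbs → p ∣ q1 := by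
    intro p hp hlt hdv
    rw [hny] at hdv
    refine ((Nat.Prime.dvd_mul hp).1 hdv).resolve_left fun h => ?_
    have := Nat.le_of_dvd (by positivity) h
    omega
  obtain ⟨q0, rfl⟩ := Nat.Coprime.mul_dvd_of_dvd_of_dvd ((Nat.coprime_primes h1 h2).2 hne)
    (hkey p1 h1 hb1 ((dvd_mul_right _ _).trans hdn))
    (hkey p2 h2 hb2 ((dvd_mul_left _ _).trans hdn))
  have hsq : Squarefree (p1 * p2 * q0) := hs.squarefree_of_dvd ⟨r1 * r2, by rw [hq1]; ring⟩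
  obtain ⟨c1, -, c2⟩ := Nat.squarefree_mul_iff.1 hsq
  have hdq : p1 * p2 * q0 ∣ (qf a u v).natAbs := ⟨_, by rw [hny, mul_comm]⟩
  refine ⟨q0, c2, c1.coprime_mul_right, c1.coprime_mul_left, Int.natCast_dvd.2 hdq, ?_, ?_⟩
  · rw [Int.isCoprime_iff_nat_coprime, Int.natAbs_mul, Int.natAbs_mul, Int.natAbs_pow,
      Int.natAbs_natCast, Int.natAbs_natCast, mul_assoc]
    refine Nat.Coprime.mul_left (Nat.Coprime.pow_left _ ?_)
      (hco.symm.coprime_dvd_left ⟨b, by ring⟩)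
    refine Nat.coprime_of_dvd fun p hp hpv hpq => ?_
    have hpv' : (p : ℤ) ∣ v := Int.natCast_dvd.2 hpv
    have hpq' : (p : ℤ) ∣ qf a u v := Int.natCast_dvd.2 (hpq.trans hdq)
    have hpu : (p : ℤ) ∣ u := by
      refine (Nat.prime_iff_prime_int.1 hp).dvd_of_dvd_pow (n := 3) ?_
      rw [show u ^ 3 = qf a u v + a * v ^ 2 * v by rw [qf]; ring]
      exact dvd_add hpq' (hpv'.mul_left _)
    obtain ⟨u', rfl⟩ := hpu
    obtain ⟨v', rfl⟩ := hpv'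
    have h3 : p ^ 2 ∣ b ^ 2 * s := by
      rw [hn, ← Int.natCast_dvd]
      exact ⟨p * qf a u' v', by simp only [qf]; push_cast; ring⟩
    have h4 : p.Coprime b := (hco.coprime_dvd_left hpq).coprime_dvd_right ⟨m.natAbs * w', by ring⟩
    have h5 : p ^ 2 ∣ s := (Nat.Coprime.pow 2 2 h4).dvd_of_dvd_mul_left h3
    exact hp.ne_one (Nat.isUnit_iff.1 (hs p (by rwa [← sq])))
  · rw [← Int.natCast_natAbs, hny]
    exact_mod_cast Nat.mul_le_mul_right _ hy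

end Pool.Agent.Lib.MP_9c5702_nt.AC
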