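import Pool.Agent.Lib.MP_9c5702_nt.AC.Defs

/-! The square sieve. -/

set_option autoImplicit false

namespace Pool.Agent.Lib.MP_9c5702_nt.AC

open Finset Pool.Agent.Lib.MP_9c5702_nt.Cube

theorem sq_sieve {α : Type} (E Tr : Finset α) (hsub : Tr ⊆ E) (G : α → ℤ) (Ls : Finset ℕ)
    (hL : ∀ l ∈ Ls, l.Prime) (J : ℕ) (hJ : 2 * J ≤ Ls.card) (hpos : 1 ≤ Ls.card)
    (hT : ∀ x ∈ Tr, IsSquare (G x) ∧ (Ls.filter fun l : ℕ => (l : ℤ) ∣ G x).card ≤ J) (S : ℝ)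
    (hS0 : 0 ≤ S) (hS : ∀ l ∈ Ls, ∀ l' ∈ Ls, l ≠ l' →
      |∑ x ∈ E, ((jacobiSym (G x) l * jacobiSym (G x) l' : ℤ) : ℝ)| ≤ S) :
    (Tr.card : ℝ) ≤ 4 * E.card / Ls.card + 4 * S := by
  set n : ℝ := (Ls.card : ℝ) with hn
  have hn1 : 1 ≤ n := by rw [hn]; exact_mod_cast hpos
  let χ : α → ℕ → ℝ := fun x l => (jacobiSym (G x) l : ℤ)
  have h1 : ∀ x ∈ Tr, n / 2 ≤ ∑ l ∈ Ls, χ x l := by
    intro x hx
    obtain ⟨⟨r, hr⟩, h2⟩ := hT x hx
    have h3 : ∀ l ∈ Ls, (if (l : ℤ) ∣ G x then (0 : ℝ) else 1) ≤ χ x l := by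
      intro l hl
      simp only [χ]
      split_ifs with h4
      · rw [hr, jacobiSym.mul_left]
        exact_mod_cast mul_self_nonneg _
      · have h5 : r.gcd l = 1 := by
          rw [Int.gcd_comm, Int.gcd, Int.natAbs_natCast]
          refine (Nat.Prime.coprime_iff_not_dvd (hL l hl)).2 fun h6 => h4 ?_
          rw [hr]
          exact (Int.natCast_dvd.2 h6).mul_right _
        rw [hr, ← sq, jacobiSym.sq_one' h5, Int.cast_one]
    refine le_trans ?_ (sum_le_sum h3)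
    rw [sum_ite, sum_const_zero, zero_add, sum_const, nsmul_eq_mul, mul_one]
    have h4 := card_filter_add_card_filter_not (s := Ls) fun l : ℕ => (l : ℤ) ∣ G x
    have h5 : Ls.card ≤ 2 * (Ls.filter fun l : ℕ => ¬ (l : ℤ) ∣ G x).card := by omega
    have h6 : n ≤ 2 * ((Ls.filter fun l : ℕ => ¬ (l : ℤ) ∣ G x).card : ℝ) := by
      rw [hn]; exact_mod_cast h5
    linarith
  have h2 : (Tr.card : ℝ) * (n / 2) ^ 2 ≤ ∑ x ∈ E, (∑ l ∈ Ls, χ x l) ^ 2 := by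
    refine le_trans ?_ (sum_le_sum_of_subset_of_nonneg hsub fun _ _ _ => sq_nonneg _)
    rw [← nsmul_eq_mul]
    exact card_nsmul_le_sum _ _ _ fun x hx => pow_le_pow_left₀ (by linarith) (h1 x hx) 2
  have h3 : ∀ l ∈ Ls, ∀ l' ∈ Ls, ∑ x ∈ E, χ x l * χ x l' ≤
      (if l = l' then (E.card : ℝ) else 0) + S := by
    intro l hl l' hl'
    split_ifs with h4
    · subst h4
      refine le_trans ?_ (le_add_of_nonneg_right hS0)
      rw [← mul_one (E.card : ℝ), ← nsmul_eq_mul]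
      refine sum_le_card_nsmul _ _ _ fun x _ => ?_
      simp only [χ]
      rcases jacobiSym.trichotomy (G x) l with h | h | h <;> simp [h]
    · have h5 := (le_abs_self _).trans (hS l hl l' hl' h4)
      rw [zero_add]
      simpa only [Int.cast_mul] using h5
  have h4 : ∑ x ∈ E, (∑ l ∈ Ls, χ x l) ^ 2 ≤ n * (E.card + n * S) := by
    simp only [sq, sum_mul_sum]
    rw [sum_comm, hn, ← nsmul_eq_mul]
    refine sum_le_card_nsmul _ _ _ fun l hl => ?_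
    rw [sum_comm]
    refine (sum_le_sum (h3 l hl)).trans (le_of_eq ?_)
    rw [sum_add_distrib, sum_ite_eq, if_pos hl, sum_const, nsmul_eq_mul]
  refine le_of_mul_le_mul_right ((h2.trans h4).trans (le_of_eq ?_))
    (show 0 < (n / 2) ^ 2 by positivity)
  field_simp
  ring

/-- primes dividing a nonzero integer in the range of the divisor bound -/
theorem primes_dvd_le {T X : ℕ} (h : DB T X) (Ls : Finset ℕ) (hL : ∀ l ∈ Ls, l.Prime) (Z : ℤ)
    (h0 : Z ≠ 0) (hZ : |Z| ≤ X) : (Ls.filter fun l : ℕ => (l : ℤ) ∣ Z).card ≤ T := by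
  refine (card_le_card fun l hl => ?_).trans
    (h Z.natAbs (Int.natAbs_pos.2 h0) (by rw [Int.abs_eq_natAbs] at hZ; exact_mod_cast hZ))
  exact Nat.mem_divisors.2 ⟨Int.natCast_dvd.1 (mem_filter.1 hl).2, Int.natAbs_ne_zero.2 h0⟩

theorem pairs_dvd_le {T X : ℕ} (h : DB T X) (Ps : Finset ℕ) (Z : ℤ) (h0 : Z ≠ 0) (hZ : |Z| ≤ X) :
    (Ps.offDiag.filter fun π : ℕ × ℕ => ((π.1 * π.2 : ℕ) : ℤ) ∣ Z).card ≤ T ^ 2 := by
  have h1 := h Z.natAbs (Int.natAbs_pos.2 h0) (by rw [Int.abs_eq_natAbs] at hZ; exact_mod_cast hZ)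
  refine (card_le_card (t := Z.natAbs.divisors ×ˢ Z.natAbs.divisors) fun π hπ => ?_).trans ?_
  · have h2 := Int.natCast_dvd.1 (mem_filter.1 hπ).2
    have h3 := Int.natAbs_ne_zero.2 h0
    exact mem_product.2 ⟨Nat.mem_divisors.2 ⟨(dvd_mul_right _ _).trans h2, h3⟩,
      Nat.mem_divisors.2 ⟨(dvd_mul_left _ _).trans h2, h3⟩⟩
  · rw [card_product, sq]
    exact Nat.mul_le_mul h1 h1

end Pool.Agent.Lib.MP_9c5702_nt.AC
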