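import Pool.Agent.Lib.MP_9c5702_nt.AC.Offd
import Pool.Agent.Lib.MP_9c5702_nt.AC.Chi
import Pool.Agent.Lib.MP_9c5702_nt.AC.QSplit
import Pool.Agent.Lib.MP_9c5702_nt.AC.Sieve
import Pool.Agent.Lib.MP_9c5702_nt.AC.Param

/-! The count on one line. -/

set_option autoImplicit false

namespace Pool.Agent.Lib.MP_9c5702_nt.AC

open Finset Pool.Agent.Lib.MP_9c5702_nt.Cube

lemma line_class {q : ℕ} (hq : 0 < q) {x c : ℤ} (hc : IsCoprime c (q : ℤ)) (k0 : ℤ) (K : ℕ) :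
    (((Ico k0 (k0 + K)).filter fun κ => (q : ℤ) ∣ x * κ - c).card : ℝ) ≤ (K : ℝ) / q + 1 := by
  rcases ((Ico k0 (k0 + K)).filter fun κ => (q : ℤ) ∣ x * κ - c).eq_empty_or_nonempty with h | h
  · rw [h, card_empty, Nat.cast_zero]
    positivity
  · obtain ⟨κ1, h1⟩ := h
    obtain ⟨j, hj⟩ := (mem_filter.1 h1).2
    obtain ⟨r, s, hrs⟩ := hc
    have hx : IsCoprime (q : ℤ) x := ⟨s - r * j, r * κ1, by linear_combination hrs + r * hj⟩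
    refine le_trans ?_ (card_dvd_le hq (-κ1) k0 K)
    refine Nat.cast_le.2 (card_le_card fun κ hκ => ?_)
    obtain ⟨h2, h3⟩ := mem_filter.1 hκ
    refine mem_filter.2 ⟨h2, hx.dvd_of_dvd_mul_left ?_⟩
    rw [show x * (κ + -κ1) = (x * κ - c) - q * j by linear_combination -hj]
    exact dvd_sub h3 (dvd_mul_right _ _)

lemma line_sum {β : Type} [AddCommMonoid β] (I J : Finset ℤ) (p : ℤ → ℤ → Prop)
    [∀ t κ, Decidable (p t κ)] (f : ℤ → ℤ → β) :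
    ∑ x ∈ (I ×ˢ J).filter (fun x => p x.1 x.2), f x.1 x.2 =
      ∑ t ∈ I, ∑ κ ∈ J.filter (fun κ => p t κ), f t κ := by
  rw [sum_filter, sum_product]
  exact sum_congr rfl fun t _ => (sum_filter _ _).symm

theorem line_count (a e g w w' T X A K M V N Z P Pm Λ lam κ0 : ℕ) (hDB : DB T X) (ha : 1 ≤ a)
    (he : 1 ≤ e) (hg : 1 ≤ g) (hel : e ≤ lam) (hgl : g ≤ lam) (hN : 1 ≤ N) (hZ : 1 ≤ Z)
    (hT : 1 ≤ T) (hlam : 2 * T ≤ lam) (hw : w' ∣ w) (Ps Ls : Finset ℕ)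
    (hPs : ∀ p ∈ Ps, p.Prime ∧ P < p ∧ p ≤ Pm) (hVP : V ^ 13 * M ≤ P)
    (hLs : ∀ l ∈ Ls, l.Prime ∧ l % 3 = 2 ∧ lam < l ∧ l ≤ Λ) (hLc : lam + T ≤ Ls.card)
    (hX : 2 * a * A ^ 3 ≤ X) (hr1 : 2 * Z ^ 5 * (Pm * Λ ^ 2) ≤ 2 * A + 1)
    (hr2 : 2 * Z ^ 6 * Pm ≤ 2 * A + 1)
    (hlo : (8 * T ^ 6 * Z ^ 8) ^ 2 * (V ^ 16 * M * Pm ^ 2) ≤ N ^ 3)
    (hhi : (8 * T ^ 6 * Z ^ 8) ^ 2 * (2 * a * A ^ 3) ≤ (2 * A + 1) ^ 2 * P ^ 2)
    (hκ : (2 * K + 1) * (V ^ 16 * M) ≤ κ0 * N ^ 3) (u v m : ℤ) (hu : |u| ≤ A) (hv : |v| ≤ A)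
    (hG : Good a w V N u v) (hP : HasPair Ps a u v) (hm0 : m ≠ 0) (hm : |m| ≤ M) :
    ((LS a e g w' m u v A K X).card : ℝ) ≤
      (2 * A + 1) * (8 * κ0 / lam + 28 * (Λ : ℝ) ^ 2 * T / Z) := by
  classical
  obtain ⟨p1, hp1, p2, hp2, hne, hd⟩ := hP
  obtain ⟨pp1, pl1, pu1⟩ := hPs p1 hp1
  obtain ⟨pp2, pl2, pu2⟩ := hPs p2 hp2
  obtain ⟨q0, hsq, c10, c20, hq1, hc, hle⟩ := q_split a w V N M u v m hN hG hm0 hm w' hw p1 p2
    pp1 pp2 hne hd (hVP.trans_lt pl1) (hVP.trans_lt pl2)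
  have hq00 : 0 < q0 := Nat.pos_of_ne_zero hsq.ne_zero
  obtain ⟨q1, hq1e⟩ : ∃ q1, q1 = p1 * p2 * q0 := ⟨_, rfl⟩
  have hq1p : 0 < q1 := by rw [hq1e]; exact Nat.mul_pos (Nat.mul_pos pp1.pos pp2.pos) hq00
  have hN3 : 0 < N ^ 3 := Nat.pow_pos hN
  have hq0 : qf a u v ≠ 0 := fun h => by
    have h1 := hG.1
    rw [h, abs_zero, mul_zero] at h1
    have h2 : (0 : ℤ) < (N : ℤ) ^ 3 := by exact_mod_cast hN3
    omega
  have hqA : |qf a u v| ≤ 2 * a * (A : ℤ) ^ 3 := (sizes a A ha 0 u v (by simp) hu hv).1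
  have hqX : |qf a u v| ≤ X := hqA.trans (by exact_mod_cast hX)
  have hq1A : q1 ≤ 2 * a * A ^ 3 := by
    have h1 : ((p1 * p2 * q0 : ℕ) : ℤ) ≤ |qf a u v| :=
      Int.le_of_dvd (abs_pos.2 hq0) ((dvd_abs _ _).2 hq1)
    rw [hq1e]
    exact_mod_cast h1.trans hqA
  have hq1X : q1 ≤ X := hq1A.trans hX
  have hNq : N ^ 3 ≤ V ^ 16 * M * q1 := by
    have h1 : (N : ℤ) ^ 3 ≤ (V : ℤ) ^ 3 * ((V ^ 13 * M * (p1 * p2 * q0) : ℕ) : ℤ) :=
      hG.1.trans (mul_le_mul_of_nonneg_left hle (by positivity))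
    have h2 : N ^ 3 ≤ V ^ 3 * (V ^ 13 * M * (p1 * p2 * q0)) := by exact_mod_cast h1
    rw [hq1e]
    exact h2.trans (le_of_eq (by ring))
  have hVM : 0 < V ^ 16 * M := Nat.pos_of_mul_pos_right (hN3.trans_le hNq)
  have hP0 : 0 < P := by
    refine lt_of_lt_of_le ?_ hVP
    rw [show V ^ 16 * M = V ^ 3 * (V ^ 13 * M) by ring] at hVM
    exact Nat.pos_of_mul_pos_left hVM
  have hlo' : (8 * T ^ 6 * Z ^ 8) ^ 2 ≤ q0 := by
    have h1 : q1 ≤ Pm ^ 2 * q0 := by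
      rw [hq1e, sq]
      exact Nat.mul_le_mul_right _ (Nat.mul_le_mul pu1 pu2)
    have h2 : 0 < V ^ 16 * M * Pm ^ 2 := Nat.mul_pos hVM (Nat.pow_pos (pp1.pos.trans_le pu1))
    refine Nat.le_of_mul_le_mul_right (hlo.trans (hNq.trans ?_)) h2
    exact (Nat.mul_le_mul_left _ h1).trans (le_of_eq (by ring))
  have hhi' : (8 * T ^ 6 * Z ^ 8) ^ 2 * q0 ≤ (2 * A + 1) ^ 2 := by
    have h1 : q0 * P ^ 2 ≤ q1 := by
      rw [hq1e, sq, mul_comm q0]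
      exact Nat.mul_le_mul_right _ (Nat.mul_le_mul pl1.le pl2.le)
    refine Nat.le_of_mul_le_mul_right (le_trans ?_ hhi) (Nat.pow_pos hP0)
    rw [mul_assoc]
    exact Nat.mul_le_mul_left _ (h1.trans hq1A)
  have hK : 2 * K + 1 ≤ κ0 * q1 := by
    refine Nat.le_of_mul_le_mul_right (hκ.trans ?_) hVM
    exact (Nat.mul_le_mul_left _ hNq).trans (le_of_eq (by ring))
  have hκ1 : 1 ≤ κ0 := Nat.pos_of_mul_pos_right (lt_of_lt_of_le (Nat.succ_pos _) hK)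
  have hτ : q0.divisors.card ≤ T := hDB q0 hq00
    ((Nat.le_of_dvd hq1p (hq1e ▸ Dvd.intro_left _ rfl)).trans hq1X)
  have hH : ∑ j ∈ Icc 1 (p1 * p2 * q0), (1 : ℝ) / j ≤ T :=
    harm_le hDB (hq1p.trans_le hq1X) (hq1e ▸ hq1X)
  have hb : IsCoprime (-v) (q0 : ℤ) := by
    have h1 : IsCoprime (v ^ 2 * m * w') (q0 : ℤ) :=
      hc.of_isCoprime_of_dvd_right (Int.natCast_dvd_natCast.2 (Dvd.intro_left _ rfl))
    exact (h1.of_isCoprime_of_dvd_left ⟨v * m * w', by ring⟩).neg_left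
  set Ls' := Ls.filter fun l : ℕ => ¬ (l : ℤ) ∣ qf a u v with hLs'
  have hcard : lam ≤ Ls'.card := by
    have h1 := primes_dvd_le hDB Ls (fun l hl => (hLs l hl).1) _ hq0 hqX
    have h2 := card_filter_add_card_filter_not (s := Ls) fun l : ℕ => (l : ℤ) ∣ qf a u v
    rw [← hLs'] at h2
    omega
  have hpr : ∀ l ∈ Ls', l.Prime := fun l hl => (hLs l (mem_filter.1 hl).1).1
  have hco : ∀ l ∈ Ls', l.Coprime (p1 * p2 * q0) := fun l hl =>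
    (Nat.Prime.coprime_iff_not_dvd (hpr l hl)).2 fun h =>
      (mem_filter.1 hl).2 ((Int.natCast_dvd_natCast.2 h).trans hq1)
  set E := (Iv A ×ˢ Iv K).filter fun x =>
    ((p1 * p2 * q0 : ℕ) : ℤ) ∣ (-v * x.1 + u ^ 2) * x.2 - v ^ 2 * m * w' with hE
  have hsub : LS a e g w' m u v A K X ⊆ E := fun x hx => by
    obtain ⟨h1, h2, -⟩ := mem_filter.1 hx
    refine mem_filter.2 ⟨h1, hq1.trans ?_⟩
    rw [show -v * x.1 + u ^ 2 = Cf x.1 u v by unfold Cf; ring]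
    exact h2
  have hEc : (E.card : ℝ) ≤ (2 * A + 1) * (2 * κ0) := by
    have h1 := line_sum (Iv A) (Iv K) (fun t κ =>
      ((p1 * p2 * q0 : ℕ) : ℤ) ∣ (-v * t + u ^ 2) * κ - v ^ 2 * m * w') (fun _ _ => (1 : ℝ))
    rw [sum_const, nsmul_eq_mul, mul_one] at h1
    rw [hE, h1]
    refine (sum_le_card_nsmul _ _ (2 * (κ0 : ℝ)) fun t _ => ?_).trans (le_of_eq ?_)
    · rw [sum_const, nsmul_eq_mul, mul_one]
      refine (line_class (hq1e ▸ hq1p) hc _ _).trans ?_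
      have h2 : ((2 * K + 1 : ℕ) : ℝ) / ((p1 * p2 * q0 : ℕ) : ℝ) ≤ κ0 := by
        rw [← hq1e, div_le_iff₀ (by exact_mod_cast hq1p)]
        exact_mod_cast hK
      have h3 : (1 : ℝ) ≤ κ0 := by exact_mod_cast hκ1
      linarith
    · rw [card_Iv, nsmul_eq_mul]
      push_cast
      ring
  have hZ0 : (0 : ℝ) < Z := by exact_mod_cast hZ
  have hl0 : (0 : ℝ) < lam := by exact_mod_cast (by omega : 0 < lam)
  have key := sq_sieve E _ hsub (fun x => Gp a e g w' m u v x.1 x.2) Ls' hpr T (by omega)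
    (by omega) (fun x hx => by
      obtain ⟨-, -, h1, h2, h3⟩ := mem_filter.1 hx
      exact ⟨h1, primes_dvd_le hDB Ls' hpr _ h2 h3⟩)
    (7 * (Λ : ℝ) ^ 2 * T * (2 * A + 1) / Z) (by positivity) (fun l hl l' hl' hll => by
      obtain ⟨a1, a2, a3, a4⟩ := hLs l (mem_filter.1 hl).1
      obtain ⟨b1, -, -, b4⟩ := hLs l' (mem_filter.1 hl').1
      have hnd : ¬ (l : ℤ) ∣ (e : ℤ) * g * qf a u v := fun h => by
        have hp := Nat.prime_iff_prime_int.1 a1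
        rcases hp.dvd_or_dvd h with h | h
        · rcases hp.dvd_or_dvd h with h | h
          · have := Nat.le_of_dvd he (Int.natCast_dvd_natCast.1 h)
            omega
          · have := Nat.le_of_dvd hg (Int.natCast_dvd_natCast.1 h)
            omega
        · exact (mem_filter.1 hl).2 h
      obtain ⟨f1, f2, f3, f4⟩ := chi_phi a e g w' m u v l l' a1 b1 hll a2 (by omega) hnd
        (fun t κ => ((jacobiSym (Gp a e g w' m u v t κ) l *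
          jacobiSym (Gp a e g w' m u v t κ) l' : ℤ) : ℝ)) (fun _ _ => rfl)
      have hLΛ : l * l' ≤ Λ ^ 2 := by rw [sq]; exact Nat.mul_le_mul a4 b4
      have h1 := offd p1 p2 q0 (l * l') T Z (2 * A + 1) pp1.pos pp2.pos
        ((Nat.coprime_primes pp1 pp2).2 hne) c10 c20 hsq (Nat.mul_pos a1.pos b1.pos)
        (Nat.Coprime.mul_left (hco l hl) (hco l' hl')) hZ hτ hH (-v) (u ^ 2) _ hb hc
        ((Nat.mul_le_mul_left _ (Nat.mul_le_mul pu1 hLΛ)).trans hr1)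
        ((Nat.mul_le_mul_left _ pu2).trans hr2) hlo' hhi' _ f1 f2 f3 f4 (-(A : ℤ)) (-(K : ℤ))
        (2 * K + 1)
      have h2 := line_sum (Iv A) (Iv K) (fun t κ =>
        ((p1 * p2 * q0 : ℕ) : ℤ) ∣ (-v * t + u ^ 2) * κ - v ^ 2 * m * w')
        (fun t κ => ((jacobiSym (Gp a e g w' m u v t κ) l *
          jacobiSym (Gp a e g w' m u v t κ) l' : ℤ) : ℝ))
      rw [hE, h2]
      refine h1.trans ?_
      have h3 : ((l * l' : ℕ) : ℝ) ≤ (Λ : ℝ) ^ 2 := by exact_mod_cast hLΛ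
      have h4 : ((2 * A + 1 : ℕ) : ℝ) = 2 * A + 1 := by push_cast; ring
      rw [h4]
      gcongr)
  refine key.trans ?_
  have h5 : (lam : ℝ) ≤ Ls'.card := by exact_mod_cast hcard
  have h6 : 4 * (E.card : ℝ) / Ls'.card ≤ 4 * ((2 * A + 1) * (2 * κ0)) / lam := by gcongr
  refine (add_le_add h6 le_rfl).trans (le_of_eq ?_)
  ring

end Pool.Agent.Lib.MP_9c5702_nt.AC
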