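import Pool.Agent.Lib.MP_9c5702_nt.AC.Small
import Pool.Agent.Lib.MP_9c5702_nt.AC.Large
import Pool.Agent.Lib.MP_9c5702_nt.AC.CubeCase

/-! A power saving for every integer with a large cube divisor. -/

set_option autoImplicit false

namespace Pool.Agent.Lib.MP_9c5702_nt.AC

open Pool.Agent.Lib.MP_9c5702_nt

theorem main : ∃ C : ℝ, ∀ a w : ℕ, 1 ≤ a → 1 ≤ w → a ^ 5 ≤ w ^ 6 →
    (r33 (a * w ^ 3) : ℝ) ≤ C * ((a * w ^ 3 : ℕ) : ℝ) ^ ((1 : ℝ) / 3 - 1 / 10 ^ 8) := by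
  obtain ⟨C1, h10, h1⟩ := small_case
  obtain ⟨C2, h20, h2⟩ := large_case
  obtain ⟨C3, h3⟩ := cube_case
  refine ⟨C1 + C2 + max C3 0, fun a w ha hw h => ?_⟩
  have hp : (0 : ℝ) ≤ ((a * w ^ 3 : ℕ) : ℝ) ^ ((1 : ℝ) / 3 - 1 / 10 ^ 8) := by positivity
  have h30 : (0 : ℝ) ≤ max C3 0 := le_max_right _ _
  have h31 : C3 ≤ max C3 0 := le_max_left _ _
  by_cases hc : NC a
  · rcases le_total (a ^ 4320000) w with h4 | h4
    · exact (h1 a w hc h4).trans (mul_le_mul_of_nonneg_right (by linarith) hp)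
    · exact (h2 a w ha hw h4 h).trans (mul_le_mul_of_nonneg_right (by linarith) hp)
  · unfold NC at hc
    push Not at hc
    obtain ⟨b, rfl⟩ := hc
    have hb : 1 ≤ b := Nat.pos_of_ne_zero fun h0 => by simp [h0] at ha
    have h4 := h3 (b * w) (Nat.mul_pos hb hw)
    rw [mul_pow] at h4
    exact h4.trans (mul_le_mul_of_nonneg_right (by linarith) hp)

end Pool.Agent.Lib.MP_9c5702_nt.AC
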