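import Pool.Agent.Lib.MP_9c5702_nt.AC.Roots
import Pool.Agent.Lib.MP_9c5702_nt.AC.Param

/-! The number of pairs with a given short vector. -/

set_option autoImplicit false

namespace Pool.Agent.Lib.MP_9c5702_nt.AC

open Finset Pool.Agent.Lib.MP_9c5702_nt.Cube

theorem mult_count (a w d B : ℕ) (ha : 1 ≤ a) (hd : 1 ≤ d) (hc : d.Coprime w) :
    (((Icc 1 B).filter fun z : ℕ => (d : ℤ) ∣ (z : ℤ) ^ 3 - a * (w : ℤ) ^ 3).card : ℝ) ≤
      ((B : ℝ) / d + 1) * (9 * (a : ℝ) ^ 2 * (d.divisors.card : ℝ) ^ 2) := by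
  have hp : Function.Periodic
      (fun x : ℤ => if (d : ℤ) ∣ x ^ 3 - a * (w : ℤ) ^ 3 then (1 : ℝ) else 0) d := fun x => by
    have e : (x + d) ^ 3 - a * (w : ℤ) ^ 3 =
        x ^ 3 - a * (w : ℤ) ^ 3 + d * (3 * x ^ 2 + 3 * x * d + d ^ 2) := by ring
    simp only [e, dvd_add_left (dvd_mul_right (d : ℤ) _)]
  have h1 := sum_le_periods hd _ hp (fun x => by positivity) 1 B
  rw [sum_boole, sum_boole] at h1
  have h2 : ((Icc 1 B).filter fun z : ℕ => (d : ℤ) ∣ (z : ℤ) ^ 3 - a * (w : ℤ) ^ 3).card ≤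
      ((Ico (1 : ℤ) (1 + B)).filter fun x => (d : ℤ) ∣ x ^ 3 - a * (w : ℤ) ^ 3).card := by
    refine card_le_card_of_injOn (fun z => (z : ℤ)) (fun z hz => ?_)
      (fun x _ y _ h => Nat.cast_injective (R := ℤ) h)
    simp only [coe_filter, mem_Icc, mem_Ico, Set.mem_ofPred_eq] at hz ⊢
    exact ⟨by omega, hz.2⟩
  refine ((Nat.cast_le.2 h2).trans h1).trans (mul_le_mul_of_nonneg_left ?_ (by positivity))
  exact_mod_cast roots_cube a w d ha hd hc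

theorem mult_le (a e g w' w G B T X A0 : ℕ) (hDB : DB T X) (ha : NC a) (hw : 1 ≤ w)
    (hX : 6 * a ^ 2 * A0 ^ 3 ≤ X) (α : ℤ × ℤ × ℤ) (hα : α ∈ box3 A0) (h0 : α ≠ 0) :
    ((RS a e g w' w G B α).card : ℝ) ≤
      T * (9 * (a : ℝ) ^ 2 * (T : ℝ) ^ 2) * (2 * (G : ℝ) ^ 3 * B / w + 1) := by
  classical
  obtain ⟨b1, b2, b3⟩ := mem_box3.1 hα
  have hne : Nm a α.1 α.2.1 α.2.2 ≠ 0 := by
    refine nm_ne ha _ _ _ ?_
    by_contra hn
    push Not at hn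
    exact h0 (Prod.ext hn.1 (Prod.ext hn.2.1 hn.2.2))
  set n := (Nm a α.1 α.2.1 α.2.2).natAbs with hn
  have hn1 : 1 ≤ n := Int.natAbs_pos.2 hne
  have hnX : n ≤ X := by
    have h1 := (sizes a A0 ha.pos _ _ _ b1 b2 b3).2.2
    rw [← Int.natCast_natAbs, ← hn] at h1
    exact le_trans (by exact_mod_cast h1) hX
  have hmem : ∀ x ∈ RS a e g w' w G B α, x.2 ∈ Icc 1 B ∧ w ≤ 2 * G ^ 3 * x.1 ∧ x.1.Coprime w' ∧
      (x.1 : ℤ) ∣ (x.2 : ℤ) ^ 3 - a * (w' : ℤ) ^ 3 ∧ x.1 ∈ n.divisors := by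
    intro x hx
    simp only [RS, PF, mem_filter, mem_product] at hx
    obtain ⟨⟨⟨-, h2⟩, h3, h4, h5, -⟩, h6⟩ := hx
    obtain ⟨m, κ, hm, -⟩ := param a w' x.1 x.2 _ _ _ (Nat.isCoprime_iff_coprime.2 h4) h5 h6
    refine ⟨h2, h3, h4, h5, Nat.mem_divisors.2 ⟨?_, by omega⟩⟩
    exact Int.natCast_dvd.1 ⟨m, by rw [← hm, mul_comm]⟩
  rw [card_eq_sum_card_fiberwise (f := fun x => x.1) (t := n.divisors)
    (fun x hx => (hmem x hx).2.2.2.2), Nat.cast_sum]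
  have hw' : (0 : ℝ) < w := by exact_mod_cast hw
  have hfib : ∀ d ∈ n.divisors, (((RS a e g w' w G B α).filter fun x => x.1 = d).card : ℝ) ≤
      (9 * (a : ℝ) ^ 2 * (T : ℝ) ^ 2) * (2 * (G : ℝ) ^ 3 * B / w + 1) := by
    intro d hd
    rcases ((RS a e g w' w G B α).filter fun x => x.1 = d).eq_empty_or_nonempty with h | ⟨y, hy⟩
    · rw [h, card_empty, Nat.cast_zero]
      positivity
    obtain ⟨hy1, hy2⟩ := mem_filter.1 hy
    obtain ⟨-, c2, c3, -, -⟩ := hmem y hy1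
    rw [hy2] at c2 c3
    have hd1 : 1 ≤ d := Nat.pos_of_mem_divisors hd
    have hd' : (0 : ℝ) < d := by exact_mod_cast hd1
    have hT : (d.divisors.card : ℝ) ≤ T := by
      exact_mod_cast hDB d hd1 ((Nat.divisor_le hd).trans hnX)
    have h1 : ((RS a e g w' w G B α).filter fun x => x.1 = d).card ≤
        ((Icc 1 B).filter fun z : ℕ => (d : ℤ) ∣ (z : ℤ) ^ 3 - a * (w' : ℤ) ^ 3).card := by
      refine card_le_card_of_injOn (fun x => x.2) (fun x hx => ?_) (fun x hx y hy h => ?_)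
      · obtain ⟨h1, h2⟩ := mem_filter.1 (mem_coe.1 hx)
        obtain ⟨e1, -, -, e4, -⟩ := hmem x h1
        rw [h2] at e4
        exact mem_coe.2 (mem_filter.2 ⟨e1, e4⟩)
      · exact Prod.ext ((mem_filter.1 (mem_coe.1 hx)).2.trans (mem_filter.1 (mem_coe.1 hy)).2.symm) h
    have h2 : (B : ℝ) / d ≤ 2 * (G : ℝ) ^ 3 * B / w := by
      rw [div_le_div_iff₀ hd' hw']
      have h3 : (w : ℝ) ≤ 2 * (G : ℝ) ^ 3 * d := by exact_mod_cast c2
      nlinarith [mul_le_mul_of_nonneg_left h3 (Nat.cast_nonneg (α := ℝ) B)]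
    refine ((Nat.cast_le.2 h1).trans (mult_count a w' d B ha.pos hd1 c3)).trans ?_
    rw [mul_comm]
    gcongr
  refine (sum_le_card_nsmul _ _ _ hfib).trans ?_
  rw [nsmul_eq_mul, mul_assoc (T : ℝ)]
  refine mul_le_mul_of_nonneg_right ?_ (by positivity)
  exact_mod_cast hDB n hn1 hnX

end Pool.Agent.Lib.MP_9c5702_nt.AC
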