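import Pool.Agent.Lib.MP_9c5702_nt.AC.BadSq
import Pool.Agent.Lib.MP_9c5702_nt.AC.BadW

/-! The exceptional directions with explicit parameters. -/

set_option autoImplicit false

namespace Pool.Agent.Lib.MP_9c5702_nt.AC

open Finset Pool.Agent.Lib.MP_9c5702_nt.Cube

theorem numbad_gen (a w T X V B M Dm : ℕ) (hT : 175 ≤ T) (hDB : DB T X) (ha : NC a)
    (haT : a ≤ T) (hw1 : 1 ≤ w) (hw : w ≤ X) (hV : 1 ≤ V) (hB : 1 ≤ B) (hM : M ≤ B)
    (hX : 2 * a * (V * B) ^ 3 ≤ X) (hD : 2 * a * (V * B) ^ 3 ≤ Dm ^ 2) (hDm : Dm ≤ B ^ 2) :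
    (Bad0 a w V (V * M) (V * B)).card ≤ T ^ 5 * (V * B ^ 2) := by
  classical
  have hA : 1 ≤ V * B := Nat.mul_pos hV hB
  set S1 := (box2 (V * B)).filter fun x : ℤ × ℤ =>
    (V : ℤ) ^ 3 * |qf a x.1 x.2| < ((V * M : ℕ) : ℤ) ^ 3 with hS1
  set S2 := (box2 (V * B)).filter fun x : ℤ × ℤ =>
    ∃ D : ℕ, V ^ 4 < D ∧ (D : ℤ) ^ 2 ∣ qf a x.1 x.2 with hS2
  set S3 := (box2 (V * B)).filter fun x : ℤ × ℤ =>
    ∃ g : ℕ, Squarefree g ∧ g ∣ w ∧ V < g ∧ (g : ℤ) ∣ qf a x.1 x.2 with hS3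
  have hsub : Bad0 a w V (V * M) (V * B) ⊆ S1 ∪ S2 ∪ S3 := by
    intro x hx
    rw [Bad0, mem_filter] at hx
    obtain ⟨hx1, hx2⟩ := hx
    rw [mem_union, mem_union, hS1, hS2, hS3, mem_filter, mem_filter, mem_filter]
    by_contra hc
    apply hx2
    refine ⟨?_, ?_, ?_⟩
    · by_contra h1
      exact hc (Or.inl (Or.inl ⟨hx1, not_le.mp h1⟩))
    · intro D hD'
      by_contra h1
      exact hc (Or.inl (Or.inr ⟨hx1, D, not_le.mp h1, hD'⟩))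
    · intro g g1 g2 g3
      by_contra h1
      exact hc (Or.inr ⟨hx1, g, g1, g2, not_le.mp h1, g3⟩)
  have hc : (Bad0 a w V (V * M) (V * B)).card ≤ S1.card + S2.card + S3.card :=
    (card_le_card hsub).trans ((card_union_le _ _).trans
      (Nat.add_le_add_right (card_union_le _ _) _))
  have b1 := bad_small a (V * B) V (V * M) hV S1 (fun x hx => mem_filter.mp hx)
  have b2 := bad_sq a T X (V * B) V Dm hDB ha hA hV hX hD S2 (fun x hx => mem_filter.mp hx)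
  have b3 := bad_w a w T X (V * B) V hDB hw1 hw hV S3 (fun x hx => mem_filter.mp hx)
  have hV' : (1 : ℝ) ≤ V := by exact_mod_cast hV
  have hB' : (1 : ℝ) ≤ B := by exact_mod_cast hB
  have hM' : (M : ℝ) ≤ B := by exact_mod_cast hM
  have hM0 : (0 : ℝ) ≤ M := Nat.cast_nonneg _
  have hT' : (175 : ℝ) ≤ T := by exact_mod_cast hT
  have ha' : (a : ℝ) ≤ T := by exact_mod_cast haT
  have ha0 : (0 : ℝ) ≤ a := Nat.cast_nonneg _
  have hDm' : (Dm : ℝ) ≤ (B : ℝ) ^ 2 := by exact_mod_cast hDm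
  have hV0 : (V : ℝ) ≠ 0 := by positivity
  have hVB : (1 : ℝ) ≤ V * B := by exact_mod_cast hA
  push_cast at b1 b2 b3
  set Q : ℝ := (V : ℝ) * (B : ℝ) ^ 2 with hQ
  have hQ1 : 1 ≤ Q := by rw [hQ]; nlinarith
  have h3 : 2 * ((V : ℝ) * B) + 1 ≤ 3 * (V * B) := by linarith
  have c1 : (S1.card : ℝ) ≤ 9 * Q := by
    refine b1.trans ?_
    have e : 2 * ((V : ℝ) * M) / V + 1 = 2 * M + 1 := by field_simp
    rw [e]
    calc (2 * ((V : ℝ) * B) + 1) * (2 * M + 1) ≤ (3 * (V * B)) * (3 * B) :=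
          mul_le_mul h3 (by linarith) (by positivity) (by positivity)
      _ = 9 * Q := by rw [hQ]; ring
  have hT4 : (1 : ℝ) ≤ (T : ℝ) ^ 4 := one_le_pow₀ (by linarith)
  have c2 : (S2.card : ℝ) ≤ 10 * Q + 144 * ((T : ℝ) ^ 4 * Q) := by
    refine b2.trans ?_
    have e1 : 9 * ((V : ℝ) * B) ^ 2 / V = 9 * Q := by rw [hQ]; field_simp
    have e2 : 8 * ((V : ℝ) * B) ^ 2 / V = 8 * Q := by rw [hQ]; field_simp
    rw [e1, e2]
    have d1 : 8 * (V : ℝ) * Dm ≤ 8 * Q := by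
      rw [hQ, mul_assoc]
      exact mul_le_mul_of_nonneg_left (mul_le_mul_of_nonneg_left hDm' (by positivity))
        (by norm_num)
    have d2 : 9 * (a : ℝ) ^ 2 * (T : ℝ) ^ 2 ≤ 9 * (T : ℝ) ^ 2 * (T : ℝ) ^ 2 := by gcongr
    have d3 : 9 * (a : ℝ) ^ 2 * (T : ℝ) ^ 2 * (8 * Q + 8 * V * Dm) ≤
        9 * (T : ℝ) ^ 2 * (T : ℝ) ^ 2 * (16 * Q) :=
      mul_le_mul d2 (by linarith) (by positivity) (by positivity)
    have d4 : 9 * (T : ℝ) ^ 2 * (T : ℝ) ^ 2 * (16 * Q) = 144 * ((T : ℝ) ^ 4 * Q) := by ring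
    linarith
  have c3 : (S3.card : ℝ) ≤ 12 * ((T : ℝ) ^ 4 * Q) := by
    refine b3.trans ?_
    have d1 : (2 * ((V : ℝ) * B) + 1) / V + 1 ≤ 4 * B := by
      have : (2 * ((V : ℝ) * B) + 1) / V ≤ 3 * B := by
        rw [div_le_iff₀ (by positivity)]
        linarith
      linarith
    have d2 : (T : ℝ) ^ 3 ≤ (T : ℝ) ^ 4 := pow_le_pow_right₀ (by linarith) (by norm_num)
    calc (T : ℝ) ^ 3 * (2 * ((V : ℝ) * B) + 1) * ((2 * ((V : ℝ) * B) + 1) / V + 1)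
        ≤ (T : ℝ) ^ 4 * (3 * (V * B)) * (4 * B) :=
          mul_le_mul (mul_le_mul d2 h3 (by positivity) (by positivity)) d1 (by positivity)
            (by positivity)
      _ = 12 * ((T : ℝ) ^ 4 * Q) := by rw [hQ]; ring
  have d5 : Q ≤ (T : ℝ) ^ 4 * Q := le_mul_of_one_le_left (by linarith) hT4
  have d6 : 175 * ((T : ℝ) ^ 4 * Q) ≤ T * ((T : ℝ) ^ 4 * Q) :=
    mul_le_mul_of_nonneg_right hT' (by positivity)
  have hc' : ((Bad0 a w V (V * M) (V * B)).card : ℝ) ≤ S1.card + S2.card + S3.card := by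
    exact_mod_cast hc
  have fin : ((Bad0 a w V (V * M) (V * B)).card : ℝ) ≤ (T : ℝ) ^ 5 * Q := by
    have e : (T : ℝ) ^ 5 * Q = T * ((T : ℝ) ^ 4 * Q) := by ring
    rw [e]
    linarith
  rw [hQ] at fin
  exact_mod_cast fin

theorem numbad_pw (T i j k : ℕ) (h : i + j = k) : T ^ i * T ^ j = T ^ k := by
  rw [← pow_add, h]

theorem numbad_pp (T i j k : ℕ) (h : i * j = k) : (T ^ i) ^ j = T ^ k := by
  rw [← pow_mul, h]

theorem numbad_two (T i k : ℕ) (hT : 3 ≤ T) (h : i + 1 = k) : 2 * T ^ i + 1 ≤ T ^ k := by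
  have h1 : 1 ≤ T ^ i := Nat.pow_pos (by omega)
  rw [← h, pow_succ]
  nlinarith

theorem numbad_one (T i k : ℕ) (hT : 3 ≤ T) (h : i + 1 = k) : T ^ i + 1 ≤ T ^ k :=
  le_trans (by omega) (numbad_two T i k hT h)

theorem numbad_cube (a T i k : ℕ) (hT : 3 ≤ T) (haT : a ≤ T) (h : i + 2 = k) :
    2 * a * T ^ i ≤ T ^ k := by
  rw [← h, pow_add, mul_comm (T ^ i)]
  exact Nat.mul_le_mul_right _ (by nlinarith)

theorem num_bad (a w T : ℕ) (hT : 10 ^ 30 ≤ T) (hDB : DB T (T ^ 36000000)) (ha : NC a)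
    (haT : a ≤ T) (hw1 : 1 ≤ w) (hw : w ≤ T ^ 4320001) :
    ((Bad2 a w (T ^ 210) (T ^ 1440000) (T ^ 52) (T ^ 1440001)).card : ℝ) ≤
      (T : ℝ) ^ 4319962 := by
  have hT1 : 175 ≤ T := le_trans (by norm_num) hT
  have hT3 : 3 ≤ T := le_trans (by norm_num) hT1
  have hT0 : 0 < T := lt_of_lt_of_le (by norm_num) hT3
  have mono : ∀ i j : ℕ, i ≤ j → T ^ i ≤ T ^ j := fun i j h => Nat.pow_le_pow_right hT0 h
  have eA : T ^ 210 * T ^ 1439844 = T ^ 1440054 := numbad_pw T _ _ _ (by norm_num)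
  have eN : T ^ 210 * T ^ 1439790 = T ^ 1440000 := numbad_pw T _ _ _ (by norm_num)
  have e3 : (T ^ 1440054) ^ 3 = T ^ 4320162 := numbad_pp T _ _ _ (by norm_num)
  have eD : (T ^ 2160082) ^ 2 = T ^ 4320164 := numbad_pp T _ _ _ (by norm_num)
  have eB : (T ^ 1439844) ^ 2 = T ^ 2879688 := numbad_pp T _ _ _ (by norm_num)
  have hc : 2 * a * (T ^ 210 * T ^ 1439844) ^ 3 ≤ T ^ 4320164 := by
    rw [eA, e3]
    exact numbad_cube a T _ _ hT3 haT (by norm_num)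
  have p1 : 1 ≤ T ^ 210 := Nat.one_le_pow _ _ hT0
  have p2 : 1 ≤ T ^ 1439844 := Nat.one_le_pow _ _ hT0
  have m1 : T ^ 4320001 ≤ T ^ 36000000 := mono _ _ (by norm_num)
  have m2 : T ^ 1439790 ≤ T ^ 1439844 := mono _ _ (by norm_num)
  have m3 : T ^ 4320164 ≤ T ^ 36000000 := mono _ _ (by norm_num)
  have m4 : T ^ 2160082 ≤ T ^ 2879688 := mono _ _ (by norm_num)
  have h0 := numbad_gen a w T (T ^ 36000000) (T ^ 210) (T ^ 1439844) (T ^ 1439790)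
    (T ^ 2160082) hT1 hDB ha haT hw1 (le_trans hw m1) p1 p2 m2 (le_trans hc m3)
    (le_trans hc (le_of_eq eD.symm)) (le_trans m4 (le_of_eq eB.symm))
  rw [eA, eN, eB, numbad_pw T 210 2879688 2879898 (by norm_num),
    numbad_pw T 5 2879898 2879903 (by norm_num)] at h0
  have hA : (T ^ 52 + 1) * T ^ 1440001 ≤ T ^ 1440054 :=
    (Nat.mul_le_mul_right _ (numbad_one T 52 53 hT3 (by norm_num))).trans
      (numbad_pw T _ _ _ (by norm_num)).le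
  have h1 := bad_alpha a w (T ^ 210) (T ^ 1440000) (T ^ 52) (T ^ 1440001) (T ^ 1440054) hA
  have h2 : T ^ 52 * (2 * T ^ 1440001 + 1) ≤ T ^ 1440054 :=
    (Nat.mul_le_mul_left _ (numbad_two T 1440001 1440002 hT3 (by norm_num))).trans
      (numbad_pw T _ _ _ (by norm_num)).le
  have h3 : (Bad2 a w (T ^ 210) (T ^ 1440000) (T ^ 52) (T ^ 1440001)).card ≤ T ^ 4319962 :=
    h1.trans ((Nat.mul_le_mul h2 h0).trans
      ((numbad_pw T 1440054 2879903 4319957 (by norm_num)).le.trans (mono _ _ (by norm_num))))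
  rw [← Nat.cast_pow]
  exact Nat.cast_le.mpr h3

end Pool.Agent.Lib.MP_9c5702_nt.AC
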