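import Pool.Agent.Lib.MP_9c5702_nt.AC.Line

/-! The count on one line with explicit parameters. -/

set_option autoImplicit false

namespace Pool.Agent.Lib.MP_9c5702_nt.AC

open Finset Pool.Agent.Lib.MP_9c5702_nt.Cube

theorem num_line (a e g w w' T : ℕ) (hT : 10 ^ 30 ≤ T) (hDB : DB T (T ^ 36000000)) (ha : 1 ≤ a)
    (haT : a ≤ T) (he : 1 ≤ e) (hg : 1 ≤ g) (heT : e ≤ (T ^ 4) ^ 3) (hgT : g ≤ T ^ 4) (hw : w' ∣ w)
    (Ps Ls : Finset ℕ) (hPs : ∀ p ∈ Ps, p.Prime ∧ T ^ 788300 < p ∧ p ≤ T ^ 788301)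
    (hLs : ∀ l ∈ Ls, l.Prime ∧ l % 3 = 2 ∧ T ^ 4078 < l ∧ l ≤ T ^ 4079)
    (hLc : 3 * T ^ 4078 ≤ Ls.card) (u v m : ℤ) (hu : |u| ≤ (T ^ 1440054 : ℕ))
    (hv : |v| ≤ (T ^ 1440054 : ℕ)) (hG : Good a w (T ^ 210) (T ^ 1440000) u v)
    (hP : HasPair Ps a u v) (hm0 : m ≠ 0) (hm : |m| ≤ (T ^ 177 : ℕ)) :
    ((LS a e g w' m u v (T ^ 1440054) (T ^ 4320177) (T ^ 36000000)).card : ℝ) ≤
      (T : ℝ) ^ 1439694 := by
  have hT1 : 1 ≤ T := le_trans (by norm_num) hT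
  have m1 : ∀ i j : ℕ, i ≤ j → T ^ i ≤ T ^ j := fun i j h => Nat.pow_le_pow_right hT1 h
  have m2 : ∀ c i j : ℕ, c ≤ T → i < j → c * T ^ i ≤ T ^ j := fun c i j hc h =>
    (Nat.mul_le_mul_right _ hc).trans ((pow_succ' T i).symm.le.trans (m1 _ _ h))
  have m3 : ∀ c : ℕ, c ≤ 10 ^ 30 → c ≤ T := fun c h => h.trans hT
  have hA : 2 * a * (T ^ 1440054) ^ 3 ≤ T ^ 4320164 := by
    rw [← pow_mul, mul_assoc]
    exact (Nat.mul_le_mul_left 2 (m2 a _ 4320163 haT (by norm_num))).trans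
      (m2 2 _ _ (m3 _ (by norm_num)) (by norm_num))
  have hZ : (8 * T ^ 6 * (T ^ 8522) ^ 8) ^ 2 ≤ T ^ 136366 := by
    rw [← pow_mul, mul_assoc, ← pow_add, show 136366 = 68183 * 2 from rfl, pow_mul]
    exact Nat.pow_le_pow_left (m2 8 _ _ (m3 _ (by norm_num)) (by norm_num)) 2
  have h3 : ∀ i, 2 * T ^ i + 1 ≤ 3 * T ^ i := fun i => by
    have := Nat.one_le_pow i T hT1
    omega
  have h4 : ∀ i j, i ≤ j → 2 * T ^ i ≤ 2 * T ^ j + 1 := fun i j h => by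
    have := m1 i j h
    omega
  have h := line_count a e g w w' T (T ^ 36000000) (T ^ 1440054) (T ^ 4320177) (T ^ 177) (T ^ 210)
    (T ^ 1440000) (T ^ 8522) (T ^ 788300) (T ^ 788301) (T ^ 4079) (T ^ 4078) (T ^ 3715) hDB ha he hg
    (heT.trans (by rw [← pow_mul]; exact m1 _ _ (by norm_num)))
    (hgT.trans (m1 _ _ (by norm_num))) (Nat.one_le_pow _ _ hT1) (Nat.one_le_pow _ _ hT1) hT1
    (by simpa only [pow_one] using m2 2 1 4078 (m3 _ (by norm_num)) (by norm_num)) hw Ps Ls hPs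
    (by rw [← pow_mul, ← pow_add]; exact m1 _ _ (by norm_num)) hLs
    (le_trans (by
      have := m1 1 4078 (by norm_num)
      rw [pow_one] at this
      generalize T ^ 4078 = y at this ⊢
      omega) hLc)
    (hA.trans (m1 _ _ (by norm_num)))
    (by
      rw [← pow_mul, ← pow_mul, ← pow_add, mul_assoc, ← pow_add]
      exact h4 _ _ (by norm_num))
    (by
      rw [← pow_mul, mul_assoc, ← pow_add]
      exact h4 _ _ (by norm_num))
    (by
      refine (Nat.mul_le_mul_right _ hZ).trans ?_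
      simp only [← pow_mul, ← pow_add]
      exact m1 _ _ (by norm_num))
    (by
      refine (Nat.mul_le_mul hZ hA).trans (le_trans ?_ (Nat.mul_le_mul_right _
        (Nat.pow_le_pow_left (show T ^ 1440054 ≤ _ by
          generalize T ^ 1440054 = y
          omega) 2)))
      simp only [← pow_mul, ← pow_add]
      exact m1 _ _ (by norm_num))
    (by
      refine (Nat.mul_le_mul_right _ ((h3 _).trans
        (m2 3 _ 4320178 (m3 _ (by norm_num)) (by norm_num)))).trans ?_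
      simp only [← pow_mul, ← pow_add]
      exact m1 _ _ (by norm_num))
    u v m hu hv hG hP hm0 hm
  refine h.trans ?_
  have hT0 : (0 : ℝ) < T := by exact_mod_cast hT1
  have e1 : ((T ^ 3715 : ℕ) : ℝ) / (T ^ 4078 : ℕ) = 1 / (T : ℝ) ^ 363 := by
    rw [Nat.cast_pow, Nat.cast_pow, div_eq_div_iff (pow_pos hT0 _).ne' (pow_pos hT0 _).ne',
      ← pow_add, one_mul]
  have e2 : ((T ^ 4079 : ℕ) : ℝ) ^ 2 * T / (T ^ 8522 : ℕ) = 1 / (T : ℝ) ^ 363 := by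
    rw [Nat.cast_pow, Nat.cast_pow, div_eq_div_iff (pow_pos hT0 _).ne' (pow_pos hT0 _).ne',
      ← pow_mul, ← pow_succ, ← pow_add, one_mul]
  have e3 : 36 * (2 * T ^ 1440054 + 1) ≤ T ^ 1439694 * T ^ 363 := by
    refine (Nat.mul_le_mul_left _ (h3 _)).trans ?_
    rw [← mul_assoc, ← pow_add]
    exact m2 _ _ _ (m3 _ (by norm_num)) (by norm_num)
  have e4 : 36 * (2 * ((T ^ 1440054 : ℕ) : ℝ) + 1) ≤ (T : ℝ) ^ 1439694 * (T : ℝ) ^ 363 := by
    rw [← Nat.cast_pow, ← Nat.cast_pow]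
    generalize T ^ 1440054 = x at e3 ⊢
    generalize T ^ 1439694 = y at e3 ⊢
    generalize T ^ 363 = z at e3 ⊢
    exact_mod_cast e3
  rw [mul_div_assoc, e1, mul_assoc, mul_div_assoc, e2, ← add_mul, mul_one_div, ← mul_div_assoc,
    div_le_iff₀ (pow_pos hT0 _), mul_comm]
  exact le_trans (le_of_eq (by norm_num)) e4

end Pool.Agent.Lib.MP_9c5702_nt.AC
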