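import Pool.Agent.Lib.MP_9c5702_nt.AC.Defs

/-! From solutions to pairs. -/

set_option autoImplicit false

namespace Pool.Agent.Lib.MP_9c5702_nt.AC

open Finset Pool.Agent.Lib.MP_9c5702_nt.Cube Pool.Agent.Lib.MP_9c5702_nt

/-- the solutions -/
def pairsT (n : ℕ) : Finset (ℕ × ℕ × ℕ) :=
  ((Icc 1 n) ×ˢ (Icc 1 n) ×ˢ (Icc 1 n)).filter
    (fun p : ℕ × ℕ × ℕ => p.1 ^ 3 + p.2.1 ^ 3 + p.2.2 ^ 3 = n)

lemma pairs_mem {n x y z : ℕ} : (x, y, z) ∈ pairsT n ↔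
    1 ≤ x ∧ 1 ≤ y ∧ 1 ≤ z ∧ x ^ 3 + y ^ 3 + z ^ 3 = n := by
  simp only [pairsT, mem_filter, mem_product, mem_Icc]
  constructor
  · rintro ⟨⟨h1, h2, h3⟩, h⟩
    exact ⟨h1.1, h2.1, h3.1, h⟩
  · rintro ⟨h1, h2, h3, h⟩
    have e1 : x ≤ x ^ 3 := Nat.le_self_pow (by norm_num) x
    have e2 : y ≤ y ^ 3 := Nat.le_self_pow (by norm_num) y
    have e3 : z ≤ z ^ 3 := Nat.le_self_pow (by norm_num) z
    exact ⟨⟨⟨h1, by omega⟩, ⟨h2, by omega⟩, ⟨h3, by omega⟩⟩, h⟩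

/-- the solutions with a large first coordinate above the second -/
def pairsA (n w : ℕ) : Finset (ℕ × ℕ × ℕ) :=
  (pairsT n).filter fun p => p.2.1 < p.1 ∧ w ≤ 2 * p.1

lemma pairs_memA {n w x y z : ℕ} : (x, y, z) ∈ pairsA n w ↔
    (1 ≤ x ∧ 1 ≤ y ∧ 1 ≤ z ∧ x ^ 3 + y ^ 3 + z ^ 3 = n) ∧ y < x ∧ w ≤ 2 * x := by
  rw [pairsA, mem_filter, pairs_mem]

lemma pairs_A_le (a w B : ℕ) (hB : a * w ^ 3 ≤ B ^ 3) :
    (pairsA (a * w ^ 3) w).card ≤ (PS a w B).card := by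
  classical
  refine card_le_card_of_injOn (fun p => (p.1 + p.2.1, p.2.2)) ?_ ?_
  · rintro ⟨x, y, z⟩ hp
    obtain ⟨⟨h1, h2, h3, h⟩, hxy, hw⟩ := pairs_memA.1 (mem_coe.1 hp)
    have hx : x ≤ B := (Nat.pow_le_pow_iff_left (n := 3) (by norm_num)).1 (by omega)
    have hz : z ≤ B := (Nat.pow_le_pow_iff_left (n := 3) (by norm_num)).1 (by omega)
    have hx3 : 0 < x ^ 3 := by positivity
    have hZ : (x : ℤ) ^ 3 + (y : ℤ) ^ 3 + (z : ℤ) ^ 3 = (a : ℤ) * (w : ℤ) ^ 3 := by exact_mod_cast h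
    have hD : Dl a 1 1 w ((x + y : ℕ) : ℤ) z =
        (3 * ((x : ℤ) + y) * (x - y)) * (3 * ((x : ℤ) + y) * (x - y)) := by
      rw [Dl, ← hZ]
      push_cast
      ring
    simp only [PS, coe_filter, mem_product, mem_Icc, Set.mem_ofPred_eq]
    refine ⟨⟨⟨by omega, by omega⟩, h3, hz⟩, by omega, by omega, ?_, ⟨_, hD⟩, ?_⟩
    · refine ⟨-((x : ℤ) ^ 2 - x * y + y ^ 2), ?_⟩
      rw [← hZ]
      push_cast
      ring
    · rw [hD]
      have e1 : (0 : ℤ) < (x : ℤ) + y := by omega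
      have e2 : (0 : ℤ) < (x : ℤ) - y := by omega
      positivity
  · rintro ⟨x, y, z⟩ hp ⟨x', y', z'⟩ hp' he
    obtain ⟨⟨h1, h2, h3, h⟩, hxy, -⟩ := pairs_memA.1 (mem_coe.1 hp)
    obtain ⟨⟨h1', h2', h3', h'⟩, hxy', -⟩ := pairs_memA.1 (mem_coe.1 hp')
    simp only [Prod.mk.injEq] at he
    obtain ⟨hd, rfl⟩ := he
    have hc : (x : ℤ) ^ 3 + (y : ℤ) ^ 3 = (x' : ℤ) ^ 3 + (y' : ℤ) ^ 3 := by
      have : x ^ 3 + y ^ 3 = x' ^ 3 + y' ^ 3 := by omega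
      exact_mod_cast this
    have hd' : (y' : ℤ) = x + y - x' := by omega
    have e1 : (0 : ℤ) < (x : ℤ) + y := by omega
    have e2 : (0 : ℤ) < (x' : ℤ) - y := by omega
    have e3 : 3 * ((x : ℤ) + y) * (x' - y) * (x - x') = 0 := by
      rw [hd'] at hc
      linear_combination hc
    have e4 : (x : ℤ) - x' = 0 :=
      (mul_eq_zero.1 e3).resolve_left (by positivity)
    have e5 : x = x' := by omega
    have e6 : y = y' := by omega
    rw [e5, e6]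

lemma pairs_big {a w x y z : ℕ} (ha : 1 ≤ a) (h : x ^ 3 + y ^ 3 + z ^ 3 = a * w ^ 3)
    (hy : y ≤ x) (hz : z ≤ x) : w ≤ 2 * x := by
  have e1 : y ^ 3 ≤ x ^ 3 := Nat.pow_le_pow_left hy 3
  have e2 : z ^ 3 ≤ x ^ 3 := Nat.pow_le_pow_left hz 3
  have e3 : w ^ 3 ≤ a * w ^ 3 := Nat.le_mul_of_pos_left _ ha
  refine (Nat.pow_le_pow_iff_left (n := 3) (by norm_num)).1 ?_
  rw [mul_pow]
  omega

theorem pairs (a w B : ℕ) (ha : 1 ≤ a) (hw : 1 ≤ w) (hB : a * w ^ 3 ≤ B ^ 3) :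
    r33 (a * w ^ 3) ≤ 1 + 6 * (PS a w B).card := by
  classical
  have hA := pairs_A_le a w B hB
  set A := pairsA (a * w ^ 3) w with hAdef
  set E := (pairsT (a * w ^ 3)).filter fun p => p.1 = p.2.1 ∧ p.2.1 = p.2.2 with hE
  have hE1 : E.card ≤ 1 := by
    refine card_le_one.2 ?_
    rintro ⟨x, y, z⟩ hp ⟨x', y', z'⟩ hp'
    obtain ⟨h, h1, h2⟩ := mem_filter.1 hp
    obtain ⟨h', h1', h2'⟩ := mem_filter.1 hp'
    simp only at h1 h2 h1' h2'
    subst h1 h2 h1' h2'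
    have e := (pairs_mem.1 h).2.2.2
    have e' := (pairs_mem.1 h').2.2.2
    have : x = x' := Nat.pow_left_injective (n := 3) (by norm_num) (by simp only; omega)
    rw [this]
  have hsub : pairsT (a * w ^ 3) ⊆ E ∪ (A ∪ (A.image (fun p => (p.1, p.2.2, p.2.1)) ∪
      (A.image (fun p => (p.2.1, p.1, p.2.2)) ∪ (A.image (fun p => (p.2.2, p.1, p.2.1)) ∪
      (A.image (fun p => (p.2.1, p.2.2, p.1)) ∪ A.image (fun p => (p.2.2, p.2.1, p.1))))))) := by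
    rintro ⟨x, y, z⟩ hp
    obtain ⟨h1, h2, h3, h⟩ := pairs_mem.1 hp
    simp only [mem_union, mem_image]
    by_cases c1 : y ≤ x ∧ z ≤ x
    · have hb := pairs_big ha h c1.1 c1.2
      by_cases c2 : y < x
      · exact Or.inr (Or.inl (pairs_memA.2 ⟨⟨h1, h2, h3, h⟩, c2, hb⟩))
      by_cases c3 : z < x
      · exact Or.inr (Or.inr (Or.inl
          ⟨(x, z, y), pairs_memA.2 ⟨⟨h1, h3, h2, by omega⟩, c3, hb⟩, rfl⟩))
      · exact Or.inl (mem_filter.2 ⟨hp, by simp only; omega, by simp only; omega⟩)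
    by_cases c2 : z ≤ y
    · have hb := pairs_big (x := y) (y := x) (z := z) (w := w) ha (by omega) (by omega) c2
      exact Or.inr (Or.inr (Or.inr (Or.inl
        ⟨(y, x, z), pairs_memA.2 ⟨⟨h2, h1, h3, by omega⟩, by omega, hb⟩, rfl⟩)))
    · have hb := pairs_big (x := z) (y := x) (z := y) (w := w) ha (by omega) (by omega) (by omega)
      exact Or.inr (Or.inr (Or.inr (Or.inr (Or.inr (Or.inr
        ⟨(z, y, x), pairs_memA.2 ⟨⟨h3, h2, h1, by omega⟩, by omega, hb⟩, rfl⟩)))))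
  have h0 : r33 (a * w ^ 3) = (pairsT (a * w ^ 3)).card := rfl
  have h1 := card_le_card hsub
  have i1 := card_image_le (s := A) (f := fun p : ℕ × ℕ × ℕ => (p.1, p.2.2, p.2.1))
  have i2 := card_image_le (s := A) (f := fun p : ℕ × ℕ × ℕ => (p.2.1, p.1, p.2.2))
  have i3 := card_image_le (s := A) (f := fun p : ℕ × ℕ × ℕ => (p.2.2, p.1, p.2.1))
  have i4 := card_image_le (s := A) (f := fun p : ℕ × ℕ × ℕ => (p.2.1, p.2.2, p.1))
  have i5 := card_image_le (s := A) (f := fun p : ℕ × ℕ × ℕ => (p.2.2, p.2.1, p.1))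
  refine h0.trans_le (h1.trans ?_)
  refine (card_union_le _ _).trans (Nat.add_le_add hE1 ?_)
  refine (card_union_le _ _).trans ?_
  refine (Nat.add_le_add_left (card_union_le _ _) _).trans ?_
  refine (Nat.add_le_add_left (Nat.add_le_add_left (card_union_le _ _) _) _).trans ?_
  refine (Nat.add_le_add_left (Nat.add_le_add_left (Nat.add_le_add_left
    (card_union_le _ _) _) _) _).trans ?_
  refine (Nat.add_le_add_left (Nat.add_le_add_left (Nat.add_le_add_left (Nat.add_le_add_left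
    (card_union_le _ _) _) _) _) _).trans ?_
  omega

end Pool.Agent.Lib.MP_9c5702_nt.AC
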