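import Pool.Agent.Lib.MP_9c5702_nt.AC.Defs

/-! Removing common factors. -/

set_option autoImplicit false

namespace Pool.Agent.Lib.MP_9c5702_nt.AC

open Finset Pool.Agent.Lib.MP_9c5702_nt.Cube

lemma split_z (w B G T : ℕ) (hw : 1 ≤ w) (hG : 1 ≤ G) (hT : w.divisors.card ≤ T) :
    (((Icc 1 B).filter fun z => G < Nat.gcd z w).card : ℝ) ≤ T * ((B : ℝ) / G) := by
  have hG' : (0 : ℝ) < G := by exact_mod_cast hG
  have hsub : ((Icc 1 B).filter fun z => G < Nat.gcd z w) ⊆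
      (w.divisors.filter fun g => G < g).biUnion
        fun g => (Icc 1 (B / g)).image fun i => g * i := by
    intro z hz
    obtain ⟨a, b⟩ := mem_filter.1 hz
    obtain ⟨c, d⟩ := mem_Icc.1 a
    refine mem_biUnion.2 ⟨Nat.gcd z w, mem_filter.2
      ⟨Nat.mem_divisors.2 ⟨Nat.gcd_dvd_right _ _, by omega⟩, b⟩, ?_⟩
    obtain ⟨i, hi⟩ := Nat.gcd_dvd_left z w
    refine mem_image.2 ⟨i, mem_Icc.2 ⟨Nat.pos_of_ne_zero ?_, ?_⟩, hi.symm⟩
    · rintro rfl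
      omega
    · refine (Nat.le_div_iff_mul_le (by omega)).2 ?_
      rw [mul_comm, ← hi]
      exact d
  have h1 := (card_le_card hsub).trans card_biUnion_le
  have h2 : (((Icc 1 B).filter fun z => G < Nat.gcd z w).card : ℝ) ≤
      ∑ g ∈ w.divisors.filter fun g => G < g,
        (((Icc 1 (B / g)).image fun i => g * i).card : ℝ) := by exact_mod_cast h1
  refine h2.trans ((sum_le_card_nsmul _ _ ((B : ℝ) / G) fun g hg => ?_).trans ?_)
  · have hg' : (G : ℝ) ≤ g := by exact_mod_cast (mem_filter.1 hg).2.le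
    have h3 : ((Icc 1 (B / g)).image fun i => g * i).card ≤ B / g :=
      card_image_le.trans (by simp)
    calc (((Icc 1 (B / g)).image fun i => g * i).card : ℝ) ≤ ((B / g : ℕ) : ℝ) := by
          exact_mod_cast h3
      _ ≤ (B : ℝ) / g := Nat.cast_div_le
      _ ≤ (B : ℝ) / G := div_le_div_of_nonneg_left (Nat.cast_nonneg _) hG' hg'
  · rw [nsmul_eq_mul]
    exact mul_le_mul_of_nonneg_right
      (by exact_mod_cast (card_filter_le _ _).trans hT) (by positivity)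

lemma split_big (a w B G T X : ℕ) (hDB : DB T X) (ha : 1 ≤ a) (hw : 1 ≤ w)
    (hB : a * w ^ 3 ≤ B ^ 3) (hX : B ^ 3 ≤ X) (hG : 1 ≤ G) :
    (((PS a w B).filter fun x => G < Nat.gcd x.2 w).card : ℝ) ≤ (T : ℝ) ^ 2 * B / G := by
  have hwX : w ≤ X :=
    ((Nat.le_self_pow three_ne_zero w).trans (Nat.le_mul_of_pos_left _ ha)).trans (hB.trans hX)
  have hsub : ((PS a w B).filter fun x => G < Nat.gcd x.2 w) ⊆
      ((Icc 1 B).filter fun z => G < Nat.gcd z w).biUnion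
        fun z => (a * w ^ 3 - z ^ 3).divisors.image fun d => (d, z) := by
    rintro ⟨d, z⟩ hx
    obtain ⟨h1, h2⟩ := mem_filter.1 hx
    rw [PS, mem_filter, mem_product] at h1
    obtain ⟨⟨-, hz⟩, -, h3, h4, -⟩ := h1
    refine mem_biUnion.2 ⟨z, mem_filter.2 ⟨hz, h2⟩, mem_image.2 ⟨d, Nat.mem_divisors.2
      ⟨?_, Nat.sub_ne_zero_of_lt h3⟩, rfl⟩⟩
    refine Int.natCast_dvd_natCast.1 ?_
    rw [Nat.cast_sub h3.le]
    push_cast
    exact dvd_sub_comm.1 h4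
  have h1 := ((card_le_card hsub).trans card_biUnion_le).trans
    (sum_le_card_nsmul _ _ T fun z _ => card_image_le.trans (by
      rcases Nat.eq_zero_or_pos (a * w ^ 3 - z ^ 3) with h | h
      · rw [h]
        simp
      · exact hDB _ h ((Nat.sub_le _ _).trans (hB.trans hX))))
  rw [smul_eq_mul] at h1
  have h2 : (((PS a w B).filter fun x => G < Nat.gcd x.2 w).card : ℝ) ≤
      (((Icc 1 B).filter fun z => G < Nat.gcd z w).card : ℝ) * T := by exact_mod_cast h1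
  refine h2.trans ((mul_le_mul_of_nonneg_right (split_z w B G T hw hG (hDB w hw hwX))
    (Nat.cast_nonneg _)).trans_eq ?_)
  ring

lemma split_mem (a w B G : ℕ) (hB : a * w ^ 3 ≤ B ^ 3) (d z : ℕ) (hx : (d, z) ∈ PS a w B)
    (g e d' z' w' : ℕ) (hg : 1 ≤ g) (he : e ≤ G ^ 3) (hd : d = e * d') (hz : z = g * z')
    (hw : w = g * w') (f : ℕ) (hf : g ^ 3 = e * f) (c1 : d'.Coprime f) (c2 : z'.Coprime w') :
    (d', z') ∈ PF a e g w' w G B := by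
  rw [PS, mem_filter, mem_product, mem_Icc, mem_Icc] at hx
  obtain ⟨⟨⟨d1, d2⟩, z1, z2⟩, h1, h2, h3, h4, h5⟩ := hx
  simp only at d1 d2 z1 z2 h1 h2 h3 h4 h5
  have he0 : 0 < e := Nat.pos_of_ne_zero (by rintro rfl; omega)
  have hd0 : 0 < d' := Nat.pos_of_ne_zero (by rintro rfl; omega)
  have hz0 : 0 < z' := Nat.pos_of_ne_zero (by rintro rfl; omega)
  have hdd : d' ≤ d := hd ▸ Nat.le_mul_of_pos_left _ he0
  have hzz : z' ≤ z := hz ▸ Nat.le_mul_of_pos_left _ hg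
  have hf' : (g : ℤ) ^ 3 = e * f := by exact_mod_cast hf
  have hD : Dl a e g w' d' z' = Dl a 1 1 w d z := by
    rw [hd, hz, hw, Dl, Dl]
    push_cast
    ring
  have hdv : (d' : ℤ) ∣ (z' : ℤ) ^ 3 - a * (w' : ℤ) ^ 3 := by
    have h6 : (e : ℤ) * d' ∣ e * (f * ((z' : ℤ) ^ 3 - a * (w' : ℤ) ^ 3)) := by
      rw [← mul_assoc, ← hf']
      rw [hd, hz, hw] at h3
      push_cast at h3
      rwa [show ((g : ℤ) * z') ^ 3 - a * ((g : ℤ) * w') ^ 3 =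
        (g : ℤ) ^ 3 * ((z' : ℤ) ^ 3 - a * (w' : ℤ) ^ 3) by ring] at h3
    exact (Nat.isCoprime_iff_coprime.2 c1).dvd_of_dvd_mul_left
      ((mul_dvd_mul_iff_left (by exact_mod_cast he0.ne')).1 h6)
  have hco : d'.Coprime w' := by
    obtain ⟨j, hj⟩ := hdv
    obtain ⟨u, v, huv⟩ := (Nat.isCoprime_iff_coprime.2 c2).pow_left (m := 3)
    exact Nat.isCoprime_iff_coprime.1
      ⟨u * j, v + u * a * (w' : ℤ) ^ 2, by linear_combination huv - u * hj⟩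
  rw [PF, mem_filter, mem_product, mem_Icc, mem_Icc]
  refine ⟨⟨⟨hd0, hdd.trans d2⟩, hz0, hzz.trans z2⟩, ?_, hco, hdv, hD ▸ h4, hD ▸ h5, ?_⟩
  · calc w ≤ 2 * (e * d') := hd ▸ h1
      _ ≤ 2 * (G ^ 3 * d') := Nat.mul_le_mul_left _ (Nat.mul_le_mul_right _ he)
      _ = 2 * G ^ 3 * d' := (mul_assoc _ _ _).symm
  · show |Dl a e g w' d' z'| ≤ _
    have b1 : (z : ℤ) ^ 3 < a * (w : ℤ) ^ 3 := by exact_mod_cast h2
    have b2 : (a : ℤ) * (w : ℤ) ^ 3 ≤ (B : ℤ) ^ 3 := by exact_mod_cast hB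
    have b3 : (d : ℤ) ≤ 2 * B := by exact_mod_cast d2
    have b4 : (d : ℤ) ^ 3 ≤ (2 * B) ^ 3 := pow_le_pow_left₀ (by positivity) b3 3
    have b5 : (0 : ℤ) ≤ (z : ℤ) ^ 3 := by positivity
    have b6 : (0 : ℤ) ≤ (d : ℤ) ^ 3 := by positivity
    have b7 : (0 : ℤ) ≤ (B : ℤ) ^ 3 := by positivity
    have b8 : |4 * 1 ^ 3 * (a * (w : ℤ) ^ 3 - (z : ℤ) ^ 3) - 1 ^ 3 * (d : ℤ) ^ 3| ≤
        8 * (B : ℤ) ^ 3 := abs_le.2 ⟨by linarith, by linarith⟩
    rw [hD, Dl, abs_mul, abs_of_nonneg (by positivity : (0 : ℤ) ≤ 3 * 1 * (d : ℤ))]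
    calc _ ≤ (3 * 1 * (2 * (B : ℤ))) * (8 * (B : ℤ) ^ 3) :=
          mul_le_mul (by linarith) b8 (abs_nonneg _) (by positivity)
      _ ≤ 72 * (B : ℤ) ^ 4 := by
          have : (0 : ℤ) ≤ (B : ℤ) ^ 4 := by positivity
          linarith

theorem split_ge (a w B G T X : ℕ) (hDB : DB T X) (ha : 1 ≤ a) (hw : 1 ≤ w)
    (hB : a * w ^ 3 ≤ B ^ 3) (hX : B ^ 3 ≤ X) (hG : 1 ≤ G) (c : ℝ) (hc0 : 0 ≤ c)
    (hc : ∀ g e w' : ℕ, 1 ≤ g → g ≤ G → 1 ≤ e → e ≤ G ^ 3 → w = g * w' →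
      ((PF a e g w' w G B).card : ℝ) ≤ c) :
    ((PS a w B).card : ℝ) ≤ (T : ℝ) ^ 2 * B / G + (G : ℝ) ^ 4 * c := by
  have hsub : ((PS a w B).filter fun x => ¬ G < Nat.gcd x.2 w) ⊆
      ((Icc 1 G ×ˢ Icc 1 (G ^ 3)).filter fun p => p.1 ∣ w).biUnion
        fun p => (PF a p.2 p.1 (w / p.1) w G B).image fun x => (p.2 * x.1, p.1 * x.2) := by
    rintro ⟨d, z⟩ hx
    obtain ⟨h1, h2⟩ := mem_filter.1 hx
    have h3 : Nat.gcd z w ≤ G := not_lt.1 h2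
    have g0 : 0 < Nat.gcd z w := Nat.gcd_pos_of_pos_right _ hw
    obtain ⟨z', w', c2, hz, hw'⟩ := Nat.exists_coprime z w
    generalize Nat.gcd z w = g at h3 g0 hz hw'
    have g3 : 0 < g ^ 3 := pow_pos g0 3
    have e0 : 0 < Nat.gcd d (g ^ 3) := Nat.gcd_pos_of_pos_right _ g3
    have e1 : Nat.gcd d (g ^ 3) ≤ G ^ 3 :=
      (Nat.gcd_le_right _ g3).trans (Nat.pow_le_pow_left h3 3)
    obtain ⟨d', f, c1, hd, hf⟩ := Nat.exists_coprime d (g ^ 3)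
    generalize Nat.gcd d (g ^ 3) = e at e0 e1 hd hf
    rw [mul_comm] at hz hw' hd hf
    have hq : w / g = w' := by rw [hw', Nat.mul_div_cancel_left _ g0]
    refine mem_biUnion.2 ⟨(g, e), mem_filter.2 ⟨mem_product.2
      ⟨mem_Icc.2 ⟨g0, h3⟩, mem_Icc.2 ⟨e0, e1⟩⟩, ⟨w', hw'⟩⟩, mem_image.2 ⟨(d', z'), ?_, ?_⟩⟩
    · show (d', z') ∈ PF a e g (w / g) w G B
      rw [hq]
      exact split_mem a w B G hB d z h1 g e d' z' w' g0 e1 hd hz hw' f hf c1 c2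
    · exact Prod.ext hd.symm hz.symm
  have h1 := (card_le_card hsub).trans card_biUnion_le
  have h2 : (((PS a w B).filter fun x => ¬ G < Nat.gcd x.2 w).card : ℝ) ≤
      ∑ p ∈ (Icc 1 G ×ˢ Icc 1 (G ^ 3)).filter fun p => p.1 ∣ w,
        (((PF a p.2 p.1 (w / p.1) w G B).image fun x => (p.2 * x.1, p.1 * x.2)).card : ℝ) := by
    exact_mod_cast h1
  have h3 : (((PS a w B).filter fun x => ¬ G < Nat.gcd x.2 w).card : ℝ) ≤ (G : ℝ) ^ 4 * c := by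
    refine h2.trans ((sum_le_card_nsmul _ _ c fun p hp => ?_).trans ?_)
    · obtain ⟨a1, a2⟩ := mem_filter.1 hp
      obtain ⟨a3, a4⟩ := mem_product.1 a1
      refine le_trans (by exact_mod_cast card_image_le) (hc p.1 p.2 (w / p.1) (mem_Icc.1 a3).1
        (mem_Icc.1 a3).2 (mem_Icc.1 a4).1 (mem_Icc.1 a4).2 (Nat.mul_div_cancel' a2).symm)
    · rw [nsmul_eq_mul]
      refine mul_le_mul_of_nonneg_right ?_ hc0
      have h4 : ((Icc 1 G ×ˢ Icc 1 (G ^ 3)).filter fun p => p.1 ∣ w).card ≤ G ^ 4 :=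
        (card_filter_le _ _).trans_eq (by
          rw [card_product, Nat.card_Icc, Nat.card_Icc, Nat.add_sub_cancel, Nat.add_sub_cancel]
          ring)
      exact_mod_cast h4
  rw [← card_filter_add_card_filter_not (s := PS a w B) (fun x => G < Nat.gcd x.2 w),
    Nat.cast_add]
  exact add_le_add (split_big a w B G T X hDB ha hw hB hX hG) h3

end Pool.Agent.Lib.MP_9c5702_nt.AC
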