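import Pool.Agent.Lib.MP_9c5702_nt.AC.NumTK
import Pool.Agent.Lib.MP_9c5702_nt.AC.NumBad
import Pool.Agent.Lib.MP_9c5702_nt.AC.NumLine
import Pool.Agent.Lib.MP_9c5702_nt.AC.Fixed
import Pool.Agent.Lib.MP_9c5702_nt.AC.Mult
import Pool.Agent.Lib.MP_9c5702_nt.AC.Split
import Pool.Agent.Lib.MP_9c5702_nt.AC.Pairs

/-! The bound at one scale. -/

set_option autoImplicit false

namespace Pool.Agent.Lib.MP_9c5702_nt.AC

open Finset Pool.Agent.Lib.MP_9c5702_nt.Cube Pool.Agent.Lib.MP_9c5702_nt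

lemma maint_pw {T : ℕ} (hT : 10 ^ 30 ≤ T) {c i j : ℕ} (hc : c ≤ 10 ^ 30) (h : i + 1 ≤ j) :
    c * T ^ i ≤ T ^ j :=
  calc c * T ^ i ≤ T * T ^ i := Nat.mul_le_mul_right _ (hc.trans hT)
    _ = T ^ (i + 1) := (pow_succ' T i).symm
    _ ≤ T ^ j := Nat.pow_le_pow_right (by omega) h

lemma maint_fixed (a e g w w' T : ℕ) (hT : 10 ^ 30 ≤ T) (hDB : DB T (T ^ 36000000)) (ha : NC a)
    (haT : a ≤ T) (hw1 : T ^ 4320000 ≤ w) (hw2 : w ≤ T ^ 4320001) (Ps Ls : Finset ℕ)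
    (hPs : ∀ p ∈ Ps, p.Prime ∧ p % 3 = 2 ∧ T ^ 788300 < p ∧ p ≤ T ^ 788301)
    (hPc : 3 * T ^ 788300 ≤ Ps.card)
    (hLs : ∀ l ∈ Ls, l.Prime ∧ l % 3 = 2 ∧ T ^ 4078 < l ∧ l ≤ T ^ 4079)
    (hLc : 3 * T ^ 4078 ≤ Ls.card) (hg1 : 1 ≤ g) (hg : g ≤ T ^ 4) (he1 : 1 ≤ e)
    (he : e ≤ (T ^ 4) ^ 3) (hww : w = g * w') :
    ((PF a e g w' w (T ^ 4) (T * w)).card : ℝ) ≤ (T : ℝ) ^ 4319983 := by
  have hT1 : 1 ≤ T := le_trans (by norm_num) hT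
  have hw0 : 1 ≤ w := (Nat.one_le_pow _ _ hT1).trans hw1
  have hTr : (10 : ℝ) ^ 30 ≤ T := by exact_mod_cast hT
  have hT0 : (0 : ℝ) < T := by exact_mod_cast hT1
  have hwr : (0 : ℝ) < w := by exact_mod_cast hw0
  have har : (a : ℝ) ≤ T := by exact_mod_cast haT
  have hB : T * w ≤ T ^ 4320002 := by
    rw [pow_succ' T 4320001]; exact Nat.mul_le_mul_left _ hw2
  have hw' : w' ≤ T * w := by
    calc w' ≤ g * w' := Nat.le_mul_of_pos_left _ hg1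
      _ = w := hww.symm
      _ ≤ T * w := Nat.le_mul_of_pos_left _ hT1
  have hA0 : 2 * (T * w) < (T ^ 1440001 + 1) ^ 3 := by
    calc 2 * (T * w) ≤ 2 * T ^ 4320002 := Nat.mul_le_mul_left _ hB
      _ ≤ T ^ 4320003 := maint_pw hT (by norm_num) le_rfl
      _ = (T ^ 1440001) ^ 3 := by rw [← pow_mul]
      _ < _ := Nat.pow_lt_pow_left (Nat.lt_succ_self _) (by norm_num)
  have hA : (T ^ 52 + a) * T ^ 1440001 ≤ T ^ 1440054 := by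
    have h1 : a ≤ T ^ 52 := haT.trans (Nat.le_self_pow (by norm_num) T)
    calc (T ^ 52 + a) * T ^ 1440001 ≤ (2 * T ^ 52) * T ^ 1440001 :=
          Nat.mul_le_mul_right _ (by omega)
      _ = 2 * T ^ 1440053 := by rw [mul_assoc, ← pow_add]
      _ ≤ _ := maint_pw hT (by norm_num) le_rfl
  have hM : 12 * (T ^ 4) ^ 3 * a ^ 2 * (T ^ 1440054) ^ 3 ≤ T ^ 177 * w := by
    calc 12 * (T ^ 4) ^ 3 * a ^ 2 * (T ^ 1440054) ^ 3
        ≤ 12 * (T ^ 4) ^ 3 * T ^ 2 * (T ^ 1440054) ^ 3 := by gcongr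
      _ = 12 * T ^ 4320176 := by simp only [← pow_mul, mul_assoc, ← pow_add]
      _ ≤ T ^ 4320177 := maint_pw hT (by norm_num) le_rfl
      _ = T ^ 177 * T ^ 4320000 := by rw [← pow_add]
      _ ≤ _ := Nat.mul_le_mul_left _ hw1
  have hK : 12 * (T ^ 4) ^ 3 * a * (T ^ 1440054) ^ 3 * (T * w) ≤ T ^ 4320177 * w := by
    rw [← mul_assoc]
    refine Nat.mul_le_mul_right _ ?_
    calc 12 * (T ^ 4) ^ 3 * a * (T ^ 1440054) ^ 3 * T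
        ≤ 12 * (T ^ 4) ^ 3 * T ^ 1 * (T ^ 1440054) ^ 3 * T ^ 1 := by
          simp only [pow_one]; gcongr
      _ = 12 * T ^ 4320176 := by simp only [← pow_mul, mul_assoc, ← pow_add]
      _ ≤ T ^ 4320177 := maint_pw hT (by norm_num) le_rfl
  have hq : 2 * a * (T ^ 1440054) ^ 3 ≤ T ^ 4320164 := by
    calc 2 * a * (T ^ 1440054) ^ 3 ≤ 2 * T ^ 1 * (T ^ 1440054) ^ 3 := by
          simp only [pow_one]; gcongr
      _ = 2 * T ^ 4320163 := by simp only [← pow_mul, mul_assoc, ← pow_add]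
      _ ≤ _ := maint_pw hT (by norm_num) le_rfl
  have hX : 72 * (T * w) ^ 4 * ((T ^ 177) ^ 2 * (2 * a * (T ^ 1440054) ^ 3) ^ 2) ^ 2 ≤
      T ^ 36000000 := by
    calc 72 * (T * w) ^ 4 * ((T ^ 177) ^ 2 * (2 * a * (T ^ 1440054) ^ 3) ^ 2) ^ 2
        ≤ 72 * (T ^ 4320002) ^ 4 * ((T ^ 177) ^ 2 * (T ^ 4320164) ^ 2) ^ 2 := by gcongr
      _ = 72 * T ^ 34561372 := by simp only [← pow_mul, mul_assoc, ← pow_add]
      _ ≤ _ := maint_pw hT (by norm_num) (by norm_num)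
  have hX0 : 6 * a ^ 2 * (T ^ 1440001) ^ 3 ≤ T ^ 36000000 := by
    calc 6 * a ^ 2 * (T ^ 1440001) ^ 3 ≤ 6 * T ^ 2 * (T ^ 1440001) ^ 3 := by gcongr
      _ = 6 * T ^ 4320005 := by simp only [← pow_mul, mul_assoc, ← pow_add]
      _ ≤ _ := maint_pw hT (by norm_num) (by norm_num)
  have hμ : ∀ α ∈ box3 (T ^ 1440001), α ≠ 0 →
      ((RS a e g w' w (T ^ 4) (T * w) α).card : ℝ) ≤ (T : ℝ) ^ 20 := by
    intro α hα h0
    refine (mult_le a e g w' w (T ^ 4) (T * w) T _ _ hDB ha hw0 hX0 α hα h0).trans ?_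
    have h1 : 2 * (((T ^ 4 : ℕ) : ℝ)) ^ 3 * ((T * w : ℕ) : ℝ) / w = 2 * (T : ℝ) ^ 13 := by
      push_cast; field_simp
    have h2 : (1 : ℝ) ≤ (T : ℝ) ^ 13 := one_le_pow₀ (by linarith)
    rw [h1]
    calc (T : ℝ) * (9 * (a : ℝ) ^ 2 * (T : ℝ) ^ 2) * (2 * (T : ℝ) ^ 13 + 1)
        ≤ T * (9 * (T : ℝ) ^ 2 * (T : ℝ) ^ 2) * (3 * (T : ℝ) ^ 13) := by gcongr; linarith
      _ = 27 * (T : ℝ) ^ 18 := by ring
      _ ≤ (T : ℝ) ^ 2 * (T : ℝ) ^ 18 := by gcongr; nlinarith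
      _ = _ := by ring
  have hmain := count_fixed a e g w' w (T ^ 4) (T * w) (T ^ 36000000) (T ^ 1440001) (T ^ 52)
    (T ^ 1440054) (T ^ 210) (T ^ 1440000) (T ^ 177) (T ^ 4320177) Ps ha (Nat.one_le_pow _ _ hT1)
    hw0 hw' hA0 hA hM hK hX ((T : ℝ) ^ 20) ((T : ℝ) ^ 1439694) (by positivity) (by positivity) hμ
    (fun u v m hu hv hG hP hm0 hm => num_line a e g w w' T hT hDB ha.pos haT he1 hg1 he hg
      ⟨g, by rw [hww, mul_comm]⟩ Ps Ls (fun p hp => ⟨(hPs p hp).1, (hPs p hp).2.2⟩) hLs hLc u v m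
      hu hv hG hP hm0 hm)
  have h1 := num_tk a T hT hDB ha haT Ps hPs hPc
  have h2 := num_bad a w T hT hDB ha haT hw0 hw2
  have h3 : 2 * T ^ 1440054 + 1 ≤ T ^ 1440055 := by
    have := Nat.one_le_pow 1440054 T hT1
    have h4 := maint_pw hT (c := 3) (i := 1440054) (j := 1440055) (by norm_num) le_rfl
    generalize T ^ 1440054 = x at *
    generalize T ^ 1440055 = y at *
    omega
  have h4 : 2 * T ^ 177 + 1 ≤ T ^ 178 := by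
    have := Nat.one_le_pow 177 T hT1
    have h4 := maint_pw hT (c := 3) (i := 177) (j := 178) (by norm_num) le_rfl
    omega
  have h3' : 2 * ((T ^ 1440054 : ℕ) : ℝ) + 1 ≤ (T : ℝ) ^ 1440055 := by exact_mod_cast h3
  have h4' : 2 * ((T ^ 177 : ℕ) : ℝ) + 1 ≤ (T : ℝ) ^ 178 := by exact_mod_cast h4
  have h5 : (3 : ℝ) * (T : ℝ) ^ 4319982 ≤ (T : ℝ) ^ 4319983 := by
    exact_mod_cast maint_pw hT (c := 3) (i := 4319982) (j := 4319983) (by norm_num) le_rfl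
  refine hmain.trans (le_trans ?_ h5)
  have e1 : (T : ℝ) ^ 20 * (T : ℝ) ^ 4319962 = (T : ℝ) ^ 4319982 := by rw [← pow_add]
  have e2 : ((T : ℝ) ^ 1440055) ^ 2 * (T : ℝ) ^ 178 * (T : ℝ) ^ 1439694 = (T : ℝ) ^ 4319982 := by
    rw [← pow_mul, ← pow_add, ← pow_add]
  calc _ ≤ (T : ℝ) ^ 20 * ((T : ℝ) ^ 4319962 + (T : ℝ) ^ 4319962) +
        ((T : ℝ) ^ 1440055) ^ 2 * (T : ℝ) ^ 178 * (T : ℝ) ^ 1439694 := by gcongr
    _ = _ := by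
      rw [mul_add, e1, e2]
      generalize (T : ℝ) ^ 4319982 = x
      ring

theorem main_T (a w T : ℕ) (hT : 10 ^ 30 ≤ T) (hDB : DB T (T ^ 36000000)) (ha : NC a)
    (haT : a ≤ T) (hw1 : T ^ 4320000 ≤ w) (hw2 : w ≤ T ^ 4320001) (Ps Ls : Finset ℕ)
    (hPs : ∀ p ∈ Ps, p.Prime ∧ p % 3 = 2 ∧ T ^ 788300 < p ∧ p ≤ T ^ 788301)
    (hPc : 3 * T ^ 788300 ≤ Ps.card)
    (hLs : ∀ l ∈ Ls, l.Prime ∧ l % 3 = 2 ∧ T ^ 4078 < l ∧ l ≤ T ^ 4079)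
    (hLc : 3 * T ^ 4078 ≤ Ls.card) : (r33 (a * w ^ 3) : ℝ) ≤ 13 * w / T := by
  have hT1 : 1 ≤ T := le_trans (by norm_num) hT
  have hw0 : 1 ≤ w := (Nat.one_le_pow _ _ hT1).trans hw1
  have hT0 : (0 : ℝ) < T := by exact_mod_cast hT1
  have hB : a * w ^ 3 ≤ (T * w) ^ 3 := by
    rw [mul_pow]
    exact Nat.mul_le_mul_right _ (haT.trans (Nat.le_self_pow (by norm_num) T))
  have hX : (T * w) ^ 3 ≤ T ^ 36000000 := by
    have h1 : T * w ≤ T ^ 4320002 := by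
      rw [pow_succ' T 4320001]; exact Nat.mul_le_mul_left _ hw2
    calc (T * w) ^ 3 ≤ (T ^ 4320002) ^ 3 := Nat.pow_le_pow_left h1 3
      _ = T ^ 12960006 := by rw [← pow_mul]
      _ ≤ _ := Nat.pow_le_pow_right hT1 (by norm_num)
  have h1 := pairs a w (T * w) ha.pos hw0 hB
  have h2 := split_ge a w (T * w) (T ^ 4) T _ hDB ha.pos hw0 hB hX (Nat.one_le_pow _ _ hT1)
    ((T : ℝ) ^ 4319983) (by positivity) fun g e w' hg1 hg he1 he hww =>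
      maint_fixed a e g w w' T hT hDB ha haT hw1 hw2 Ps Ls hPs hPc hLs hLc hg1 hg he1 he hww
  have h3 : (T : ℝ) ^ 2 * ((T * w : ℕ) : ℝ) / ((T ^ 4 : ℕ) : ℝ) = w / T := by
    push_cast; field_simp
  have h4 : (((T ^ 4 : ℕ) : ℝ)) ^ 4 * (T : ℝ) ^ 4319983 ≤ w / T := by
    rw [le_div_iff₀ hT0]
    have h5 : ((T ^ 4) ^ 4 * T ^ 4319983 * T ^ 1 : ℕ) ≤ w := by
      simp only [← pow_mul, ← pow_add]
      exact hw1
    rw [pow_one] at h5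
    exact_mod_cast h5
  have h5 : (1 : ℝ) ≤ w / T := by
    rw [le_div_iff₀ hT0, one_mul]
    exact_mod_cast (Nat.le_self_pow (by norm_num) T).trans hw1
  have h6 : (r33 (a * w ^ 3) : ℝ) ≤ 1 + 6 * ((PS a w (T * w)).card : ℝ) := by exact_mod_cast h1
  rw [h3] at h2
  rw [mul_div_assoc]
  generalize (((T ^ 4 : ℕ) : ℝ)) ^ 4 * (T : ℝ) ^ 4319983 = y at h2 h4
  linarith

end Pool.Agent.Lib.MP_9c5702_nt.AC
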