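import Pool.Agent.Lib.MP_9c5702_nt.AC.Defs

/-! A weight with fast decay of its Fourier transform. -/

set_option autoImplicit false

namespace Pool.Agent.Lib.MP_9c5702_nt.AC

open Finset Pool.Agent.Lib.MP_9c5702_nt.Cube

/-- the `r + 1` fold convolution of the box of radius `m` -/
noncomputable def weightU (m : ℕ) : ℕ → ℤ → ℝ
  | 0 => fun x => if |x| ≤ m then 1 else 0
  | r + 1 => fun x => ∑ y ∈ Iv m, weightU m r (x - y)

lemma weight_bd (m r : ℕ) (x : ℤ) : 0 ≤ weightU m r x ∧ weightU m r x ≤ (2 * m + 1) ^ r := by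
  induction r generalizing x with
  | zero =>
    rw [weightU]
    dsimp only
    split_ifs <;> simp
  | succ r ih =>
    rw [weightU]
    refine ⟨sum_nonneg fun y _ => (ih _).1, ?_⟩
    refine (sum_le_card_nsmul _ _ _ fun y _ => (ih _).2).trans (le_of_eq ?_)
    rw [card_Iv, nsmul_eq_mul]
    push_cast
    ring

lemma weight_low (m r : ℕ) (x : ℤ) (hx : |x| ≤ m) : ((m : ℝ) + 1) ^ r ≤ weightU m r x := by
  induction r generalizing x with
  | zero =>
    rw [weightU]
    simp [hx]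
  | succ r ih =>
    rw [weightU]
    obtain ⟨a, ha⟩ : ∃ a : ℤ, ∀ y ∈ Ico a (a + (m + 1 : ℕ)), |y| ≤ m ∧ |x - y| ≤ m := by
      rw [abs_le] at hx
      rcases le_total 0 x with h | h
      · refine ⟨0, fun y hy => ?_⟩
        rw [mem_Ico] at hy
        rw [abs_le, abs_le]
        push_cast at hy
        omega
      · refine ⟨-m, fun y hy => ?_⟩
        rw [mem_Ico] at hy
        rw [abs_le, abs_le]
        push_cast at hy
        omega
    refine le_trans ?_ (sum_le_sum_of_subset_of_nonneg (s := Ico a (a + (m + 1 : ℕ)))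
      (fun y hy => mem_Iv.2 (ha y hy).1) fun y _ _ => (weight_bd m r _).1)
    refine le_trans (le_of_eq ?_) (card_nsmul_le_sum _ _ _ fun y hy => ih _ (ha y hy).2)
    rw [Int.card_Ico, add_sub_cancel_left, Int.toNat_natCast, nsmul_eq_mul]
    push_cast
    ring

lemma weight_sum (m r : ℕ) (θ : ℝ) (s : Finset ℤ) (hs : ∀ x : ℤ, |x| ≤ (r + 1) * m → x ∈ s) :
    ∑ x ∈ s, (weightU m r x : ℂ) * er (θ * x) = (∑ y ∈ Iv m, er (θ * y)) ^ (r + 1) := by
  induction r generalizing s with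
  | zero =>
    rw [zero_add, pow_one]
    symm
    refine sum_subset_zero_on_sdiff (fun x hx => hs x (by simpa using mem_Iv.1 hx))
      (fun x hx => ?_) fun x hx => ?_
    · rw [weightU]
      dsimp only
      rw [if_neg fun h => (mem_sdiff.1 hx).2 (mem_Iv.2 h)]
      simp
    · rw [weightU]
      dsimp only
      rw [if_pos (mem_Iv.1 hx)]
      simp
  | succ r ih =>
    rw [pow_succ _ (r + 1), mul_sum]
    simp only [weightU, Complex.ofReal_sum, sum_mul]
    rw [sum_comm]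
    refine sum_congr rfl fun y hy => ?_
    rw [← ih (s.image fun x => x - y) fun x hx => mem_image.2 ⟨x + y, hs _ ?_, by ring⟩,
      sum_image fun a _ b _ h => by simpa using h, sum_mul]
    · refine sum_congr rfl fun x _ => ?_
      rw [mul_assoc, ← er_add]
      congr 2
      push_cast
      ring
    · have := mem_Iv.1 hy
      have h2 := abs_add_le x y
      push_cast
      linarith

lemma weight_tel (θ : ℝ) (a : ℤ) (n : ℕ) :
    (er θ - 1) * ∑ y ∈ Ico a (a + n), er (θ * y) = er (θ * (a + n : ℤ)) - er (θ * a) := by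
  induction n with
  | zero => simp
  | succ n ih =>
    have e : Ico a (a + (n + 1 : ℕ)) = insert (a + n) (Ico a (a + n)) := by
      ext y
      simp only [mem_insert, mem_Ico]
      push_cast
      omega
    have e2 : er (θ * (a + (n + 1 : ℕ) : ℤ)) = er θ * er (θ * (a + n : ℤ)) := by
      rw [← er_add]
      congr 1
      push_cast
      ring
    rw [e, sum_insert (by simp), mul_add, ih, e2]
    ring

lemma weight_er {θ δ : ℝ} (h : ¬ Near δ θ) : 4 * δ ≤ ‖er θ - 1‖ := by
  have h1 : δ < |θ - round θ| := not_le.1 fun h2 => h ⟨round θ, h2⟩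
  have h2 := abs_sub_round θ
  set t := θ - round θ with ht
  have e1 : er θ = Complex.exp (Complex.I * ((2 * Real.pi * t : ℝ) : ℂ)) := by
    rw [er, ← mul_one (Complex.exp (Complex.I * _)), ← Complex.exp_int_mul_two_pi_mul_I (round θ),
      ← Complex.exp_add, ht]
    congr 1
    push_cast
    ring
  have e2 : |2 * Real.pi * t / 2| = Real.pi * |t| := by
    rw [show 2 * Real.pi * t / 2 = Real.pi * t by ring, abs_mul, abs_of_pos Real.pi_pos]
  have := Real.mul_abs_le_abs_sin (x := 2 * Real.pi * t / 2) (by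
    rw [e2]
    nlinarith [Real.pi_pos])
  rw [e2, show 2 / Real.pi * (Real.pi * |t|) = 2 * |t| by field_simp] at this
  rw [e1, Complex.norm_exp_I_mul_ofReal_sub_one, Real.norm_eq_abs, abs_mul, abs_two]
  linarith

lemma weight_geom (m : ℕ) {θ δ : ℝ} (hδ : 0 < δ) (h : ¬ Near δ θ) :
    ‖∑ y ∈ Iv m, er (θ * y)‖ ≤ 1 / (2 * δ) := by
  have h1 := congrArg norm (weight_tel θ (-m) (2 * m + 1))
  have h2 := norm_sub_le (er (θ * (-m + (2 * m + 1 : ℕ) : ℤ))) (er (θ * (-m : ℤ)))
  rw [← h1, norm_mul, norm_er, norm_er] at h2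
  have h3 := mul_le_mul_of_nonneg_right (weight_er h)
    (norm_nonneg (∑ y ∈ Ico (-m : ℤ) (-m + (2 * m + 1 : ℕ)), er (θ * y)))
  rw [Iv, le_div_iff₀ (by positivity)]
  linarith

theorem weight (m0 : ℕ) (hm : 1 ≤ m0) : ∃ W : ℤ → ℝ, (∀ x, 0 ≤ W x ∧ W x ≤ 1) ∧
    (∀ x : ℤ, |x| ≤ m0 → 1 / 2 ^ 23 ≤ W x) ∧
    ∀ θ δ : ℝ, 0 < δ → ¬ Near δ θ →
      ‖∑ x ∈ Iv (24 * m0), (W x : ℂ) * er (θ * x)‖ ≤ 2 * m0 / (4 * m0 * δ) ^ 24 := by
  have hm' : (0 : ℝ) < m0 := by exact_mod_cast hm
  have hp : (0 : ℝ) < (2 * m0 + 1) ^ 23 := by positivity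
  refine ⟨fun x => weightU m0 23 x / (2 * m0 + 1) ^ 23, fun x => ⟨div_nonneg (weight_bd _ _ _).1
    hp.le, (div_le_one hp).2 (weight_bd _ _ _).2⟩, fun x hx => ?_, fun θ δ hδ h => ?_⟩
  · have h1 : (2 * (m0 : ℝ) + 1) ^ 23 ≤ (((m0 : ℝ) + 1) * 2) ^ 23 :=
      pow_le_pow_left₀ (by positivity) (by linarith) _
    have h2 := mul_le_mul_of_nonneg_right (weight_low m0 23 x hx) (show (0 : ℝ) ≤ 2 ^ 23 by positivity)
    rw [mul_pow] at h1
    exact (div_le_div_iff₀ (by positivity) hp).2 ((one_mul _).le.trans (h1.trans h2))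
  · have e : ∑ x ∈ Iv (24 * m0), ((weightU m0 23 x / (2 * m0 + 1) ^ 23 : ℝ) : ℂ) * er (θ * x)
        = (∑ y ∈ Iv m0, er (θ * y)) ^ (23 + 1) / (((2 * m0 + 1) ^ 23 : ℝ) : ℂ) := by
      rw [← weight_sum m0 23 θ (Iv (24 * m0)) fun x hx => mem_Iv.2 (by push_cast at *; linarith),
        sum_div]
      exact sum_congr rfl fun x _ => by rw [Complex.ofReal_div, div_mul_eq_mul_div]
    rw [e, norm_div, norm_pow, Complex.norm_real, Real.norm_of_nonneg hp.le]
    calc _ ≤ (1 / (2 * δ)) ^ (23 + 1) / (2 * m0) ^ 23 := by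
          gcongr
          · exact weight_geom m0 hδ h
          · linarith
      _ = _ := by
          rw [show 4 * (m0 : ℝ) * δ = 2 * m0 * (2 * δ) by ring]
          have ha : 2 * δ ≠ 0 := by positivity
          have hb : 2 * (m0 : ℝ) ≠ 0 := by positivity
          generalize 2 * δ = a at *
          generalize 2 * (m0 : ℝ) = b at *
          rw [show 23 + 1 = 24 from rfl, div_pow]
          field_simp

end Pool.Agent.Lib.MP_9c5702_nt.AC
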