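import Pool.Agent.Lib.MP_9c5702_nt.AC.TK
import Pool.Agent.Lib.MP_9c5702_nt.AC.Corr
import Pool.Agent.Lib.MP_9c5702_nt.AC.Weight

/-! The second moment bound with explicit parameters. -/

set_option autoImplicit false

namespace Pool.Agent.Lib.MP_9c5702_nt.AC

open Finset Pool.Agent.Lib.MP_9c5702_nt.Cube

lemma numtk_c {R : Type} [CommSemiring R] [LinearOrder R] [IsStrictOrderedRing R] {x c : R}
    (hx : 1 ≤ x) (hc : c ≤ x) {i j : ℕ} (h : i + 1 ≤ j) : c * x ^ i ≤ x ^ j :=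
  calc c * x ^ i ≤ x * x ^ i :=
        mul_le_mul_of_nonneg_right hc (pow_nonneg (zero_le_one.trans hx) _)
    _ = x ^ (i + 1) := (pow_succ' x i).symm
    _ ≤ x ^ j := pow_le_pow_right₀ hx h

lemma numtk_add {R : Type} [CommSemiring R] [LinearOrder R] [IsStrictOrderedRing R] {x y z : R}
    (hx : 2 ≤ x) {i j : ℕ} (hy : y ≤ x ^ i) (hz : z ≤ x ^ i) (h : i + 1 ≤ j) : y + z ≤ x ^ j :=
  calc y + z ≤ x ^ i + x ^ i := add_le_add hy hz
    _ = 2 * x ^ i := (two_mul _).symm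
    _ ≤ x ^ j := numtk_c (one_le_two.trans hx) hx h

lemma numtk_n {x : ℝ} (hx : 10 ^ 30 ≤ x) : 2 * (24 * x ^ 1440001) + 1 ≤ 49 * x ^ 1440001 := by
  have h1 : (1 : ℝ) ≤ x := le_trans (by norm_num) hx
  have h2 : (1 : ℝ) ≤ x ^ 1440001 := one_le_pow₀ h1
  generalize x ^ 1440001 = y at h2
  linarith

lemma numtk_E {x : ℝ} (hx : 10 ^ 30 ≤ x) :
    (2 * (24 * x ^ 1440001) + 1) ^ 3 * (1 / (x ^ 788300) ^ 2) ^ 2 *
      ((x ^ 788301) ^ 2 * (2 * x ^ 268106 + 1) *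
        ((4 * (x ^ 788301) ^ 2 / x ^ 654300 + 1) * (2 * x ^ 268106 + 1) * x ^ 2)) +
      (x ^ 788301) ^ 4 * (2 * (24 * x ^ 1440001) + 1) ^ 2 *
        (2 * x ^ 1440001 / (4 * x ^ 1440001 * (1 / x ^ 1308601)) ^ 24) ≤ x ^ 4319955 := by
  have h1 : (1 : ℝ) ≤ x := le_trans (by norm_num) hx
  have h2 : (2 : ℝ) ≤ x := le_trans (by norm_num) hx
  have h0 : (0 : ℝ) < x := zero_lt_one.trans_le h1
  have a1 : 2 * (24 * x ^ 1440001) + 1 ≤ x ^ 1440002 :=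
    (numtk_n hx).trans (numtk_c h1 (le_trans (by norm_num) hx) le_rfl)
  have a2 : 2 * x ^ 268106 + 1 ≤ x ^ 268108 :=
    numtk_add h2 (numtk_c h1 h2 le_rfl) (one_le_pow₀ h1) le_rfl
  have a3 : 4 * (x ^ 788301) ^ 2 / x ^ 654300 + 1 ≤ x ^ 922304 := by
    refine numtk_add (i := 922303) h2 ?_ (one_le_pow₀ h1) le_rfl
    rw [div_le_iff₀ (pow_pos h0 _), ← pow_mul, ← pow_add]
    exact numtk_c h1 (le_trans (by norm_num) hx) (by norm_num)
  have a4 : (1 / (x ^ 788300) ^ 2) ^ 2 = 1 / x ^ 3153200 := by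
    rw [one_div_pow, ← pow_mul, ← pow_mul]
  have a5 : 4 * x ^ 1440001 * (1 / x ^ 1308601) = 4 * x ^ 131400 := by
    rw [mul_one_div, div_eq_iff (pow_pos h0 _).ne', mul_assoc, ← pow_add]
  have a6 : 2 * x ^ 1440001 / (4 * x ^ 1440001 * (1 / x ^ 1308601)) ^ 24 ≤
      x ^ 1440002 / x ^ 3153600 := by
    rw [a5]
    refine div_le_div₀ (pow_pos h0 _).le (numtk_c h1 h2 le_rfl) (pow_pos h0 _) ?_
    rw [mul_pow, ← pow_mul]
    exact le_mul_of_one_le_left (pow_pos h0 _).le (by norm_num)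
  refine numtk_add (i := 4319610) h2 ?_ ?_ (by norm_num)
  · calc _ ≤ (x ^ 1440002) ^ 3 * (1 / x ^ 3153200) *
          ((x ^ 788301) ^ 2 * x ^ 268108 * (x ^ 922304 * x ^ 268108 * x ^ 2)) := by
          rw [a4]
          gcongr
      _ = x ^ 7355130 / x ^ 3153200 := by
          rw [mul_one_div, div_mul_eq_mul_div]
          simp only [← pow_mul, ← pow_add]
      _ ≤ x ^ 4319610 := by
          rw [div_le_iff₀ (pow_pos h0 _), ← pow_add]
          exact pow_le_pow_right₀ h1 (by norm_num)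
  · calc _ ≤ (x ^ 788301) ^ 4 * (x ^ 1440002) ^ 2 * (x ^ 1440002 / x ^ 3153600) := by
          gcongr
      _ = x ^ 7473210 / x ^ 3153600 := by
          rw [← mul_div_assoc]
          simp only [← pow_mul, ← pow_add]
      _ ≤ x ^ 4319610 := by
          rw [div_le_iff₀ (pow_pos h0 _), ← pow_add]

lemma numtk_fin {x : ℝ} (hx : 10 ^ 30 ≤ x) :
    2 ^ 69 * x ^ 4 * (4 * x ^ 4 * (2 * (24 * x ^ 1440001) + 1) ^ 3 / x ^ 52 + x ^ 4319955 +
      2 * x ^ 2 * (x ^ 788301) ^ 2 * x ^ 52 * (2 * (24 * x ^ 1440001) + 1)) ≤ x ^ 4319962 := by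
  have h1 : (1 : ℝ) ≤ x := le_trans (by norm_num) hx
  have h2 : (2 : ℝ) ≤ x := le_trans (by norm_num) hx
  have h0 : (0 : ℝ) < x := zero_lt_one.trans_le h1
  have a0 := numtk_n hx
  have a1 : 4 * x ^ 4 * (2 * (24 * x ^ 1440001) + 1) ^ 3 / x ^ 52 ≤ x ^ 4319956 := by
    rw [div_le_iff₀ (pow_pos h0 _), ← pow_add]
    calc _ ≤ 4 * x ^ 4 * (49 * x ^ 1440001) ^ 3 := by gcongr
      _ = 4 * 49 ^ 3 * x ^ 4320007 := by
          rw [mul_pow, ← pow_mul, mul_mul_mul_comm, ← pow_add]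
      _ ≤ _ := numtk_c h1 (le_trans (by norm_num) hx) (by norm_num)
  have a2 : 2 * x ^ 2 * (x ^ 788301) ^ 2 * x ^ 52 * (2 * (24 * x ^ 1440001) + 1) ≤
      x ^ 4319956 := by
    calc _ ≤ x ^ 1 * x ^ 2 * (x ^ 788301) ^ 2 * x ^ 52 * x ^ 1440002 := by
          gcongr
          · rwa [pow_one]
          · exact a0.trans (numtk_c h1 (le_trans (by norm_num) hx) le_rfl)
      _ = x ^ 3016659 := by simp only [← pow_mul, ← pow_add]
      _ ≤ _ := pow_le_pow_right₀ h1 (by norm_num)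
  have a3 : x ^ 4319955 ≤ x ^ 4319956 := pow_le_pow_right₀ h1 (by norm_num)
  calc _ ≤ 2 ^ 69 * x ^ 4 * (x ^ 4319956 + x ^ 4319956 + x ^ 4319956) := by gcongr
    _ = 2 ^ 69 * 3 * (x ^ 4 * x ^ 4319956) := by
        generalize x ^ 4319956 = y
        ring
    _ ≤ _ := by
        rw [← pow_add]
        exact numtk_c h1 (le_trans (by norm_num) hx) (by norm_num)

theorem num_tk (a T : ℕ) (hT : 10 ^ 30 ≤ T) (hDB : DB T (T ^ 36000000)) (ha : NC a) (haT : a ≤ T)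
    (Ps : Finset ℕ)
    (hPs : ∀ p ∈ Ps, p.Prime ∧ p % 3 = 2 ∧ T ^ 788300 < p ∧ p ≤ T ^ 788301)
    (hc : 3 * T ^ 788300 ≤ Ps.card) :
    ((Bad1 Ps a (T ^ 52) (T ^ 1440001)).card : ℝ) ≤ (T : ℝ) ^ 4319962 := by
  have hx : (10 : ℝ) ^ 30 ≤ T := by exact_mod_cast hT
  have h1 : 1 ≤ T := le_trans (by norm_num) hT
  have h2 : 2 ≤ T := le_trans (by norm_num) hT
  have r1 : (1 : ℝ) ≤ T := le_trans (by norm_num) hx
  have r0 : (0 : ℝ) < T := zero_lt_one.trans_le r1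
  obtain ⟨ρ, hρ⟩ := rho_exists a Ps fun p hp => ⟨(hPs p hp).1, (hPs p hp).2.1⟩
  obtain ⟨hμ1, hμ2⟩ := mu_bounds T (T ^ 788300) (one_le_pow₀ h1) h1 Ps
    (fun p hp => ⟨(hPs p hp).2.2.1, (hPs p hp).2.2.2.trans_eq (by ring)⟩) hc
  obtain ⟨W, hW, hlo, hdec⟩ := weight (T ^ 1440001) (one_le_pow₀ h1)
  have haT' : a ≤ T ^ 1 := by rwa [pow_one]
  have hX1 : 2 * a * (2 * T ^ 52 * (24 * T ^ 1440001)) ^ 3 ≤ T ^ 36000000 := by
    calc _ ≤ T ^ 1 * T ^ 1 * (T ^ 1 * T ^ 52 * (T ^ 1 * T ^ 1440001)) ^ 3 := by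
          have c24 : 24 ≤ T := le_trans (by norm_num) hT
          gcongr <;> rwa [pow_one]
      _ = T ^ 4320167 := by simp only [← pow_mul, ← pow_add]
      _ ≤ _ := pow_le_pow_right₀ h1 (by norm_num)
  have hP : a + (T ^ 52) ^ 3 ≤ T ^ 788300 := by
    refine numtk_add (i := 156) h2 (haT'.trans (pow_le_pow_right₀ h1 (by norm_num))) ?_
      (by norm_num)
    rw [← pow_mul]
  have hX2 : a * (2 * (T ^ 788301) ^ 2 * T ^ 52) ^ 3 +
      (T ^ 654300 * T ^ 268106 + 2 * (T ^ 788301) ^ 2 * (T ^ 52) ^ 2) ^ 3 ≤ T ^ 36000000 := by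
    refine numtk_add (i := 4800000) h2 ?_ ?_ (by norm_num)
    · calc _ ≤ T ^ 1 * (T ^ 1 * (T ^ 788301) ^ 2 * T ^ 52) ^ 3 := by
            gcongr
            rwa [pow_one]
        _ = T ^ 4729966 := by simp only [← pow_mul, ← pow_add]
        _ ≤ _ := pow_le_pow_right₀ h1 (by norm_num)
    · calc _ ≤ (T ^ 1600000) ^ 3 := by
            refine Nat.pow_le_pow_left (numtk_add (i := 1576707) h2 ?_ ?_ (by norm_num)) 3
            · rw [← pow_add]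
              exact pow_le_pow_right₀ h1 (by norm_num)
            · rw [mul_assoc, ← pow_mul, ← pow_mul, ← pow_add]
              exact numtk_c h1 h2 (by norm_num)
        _ = _ := by rw [← pow_mul]
  have hε0 : (0 : ℝ) < 1 / (T : ℝ) ^ 1308601 := one_div_pos.2 (pow_pos r0 _)
  have hε : 1 / (T : ℝ) ^ 1308601 * ((T ^ 654300 : ℕ) : ℝ) ^ 2 ≤ 1 := by
    rw [Nat.cast_pow, ← pow_mul, one_div_mul_eq_div, div_le_one (pow_pos r0 _)]
    exact pow_le_pow_right₀ r1 (by norm_num)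
  have hJ : 3 * ((T ^ 52 : ℕ) : ℝ) ^ 2 * (1 / (T : ℝ) ^ 1308601) * ((T ^ 788301 : ℕ) : ℝ) ^ 2 ≤
      ((T ^ 268106 : ℕ) : ℝ) := by
    rw [Nat.cast_pow, Nat.cast_pow, Nat.cast_pow, mul_one_div, div_mul_eq_mul_div,
      div_le_iff₀ (pow_pos r0 _), mul_assoc, ← pow_mul, ← pow_mul, ← pow_add, ← pow_add]
    exact numtk_c r1 (le_trans (by norm_num) hx) (by norm_num)
  have key := tk a T (T ^ 36000000) (T ^ 1440001) (T ^ 52) (T ^ 788301) (24 * T ^ 1440001) hDB ha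
    (one_le_pow₀ h1) h1 Ps (fun p hp => ⟨(hPs p hp).1.one_le, (hPs p hp).2.2.2⟩) ρ hρ W hW hlo
    (Nat.le_mul_of_pos_left _ (by norm_num)) hX1 hμ1 hμ2 ((T : ℝ) ^ 4319955) (pow_pos r0 _).le
    (fun l hl l' hl' hne => by
      refine (corr a T (T ^ 36000000) (T ^ 788300) (T ^ 788301) (T ^ 52) (T ^ 654300) (T ^ 268106)
        (24 * T ^ 1440001) hDB ha Ps
        (fun p hp => ⟨(hPs p hp).1, (hPs p hp).2.2.1, (hPs p hp).2.2.2⟩) ρ hρ (one_le_pow₀ h1)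
        (pow_le_pow_right₀ h1 (by norm_num)) hP _ _ hε0.le hε ?_ hJ hX2 W hW
        (fun θ hθ => hdec θ _ hε0 hθ) l l' hl hl' hne).trans ?_
      · positivity
      · simp only [Nat.cast_mul, Nat.cast_pow, Nat.cast_ofNat]
        exact numtk_E hx)
  refine key.trans ?_
  simp only [Nat.cast_mul, Nat.cast_pow, Nat.cast_ofNat]
  exact numtk_fin hx

end Pool.Agent.Lib.MP_9c5702_nt.AC
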