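import Pool.Agent.Lib.MP_9c5702_nt.AC.Incomplete
import Pool.Agent.Lib.MP_9c5702_nt.AC.ABound

/-! The off-diagonal terms of the sieve. -/

set_option autoImplicit false

namespace Pool.Agent.Lib.MP_9c5702_nt.AC

open Finset Pool.Agent.Lib.MP_9c5702_nt.Cube

lemma offd_ind {q : ℕ} (hq : 0 < q) {L L' c : ℤ} (hL : (q : ℤ) ∣ L * L' - 1)
    (hc : IsCoprime c (q : ℤ)) (a x κ : ℤ) :
    ∑ h ∈ Ico a (a + q), ec q (h * L' * κ) * kf q (-(h * L' * c)) x =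
      if (q : ℤ) ∣ x * κ - c then (q : ℂ) else 0 := by
  by_cases hx : IsCoprime x (q : ℤ)
  · obtain ⟨y, hy⟩ := exists_inv hx
    have e : ∀ h : ℤ, ec q (h * L' * κ) * kf q (-(h * L' * c)) x =
        ec q (h * (L' * (κ - c * y))) := fun h => by
      rw [kf_eq _ hy, ← ec_add]
      congr 1
      ring
    rw [sum_congr rfl fun h _ => e h, ec_orth hq]
    obtain ⟨i, hi⟩ := hL
    obtain ⟨j, hj⟩ := hy
    refine if_congr ⟨fun ⟨k, hk⟩ => ⟨x * L * k - x * i * (κ - c * y) + c * j, ?_⟩,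
      fun ⟨k, hk⟩ => ⟨L' * (y * k - κ * j), ?_⟩⟩ rfl rfl
    · linear_combination (x * L) * hk - x * (κ - c * y) * hi + c * hj
    · linear_combination (L' * y) * hk - L' * κ * hj
  · rw [if_neg, sum_eq_zero fun h _ => by rw [kf_zero _ hx, mul_zero]]
    rintro ⟨k, hk⟩
    obtain ⟨u, v, huv⟩ := hc
    exact hx ⟨u * κ, v - u * k, by linear_combination huv + u * hk⟩

lemma offd_gcd (h w : ℤ) (q : ℕ) (hw : IsCoprime w (q : ℤ)) :
    Int.gcd (h * w) q = Int.gcd h q := by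
  have h1 : Nat.Coprime w.natAbs (q : ℤ).natAbs := Int.isCoprime_iff_gcd_eq_one.1 hw
  rw [Int.gcd, Int.gcd, Int.natAbs_mul, h1.gcd_mul_right_cancel]

lemma offd_triv (A G : ℤ → ℂ) (B : ℝ) (hA : ∀ t, ‖A t‖ ≤ B) (hG : ∀ t, ‖G t‖ ≤ 1) (a : ℤ)
    (X0 : ℕ) : ‖∑ t ∈ Ico a (a + X0), A t * G t‖ ≤ B * X0 := by
  refine (norm_sum_le _ _).trans ((sum_le_card_nsmul _ _ B fun t _ => ?_).trans ?_)
  · rw [norm_mul]
    exact (mul_le_of_le_one_right (norm_nonneg _) (hG t)).trans (hA t)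
  · rw [Int.card_Ico, show (a + X0 - a).toNat = X0 by omega, nsmul_eq_mul, mul_comm]

lemma offd_one (p1 p2 q0 L T Z X0 : ℕ) (hp1 : 1 ≤ p1) (hp2 : 1 ≤ p2) (h12 : p1.Coprime p2)
    (h10 : p1.Coprime q0) (h20 : p2.Coprime q0) (hq : Squarefree q0)
    (hL : L.Coprime q0) (hZ : 1 ≤ Z) (hτ : q0.divisors.card ≤ T)
    (hH : ∑ j ∈ Icc 1 q0, (1 : ℝ) / j ≤ T) (b b0 C : ℤ) (hb : IsCoprime b (q0 : ℤ))
    (hC : Int.gcd C q0 ≤ T * Z) (hr1 : 2 * Z ^ 5 * (p1 * L) ≤ X0)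
    (hr2 : 2 * Z ^ 6 * p2 ≤ X0) (hlo : (8 * T ^ 6 * Z ^ 8) ^ 2 ≤ q0)
    (hhi : (8 * T ^ 6 * Z ^ 8) ^ 2 * q0 ≤ X0 ^ 2) (A : ℤ → ℂ) (hAp : Function.Periodic A L)
    (B : ℝ) (hB : 0 < B) (hA : ∀ t, ‖A t‖ ≤ B) (a : ℤ) :
    ‖∑ t ∈ Ico a (a + X0), A t * kf (p1 * p2 * q0) C (b * t + b0)‖ ≤ B * (5 * X0 / Z) := by
  have hq0 : 0 < q0 := Nat.pos_of_ne_zero hq.ne_zero
  obtain ⟨u, v, huv⟩ : IsCoprime (q0 : ℤ) ((p1 * p2 : ℕ) : ℤ) :=
    Nat.isCoprime_iff_coprime.2 (Nat.Coprime.mul_left h10 h20).symm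
  obtain ⟨u', v', huv'⟩ : IsCoprime (p2 : ℤ) (p1 : ℤ) := Nat.isCoprime_iff_coprime.2 h12.symm
  have hB' : (B : ℂ) ≠ 0 := Complex.ofReal_ne_zero.2 hB.ne'
  have e : ∀ t, A t * kf (p1 * p2 * q0) C (b * t + b0) =
      B * ((A t / B * kf p1 (C * u * u') (b * t + b0)) *
        (kf p2 (C * u * v') (b * t + b0) * kf q0 (C * v) (b * t + b0))) := fun t => by
    rw [kf_mul (Nat.mul_pos hp1 hp2) hq0 huv, kf_mul hp1 hp2 huv']
    field_simp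
  rw [sum_congr rfl fun t _ => e t, ← mul_sum, norm_mul, Complex.norm_real, Real.norm_eq_abs,
    abs_of_pos hB]
  refine mul_le_mul_of_nonneg_left ?_ hB.le
  refine incomplete q0 T Z X0 (p1 * L) p2 hq hZ hτ hH b b0 (C * v) hb
    (Nat.Coprime.mul_left h10 hL) h20 ?_ hr1 hr2 hlo hhi
    (fun t => A t / B * kf p1 (C * u * u') (b * t + b0))
    (fun t => kf p2 (C * u * v') (b * t + b0)) (fun t => ?_) (fun t => ?_) (fun t => ?_)
    (fun t => norm_kf_le _ _ _) a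
  · rw [offd_gcd C v q0 ⟨((p1 * p2 : ℕ) : ℤ), u, by linear_combination huv⟩]
    exact hC
  · have h1 : A (t + ((p1 * L : ℕ) : ℤ)) = A t := by
      rw [Nat.cast_mul]
      exact hAp.nat_mul p1 t
    show A _ / B * kf p1 _ _ = A t / B * kf p1 _ _
    rw [h1]
    congr 1
    exact kf_congr (by simp) ⟨b * L, by push_cast; ring⟩
  · exact kf_congr (by simp) ⟨b, by ring⟩
  · rw [norm_mul, norm_div, Complex.norm_real, Real.norm_eq_abs, abs_of_pos hB]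
    exact mul_le_one₀ ((div_le_one hB).2 (hA t)) (norm_nonneg _) (norm_kf_le _ _ _)

theorem offd (p1 p2 q0 L T Z X0 : ℕ) (hp1 : 1 ≤ p1) (hp2 : 1 ≤ p2) (h12 : p1.Coprime p2)
    (h10 : p1.Coprime q0) (h20 : p2.Coprime q0) (hq : Squarefree q0) (hL1 : 1 ≤ L)
    (hL : L.Coprime (p1 * p2 * q0)) (hZ : 1 ≤ Z) (hτ : q0.divisors.card ≤ T)
    (hH : ∑ j ∈ Icc 1 (p1 * p2 * q0), (1 : ℝ) / j ≤ T) (b b0 c : ℤ) (hb : IsCoprime b (q0 : ℤ))
    (hc : IsCoprime c ((p1 * p2 * q0 : ℕ) : ℤ)) (hr1 : 2 * Z ^ 5 * (p1 * L) ≤ X0)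
    (hr2 : 2 * Z ^ 6 * p2 ≤ X0) (hlo : (8 * T ^ 6 * Z ^ 8) ^ 2 ≤ q0)
    (hhi : (8 * T ^ 6 * Z ^ 8) ^ 2 * q0 ≤ X0 ^ 2) (φ : ℤ → ℤ → ℝ) (hφ1 : ∀ t κ, |φ t κ| ≤ 1)
    (hφt : ∀ t κ, φ (t + L) κ = φ t κ) (hφk : ∀ t κ, φ t (κ + L) = φ t κ)
    (hφ0 : ∀ t, ∑ κ ∈ range L, φ t κ = 0) (a k0 : ℤ) (K : ℕ) :
    |∑ t ∈ Ico a (a + X0), ∑ κ ∈ (Ico k0 (k0 + K)).filter
      (fun κ => ((p1 * p2 * q0 : ℕ) : ℤ) ∣ (b * t + b0) * κ - c), φ t κ| ≤
      7 * L * T * X0 / Z := by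
  have hq0 : 0 < q0 := Nat.pos_of_ne_zero hq.ne_zero
  have hT : 1 ≤ T := le_trans (card_pos.2 ⟨1, Nat.one_mem_divisors.2 hq0.ne'⟩) hτ
  have hone := offd_one p1 p2 q0 L T Z X0 hp1 hp2 h12 h10 h20 hq
    (Nat.Coprime.coprime_mul_left_right hL) hZ hτ
  have hq0q : q0 ∣ p1 * p2 * q0 := dvd_mul_left _ _
  have hqpos : 0 < p1 * p2 * q0 := Nat.mul_pos (Nat.mul_pos hp1 hp2) hq0
  generalize p1 * p2 * q0 = q at hL hH hc hone hq0q hqpos ⊢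
  have hq0le : q0 ≤ q := Nat.le_of_dvd hqpos hq0q
  have hH0 : ∑ j ∈ Icc 1 q0, (1 : ℝ) / j ≤ T :=
    (sum_le_sum_of_subset_of_nonneg (Icc_subset_Icc_right hq0le) fun _ _ _ => by positivity).trans
      hH
  obtain ⟨L', hL'⟩ := exists_inv (Nat.isCoprime_iff_coprime.2 hL)
  have hd : (q0 : ℤ) ∣ (q : ℤ) := Int.natCast_dvd_natCast.2 hq0q
  have hcop : IsCoprime (-(L' * c)) (q0 : ℤ) := by
    refine IsCoprime.neg_left (IsCoprime.mul_left ?_ (hc.of_isCoprime_of_dvd_right hd))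
    obtain ⟨i, hi⟩ := hd.trans hL'
    exact ⟨L, -i, by linear_combination hi⟩
  obtain ⟨Hs, hHs⟩ : ∃ Hs : Finset ℤ, Hs = Ico (-((q : ℤ) / 2)) (-((q : ℤ) / 2) + q) := ⟨_, rfl⟩
  obtain ⟨A, hA⟩ : ∃ A : ℤ → ℤ → ℂ,
      ∀ h t, A h t = ∑ κ ∈ Ico k0 (k0 + K), (φ t κ : ℂ) * ec q (h * L' * κ) := ⟨_, fun _ _ => rfl⟩
  obtain ⟨N, hN⟩ : ∃ N : ℤ → ℝ, ∀ h, N h =
      ‖∑ t ∈ Ico a (a + X0), A h t * kf q (-(h * L' * c)) (b * t + b0)‖ := ⟨_, fun _ => rfl⟩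
  have hsm : ∀ h ∈ Hs, 2 * |h| ≤ q := fun h hh => by
    rw [hHs, mem_Ico] at hh
    rcases abs_cases h with h1 | h1 <;> omega
  have h0mem : (0 : ℤ) ∈ Hs := by
    rw [hHs, mem_Ico]
    omega
  have hqR : (0 : ℝ) < q := by exact_mod_cast hqpos
  have hZR : (0 : ℝ) < Z := by exact_mod_cast hZ
  have hTR : (0 : ℝ) < T := by exact_mod_cast hT
  have hLR : (0 : ℝ) < L := by exact_mod_cast hL1
  have hexp : (q : ℂ) * ((∑ t ∈ Ico a (a + X0), ∑ κ ∈ (Ico k0 (k0 + K)).filter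
      (fun κ => (q : ℤ) ∣ (b * t + b0) * κ - c), φ t κ : ℝ) : ℂ) =
      ∑ h ∈ Hs, ∑ t ∈ Ico a (a + X0), A h t * kf q (-(h * L' * c)) (b * t + b0) := by
    rw [sum_comm, Complex.ofReal_sum, mul_sum]
    refine sum_congr rfl fun t _ => ?_
    simp only [hA, sum_mul]
    rw [sum_comm, sum_filter, Complex.ofReal_sum, mul_sum]
    refine sum_congr rfl fun κ _ => ?_
    simp only [mul_assoc (φ t κ : ℂ)]
    rw [← mul_sum, hHs, offd_ind hqpos hL' hc]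
    split_ifs
    · exact mul_comm _ _
    · simp
  have hN0 : N 0 ≤ L * X0 := by
    rw [hN]
    refine offd_triv _ _ _ (fun t => ?_) (fun t => norm_kf_le _ _ _) a X0
    have h1 := abs_sum_le_of_mean_zero hL1 (φ t) (hφk t) (hφ1 t) (hφ0 t) k0 K
    rw [hA]
    simp only [zero_mul, ec_zero, mul_one]
    rw [← Complex.ofReal_sum, Complex.norm_real, Real.norm_eq_abs]
    exact h1.trans (mul_one _).le
  have hNh : ∀ h ∈ Hs.erase 0, N h ≤ L * q * (5 * X0 / Z) * (1 / (2 * |(h : ℝ)|)) +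
      if T * Z < Int.gcd h q0 then L * q * X0 * (1 / (2 * |(h : ℝ)|)) else 0 := fun h hh => by
    obtain ⟨h0, hh'⟩ := mem_erase.1 hh
    have hpos : (0 : ℝ) < |(h : ℝ)| := abs_pos.2 (Int.cast_ne_zero.2 h0)
    have hAb : ∀ t, ‖A h t‖ ≤ L * (q / (2 * |(h : ℝ)|)) := fun t => by
      rw [hA]
      exact a_bound q L hL1 (φ t) (hφk t) (hφ1 t) L' h hL' h0 (hsm h hh') k0 K
    rw [hN]
    split_ifs with hg
    · refine (offd_triv _ _ _ hAb (fun t => norm_kf_le _ _ _) a X0).trans ?_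
      refine le_trans (le_of_eq ?_) (le_add_of_nonneg_left (by positivity))
      ring
    · refine (hone hH0 b b0 _ hb ?_ hr1 hr2 hlo hhi (A h) (fun t => ?_) _ (by positivity) hAb
        a).trans (le_of_eq (by ring))
      · rw [show -(h * L' * c) = h * -(L' * c) by ring, offd_gcd h _ q0 hcop]
        exact not_lt.1 hg
      · rw [hA, hA]
        exact sum_congr rfl fun κ _ => by rw [hφt]
  obtain ⟨g1, g2⟩ := gcd_harm q0 q T (T * Z) hq0 (Nat.mul_pos hT hZ) hτ hH (Hs.erase 0)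
    fun h hh => ⟨(mem_erase.1 hh).1, by
      have h1 := hsm h (mem_erase.1 hh).2
      have h2 := abs_nonneg h
      omega⟩
  have hsum : ∑ h ∈ Hs.erase 0, N h ≤ L * q * (5 * X0 / Z) * T + L * q * X0 * (T / Z) := by
    refine (sum_le_sum hNh).trans ?_
    rw [sum_add_distrib, ← sum_filter, ← mul_sum, ← mul_sum]
    refine add_le_add (mul_le_mul_of_nonneg_left g1 (by positivity))
      (mul_le_mul_of_nonneg_left (g2.trans (le_of_eq ?_)) (by positivity))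
    push_cast
    field_simp
  have hZq : Z ≤ q * T := by
    have h1 : Z ≤ Z ^ 8 := Nat.le_self_pow (by norm_num) Z
    have h2 : Z ^ 8 ≤ 8 * T ^ 6 * Z ^ 8 := Nat.le_mul_of_pos_left _ (by positivity)
    have h3 : 8 * T ^ 6 * Z ^ 8 ≤ (8 * T ^ 6 * Z ^ 8) ^ 2 := Nat.le_self_pow (by norm_num) _
    exact (h1.trans (h2.trans (h3.trans (hlo.trans hq0le)))).trans (Nat.le_mul_of_pos_right _ hT)
  have hZq' : (1 : ℝ) ≤ q * T / Z := by
    rw [le_div_iff₀ hZR, one_mul]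
    exact_mod_cast hZq
  have hfin := (congrArg norm hexp).trans_le (norm_sum_le _ _)
  rw [norm_mul, Complex.norm_natCast, Complex.norm_real, Real.norm_eq_abs,
    sum_congr rfl fun h _ => (hN h).symm, ← add_sum_erase Hs N h0mem] at hfin
  refine le_of_mul_le_mul_left (hfin.trans ?_) hqR
  have h5 : (L : ℝ) * X0 ≤ L * X0 * (q * T / Z) := le_mul_of_one_le_right (by positivity) hZq'
  refine (add_le_add (hN0.trans h5) hsum).trans (le_of_eq ?_)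
  ring

end Pool.Agent.Lib.MP_9c5702_nt.AC
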