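import Mathlib

/-! From bounds on power sums to a bound on the first coefficient. -/

set_option autoImplicit false

namespace Pool.Agent.Lib.MP_9c5702_nt.AC

open Finset

private theorem ps_root_le {ρ : ℝ} (hρ : 0 < ρ) (k0 : ℕ) (b : ℂ) (T : Finset ℂ) (hb : b ∉ T) :
    ∀ (w1 : ℂ) (w : ℂ → ℂ) (C : ℝ), w1 ≠ 0 →
      (∀ k, k0 ≤ k → ‖w1 * b ^ k + ∑ x ∈ T, w x * x ^ k‖ ≤ C * ρ ^ k) → ‖b‖ ≤ ρ := by
  classical
  induction T using Finset.induction_on with
  | empty =>
    intro w1 w C h1 h
    by_contra hc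
    have hlt : 1 < ‖b‖ / ρ := (one_lt_div hρ).2 (not_le.1 hc)
    have hw : 0 < ‖w1‖ := norm_pos_iff.2 h1
    obtain ⟨k, hk1, hk2⟩ := (((tendsto_pow_atTop_atTop_of_one_lt hlt).eventually_gt_atTop
      (C / ‖w1‖)).and (Filter.eventually_ge_atTop k0)).exists
    have h2 := h k hk2
    rw [sum_empty, add_zero, norm_mul, norm_pow] at h2
    rw [div_pow, div_lt_div_iff₀ hw (pow_pos hρ k)] at hk1
    linarith
  | insert g T hg ih =>
    intro w1 w C h1 h
    have hbg : b ≠ g := fun e => hb (e ▸ mem_insert_self _ _)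
    refine ih (fun e => hb (mem_insert_of_mem e)) (w1 * (b - g)) (fun x => w x * (x - g))
      (C * (ρ + ‖g‖)) (mul_ne_zero h1 (sub_ne_zero.2 hbg)) fun k hk => ?_
    have e : w1 * (b - g) * b ^ k + ∑ x ∈ T, w x * (x - g) * x ^ k =
        (w1 * b ^ (k + 1) + ∑ x ∈ insert g T, w x * x ^ (k + 1)) -
          g * (w1 * b ^ k + ∑ x ∈ insert g T, w x * x ^ k) := by
      have : ∑ x ∈ T, w x * (x - g) * x ^ k =
          ∑ x ∈ T, w x * x ^ (k + 1) - g * ∑ x ∈ T, w x * x ^ k := by
        rw [mul_sum, ← sum_sub_distrib]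
        exact sum_congr rfl fun x _ => by ring
      rw [this, sum_insert hg, sum_insert hg]
      ring
    rw [e]
    refine (norm_sub_le _ _).trans ?_
    rw [norm_mul]
    have a1 := h (k + 1) (by omega)
    have a2 := mul_le_mul_of_nonneg_left (h k hk) (norm_nonneg g)
    rw [pow_succ ρ] at a1
    linarith

private theorem ps_mem_le {ρ C : ℝ} (hρ : 0 < ρ) (k0 : ℕ) (N : Multiset ℂ)
    (h : ∀ k, k0 ≤ k → ‖(N.map (· ^ k)).sum‖ ≤ C * ρ ^ k) {b : ℂ} (hb : b ∈ N) : ‖b‖ ≤ ρ := by
  classical
  refine ps_root_le hρ k0 b (N.toFinset.erase b) (notMem_erase _ _) (N.count b : ℂ)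
    (fun x => (N.count x : ℂ)) C (Nat.cast_ne_zero.2 (Multiset.count_ne_zero.2 hb)) fun k hk => ?_
  have := h k hk
  rw [Finset.sum_multiset_map_count, ← add_sum_erase _ _ (Multiset.mem_toFinset.2 hb)] at this
  simpa only [nsmul_eq_mul] using this

private theorem ps_factor : ∀ (D : ℕ) (L : Polynomial ℂ), L.natDegree ≤ D → L.coeff 0 = 1 →
    ∃ M : Multiset ℂ, M.card ≤ D ∧
      L = (M.map fun x => 1 - Polynomial.C x * Polynomial.X).prod := by
  intro D
  induction D with
  | zero =>
    intro L h h0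
    refine ⟨0, le_rfl, ?_⟩
    rw [Polynomial.eq_C_of_natDegree_le_zero h, h0]
    simp
  | succ D ih =>
    intro L h h0
    by_cases hd : L.natDegree ≤ D
    · obtain ⟨M, a, b⟩ := ih L hd h0
      exact ⟨M, by omega, b⟩
    have hL : L ≠ 0 := fun e => by simp [e] at h0
    obtain ⟨z, hz⟩ := IsAlgClosed.exists_root L (by
      rw [Polynomial.degree_eq_natDegree hL]
      exact_mod_cast (by omega : L.natDegree ≠ 0))
    have hz0 : z ≠ 0 := fun e => by
      rw [e, Polynomial.IsRoot.def, ← Polynomial.coeff_zero_eq_eval_zero, h0] at hz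
      exact one_ne_zero hz
    obtain ⟨Q, hQ⟩ := Polynomial.dvd_iff_isRoot.2 hz
    have hQ0 : Q ≠ 0 := fun e => hL (by rw [hQ, e, mul_zero])
    have hdeg : L.natDegree = 1 + Q.natDegree := by
      rw [hQ, Polynomial.natDegree_mul (Polynomial.X_sub_C_ne_zero z) hQ0,
        Polynomial.natDegree_X_sub_C]
    obtain ⟨M, a, b⟩ := ih (Polynomial.C (-z) * Q)
      ((Polynomial.natDegree_C_mul_le _ _).trans (by omega)) (by
        rw [hQ] at h0
        simpa using h0)
    refine ⟨z⁻¹ ::ₘ M, by rw [Multiset.card_cons]; omega, ?_⟩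
    have e : Polynomial.C z⁻¹ * Polynomial.C z = (1 : Polynomial ℂ) := by
      rw [← Polynomial.C_mul, inv_mul_cancel₀ hz0, Polynomial.C_1]
    rw [Multiset.map_cons, Multiset.prod_cons, ← b, hQ, Polynomial.C_neg]
    linear_combination (-Polynomial.X * Q) * e

open PowerSeries in
private theorem ps_newton (M : Multiset ℂ) :
    X * derivative ℂ (M.map fun x => (1 - C x * X : ℂ⟦X⟧)).prod =
      (PowerSeries.mk fun r => if r = 0 then 0 else -(M.map (· ^ r)).sum) *
        (M.map fun x => (1 - C x * X : ℂ⟦X⟧)).prod := by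
  induction M using Multiset.induction_on with
  | empty =>
    have : (PowerSeries.mk fun r => if r = 0 then 0 else -((0 : Multiset ℂ).map (· ^ r)).sum) = 0 := by
      ext r; simp
    rw [this]
    simp
  | cons x M ih =>
    have h1 : (PowerSeries.mk fun r => if r = 0 then 0 else -((x ::ₘ M).map (· ^ r)).sum) =
        (PowerSeries.mk fun r => if r = 0 then 0 else -(M.map (· ^ r)).sum) + (1 - PowerSeries.mk fun r => x ^ r) := by
      ext r
      simp only [map_add, map_sub, coeff_mk, coeff_one, Multiset.map_cons, Multiset.sum_cons]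
      split_ifs with h
      · simp [h]
      · ring
    have h2 : (PowerSeries.mk fun r => x ^ r) * (1 - C x * X) = (1 : ℂ⟦X⟧) := by
      ext r
      rw [mul_sub, mul_one, ← mul_assoc, map_sub, mul_comm _ (C x)]
      cases r with
      | zero => simp
      | succ r => simp [coeff_succ_mul_X, coeff_one, pow_succ']
    have h3 : derivative ℂ (1 - C x * X : ℂ⟦X⟧) = -C x := by
      rw [map_sub, Derivation.leibniz, derivative_C, derivative_X]
      simp
    rw [h1, Multiset.map_cons, Multiset.prod_cons, Derivation.leibniz, h3, smul_eq_mul, smul_eq_mul]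
    linear_combination (1 - C x * X) * ih +
      (Multiset.map (fun x => (1 - C x * X : ℂ⟦X⟧)) M).prod * h2

theorem pow_sum_bound (D : ℕ) (a s : ℕ → ℂ) (h0 : a 0 = 1) (hD : ∀ d, D < d → a d = 0)
    (hN : ∀ d : ℕ, (d : ℂ) * a d = ∑ r ∈ Icc 1 d, s r * a (d - r)) (C R : ℝ) (hR : 0 < R) (k0 : ℕ)
    (hs : ∀ k, k0 ≤ k → ‖s (2 * k)‖ ≤ C * R ^ (2 * k)) : ‖a 1‖ ≤ D * R := by
  have hc : ∀ d, (PowerSeries.trunc (D + 1) (PowerSeries.mk a)).coeff d = a d := fun d => by
    rw [PowerSeries.coeff_trunc, PowerSeries.coeff_mk]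
    split_ifs with h
    · rfl
    · exact (hD d (by omega)).symm
  obtain ⟨M, hM, hL⟩ := ps_factor D (PowerSeries.trunc (D + 1) (PowerSeries.mk a))
    (Polynomial.natDegree_le_iff_coeff_eq_zero.2 fun d hd => by rw [hc, hD d hd]) (by rw [hc, h0])
  have hA : PowerSeries.mk a =
      (M.map fun x => (1 - PowerSeries.C x * PowerSeries.X : PowerSeries ℂ)).prod := by
    have h1 : PowerSeries.mk a =
        Polynomial.coeToPowerSeries.ringHom (PowerSeries.trunc (D + 1) (PowerSeries.mk a)) := by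
      ext d
      rw [Polynomial.coeToPowerSeries.ringHom_apply, Polynomial.coeff_coe, hc, PowerSeries.coeff_mk]
    rw [h1, hL, map_multiset_prod, Multiset.map_map]
    congr 2
    funext x
    simp
  have h1 := ps_newton M
  rw [← hA] at h1
  have h2 : PowerSeries.X * PowerSeries.derivative ℂ (PowerSeries.mk a) =
      (PowerSeries.mk fun r => if r = 0 then 0 else s r) * PowerSeries.mk a := by
    ext d
    rw [PowerSeries.coeff_mul d (PowerSeries.mk _), Nat.sum_antidiagonal_eq_sum_range_succ_mk]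
    simp only [PowerSeries.coeff_mk]
    have e : ∑ r ∈ range d.succ, (if r = 0 then 0 else s r) * a (d - r) =
        ∑ r ∈ Icc 1 d, s r * a (d - r) := by
      rw [sum_range_succ', ← Finset.Ico_add_one_right_eq_Icc, sum_Ico_eq_sum_range]
      simp [add_comm]
    rw [e, ← hN]
    cases d with
    | zero => simp
    | succ d =>
      rw [PowerSeries.coeff_succ_X_mul, PowerSeries.coeff_derivative, PowerSeries.coeff_mk]
      push_cast
      ring
  have hA0 : PowerSeries.mk a ≠ 0 := fun e => by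
    have := congrArg (PowerSeries.coeff 0) e
    simp [h0] at this
  have h3 := mul_right_cancel₀ hA0 (h2.symm.trans h1)
  have h4 : ∀ r, r ≠ 0 → s r = -(M.map (· ^ r)).sum := fun r hr => by
    have := congrArg (PowerSeries.coeff r) h3
    simpa only [PowerSeries.coeff_mk, if_neg hr] using this
  have h5 : ∀ x ∈ M, ‖x‖ ≤ R := fun x hx => by
    have := ps_mem_le (ρ := R ^ 2) (C := C) (by positivity) (k0 + 1) (M.map (· ^ 2))
      (fun k hk => by
        have h6 := hs k (by omega)
        rw [h4 _ (by omega), norm_neg, pow_mul] at h6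
        rw [Multiset.map_map]
        simpa only [Function.comp_def, ← pow_mul] using h6)
      (Multiset.mem_map_of_mem _ hx)
    rw [norm_pow] at this
    exact (pow_le_pow_iff_left₀ (norm_nonneg _) hR.le two_ne_zero).1 this
  have h6 : a 1 = -(M.map (· ^ 1)).sum := by
    have := hN 1
    rw [← h4 1 one_ne_zero]
    simpa [h0] using this
  rw [h6, norm_neg]
  refine (norm_multiset_sum_le _).trans ?_
  refine (Multiset.sum_le_card_nsmul _ R fun y hy => ?_).trans ?_
  · simp only [Multiset.map_map, Multiset.mem_map, Function.comp_def, pow_one] at hy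
    obtain ⟨x, hx, rfl⟩ := hy
    exact h5 x hx
  · rw [Multiset.card_map, Multiset.card_map, nsmul_eq_mul]
    exact mul_le_mul_of_nonneg_right (by exact_mod_cast hM) hR.le

end Pool.Agent.Lib.MP_9c5702_nt.AC
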