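import Pool.Agent.Lib.MP_9c5702_nt.AC.Weil4

/-! Complete sums to squarefree moduli. -/

set_option autoImplicit false

namespace Pool.Agent.Lib.MP_9c5702_nt.AC

open Finset Pool.Agent.Lib.MP_9c5702_nt.Cube

private lemma norm_W4_le (q : ℕ) (c b s1 s2 s3 t : ℤ) : ‖W4 q c b s1 s2 s3 t‖ ≤ 1 := by
  rw [W4, norm_mul, norm_mul, norm_mul, RCLike.norm_conj, RCLike.norm_conj]
  exact mul_le_one₀ (mul_le_one₀ (mul_le_one₀ (norm_kf_le _ _ _) (norm_nonneg _)
    (norm_kf_le _ _ _)) (norm_nonneg _) (norm_kf_le _ _ _)) (norm_nonneg _) (norm_kf_le _ _ _)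

private lemma triv_le (q : ℕ) (c b s1 s2 s3 k : ℤ) :
    ‖∑ t ∈ range q, W4 q c b s1 s2 s3 t * ec q (k * t)‖ ≤ q := by
  refine (norm_sum_le _ _).trans ?_
  refine (sum_le_card_nsmul _ _ 1 fun t _ => ?_).trans (by simp)
  rw [norm_mul, norm_ec, mul_one]
  exact norm_W4_le _ _ _ _ _ _ _

private lemma per_W4 (q : ℕ) (c b s1 s2 s3 k : ℤ) :
    Function.Periodic (fun t : ℤ => W4 q c b s1 s2 s3 t * ec q (k * t)) (q : ℤ) := by
  intro t
  have h : ∀ s : ℤ, kf q c (b * (t + q) + s) = kf q c (b * t + s) := fun s =>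
    kf_congr (by simp) ⟨b, by ring⟩
  have h2 : ec q (k * (t + q)) = ec q (k * t) := ec_congr ⟨k, by ring⟩
  simp only [W4, h, h2]

private lemma gcd_unit {a : ℕ} {u : ℤ} (hu : IsCoprime u (a : ℤ)) (c x y : ℤ) :
    Int.gcd (c * u * x * y) a = Int.gcd (c * x * y) a := by
  have h : Nat.Coprime u.natAbs a := by
    simpa [Int.gcd] using Int.isCoprime_iff_gcd_eq_one.1 hu
  rw [show c * u * x * y = u * (c * x * y) by ring, Int.gcd, Int.gcd, Int.natAbs_mul,
    Int.natAbs_natCast]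
  exact h.gcd_mul_left_cancel _

theorem quad_sqfree (q : ℕ) (hq : Squarefree q) (c b s1 s2 s3 k : ℤ) (hb : IsCoprime b (q : ℤ)) :
    ‖∑ t ∈ range q, W4 q c b s1 s2 s3 t * ec q (k * t)‖ ≤
      8 ^ q.primeFactors.card * √q * √(Int.gcd (c * (s1 - s2) * (s1 - s3)) q : ℝ) := by
  induction q using Nat.recOnPosPrimePosCoprime generalizing c k with
  | zero => exact absurd hq not_squarefree_zero
  | one => simpa using triv_le 1 c b s1 s2 s3 k
  | prime_pow p n hp hn =>
    have hn1 : n = 1 := ((Nat.squarefree_pow_iff hp.ne_one hn.ne').1 hq).2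
    subst hn1
    simp only [pow_one] at hb ⊢
    rw [hp.primeFactors, card_singleton, pow_one]
    have hp0 : (0 : ℝ) ≤ p := Nat.cast_nonneg p
    by_cases h : (p : ℤ) ∣ c * (s1 - s2) * (s1 - s3)
    · rw [Int.gcd_eq_natAbs_right h, Int.natAbs_natCast, mul_assoc, Real.mul_self_sqrt hp0]
      exact (triv_le p c b s1 s2 s3 k).trans (by linarith)
    · refine (quad_prime p hp c b s1 s2 s3 k hb h).trans ?_
      have h1 : 1 ≤ Int.gcd (c * (s1 - s2) * (s1 - s3)) p :=
        Int.gcd_pos_of_ne_zero_right _ (by exact_mod_cast hp.ne_zero)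
      have h2 : (1 : ℝ) ≤ √(Int.gcd (c * (s1 - s2) * (s1 - s3)) p : ℝ) :=
        Real.one_le_sqrt.2 (by exact_mod_cast h1)
      exact le_mul_of_one_le_right (by positivity) h2
  | coprime n m hn hm hc ihn ihm =>
    obtain ⟨u, v, huv⟩ : IsCoprime (m : ℤ) (n : ℤ) := Nat.isCoprime_iff_coprime.2 hc.symm
    have hn0 : 0 < n := by omega
    have hm0 : 0 < m := by omega
    have hsq := (Nat.squarefree_mul hc).1 hq
    have hb' : IsCoprime b ((n : ℤ) * m) := by exact_mod_cast hb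
    have h1 := ihn hsq.1 (c * u) (k * u) hb'.of_mul_right_left
    have h2 := ihm hsq.2 (c * v) (k * v) hb'.of_mul_right_right
    rw [gcd_unit ⟨m, v, by linear_combination huv⟩] at h1
    rw [gcd_unit ⟨n, u, by linear_combination huv⟩] at h2
    have e : ∑ t ∈ range (n * m), W4 (n * m) c b s1 s2 s3 t * ec (n * m) (k * t) =
        (∑ t ∈ range n, W4 n (c * u) b s1 s2 s3 t * ec n (k * u * t)) *
          ∑ t ∈ range m, W4 m (c * v) b s1 s2 s3 t * ec m (k * v * t) := by
      rw [← sum_crt hc _ _ (per_W4 n (c * u) b s1 s2 s3 (k * u))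
        (per_W4 m (c * v) b s1 s2 s3 (k * v))]
      refine sum_congr rfl fun t _ => ?_
      simp only [W4, kf_mul hn0 hm0 huv, ec_split hn0 hm0 huv, map_mul]
      rw [show k * t * u = k * u * t by ring, show k * t * v = k * v * t by ring]
      ring
    have g : Int.gcd (c * (s1 - s2) * (s1 - s3)) ((n * m : ℕ) : ℤ) =
        Int.gcd (c * (s1 - s2) * (s1 - s3)) n * Int.gcd (c * (s1 - s2) * (s1 - s3)) m := by
      simp only [Int.gcd, Int.natAbs_natCast]
      exact hc.gcd_mul _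
    rw [e, norm_mul, g, hc.primeFactors_mul, card_union_of_disjoint hc.disjoint_primeFactors,
      pow_add, Nat.cast_mul, Nat.cast_mul, Real.sqrt_mul (Nat.cast_nonneg _),
      Real.sqrt_mul (Nat.cast_nonneg _)]
    refine (mul_le_mul h1 h2 (norm_nonneg _) (by positivity)).trans (le_of_eq ?_)
    ring

end Pool.Agent.Lib.MP_9c5702_nt.AC
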