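import Pool.Agent.Lib.MP_9c5702_nt.AC.Defs

/-! Cube roots modulo an arbitrary integer. -/

set_option autoImplicit false

namespace Pool.Agent.Lib.MP_9c5702_nt.AC

open Finset Pool.Agent.Lib.MP_9c5702_nt.Cube Pool.Agent.Lib.MP_9c5702_nt.Q4

theorem roots_pow_dvd (p k j : ℕ) (hp : p.Prime) (x y : ℤ) (h : (p : ℤ) ^ k ∣ x * y)
    (hy : ¬ (p : ℤ) ^ (j + 1) ∣ y) : (p : ℤ) ^ (k - j) ∣ x := by
  have hpz : Prime (p : ℤ) := Nat.prime_iff_prime_int.mp hp
  have hy0 : y ≠ 0 := fun h0 => hy (h0 ▸ dvd_zero _)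
  obtain ⟨i, y', hy', rfl⟩ := WfDvdMonoid.max_power_factor hy0 hpz.irreducible
  have hi : i ≤ j := by
    by_contra hc
    exact hy (Dvd.dvd.mul_right (pow_dvd_pow _ (by omega)) _)
  by_cases hk : k ≤ j
  · rw [Nat.sub_eq_zero_of_le hk, pow_zero]; exact one_dvd _
  · have h1 : (p : ℤ) ^ i * (p : ℤ) ^ (k - i) ∣ (p : ℤ) ^ i * (y' * x) := by
      rw [← pow_add, show i + (k - i) = k by omega]
      have e : (p : ℤ) ^ i * (y' * x) = x * ((p : ℤ) ^ i * y') := by ring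
      rw [e]; exact h
    have h2 : (p : ℤ) ^ (k - i) ∣ y' * x :=
      (mul_dvd_mul_iff_left (pow_ne_zero i hpz.ne_zero)).mp h1
    have h3 : (p : ℤ) ^ (k - i) ∣ x := hpz.pow_dvd_of_dvd_mul_left _ hy' h2
    exact (pow_dvd_pow _ (by omega)).trans h3

theorem roots_pp (a w p k j : ℕ) (hp : p.Prime) (hjk : j < k) (hw : p.Coprime w)
    (hj : ¬ p ^ (j + 1) ∣ 3 * a) :
    ((range (p ^ k)).filter fun z : ℕ =>
      ((p ^ k : ℕ) : ℤ) ∣ (z : ℤ) ^ 3 - a * (w : ℤ) ^ 3).card ≤ 3 * (p ^ j * p ^ j) := by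
  classical
  have := Fact.mk hp
  have hp0 : 0 < p := hp.pos
  set R : Finset (ZMod p) := (Polynomial.nthRoots 3 ((a : ZMod p) * (w : ZMod p) ^ 3)).toFinset
    with hR
  have hRc : R.card ≤ 3 := (Multiset.toFinset_card_le _).trans (Polynomial.card_nthRoots _ _)
  have hcard : (R ×ˢ (range (p ^ j) ×ˢ range (p ^ j))).card ≤ 3 * (p ^ j * p ^ j) := by
    rw [card_product, card_product, card_range]
    exact Nat.mul_le_mul_right _ hRc
  refine le_trans ?_ hcard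
  refine card_le_card_of_injOn
    (fun z : ℕ => ((z : ZMod p), (z % p ^ (j + 1) / p, z / p ^ (k - j)))) ?_ ?_
  · intro z hz
    rw [mem_coe, mem_filter, mem_range] at hz
    obtain ⟨hz1, hz2⟩ := hz
    rw [mem_coe, mem_product, mem_product, mem_range, mem_range]
    refine ⟨?_, ?_, ?_⟩
    · rw [hR, Multiset.mem_toFinset, Polynomial.mem_nthRoots (by norm_num)]
      have h1 : (p : ℤ) ∣ (z : ℤ) ^ 3 - a * (w : ℤ) ^ 3 := by
        refine Dvd.dvd.trans ?_ hz2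
        rw [Nat.cast_pow]
        exact dvd_pow_self _ (by omega)
      have h2 := (ZMod.intCast_zmod_eq_zero_iff_dvd _ p).mpr h1
      push_cast at h2
      exact sub_eq_zero.mp h2
    · rw [Nat.div_lt_iff_lt_mul hp0, ← pow_succ]
      exact Nat.mod_lt _ (pow_pos hp0 _)
    · rw [Nat.div_lt_iff_lt_mul (pow_pos hp0 _), ← pow_add, show j + (k - j) = k by omega]
      exact hz1
  · intro z hz z' hz' hzz
    rw [mem_coe, mem_filter, mem_range] at hz hz'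
    obtain ⟨-, hz2⟩ := hz
    obtain ⟨-, hz2'⟩ := hz'
    rw [Nat.cast_pow] at hz2 hz2'
    simp only [Prod.mk.injEq] at hzz
    obtain ⟨e1, e2, e3⟩ := hzz
    have e1' : z % p = z' % p := (ZMod.natCast_eq_natCast_iff' z z' p).mp e1
    have hd : p ∣ p ^ (j + 1) := dvd_pow_self _ (by omega)
    have e4 : z % p ^ (j + 1) = z' % p ^ (j + 1) := by
      have b1 := Nat.div_add_mod (z % p ^ (j + 1)) p
      have b2 := Nat.div_add_mod (z' % p ^ (j + 1)) p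
      rw [Nat.mod_mod_of_dvd _ hd] at b1 b2
      rw [← b1, ← b2, e2, e1']
    have e5 : (p : ℤ) ^ (j + 1) ∣ (z' : ℤ) - z := by
      have := (Nat.modEq_iff_dvd (n := p ^ (j + 1)) (a := z) (b := z')).mp e4
      rwa [Nat.cast_pow] at this
    have e6 : (p : ℤ) ^ k ∣ ((z' : ℤ) - z) * ((z' : ℤ) ^ 2 + z' * z + (z : ℤ) ^ 2) := by
      have e : ((z' : ℤ) - z) * ((z' : ℤ) ^ 2 + z' * z + (z : ℤ) ^ 2) =
          ((z' : ℤ) ^ 3 - a * (w : ℤ) ^ 3) - ((z : ℤ) ^ 3 - a * (w : ℤ) ^ 3) := by ring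
      rw [e]; exact dvd_sub hz2' hz2
    have e7 : ¬ (p : ℤ) ^ (j + 1) ∣ (z' : ℤ) ^ 2 + z' * z + (z : ℤ) ^ 2 := by
      intro hc
      have c1 : (p : ℤ) ^ (j + 1) ∣ (z : ℤ) ^ 3 - a * (w : ℤ) ^ 3 :=
        (pow_dvd_pow _ (by omega)).trans hz2
      have c2 : (p : ℤ) ^ (j + 1) ∣ 3 * a * (w : ℤ) ^ 3 := by
        have e : 3 * (a : ℤ) * (w : ℤ) ^ 3 =
            ((z' : ℤ) ^ 2 + z' * z + (z : ℤ) ^ 2) * z - ((z' : ℤ) - z) * ((z' + 2 * z) * z) -
              ((z : ℤ) ^ 3 - a * (w : ℤ) ^ 3) * 3 := by ring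
        rw [e]
        exact dvd_sub (dvd_sub (hc.mul_right _) (e5.mul_right _)) (c1.mul_right _)
      have c3 : p ^ (j + 1) ∣ 3 * a * w ^ 3 := by exact_mod_cast c2
      exact hj ((Nat.Coprime.pow (j + 1) 3 hw).dvd_of_dvd_mul_right c3)
    have e8 := roots_pow_dvd p k j hp _ _ e6 e7
    have e9 : z % p ^ (k - j) = z' % p ^ (k - j) :=
      (Nat.modEq_iff_dvd (n := p ^ (k - j)) (a := z) (b := z')).mpr (by rwa [Nat.cast_pow])
    have b1 := Nat.div_add_mod z (p ^ (k - j))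
    have b2 := Nat.div_add_mod z' (p ^ (k - j))
    rw [← b1, ← b2, e3, e9]

theorem roots_mul (c : ℤ) (m n : ℕ) (hm : 0 < m) (hn : 0 < n) (h : m.Coprime n) :
    ((range (m * n)).filter fun z : ℕ => ((m * n : ℕ) : ℤ) ∣ (z : ℤ) ^ 3 - c).card ≤
      ((range m).filter fun z : ℕ => (m : ℤ) ∣ (z : ℤ) ^ 3 - c).card *
        ((range n).filter fun z : ℕ => (n : ℤ) ∣ (z : ℤ) ^ 3 - c).card := by
  have key : ∀ (r z : ℕ), (r : ℤ) ∣ (z : ℤ) ^ 3 - c → (r : ℤ) ∣ ((z % r : ℕ) : ℤ) ^ 3 - c := by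
    intro r z hz
    have h1 : (r : ℤ) ∣ (z : ℤ) - ((z % r : ℕ) : ℤ) :=
      (Nat.modEq_iff_dvd (n := r) (a := z % r) (b := z)).mp (Nat.mod_modEq z r)
    have h2 : (r : ℤ) ∣ (z : ℤ) ^ 3 - ((z % r : ℕ) : ℤ) ^ 3 :=
      h1.trans (sub_dvd_pow_sub_pow _ _ 3)
    have e : ((z % r : ℕ) : ℤ) ^ 3 - c =
        ((z : ℤ) ^ 3 - c) - ((z : ℤ) ^ 3 - ((z % r : ℕ) : ℤ) ^ 3) := by ring
    rw [e]; exact dvd_sub hz h2
  rw [← card_product]
  refine card_le_card_of_injOn (fun z : ℕ => (z % m, z % n)) ?_ ?_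
  · intro z hz
    rw [mem_coe, mem_filter, mem_range, Nat.cast_mul] at hz
    rw [mem_coe, mem_product, mem_filter, mem_filter, mem_range, mem_range]
    exact ⟨⟨Nat.mod_lt _ hm, key m z ((dvd_mul_right _ _).trans hz.2)⟩,
      ⟨Nat.mod_lt _ hn, key n z ((dvd_mul_left _ _).trans hz.2)⟩⟩
  · intro z hz z' hz' hzz
    rw [mem_coe, mem_filter, mem_range] at hz hz'
    simp only [Prod.mk.injEq] at hzz
    have h1 : z ≡ z' [MOD m * n] := (Nat.modEq_and_modEq_iff_modEq_mul h).mp ⟨hzz.1, hzz.2⟩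
    exact Nat.ModEq.eq_of_lt_of_lt h1 hz.1 hz'.1

theorem roots_gcd (a w D : ℕ) (hD : 1 ≤ D) (hw : D.Coprime w) :
    ((range D).filter fun z : ℕ => (D : ℤ) ∣ (z : ℤ) ^ 3 - a * (w : ℤ) ^ 3).card ≤
      (Nat.gcd (3 * a) D) ^ 2 * D.divisors.card ^ 2 := by
  induction D using Nat.recOnPosPrimePosCoprime with
  | prime_pow p k hp hk =>
    obtain ⟨j, hjk, hj⟩ := (Nat.dvd_prime_pow hp).mp (Nat.gcd_dvd_right (3 * a) (p ^ k))
    have ht : (p ^ k).divisors.card = k + 1 := by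
      rw [Nat.divisors_prime_pow hp, card_map, card_range]
    rw [hj, ht]
    have h4 : 4 ≤ (k + 1) ^ 2 := by nlinarith
    rcases hjk.eq_or_lt with rfl | hlt
    · refine (card_filter_le _ _).trans ?_
      rw [card_range]
      have h1 : 1 ≤ p ^ j := pow_pos hp.pos _
      nlinarith
    · have hpw : p.Coprime w := Nat.Coprime.coprime_dvd_left (dvd_pow_self p (by omega)) hw
      have hnd : ¬ p ^ (j + 1) ∣ 3 * a := by
        intro hc
        have h1 : p ^ (j + 1) ∣ Nat.gcd (3 * a) (p ^ k) :=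
          Nat.dvd_gcd hc (pow_dvd_pow _ (by omega))
        rw [hj] at h1
        have := (Nat.pow_dvd_pow_iff_le_right hp.one_lt).mp h1
        omega
      refine (roots_pp a w p k j hp hlt hpw hnd).trans ?_
      nlinarith [Nat.zero_le (p ^ j * p ^ j)]
  | zero => omega
  | one =>
    refine (card_filter_le _ _).trans ?_
    simp
  | coprime m n hm hn hmn ihm ihn =>
    have h1 := ihm (by omega) (Nat.Coprime.coprime_mul_right hw)
    have h2 := ihn (by omega) (Nat.Coprime.coprime_mul_left hw)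
    refine (roots_mul _ m n (by omega) (by omega) hmn).trans ?_
    rw [hmn.gcd_mul, hmn.card_divisors_mul]
    refine (Nat.mul_le_mul h1 h2).trans (le_of_eq ?_)
    ring

theorem roots_cube (a w D : ℕ) (ha : 1 ≤ a) (hD : 1 ≤ D) (hw : D.Coprime w) :
    ((range D).filter fun z : ℕ => (D : ℤ) ∣ (z : ℤ) ^ 3 - a * (w : ℤ) ^ 3).card ≤
      9 * a ^ 2 * D.divisors.card ^ 2 := by
  refine (roots_gcd a w D hD hw).trans (Nat.mul_le_mul_right _ ?_)
  have h1 : Nat.gcd (3 * a) D ≤ 3 * a := Nat.gcd_le_left _ (by omega)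
  calc Nat.gcd (3 * a) D ^ 2 ≤ (3 * a) ^ 2 := Nat.pow_le_pow_left h1 2
    _ = 9 * a ^ 2 := by ring

end Pool.Agent.Lib.MP_9c5702_nt.AC
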