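import Pool.Agent.Lib.MP_9c5702_nt.AC.MainT
import Pool.Agent.Lib.MP_9c5702_nt.Cube.Primes
import Pool.Agent.Lib.MP_9c5702_nt.Q4.Tau

/-! Small cofactors that are not cubes. -/

set_option autoImplicit false

namespace Pool.Agent.Lib.MP_9c5702_nt.AC

open Finset Pool.Agent.Lib.MP_9c5702_nt.Cube Pool.Agent.Lib.MP_9c5702_nt Filter

theorem db_supply : ∀ᶠ T : ℕ in atTop, DB T (T ^ 36000000) := by
  obtain ⟨C, hC1, hC⟩ := Q4.divisor_bound (ε := 1 / 72000000) (by norm_num)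
  filter_upwards [(Real.tendsto_sqrt_atTop.comp tendsto_natCast_atTop_atTop).eventually_ge_atTop C]
    with T hT m hm1 hm2
  have hT0 : (0 : ℝ) ≤ T := Nat.cast_nonneg T
  have hT' : C ≤ √(T : ℝ) := hT
  have h1 : (m : ℝ) ≤ (T : ℝ) ^ 36000000 := by exact_mod_cast hm2
  have h2 : (m : ℝ) ^ ((1 : ℝ) / 72000000) ≤ √(T : ℝ) := by
    refine (Real.rpow_le_rpow (Nat.cast_nonneg m) h1 (by norm_num)).trans (le_of_eq ?_)
    rw [← Real.rpow_natCast, ← Real.rpow_mul hT0, Real.sqrt_eq_rpow]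
    congr 1
    norm_num
  have h3 := (hC m (by omega)).trans (mul_le_mul hT' h2 (by positivity) (Real.sqrt_nonneg _))
  rw [Real.mul_self_sqrt hT0] at h3
  exact_mod_cast h3

lemma small_r33_le (n : ℕ) : r33 n ≤ n ^ 3 := by
  refine (card_filter_le _ _).trans (le_of_eq ?_)
  simp only [card_product, Nat.card_Icc, Nat.add_sub_cancel]
  ring

lemma small_succ (N T : ℕ) (hT : N ≤ T) (h3 : 3 ≤ T) : (T + 1) ^ N ≤ T ^ (N + 1) := by
  have hT0 : (0 : ℝ) < T := by exact_mod_cast (by omega : 0 < T)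
  have hN' : (N : ℝ) ≤ T := by exact_mod_cast hT
  have h3' : (3 : ℝ) ≤ T := by exact_mod_cast h3
  have h1 : ((T : ℝ) + 1) ≤ T * Real.exp (1 / T) := by
    have := Real.add_one_le_exp (1 / (T : ℝ))
    calc (T : ℝ) + 1 = T * (1 / T + 1) := by field_simp; ring
      _ ≤ _ := by gcongr
  have h2 : Real.exp (1 / T) ^ N ≤ 3 := by
    rw [← Real.exp_nat_mul]
    refine (Real.exp_le_exp.2 (show (N : ℝ) * (1 / T) ≤ 1 by
      rw [mul_one_div, div_le_one hT0]; exact hN')).trans ?_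
    exact Real.exp_one_lt_d9.le.trans (by norm_num)
  have h4 : ((T : ℝ) + 1) ^ N ≤ (T : ℝ) ^ (N + 1) := by
    calc ((T : ℝ) + 1) ^ N ≤ (T * Real.exp (1 / T)) ^ N := pow_le_pow_left₀ (by positivity) h1 N
      _ = (T : ℝ) ^ N * Real.exp (1 / T) ^ N := mul_pow _ _ _
      _ ≤ (T : ℝ) ^ N * T := by gcongr; linarith
      _ = _ := (pow_succ _ _).symm
  exact_mod_cast h4

lemma small_exp (n w T E : ℕ) (hT : 1 ≤ T) (hn : 1 ≤ n) (h1 : w ^ 3 ≤ n) (h2 : n ≤ T ^ E)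
    (hE : E ≤ 10 ^ 8) : (w : ℝ) / T ≤ (n : ℝ) ^ ((1 : ℝ) / 3 - 1 / 10 ^ 8) := by
  have hT1 : (1 : ℝ) ≤ T := by exact_mod_cast hT
  have hn0 : (0 : ℝ) < n := by exact_mod_cast hn
  have a1 : (w : ℝ) ≤ (n : ℝ) ^ ((1 : ℝ) / 3) := by
    have h3 : ((w : ℝ) ^ 3) ^ ((1 : ℝ) / 3) ≤ (n : ℝ) ^ ((1 : ℝ) / 3) :=
      Real.rpow_le_rpow (by positivity) (by exact_mod_cast h1) (by norm_num)
    rwa [← Real.rpow_natCast, ← Real.rpow_mul (Nat.cast_nonneg w), show ((3 : ℕ) : ℝ) * (1 / 3) = 1 by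
      norm_num, Real.rpow_one] at h3
  have a2 : (n : ℝ) ^ ((1 : ℝ) / 10 ^ 8) ≤ T := by
    have h3 : (n : ℝ) ≤ (T : ℝ) ^ E := by exact_mod_cast h2
    refine (Real.rpow_le_rpow hn0.le h3 (by positivity)).trans ?_
    rw [← Real.rpow_natCast, ← Real.rpow_mul (by linarith)]
    refine (Real.rpow_le_rpow_of_exponent_le hT1 ?_).trans_eq (Real.rpow_one _)
    rw [mul_one_div, div_le_one (by positivity)]
    exact_mod_cast hE
  rw [Real.rpow_sub hn0]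
  exact div_le_div₀ (by positivity) a1 (by positivity) a2

theorem small_case : ∃ C : ℝ, 0 ≤ C ∧ ∀ a w : ℕ, NC a → a ^ 4320000 ≤ w →
    (r33 (a * w ^ 3) : ℝ) ≤ C * ((a * w ^ 3 : ℕ) : ℝ) ^ ((1 : ℝ) / 3 - 1 / 10 ^ 8) := by
  obtain ⟨T0, hT0⟩ := eventually_atTop.1 ((eventually_ge_atTop (10 ^ 30)).and
    ((primes_supply 788300).and ((primes_supply 4078).and db_supply)))
  obtain ⟨N, hN⟩ : ∃ N : ℕ, N = 4320000 := ⟨_, rfl⟩
  obtain ⟨K, hK⟩ : ∃ K : ℕ, K = (T0 * ((T0 + 1) ^ N) ^ 3) ^ 3 := ⟨_, rfl⟩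
  refine ⟨13 + K, by positivity, fun a w ha haw => ?_⟩
  rw [← hN] at haw
  have hN0 : N ≠ 0 := by omega
  have ha1 := ha.pos
  have hw1 : 1 ≤ w := (Nat.one_le_pow _ _ ha1).trans haw
  have hn1 : 1 ≤ a * w ^ 3 := Nat.mul_pos ha1 (Nat.pow_pos hw1)
  have h1 : Nat.nthRoot N w ^ N ≤ w := Nat.pow_nthRoot_le (Or.inl hN0)
  have h2 : w < (Nat.nthRoot N w + 1) ^ N := Nat.lt_pow_nthRoot_add_one hN0 w
  generalize Nat.nthRoot N w = T at h1 h2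
  have haT : a ≤ T :=
    Nat.lt_succ_iff.1 (lt_of_pow_lt_pow_left₀ N (Nat.zero_le _) (haw.trans_lt h2))
  have hp1 : (1 : ℝ) ≤ ((a * w ^ 3 : ℕ) : ℝ) ^ ((1 : ℝ) / 3 - 1 / 10 ^ 8) :=
    Real.one_le_rpow (by exact_mod_cast hn1) (by norm_num)
  have hK0 : (0 : ℝ) ≤ K := Nat.cast_nonneg K
  rcases le_total T0 T with h | h
  · obtain ⟨b1, ⟨Ps, b2, b3⟩, ⟨Ls, b4, b5⟩, b6⟩ := hT0 T h
    have hw2 : w ≤ T ^ (N + 1) := h2.le.trans (small_succ N T (by omega) (by omega))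
    have hn2 : a * w ^ 3 ≤ T ^ (1 + (N + 1) * 3) := by
      rw [pow_add, pow_one, pow_mul]
      exact Nat.mul_le_mul haT (Nat.pow_le_pow_left hw2 3)
    have h3 := small_exp (a * w ^ 3) w T _ (by omega) hn1 (Nat.le_mul_of_pos_left _ ha1) hn2
      (by omega)
    have h4 := main_T a w T b1 b6 ha haT (hN ▸ h1) (hN ▸ hw2 :) Ps Ls b2 b3 b4 b5
    rw [mul_div_assoc] at h4
    generalize ((a * w ^ 3 : ℕ) : ℝ) ^ ((1 : ℝ) / 3 - 1 / 10 ^ 8) = y at h3 hp1 ⊢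
    generalize (r33 (a * w ^ 3) : ℝ) = r at h4 ⊢
    have h5 : 0 ≤ (K : ℝ) * y := mul_nonneg hK0 (by linarith)
    linarith
  · have h3 : r33 (a * w ^ 3) ≤ K := by
      rw [hK]
      refine (small_r33_le _).trans (Nat.pow_le_pow_left (Nat.mul_le_mul (haT.trans h) ?_) 3)
      exact Nat.pow_le_pow_left (h2.le.trans (Nat.pow_le_pow_left (by omega) N)) 3
    have h4 : (r33 (a * w ^ 3) : ℝ) ≤ K := by exact_mod_cast h3
    nlinarith

end Pool.Agent.Lib.MP_9c5702_nt.AC
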