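import Mathlib

/-! The auxiliary polynomial for trace equations: definition, non-vanishing, order of vanishing. -/

set_option autoImplicit false

namespace Pool.Agent.Lib.MP_9c5702_nt.AC

open Polynomial Finset

variable {F : Type} [Field F]

noncomputable def asPhi (p k J : ℕ) (V R : F[X]) (x0 : F) (e : Fin p × Fin (J + 1) → F[X]) : F[X] :=
  ∑ i, e i * (V ^ (i.1 : ℕ) * R ^ (p - 1 - i.1) * (X - C x0) ^ (p ^ k * i.2)) ^ p ^ k

noncomputable def asTheta (p J : ℕ) (V R : F[X]) (x0 c : F) (e : Fin p × Fin (J + 1) → F[X])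
    (l : ℕ) : F[X] :=
  ∑ i, hasseDeriv l (e i) *
    ((C c * R - V) ^ (i.1 : ℕ) * R ^ (p - 1 - i.1) * (X - C x0) ^ (i.2 : ℕ))

theorem stepa_dvd (H : F[X]) (x : F) (M : ℕ) (h : ∀ l < M, (hasseDeriv l H).eval x = 0) :
    (X - C x) ^ M ∣ H := by
  obtain ⟨K, hK⟩ : X ^ M ∣ taylor x H := X_pow_dvd_iff.2 fun l hl => by
    rw [taylor_coeff, h l hl]
  have h1 : H = taylor (-x) (taylor x H) := by rw [taylor_taylor, neg_add_cancel, taylor_zero]
  refine ⟨taylor (-x) K, ?_⟩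
  rw [h1, hK, taylor_apply, taylor_apply, mul_comp, pow_comp, X_comp, C_neg, ← sub_eq_add_neg]

theorem as_nonzero (p k J : ℕ) (hp : p.Prime) (hk : 1 ≤ k) (V R1 : F[X]) (x0 : F)
    (hV : V.eval x0 ≠ 0) (hR : R1.eval x0 ≠ 0) (e : Fin p × Fin (J + 1) → F[X])
    (he : ∀ i, (e i).degree < (p ^ (2 * k - 1) : ℕ)) (h0 : e ≠ 0) :
    asPhi p k J V ((X - C x0) ^ p ^ (k - 1) * R1) x0 e ≠ 0 := by
  classical
  obtain ⟨k, rfl⟩ : ∃ k', k = k' + 1 := ⟨k - 1, by omega⟩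
  have e1 : 2 * (k + 1) - 1 = 2 * k + 1 := by omega
  rw [e1] at he
  simp only [Nat.add_sub_cancel]
  set Q := p ^ (2 * k + 1) with hQ
  let s : Fin p × Fin (J + 1) → ℕ := fun i => (p - 1 - i.1) + p * i.2
  let U : Fin p × Fin (J + 1) → F[X] := fun i =>
    (V ^ (i.1 : ℕ) * R1 ^ (p - 1 - i.1)) ^ p ^ (k + 1)
  have hterm : ∀ i : Fin p × Fin (J + 1),
      e i * (V ^ (i.1 : ℕ) * ((X - C x0) ^ p ^ k * R1) ^ (p - 1 - i.1) *
        (X - C x0) ^ (p ^ (k + 1) * i.2)) ^ p ^ (k + 1) =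
      (X - C x0) ^ (Q * s i) * (e i * U i) := by
    intro i
    have e2 : Q * s i = p ^ k * (p - 1 - i.1) * p ^ (k + 1) + p ^ (k + 1) * i.2 * p ^ (k + 1) := by
      simp only [hQ, s]
      generalize p - 1 - (i.1 : ℕ) = a
      ring
    rw [e2]
    simp only [U, mul_pow, ← pow_mul, pow_add]
    ring
  have hinj : Function.Injective s := by
    rintro ⟨a, j⟩ ⟨a', j'⟩ h
    simp only [s] at h
    have ha := a.2
    have ha' := a'.2
    have h1 : (p - 1 - a + p * j) % p = (p - 1 - a' + p * j') % p := by rw [h]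
    rw [Nat.add_mul_mod_self_left, Nat.add_mul_mod_self_left, Nat.mod_eq_of_lt (by omega),
      Nat.mod_eq_of_lt (by omega)] at h1
    have h2 : p * j = p * j' := by omega
    exact Prod.ext (Fin.ext (by simp only; omega))
      (Fin.ext (Nat.eq_of_mul_eq_mul_left hp.pos h2))
  have hne : (univ.filter fun i => e i ≠ 0).Nonempty := by
    obtain ⟨i, hi⟩ := Function.ne_iff.1 h0
    exact ⟨i, mem_filter.2 ⟨mem_univ _, hi⟩⟩
  obtain ⟨i0, hi0, hmin⟩ := exists_min_image _ s hne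
  have hi0' : e i0 ≠ 0 := (mem_filter.1 hi0).2
  intro hz
  unfold asPhi at hz
  simp only [hterm] at hz
  rw [← add_sum_erase _ _ (mem_univ i0)] at hz
  have hd : (X - C x0) ^ (Q * s i0 + Q) ∣
      ∑ i ∈ univ.erase i0, (X - C x0) ^ (Q * s i) * (e i * U i) := by
    refine dvd_sum fun i hi => ?_
    by_cases h : e i = 0
    · simp [h]
    have h1 := hmin i (mem_filter.2 ⟨mem_univ _, h⟩)
    have h2 : s i0 ≠ s i := fun h' => (mem_erase.1 hi).1 (hinj h').symm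
    refine (pow_dvd_pow _ ?_).mul_right _
    rw [← Nat.mul_succ]
    exact Nat.mul_le_mul_left _ (by omega)
  rw [← neg_eq_of_add_eq_zero_right hz, dvd_neg, pow_add,
    mul_dvd_mul_iff_left (pow_ne_zero _ (X_sub_C_ne_zero x0))] at hd
  have hU : IsCoprime ((X - C x0) ^ Q) (U i0) := by
    refine IsCoprime.pow_left ((irreducible_X_sub_C x0).coprime_iff_not_dvd.2 ?_)
    rw [dvd_iff_isRoot, IsRoot.def]
    simp only [U, eval_pow, eval_mul]
    exact pow_ne_zero _ (mul_ne_zero (pow_ne_zero _ hV) (pow_ne_zero _ hR))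
  have h3 := degree_le_of_dvd (hU.dvd_of_dvd_mul_right hd) hi0'
  rw [degree_pow, degree_X_sub_C] at h3
  have h4 := h3.trans_lt (he i0)
  simp at h4

theorem as_vanish [Fintype F] (p k J : ℕ) [Fact p.Prime] [CharP F p]
    (hq : Fintype.card F = p ^ (2 * k)) (V R : F[X]) (x0 c : F)
    (e : Fin p × Fin (J + 1) → F[X]) (hθ : ∀ l < p ^ k, asTheta p J V R x0 c e l = 0) (x : F)
    (hx : R.eval x ≠ 0) (hc : V.eval x / R.eval x + (V.eval x / R.eval x) ^ p ^ k = c) :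
    (X - C x) ^ p ^ k ∣ asPhi p k J V R x0 e := by
  classical
  have hp : p.Prime := Fact.out
  set q := p ^ k with hq'
  let G : Fin p × Fin (J + 1) → F[X] := fun i =>
    V ^ (i.1 : ℕ) * R ^ (p - 1 - i.1) * (X - C x0) ^ (q * i.2)
  let θ : Fin p × Fin (J + 1) → F := fun i =>
    ((C c * R - V) ^ (i.1 : ℕ) * R ^ (p - 1 - i.1) * (X - C x0) ^ (i.2 : ℕ)).eval x
  obtain ⟨q', hq1⟩ : ∃ q', q = q' + 1 := ⟨q - 1, by have := pow_pos hp.pos k; omega⟩
  have hH : (X - C x) ^ q ∣ ∑ i, e i * C (θ i) := by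
    refine stepa_dvd _ _ _ fun l hl => ?_
    have h1 := congrArg (eval x) (hθ l hl)
    rw [asTheta, eval_finsetSum, eval_zero] at h1
    rw [map_sum, eval_finsetSum, ← h1]
    refine sum_congr rfl fun i _ => ?_
    rw [mul_comm (e i), C_mul', map_smul, eval_smul, eval_mul, smul_eq_mul, mul_comm]
  have hG : ∀ i, (G i).eval x ^ q = R.eval x ^ (q' * (p - 1)) * θ i := by
    intro i
    obtain ⟨v, hv⟩ : ∃ v, V.eval x = v * R.eval x := ⟨_, (div_mul_cancel₀ _ hx).symm⟩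
    rw [hv, mul_div_cancel_right₀ _ hx] at hc
    have h1 : v ^ q = c - v := by rw [← hc]; ring
    have h2 : ((x - x0) ^ q) ^ q = x - x0 := by
      rw [← pow_mul, hq', ← pow_add, ← two_mul, ← hq]
      exact FiniteField.pow_card _
    obtain ⟨b, hb⟩ : ∃ b, p - 1 = i.1 + b := ⟨p - 1 - i.1, by have := i.1.2; omega⟩
    simp only [G, θ, eval_mul, eval_pow, eval_sub, eval_X, eval_C, hv, hb, Nat.add_sub_cancel_left]
    have h3 : ((v * R.eval x) ^ (i.1 : ℕ) * R.eval x ^ b * (x - x0) ^ (q * i.2)) ^ q =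
        (v ^ q) ^ (i.1 : ℕ) * R.eval x ^ (q * (i.1 + b)) * (((x - x0) ^ q) ^ q) ^ (i.2 : ℕ) := by
      ring
    rw [h3, h1, h2, ← sub_mul, mul_pow, hq1]
    ring
  have hs : asPhi p k J V R x0 e = ∑ i, e i * (G i - C ((G i).eval x)) ^ q +
      C (R.eval x ^ (q' * (p - 1))) * ∑ i, e i * C (θ i) := by
    rw [asPhi, mul_sum, ← sum_add_distrib]
    refine sum_congr rfl fun i _ => ?_
    rw [hq', sub_pow_char_pow, ← C_pow, ← hq', hG, C_mul]
    ring
  rw [hs]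
  exact dvd_add (dvd_sum fun i _ => (pow_dvd_pow_of_dvd (X_sub_C_dvd_sub_C_eval) _).mul_left _)
    (hH.mul_left _)

end Pool.Agent.Lib.MP_9c5702_nt.AC
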