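import Pool.Agent.Lib.MP_9c5702_nt.AC.StepA

/-! Existence of the auxiliary polynomial by a dimension count. -/

set_option autoImplicit false

namespace Pool.Agent.Lib.MP_9c5702_nt.AC

open Polynomial Finset

variable {F : Type} [Field F]

theorem as_exists (p k : ℕ) (hp : p.Prime) (hk : 1 ≤ k) (h7 : 7 ≤ p ^ k) (V R : F[X])
    (hV : V.natDegree ≤ 5 * p ^ (k - 1)) (hR : R.natDegree ≤ 5 * p ^ (k - 1)) (x0 c : F) :
    ∃ e : Fin p × Fin (p ^ (k - 1) + 6 + 1) → F[X], e ≠ 0 ∧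
      (∀ i, (e i).degree < (p ^ (2 * k - 1) : ℕ)) ∧
      ∀ l < p ^ k, asTheta p (p ^ (k - 1) + 6) V R x0 c e l = 0 := by
  classical
  obtain ⟨k, rfl⟩ := Nat.exists_eq_add_of_le' hk
  rw [show 2 * (k + 1) - 1 = k + (k + 1) by omega, pow_add]
  rw [Nat.add_sub_cancel] at hV hR ⊢
  have hQ : p ^ (k + 1) = p ^ k * p := pow_succ p k
  have hP : 0 < p ^ k := pow_pos hp.pos k
  generalize p ^ (k + 1) = Q at *
  generalize p ^ k = P at *
  have hPQ : P ≤ Q := hQ ▸ Nat.le_mul_of_pos_right P hp.pos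
  have hD : 1 ≤ P * Q := Nat.mul_pos hP (by omega)
  let G : Fin p × Fin (P + 6 + 1) → F[X] := fun i =>
    (C c * R - V) ^ (i.1 : ℕ) * R ^ (p - 1 - i.1) * (X - C x0) ^ (i.2 : ℕ)
  have hG : ∀ i, (G i).natDegree ≤ 5 * Q + (P + 6) := fun i => by
    have h1 : (C c * R - V).natDegree ≤ 5 * P :=
      (natDegree_sub_le _ _).trans (max_le ((natDegree_C_mul_le _ _).trans hR) hV)
    have h2 := natDegree_pow_le_of_le (i.1 : ℕ) h1
    have h3 := natDegree_pow_le_of_le (p - 1 - i.1) hR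
    have h4 := natDegree_pow_le_of_le (i.2 : ℕ) (natDegree_X_sub_C_le x0)
    have h5 : (i.1 : ℕ) * (5 * P) + (p - 1 - i.1) * (5 * P) ≤ 5 * Q := by
      have := i.1.2
      rw [← add_mul, hQ, mul_comm, ← mul_assoc]
      exact Nat.mul_le_mul_left _ (by omega)
    have h6 := i.2.2
    refine natDegree_mul_le.trans ((add_le_add natDegree_mul_le le_rfl).trans ?_)
    omega
  let σ : ℕ → (Fin p × Fin (P + 6 + 1) → Fin (P * Q) → F) →ₗ[F] F[X] := fun l =>
    ∑ i, LinearMap.mulRight F (G i) ∘ₗ hasseDeriv l ∘ₗ ofFn (P * Q) ∘ₗ LinearMap.proj i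
  let Φ : (Fin p × Fin (P + 6 + 1) → Fin (P * Q) → F) →ₗ[F]
      (Fin Q → Fin (P * Q + (5 * Q + (P + 6))) → F) :=
    LinearMap.pi fun l => LinearMap.pi fun i => lcoeff F i ∘ₗ σ l
  obtain ⟨v, hv, hv0⟩ := (Submodule.ne_bot_iff _).1 (Φ.ker_ne_bot_of_finrank_lt (by
    simp only [Module.finrank_pi_fintype, Module.finrank_self, sum_const, card_univ,
      Fintype.card_fin, Fintype.card_prod, smul_eq_mul, mul_one]
    rw [show p * (P + 6 + 1) * (P * Q) = Q * ((P + 6 + 1) * (P * p)) by ring, ← hQ]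
    exact Nat.mul_lt_mul_of_pos_left (by nlinarith) (by omega)))
  refine ⟨fun i => ofFn (P * Q) (v i), fun h => hv0 (funext fun i => ?_),
    fun i => ofFn_degree_lt _, fun l hl => ?_⟩
  · exact injective_ofFn _ ((congrFun h i).trans (map_zero _).symm)
  have hσ : σ l v = ∑ i, hasseDeriv l (ofFn (P * Q) (v i)) * G i := by
    simp [σ, LinearMap.sum_apply]
  refine hσ.symm.trans ?_
  ext n
  by_cases hn : n < P * Q + (5 * Q + (P + 6))
  · exact congrFun (congrFun (LinearMap.mem_ker.1 hv) ⟨l, hl⟩) ⟨n, hn⟩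
  · rw [hσ, finsetSum_coeff, coeff_zero]
    refine Finset.sum_eq_zero fun i _ => coeff_eq_zero_of_natDegree_lt ?_
    have h1 := natDegree_hasseDeriv_le (ofFn (P * Q) (v i)) l
    have h2 := ofFn_natDegree_lt hD (v i)
    have h3 := natDegree_mul_le (p := hasseDeriv l (ofFn (P * Q) (v i))) (q := G i)
    have h4 := hG i
    omega

end Pool.Agent.Lib.MP_9c5702_nt.AC
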