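import Pool.Agent.Lib.MP_9c5702_nt.AC.Sieve
import Pool.Agent.Lib.MP_9c5702_nt.AC.Param

/-! The second moment over the directions. -/

set_option autoImplicit false

namespace Pool.Agent.Lib.MP_9c5702_nt.AC

open Finset Pool.Agent.Lib.MP_9c5702_nt.Cube

lemma tk_abs {ι : Type} [DecidableEq ι] (B Ln Bad : Finset ι) (I : Finset ℕ) (w : ι → ℝ)
    (f : ℕ → ι → ℝ) (μ c D M E : ℝ) (hLn : Ln ⊆ B) (hBad : Bad ⊆ B \ Ln)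
    (hw : ∀ α, 0 ≤ w α ∧ w α ≤ 1) (hc : ∀ α ∈ Bad, c ≤ w α)
    (hf : ∀ α ∈ Bad, ∀ l ∈ I, f l α = -μ) (hD : ∀ α ∈ B \ Ln, ∀ l ∈ I, f l α * f l α ≤ D)
    (hD0 : 0 ≤ D) (hM : ∀ α ∈ Ln, ∀ l ∈ I, ∀ l' ∈ I, -M ≤ f l α * f l' α) (hM0 : 0 ≤ M)
    (hE0 : 0 ≤ E) (hE : ∀ l ∈ I, ∀ l' ∈ I, l ≠ l' → ∑ α ∈ B, w α * (f l α * f l' α) ≤ E) :
    (Bad.card : ℝ) * (c * ((I.card : ℝ) * μ) ^ 2) ≤
      I.card * (B.card * D + I.card * (E + Ln.card * M)) := by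
  have h2 : (Bad.card : ℝ) * (c * ((I.card : ℝ) * μ) ^ 2) ≤
      ∑ α ∈ B \ Ln, w α * (∑ l ∈ I, f l α) ^ 2 := by
    refine le_trans ?_ (sum_le_sum_of_subset_of_nonneg hBad fun α _ _ =>
      mul_nonneg (hw α).1 (sq_nonneg _))
    rw [← nsmul_eq_mul]
    refine card_nsmul_le_sum _ _ _ fun α hα => ?_
    rw [sum_congr rfl (hf α hα), sum_const, nsmul_eq_mul, mul_neg, neg_sq]
    exact mul_le_mul_of_nonneg_right (hc α hα) (sq_nonneg _)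
  have hLM : 0 ≤ (Ln.card : ℝ) * M := mul_nonneg (Nat.cast_nonneg _) hM0
  have h3 : ∀ l ∈ I, ∀ l' ∈ I, ∑ α ∈ B \ Ln, w α * (f l α * f l' α) ≤
      (if l = l' then (B.card : ℝ) * D else 0) + (E + Ln.card * M) := by
    intro l hl l' hl'
    split_ifs with h4
    · subst h4
      have h5 : ∑ α ∈ B \ Ln, w α * (f l α * f l α) ≤ ((B \ Ln).card : ℝ) * D := by
        rw [← nsmul_eq_mul]
        refine sum_le_card_nsmul _ _ _ fun α hα => ?_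
        exact (mul_le_of_le_one_left (mul_self_nonneg _) (hw α).2).trans (hD α hα l hl)
      have h6 : ((B \ Ln).card : ℝ) ≤ B.card := by exact_mod_cast card_le_card sdiff_subset
      have h7 := mul_le_mul_of_nonneg_right h6 hD0
      linarith
    · have h5 := hE l hl l' hl' h4
      rw [← sum_sdiff hLn] at h5
      have h6 : (Ln.card : ℝ) * -M ≤ ∑ α ∈ Ln, w α * (f l α * f l' α) := by
        rw [← nsmul_eq_mul]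
        refine card_nsmul_le_sum _ _ _ fun α hα => ?_
        have h7 := mul_le_mul_of_nonneg_left (hM α hα l hl l' hl') (hw α).1
        have h8 := mul_le_of_le_one_left hM0 (hw α).2
        linarith
      linarith
  refine h2.trans ?_
  simp only [sq, sum_mul_sum]
  simp only [mul_sum]
  rw [sum_comm, ← nsmul_eq_mul]
  refine sum_le_card_nsmul _ _ _ fun l hl => ?_
  rw [sum_comm]
  refine (sum_le_sum (h3 l hl)).trans (le_of_eq ?_)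
  rw [sum_add_distrib, sum_ite_eq, if_pos hl, sum_const, nsmul_eq_mul]

/-- the points that some direction sends to the origin -/
noncomputable def tk_Ln (Y n : ℕ) : Finset (ℤ × ℤ × ℤ) :=
  (box3 n).filter fun α => ∃ l ∈ (Icc 1 Y : Finset ℕ),
    (l : ℤ) * α.2.1 + α.1 = 0 ∧ (l : ℤ) * α.2.2 + α.2.1 = 0

lemma tk_card (Y n : ℕ) : (tk_Ln Y n).card ≤ Y * (2 * n + 1) := by
  have h : tk_Ln Y n ⊆ (Icc 1 Y ×ˢ Iv n).image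
      fun x : ℕ × ℤ => ((x.1 : ℤ) * (x.1 * x.2), -((x.1 : ℤ) * x.2), x.2) := by
    rintro ⟨x, y, z⟩ hα
    obtain ⟨h1, l, hl, h2, h3⟩ := mem_filter.1 hα
    refine mem_image.2 ⟨(l, z), mem_product.2 ⟨hl, mem_Iv.2 (mem_box3.1 h1).2.2⟩, ?_⟩
    simp only at h2 h3
    refine Prod.ext ?_ (Prod.ext ?_ rfl)
    · show (l : ℤ) * (l * z) = x
      linear_combination l * h3 - h2
    · show -((l : ℤ) * z) = y
      linear_combination -h3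
  refine (card_le_card h).trans (card_image_le.trans (le_of_eq ?_))
  rw [card_product, card_Iv, Nat.card_Icc, Nat.add_sub_cancel]

lemma tk_dvd {Q a ρ u v : ℤ} (h1 : Q ∣ ρ ^ 3 - a) (h2 : Q ∣ u - ρ * v) : Q ∣ qf a u v := by
  rw [show qf a u v = (u - ρ * v) * (u ^ 2 + u * (ρ * v) + (ρ * v) ^ 2) + (ρ ^ 3 - a) * v ^ 3 by
    rw [qf]; ring]
  exact dvd_add (h2.mul_right _) (h1.mul_right _)

lemma tk_size {Y n l : ℕ} (hl : l ∈ Icc 1 Y) {x y : ℤ} (hx : |x| ≤ n) (hy : |y| ≤ n) :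
    |(l : ℤ) * x + y| ≤ (2 * Y * n : ℕ) := by
  obtain ⟨h1, h2⟩ := mem_Icc.1 hl
  have h3 : (l : ℤ) ≤ Y := by exact_mod_cast h2
  have h4 : (1 : ℤ) ≤ Y := by exact_mod_cast h1.trans h2
  have h5 : |(l : ℤ) * x| ≤ Y * n := by
    rw [abs_mul, Nat.abs_cast]
    exact mul_le_mul h3 hx (abs_nonneg _) (Nat.cast_nonneg _)
  have h6 : (n : ℤ) ≤ Y * n := le_mul_of_one_le_left (Nat.cast_nonneg _) h4
  have h7 := abs_add_le ((l : ℤ) * x) y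
  push_cast
  linarith

lemma tk_Xl (Ps : Finset ℕ) {Pm : ℕ} (hPs : ∀ p ∈ Ps, 1 ≤ p ∧ p ≤ Pm) (ρ : ℕ × ℕ → ℤ) (l : ℕ)
    (α : ℤ × ℤ × ℤ) : Xl Ps ρ l α ≤ Pm ^ 2 := by
  have h : Ps.card ≤ Pm := by
    refine (card_le_card (t := Icc 1 Pm) fun p hp => mem_Icc.2 (hPs p hp)).trans (le_of_eq ?_)
    rw [Nat.card_Icc, Nat.add_sub_cancel]
  refine (card_filter_le _ _).trans ?_
  rw [offDiag_card, sq]
  exact (Nat.sub_le _ _).trans (Nat.mul_le_mul h h)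

theorem tk (a T X A0 Y Pm n : ℕ) (hDB : DB T X) (ha : NC a) (hY : 1 ≤ Y) (hT : 1 ≤ T)
    (Ps : Finset ℕ) (hPs : ∀ p ∈ Ps, 1 ≤ p ∧ p ≤ Pm) (ρ : ℕ × ℕ → ℤ)
    (hρ : ∀ π ∈ Ps.offDiag, ((π.1 * π.2 : ℕ) : ℤ) ∣ ρ π ^ 3 - a) (W : ℤ → ℝ)
    (hW : ∀ x, 0 ≤ W x ∧ W x ≤ 1) (hlo : ∀ x : ℤ, |x| ≤ A0 → 1 / 2 ^ 23 ≤ W x) (hn : A0 ≤ n)
    (hX : 2 * a * (2 * Y * n) ^ 3 ≤ X) (hμ1 : 1 / (T : ℝ) ^ 2 ≤ mu Ps) (hμ2 : mu Ps ≤ (T : ℝ) ^ 2)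
    (E : ℝ) (hE0 : 0 ≤ E) (hE : ∀ l ∈ Icc 1 Y, ∀ l' ∈ Icc 1 Y, l ≠ l' →
      ∑ α ∈ box3 n, W3 W α * (((Xl Ps ρ l α : ℝ) - mu Ps) * ((Xl Ps ρ l' α : ℝ) - mu Ps)) ≤ E) :
    ((Bad1 Ps a Y A0).card : ℝ) ≤ 2 ^ 69 * (T : ℝ) ^ 4 *
      (4 * (T : ℝ) ^ 4 * (2 * n + 1) ^ 3 / Y + E +
        2 * (T : ℝ) ^ 2 * (Pm : ℝ) ^ 2 * Y * (2 * n + 1)) := by
  have hT1 : (1 : ℝ) ≤ T := by exact_mod_cast hT
  have hY1 : (1 : ℝ) ≤ Y := by exact_mod_cast hY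
  have hT2 : (0 : ℝ) < (T : ℝ) ^ 2 := by positivity
  have hμ0 : 0 < mu Ps := lt_of_lt_of_le (by positivity) hμ1
  have hne : Ps.offDiag.Nonempty := by
    rw [nonempty_iff_ne_empty]
    intro h
    rw [mu, h, sum_empty] at hμ0
    exact lt_irrefl _ hμ0
  have hbad : ∀ α ∈ Bad1 Ps a Y A0, α ∈ box3 A0 ∧ ∀ l ∈ Icc 1 Y,
      ¬ HasPair Ps a ((l : ℕ) * α.2.1 + α.1) ((l : ℕ) * α.2.2 + α.2.1) := by
    intro α hα
    classical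
    rw [Bad1] at hα
    exact ⟨(mem_filter.1 hα).1, by simpa only [mem_filter] using (mem_filter.1 hα).2⟩
  have hA : (A0 : ℤ) ≤ n := by exact_mod_cast hn
  have key := tk_abs (box3 n) (tk_Ln Y n) (Bad1 Ps a Y A0) (Icc 1 Y) (W3 W)
    (fun l α => (Xl Ps ρ l α : ℝ) - mu Ps) (mu Ps) (1 / 2 ^ 69) (4 * (T : ℝ) ^ 4)
    (2 * (T : ℝ) ^ 2 * (Pm : ℝ) ^ 2) E (filter_subset _ _) ?_ ?_ ?_ ?_ ?_ (by positivity) ?_
    (by positivity) hE0 hE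
  · have hL : ((tk_Ln Y n).card : ℝ) ≤ Y * (2 * n + 1) := by exact_mod_cast tk_card Y n
    rw [Nat.card_Icc, Nat.add_sub_cancel, card_box3] at key
    push_cast at key
    have h1 : 1 ≤ (T : ℝ) ^ 2 * mu Ps := by
      rw [div_le_iff₀ hT2] at hμ1
      linarith
    have h2 : 1 ≤ (T : ℝ) ^ 4 * mu Ps ^ 2 := by
      rw [show (T : ℝ) ^ 4 * mu Ps ^ 2 = ((T : ℝ) ^ 2 * mu Ps) ^ 2 by ring]
      exact one_le_pow₀ h1
    have h3 := mul_le_mul_of_nonneg_right hL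
      (show (0 : ℝ) ≤ 2 * (T : ℝ) ^ 2 * (Pm : ℝ) ^ 2 by positivity)
    have h4 : ((Bad1 Ps a Y A0).card : ℝ) * (1 / 2 ^ 69 * ((Y : ℝ) * mu Ps) ^ 2) ≤
        Y * ((2 * n + 1) ^ 3 * (4 * (T : ℝ) ^ 4) +
          Y * (E + Y * (2 * n + 1) * (2 * (T : ℝ) ^ 2 * (Pm : ℝ) ^ 2))) := by
      refine key.trans ?_
      gcongr
    generalize ((Bad1 Ps a Y A0).card) = b at h4 ⊢
    have h5 : (b : ℝ) * (1 / 2 ^ 69 * (Y : ℝ) ^ 2) ≤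
        (T : ℝ) ^ 4 * ((b : ℝ) * (1 / 2 ^ 69 * ((Y : ℝ) * mu Ps) ^ 2)) := by
      rw [show (T : ℝ) ^ 4 * ((b : ℝ) * (1 / 2 ^ 69 * ((Y : ℝ) * mu Ps) ^ 2)) =
        (b : ℝ) * (1 / 2 ^ 69 * (Y : ℝ) ^ 2) * ((T : ℝ) ^ 4 * mu Ps ^ 2) by ring]
      exact le_mul_of_one_le_right (by positivity) h2
    have h6 := h5.trans (mul_le_mul_of_nonneg_left h4 (by positivity))
    refine le_of_mul_le_mul_right (h6.trans (le_of_eq ?_))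
      (show (0 : ℝ) < 1 / 2 ^ 69 * (Y : ℝ) ^ 2 by positivity)
    field_simp
    ring
  · intro α hα
    obtain ⟨h1, h2⟩ := hbad α hα
    obtain ⟨h3, h4, h5⟩ := mem_box3.1 h1
    refine mem_sdiff.2 ⟨mem_box3.2 ⟨h3.trans hA, h4.trans hA, h5.trans hA⟩, fun h6 => ?_⟩
    obtain ⟨-, l, hl, h7, h8⟩ := mem_filter.1 h6
    obtain ⟨π, hπ⟩ := hne
    obtain ⟨h9, h10, h11⟩ := mem_offDiag.1 hπ
    refine h2 l hl ⟨π.1, h9, π.2, h10, h11, ?_⟩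
    rw [h7, h8, qf]
    simp
  · intro α
    have h1 := mul_nonneg (hW α.1).1 (hW α.2.1).1
    exact ⟨mul_nonneg h1 (hW α.2.2).1,
      mul_le_one₀ (mul_le_one₀ (hW _).2 (hW _).1 (hW _).2) (hW _).1 (hW _).2⟩
  · intro α hα
    obtain ⟨h3, h4, h5⟩ := mem_box3.1 (hbad α hα).1
    rw [show (1 : ℝ) / 2 ^ 69 = 1 / 2 ^ 23 * (1 / 2 ^ 23) * (1 / 2 ^ 23) by norm_num]
    exact mul_le_mul (mul_le_mul (hlo _ h3) (hlo _ h4) (by positivity) (hW _).1) (hlo _ h5)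
      (by positivity) (mul_nonneg (hW _).1 (hW _).1)
  · intro α hα l hl
    have h1 : Xl Ps ρ l α = 0 := by
      rw [Xl, card_eq_zero, filter_eq_empty_iff]
      intro π hπ h2
      obtain ⟨h9, h10, h11⟩ := mem_offDiag.1 hπ
      exact (hbad α hα).2 l hl ⟨π.1, h9, π.2, h10, h11, tk_dvd (hρ π hπ) h2⟩
    simp only [h1, Nat.cast_zero, zero_sub]
  · intro α hα l hl
    obtain ⟨h1, h2⟩ := mem_sdiff.1 hα
    obtain ⟨h3, h4, h5⟩ := mem_box3.1 h1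
    have h6 : (l : ℤ) * α.2.1 + α.1 ≠ 0 ∨ (l : ℤ) * α.2.2 + α.2.1 ≠ 0 := by
      rw [← not_and_or]
      exact fun h => h2 (mem_filter.2 ⟨h1, l, hl, h⟩)
    have h7 := (sizes a (2 * Y * n) ha.pos 0 _ _ (by simp only [abs_zero]; positivity)
      (tk_size hl h4 h3) (tk_size hl h5 h4)).1
    have h8 : 2 * (a : ℤ) * ((2 * Y * n : ℕ) : ℤ) ^ 3 ≤ X := by exact_mod_cast hX
    have h9 := pairs_dvd_le hDB Ps _ (qf_ne ha _ _ h6) (h7.trans h8)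
    have h10 : Xl Ps ρ l α ≤ T ^ 2 := by
      refine (card_le_card fun π hπ => ?_).trans h9
      obtain ⟨h11, h12⟩ := mem_filter.1 hπ
      exact mem_filter.2 ⟨h11, tk_dvd (hρ π h11) h12⟩
    have h11 : (Xl Ps ρ l α : ℝ) ≤ (T : ℝ) ^ 2 := by exact_mod_cast h10
    have h12 : (0 : ℝ) ≤ Xl Ps ρ l α := Nat.cast_nonneg _
    have h13 : ((Xl Ps ρ l α : ℝ) - mu Ps) ^ 2 ≤ ((T : ℝ) ^ 2) ^ 2 :=
      sq_le_sq' (by linarith) (by linarith)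
    have h14 : (0 : ℝ) ≤ (T : ℝ) ^ 4 := by positivity
    calc _ = ((Xl Ps ρ l α : ℝ) - mu Ps) ^ 2 := (sq _).symm
      _ ≤ ((T : ℝ) ^ 2) ^ 2 := h13
      _ = (T : ℝ) ^ 4 := by ring
      _ ≤ _ := by linarith
  · intro α _ l _ l' _
    have h1 : (Xl Ps ρ l α : ℝ) ≤ (Pm : ℝ) ^ 2 := by exact_mod_cast tk_Xl Ps hPs ρ l α
    have h2 : (Xl Ps ρ l' α : ℝ) ≤ (Pm : ℝ) ^ 2 := by exact_mod_cast tk_Xl Ps hPs ρ l' α
    have h3 : (0 : ℝ) ≤ Xl Ps ρ l α := Nat.cast_nonneg _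
    have h4 : (0 : ℝ) ≤ Xl Ps ρ l' α := Nat.cast_nonneg _
    have h5 := mul_le_mul hμ2 h1 h3 hT2.le
    have h6 := mul_le_mul hμ2 h2 h4 hT2.le
    have h7 := mul_nonneg h3 h4
    have h8 := mul_self_nonneg (mu Ps)
    show _ ≤ ((Xl Ps ρ l α : ℝ) - mu Ps) * ((Xl Ps ρ l' α : ℝ) - mu Ps)
    linarith [show ((Xl Ps ρ l α : ℝ) - mu Ps) * ((Xl Ps ρ l' α : ℝ) - mu Ps) =
      Xl Ps ρ l α * Xl Ps ρ l' α + mu Ps * mu Ps - mu Ps * Xl Ps ρ l α - mu Ps * Xl Ps ρ l' α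
      by ring]

end Pool.Agent.Lib.MP_9c5702_nt.AC
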