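import Pool.Agent.Lib.MP_9c5702_nt.AC.AsSum
import Pool.Agent.Lib.MP_9c5702_nt.AC.PowSum
import Pool.Agent.Lib.MP_9c5702_nt.AC.Defs

/-! Square root cancellation for at most four simple poles. -/

set_option autoImplicit false

namespace Pool.Agent.Lib.MP_9c5702_nt.AC

open Finset Pool.Agent.Shared.Weil Pool.Agent.Lib.MP_9c5702_nt.Cube

theorem weil4 (p : ℕ) [Fact p.Prime] (S : Finset (ZMod p)) (hS : S.card ≤ 4)
    (c : ZMod p → ZMod p) (x0 : ZMod p) (hx0 : x0 ∈ S) (hc : c x0 ≠ 0) (k0 : ZMod p) :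
    ‖∑ x ∈ univ \ S, (ZMod.stdAddChar (∑ y ∈ S, c y * (x - y)⁻¹ + k0 * x) : ℂ)‖ ≤ 8 * √p := by
  have hp := (Fact.out : p.Prime)
  have hp0 : (0 : ℝ) < p := by exact_mod_cast hp.pos
  have h := pow_sum_bound 8 (fun d => ∑ f ∈ mon p d, eta4 S c k0 f)
    (fun r => ∑ x : GaloisField p r, eta4 S c k0 (cp (ZMod p) x)) (eta4_zero S c k0)
    (fun d hd => eta4_big S c k0 x0 hx0 hc d (by omega))
    (newton _ (eta4_mul S c k0)) (12 * p + 4) (√p) (Real.sqrt_pos.2 hp0) 3 (fun k hk => by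
      rw [pow_mul, Real.sq_sqrt hp0.le]
      exact as_sum S hS c k0 x0 hx0 hc k hk)
  simp only [eta4_one] at h
  exact_mod_cast h

lemma weil4_kf (p : ℕ) [Fact p.Prime] (c x : ℤ) :
    kf p c x = if (x : ZMod p) = 0 then 0 else
      (ZMod.stdAddChar ((c : ZMod p) * (x : ZMod p)⁻¹) : ℂ) := by
  have hp := (Fact.out : p.Prime)
  split_ifs with h
  · refine kf_zero c fun h' => ?_
    obtain ⟨u, v, huv⟩ := h'
    have h1 := congrArg (Int.cast : ℤ → ZMod p) huv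
    simp [h] at h1
  · have h1 : (p : ℤ) ∣ x * ((x : ZMod p)⁻¹.val : ℤ) - 1 := by
      rw [← ZMod.intCast_zmod_eq_zero_iff_dvd]
      push_cast
      rw [ZMod.natCast_zmod_val, mul_inv_cancel₀ h, sub_self]
    rw [kf_eq c h1, ec_std]
    congr 1
    push_cast
    rw [ZMod.natCast_zmod_val]

lemma weil4_range (p : ℕ) [NeZero p] (G : ZMod p → ℂ) :
    ∑ t ∈ range p, G (t : ZMod p) = ∑ x : ZMod p, G x := by
  refine Finset.sum_nbij' (fun t => (t : ZMod p)) (fun x => x.val) (fun _ _ => mem_univ _)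
    (fun x _ => mem_range.2 (ZMod.val_lt x)) (fun t ht => ZMod.val_cast_of_lt (mem_range.1 ht))
    (fun x _ => ZMod.natCast_zmod_val x) fun _ _ => rfl

lemma weil4_poles (p : ℕ) [Fact p.Prime] (c y1 y2 y3 y4 x : ZMod p) :
    ∑ y ∈ ({y1, y2, y3, y4} : Finset (ZMod p)), ((if y = y1 then c else 0) -
      (if y = y2 then c else 0) - (if y = y3 then c else 0) + (if y = y4 then c else 0)) *
      (x - y)⁻¹ = c * (x - y1)⁻¹ + -(c * (x - y2)⁻¹) + -(c * (x - y3)⁻¹) + c * (x - y4)⁻¹ := by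
  simp only [add_mul, sub_mul, ite_mul, zero_mul, sum_add_distrib, sum_sub_distrib, sum_ite_eq',
    mem_insert, mem_singleton, true_or, or_true, if_true]
  ring

theorem quad_prime (p : ℕ) (hp : p.Prime) (c b s1 s2 s3 k : ℤ) (hb : IsCoprime b (p : ℤ))
    (h : ¬ (p : ℤ) ∣ c * (s1 - s2) * (s1 - s3)) :
    ‖∑ t ∈ range p, W4 p c b s1 s2 s3 t * ec p (k * t)‖ ≤ 8 * √p := by
  have : Fact p.Prime := ⟨hp⟩
  rcases eq_or_ne p 2 with rfl | hp2
  · have h1 : ∀ t ∈ range 2, ‖W4 2 c b s1 s2 s3 (t : ℕ) * ec 2 (k * (t : ℕ))‖ ≤ 1 := fun t _ => by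
      rw [W4]
      simp only [norm_mul, norm_ec, mul_one, RCLike.norm_conj]
      exact mul_le_one₀ (mul_le_one₀ (mul_le_one₀ (norm_kf_le _ _ _) (norm_nonneg _)
        (norm_kf_le _ _ _)) (norm_nonneg _) (norm_kf_le _ _ _)) (norm_nonneg _) (norm_kf_le _ _ _)
    refine (norm_sum_le _ _).trans ((sum_le_sum h1).trans ?_)
    have h2 : (1 : ℝ) ≤ √2 := Real.one_le_sqrt.2 (by norm_num)
    simp only [sum_const, card_range, nsmul_eq_mul, Nat.cast_ofNat, mul_one]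
    linarith
  rw [← ZMod.intCast_zmod_eq_zero_iff_dvd] at h
  push_cast at h
  have hc : (c : ZMod p) ≠ 0 := fun h0 => h (by rw [h0]; ring)
  have h12 : -(s1 : ZMod p) ≠ -(s2 : ZMod p) := fun h0 => h (by rw [neg_injective h0]; ring)
  have h13 : -(s1 : ZMod p) ≠ -(s3 : ZMod p) := fun h0 => h (by rw [neg_injective h0]; ring)
  have hb0 : (b : ZMod p) ≠ 0 := fun h0 => by
    obtain ⟨u, v, huv⟩ := hb
    have h1 := congrArg (Int.cast : ℤ → ZMod p) huv
    simp [h0] at h1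
  have h2 : (2 : ZMod p) ≠ 0 := fun h0 => hp2
    ((Nat.prime_dvd_prime_iff_eq hp Nat.prime_two).1
      ((ZMod.natCast_eq_zero_iff 2 p).1 (by exact_mod_cast h0)))
  set y1 : ZMod p := -(s1 : ZMod p) with hy1
  set y2 : ZMod p := -(s2 : ZMod p) with hy2
  set y3 : ZMod p := -(s3 : ZMod p) with hy3
  obtain ⟨y4, hy4⟩ : ∃ y4 : ZMod p, y4 = -((s2 : ZMod p) + s3 - s1) := ⟨_, rfl⟩
  have key := weil4 p {y1, y2, y3, y4} card_le_four
    (fun y => (if y = y1 then (c : ZMod p) else 0) - (if y = y2 then (c : ZMod p) else 0) -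
      (if y = y3 then (c : ZMod p) else 0) + (if y = y4 then (c : ZMod p) else 0)) y1
    (mem_insert_self _ _) (by
      simp only [if_true, if_neg h12, if_neg h13, sub_zero]
      split_ifs
      · rw [← two_mul]; exact mul_ne_zero h2 hc
      · rwa [add_zero]) ((k : ZMod p) * (b : ZMod p)⁻¹)
  simp only [weil4_poles] at key
  refine le_trans (le_of_eq ?_) key
  congr 1
  let G : ZMod p → ℂ := fun x => if x ∈ ({y1, y2, y3, y4} : Finset (ZMod p)) then 0 else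
    ZMod.stdAddChar ((c : ZMod p) * (x - y1)⁻¹ + -((c : ZMod p) * (x - y2)⁻¹) +
      -((c : ZMod p) * (x - y3)⁻¹) + (c : ZMod p) * (x - y4)⁻¹ + (k : ZMod p) * (b : ZMod p)⁻¹ * x)
  have e1 : ∀ t ∈ range p, W4 p c b s1 s2 s3 (t : ℕ) * ec p (k * (t : ℕ)) =
      G ((b : ZMod p) * (t : ZMod p)) := fun t _ => by
    have a1 : ((b * (t : ℕ) + s1 : ℤ) : ZMod p) = (b : ZMod p) * (t : ZMod p) - y1 := by
      rw [hy1]; push_cast; ring
    have a2 : ((b * (t : ℕ) + s2 : ℤ) : ZMod p) = (b : ZMod p) * (t : ZMod p) - y2 := by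
      rw [hy2]; push_cast; ring
    have a3 : ((b * (t : ℕ) + s3 : ℤ) : ZMod p) = (b : ZMod p) * (t : ZMod p) - y3 := by
      rw [hy3]; push_cast; ring
    have a4 : ((b * (t : ℕ) + (s2 + s3 - s1) : ℤ) : ZMod p) = (b : ZMod p) * (t : ZMod p) - y4 := by
      rw [hy4]; push_cast; ring
    have a5 : ((k * (t : ℕ) : ℤ) : ZMod p) =
        (k : ZMod p) * (b : ZMod p)⁻¹ * ((b : ZMod p) * (t : ZMod p)) := by
      push_cast; field_simp
    rw [W4, weil4_kf, weil4_kf, weil4_kf, weil4_kf, ec_std, a1, a2, a3, a4, a5]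
    generalize (b : ZMod p) * (t : ZMod p) = x
    simp only [G, mem_insert, mem_singleton, sub_eq_zero]
    by_cases b1 : x = y1
    · simp [b1]
    by_cases b2 : x = y2
    · simp [b2]
    by_cases b3 : x = y3
    · simp [b3]
    by_cases b4 : x = y4
    · simp [b4]
    simp only [b1, b2, b3, b4, if_false, or_self, ← AddChar.map_neg_eq_conj,
      AddChar.map_add_eq_mul]
  rw [sum_congr rfl e1, weil4_range p fun x => G ((b : ZMod p) * x),
    show ∑ x : ZMod p, G ((b : ZMod p) * x) = ∑ x : ZMod p, G x from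
      Equiv.sum_comp (Equiv.mulLeft₀ (b : ZMod p) hb0) G,
    ← sum_sdiff (subset_univ ({y1, y2, y3, y4} : Finset (ZMod p))),
    sum_eq_zero (s := ({y1, y2, y3, y4} : Finset (ZMod p))) fun x hx => if_pos hx, add_zero]
  exact sum_congr rfl fun x hx => if_neg (mem_sdiff.1 hx).2

end Pool.Agent.Lib.MP_9c5702_nt.AC
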