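import Pool.Agent.Lib.MP_9c5702_nt.AC.Large

/-! Large cofactors that share prime factors with the cube. -/

set_option autoImplicit false

namespace Pool.Agent.Lib.MP_9c5702_nt.AC

open Pool.Agent.Lib.MP_9c5702_nt

lemma wide_sqrt {u r : ℝ} (hu : 0 ≤ u) (hr : 0 ≤ r) (h : r ≤ 2 * u) :
    √3 * u + r / 4 ≤ √(u * (3 * u + r)) := by
  have h5 : √3 * √3 = (3 : ℝ) := Real.mul_self_sqrt (by norm_num)
  have h7 : √3 ≤ (17321 / 10000 : ℝ) := by
    rw [Real.sqrt_le_iff]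
    norm_num
  apply Real.le_sqrt_of_sq_le
  have e : (√3 * u + r / 4) ^ 2 = 3 * u ^ 2 + √3 * (u * r) / 2 + r ^ 2 / 16 := by
    linear_combination (u ^ 2) * h5
  have hur : 0 ≤ u * r := mul_nonneg hu hr
  have b1 : √3 * (u * r) ≤ 17321 / 10000 * (u * r) := mul_le_mul_of_nonneg_right h7 hur
  have b2 : r * r ≤ 2 * u * r := mul_le_mul_of_nonneg_right h hr
  rw [e]
  nlinarith

lemma wide_cast {q g : ℕ} (hg : g ≠ 0) (hq : q ≠ 0) (h : g ∣ q ^ 2) :
    ∏ p ∈ q.primeFactors, (p : ℝ) ^ g.factorization p = (g : ℝ) := by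
  have h2 := Nat.prod_factorization_pow_eq_self hg
  rw [Finsupp.prod, Nat.support_factorization] at h2
  have hs : g.primeFactors ⊆ q.primeFactors := by
    have := Nat.primeFactors_mono h (pow_ne_zero 2 hq)
    rwa [Nat.primeFactors_pow _ (by norm_num)] at this
  have h3 : ∏ p ∈ g.primeFactors, p ^ g.factorization p =
      ∏ p ∈ q.primeFactors, p ^ g.factorization p := by
    refine Finset.prod_subset hs fun p _ hp => ?_
    rw [← Nat.support_factorization, Finsupp.notMem_support_iff] at hp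
    rw [hp, pow_zero]
  rw [h3] at h2
  exact_mod_cast h2

lemma wide_prod {q g : ℕ} (hq : 1 ≤ q) (hg : 1 ≤ g) (h : g ∣ q ^ 2) :
    ∏ p ∈ q.primeFactors, (p : ℝ) ^ (((3 * q.factorization p + g.factorization p : ℕ) : ℝ) / 6 -
      √((q.factorization p : ℝ) * ((3 * q.factorization p + g.factorization p : ℕ) : ℝ))) ≤
      (q : ℝ) ^ ((1 : ℝ) / 2 - √3) * (g : ℝ) ^ (-(1 : ℝ) / 12) := by
  have hq0 : q ≠ 0 := by omega
  have hg0 : g ≠ 0 := by omega
  have h1 := wide_cast hq0 hq0 (dvd_pow_self q (by norm_num))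
  have h2 := wide_cast hg0 hq0 h
  have h3 := Real.finsetProd_rpow q.primeFactors (fun p => (p : ℝ) ^ q.factorization p)
    (fun p _ => by positivity) ((1 : ℝ) / 2 - √3)
  have h4 := Real.finsetProd_rpow q.primeFactors (fun p => (p : ℝ) ^ g.factorization p)
    (fun p _ => by positivity) (-(1 : ℝ) / 12)
  rw [h1] at h3
  rw [h2] at h4
  rw [← h3, ← h4, ← Finset.prod_mul_distrib]
  refine Finset.prod_le_prod (fun p _ => by positivity) fun p hp => ?_
  have hp1 : (1 : ℝ) ≤ p := by exact_mod_cast (Nat.prime_of_mem_primeFactors hp).one_le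
  rw [← Real.rpow_natCast, ← Real.rpow_natCast, ← Real.rpow_mul (Nat.cast_nonneg _),
    ← Real.rpow_mul (Nat.cast_nonneg _), ← Real.rpow_add (by linarith)]
  refine Real.rpow_le_rpow_of_exponent_le hp1 ?_
  have hle : g.factorization p ≤ 2 * q.factorization p := by
    have := (Nat.factorization_le_iff_dvd hg0 (pow_ne_zero 2 hq0)).2 h p
    rwa [Nat.factorization_pow, Finsupp.smul_apply, smul_eq_mul] at this
  have hle' : (g.factorization p : ℝ) ≤ 2 * (q.factorization p : ℝ) := by exact_mod_cast hle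
  have := wide_sqrt (Nat.cast_nonneg _) (Nat.cast_nonneg _) hle'
  push_cast
  linarith

lemma wide_num {x y z : ℝ} (hx : 0 ≤ x) (hy : 0 ≤ y) (hz : 0 ≤ z) (h1 : 6 * y ≤ 5 * x)
    (h2 : 50 * x ≤ 61 * y + 22 * z) :
    (x + 3 * y) * (2 / 10 ^ 9) + y +
      max 0 ((x + 3 * y) * (1 / 3) + (y * (1 / 2 - √3) + z * (-1 / 12))) * (2 / √3) +
      x * (1 / 6) ≤ (x + 3 * y) * (1 / 3 - 1 / 10 ^ 8) := by
  have h5 : √3 * √3 = (3 : ℝ) := Real.mul_self_sqrt (by norm_num)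
  have h6 : (0 : ℝ) < √3 := Real.sqrt_pos.2 (by norm_num)
  have h7 : √3 ≤ (17321 / 10000 : ℝ) := by
    rw [Real.sqrt_le_iff]
    norm_num
  have h9 : (1732 / 1000 : ℝ) ≤ √3 := by
    apply Real.le_sqrt_of_sq_le
    norm_num
  have h8 : (2 : ℝ) / √3 = 2 * √3 / 3 := by
    rw [div_eq_div_iff h6.ne' (by norm_num)]
    linear_combination (-2) * h5
  rcases le_total 0 ((x + 3 * y) * (1 / 3) + (y * (1 / 2 - √3) + z * (-1 / 12))) with h | h
  · rw [max_eq_right h, h8]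
    have e : ((x + 3 * y) * (1 / 3) + (y * (1 / 2 - √3) + z * (-1 / 12))) * (2 * √3 / 3) =
        2 / 9 * (√3 * x) + √3 * y - 2 * y - 1 / 18 * (√3 * z) := by
      linear_combination (-(2 / 3) * y) * h5
    have b1 : √3 * x ≤ 17321 / 10000 * x := mul_le_mul_of_nonneg_right h7 hx
    have b2 : √3 * y ≤ 17321 / 10000 * y := mul_le_mul_of_nonneg_right h7 hy
    have b3 : 1732 / 1000 * z ≤ √3 * z := mul_le_mul_of_nonneg_right h9 hz
    rw [e]
    linarith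
  · rw [max_eq_left h, zero_mul]
    linarith

theorem wide_case : ∃ C : ℝ, 0 ≤ C ∧ ∀ a w g : ℕ, 1 ≤ a → 1 ≤ w → g ∣ a → g ∣ w ^ 2 →
    w ^ 6 ≤ a ^ 5 → a ^ 50 ≤ w ^ 61 * g ^ 22 →
    (r33 (a * w ^ 3) : ℝ) ≤ C * ((a * w ^ 3 : ℕ) : ℝ) ^ ((1 : ℝ) / 3 - 1 / 10 ^ 8) := by
  obtain ⟨C, hC⟩ := QS.main (2 / 10 ^ 9) (by positivity)
  refine ⟨max C 0, le_max_right _ _, fun a w g ha hw hga hgw h1 h2 => ?_⟩
  have hn : 1 ≤ a * w ^ 3 := Nat.mul_pos ha (Nat.pow_pos hw)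
  have hg : 1 ≤ g := Nat.pos_of_dvd_of_pos hga ha
  have h3 := hC (a * w ^ 3) w (fun p => 3 * w.factorization p + g.factorization p) hn hw
    fun p _ => ⟨by omega, by
      rw [pow_add, mul_comm 3, pow_mul, mul_comm]
      exact mul_dvd_mul ((Nat.ordProj_dvd g p).trans hga)
        (pow_dvd_pow_of_dvd (Nat.ordProj_dvd w p) 3)⟩
  have hP := wide_prod hw hg hgw
  have ha1 : (1 : ℝ) ≤ a := by exact_mod_cast ha
  have hw1 : (1 : ℝ) ≤ w := by exact_mod_cast hw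
  have hg1 : (1 : ℝ) ≤ g := by exact_mod_cast hg
  have ha0 : (0 : ℝ) < a := by linarith
  have hw0 : (0 : ℝ) < w := by linarith
  have hg0 : (0 : ℝ) < g := by linarith
  have hnc : ((a * w ^ 3 : ℕ) : ℝ) = (a : ℝ) * (w : ℝ) ^ 3 := by push_cast; ring
  have hn0 : (0 : ℝ) < ((a * w ^ 3 : ℕ) : ℝ) := by rw [hnc]; positivity
  have h7 : C ≤ max C 0 := le_max_left _ _
  have h70 : (0 : ℝ) ≤ max C 0 := le_max_right _ _
  have h3' : (r33 (a * w ^ 3) : ℝ) ≤ max C 0 * ((a * w ^ 3 : ℕ) : ℝ) ^ ((2 : ℝ) / 10 ^ 9) * w *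
      (max 1 (((a * w ^ 3 : ℕ) : ℝ) ^ ((1 : ℝ) / 3) *
        ((w : ℝ) ^ ((1 : ℝ) / 2 - √3) * (g : ℝ) ^ (-(1 : ℝ) / 12)))) ^ (2 / √3) *
      (max 1 (((a * w ^ 3 : ℕ) : ℝ) / (w : ℝ) ^ 3)) ^ ((1 : ℝ) / 6) := by
    refine h3.trans ?_
    gcongr
  have hlog : Real.log ((a * w ^ 3 : ℕ) : ℝ) = Real.log a + 3 * Real.log w := by
    rw [hnc, Real.log_mul ha0.ne' (by positivity), Real.log_pow]
    norm_num
  have hx : 0 ≤ Real.log a := Real.log_nonneg ha1
  have hy : 0 ≤ Real.log w := Real.log_nonneg hw1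
  have hz : 0 ≤ Real.log g := Real.log_nonneg hg1
  have l1 : 6 * Real.log w ≤ 5 * Real.log a := by
    have h4 : (w : ℝ) ^ 6 ≤ (a : ℝ) ^ 5 := by exact_mod_cast h1
    have h5 := Real.log_le_log (by positivity) h4
    rw [Real.log_pow, Real.log_pow] at h5
    exact_mod_cast h5
  have l2 : 50 * Real.log a ≤ 61 * Real.log w + 22 * Real.log g := by
    have h4 : (a : ℝ) ^ 50 ≤ (w : ℝ) ^ 61 * (g : ℝ) ^ 22 := by exact_mod_cast h2
    have h5 := Real.log_le_log (by positivity) h4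
    rw [Real.log_mul (by positivity) (by positivity), Real.log_pow, Real.log_pow,
      Real.log_pow] at h5
    exact_mod_cast h5
  have e2 : ((a * w ^ 3 : ℕ) : ℝ) / (w : ℝ) ^ 3 = (a : ℝ) := by
    rw [hnc]
    field_simp
  have hE : ∀ t : ℝ, (max 1 (Real.exp t)) ^ (2 / √3 : ℝ) = Real.exp (max 0 t * (2 / √3)) := by
    intro t
    rw [Real.exp_mul, Real.exp_monotone.map_max, Real.exp_zero]
  rw [e2, max_eq_right ha1, Real.rpow_def_of_pos hn0, Real.rpow_def_of_pos hn0,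
    Real.rpow_def_of_pos hw0, Real.rpow_def_of_pos hg0, ← Real.exp_add, ← Real.exp_add, hE,
    Real.rpow_def_of_pos ha0, hlog] at h3'
  rw [Real.rpow_def_of_pos hn0, hlog]
  have h6 := Real.exp_le_exp.2 (wide_num hx hy hz l1 l2)
  rw [Real.exp_add, Real.exp_add, Real.exp_add, Real.exp_log hw0] at h6
  refine h3'.trans ?_
  refine le_trans (le_of_eq ?_) (mul_le_mul_of_nonneg_left h6 h70)
  ring

end Pool.Agent.Lib.MP_9c5702_nt.AC
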