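import Pool.Agent.Lib.MP_9c5702_nt.AC.Main
import Pool.Agent.Lib.MP_9c5702_nt.AC.WideL

/-! A power saving for every integer with a large cube divisor, prime factors shared with the
cofactor counted. -/

set_option autoImplicit false

namespace Pool.Agent.Lib.MP_9c5702_nt.AC

open Pool.Agent.Lib.MP_9c5702_nt

theorem wide_aw : ∃ C : ℝ, ∀ a w : ℕ, 1 ≤ a → 1 ≤ w →
    a ^ 50 ≤ w ^ 61 * Nat.gcd a (w ^ 2) ^ 22 →
    (r33 (a * w ^ 3) : ℝ) ≤ C * ((a * w ^ 3 : ℕ) : ℝ) ^ ((1 : ℝ) / 3 - 1 / 10 ^ 8) := by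
  obtain ⟨C1, h1⟩ := main
  obtain ⟨C2, h20, h2⟩ := wide_case
  refine ⟨max C1 0 + C2, fun a w ha hw h3 => ?_⟩
  have hp : (0 : ℝ) ≤ ((a * w ^ 3 : ℕ) : ℝ) ^ ((1 : ℝ) / 3 - 1 / 10 ^ 8) := by positivity
  have h10 : (0 : ℝ) ≤ max C1 0 := le_max_right _ _
  have h11 : C1 ≤ max C1 0 := le_max_left _ _
  rcases le_total (a ^ 5) (w ^ 6) with h4 | h4
  · exact (h1 a w ha hw h4).trans (mul_le_mul_of_nonneg_right (by linarith) hp)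
  · exact (h2 a w _ ha hw (Nat.gcd_dvd_left _ _) (Nat.gcd_dvd_right _ _) h4 h3).trans
      (mul_le_mul_of_nonneg_right (by linarith) hp)

theorem wide_main : ∃ C : ℝ, ∀ n w : ℕ, 1 ≤ n → w ^ 3 ∣ n →
    n ^ 50 ≤ w ^ 145 * Nat.gcd n (w ^ 5) ^ 22 →
    (r33 n : ℝ) ≤ C * (n : ℝ) ^ ((1 : ℝ) / 3 - 1 / 10 ^ 8) := by
  obtain ⟨C, hC⟩ := wide_aw
  refine ⟨C, fun n w hn hw h => ?_⟩
  obtain ⟨a, rfl⟩ := hw
  have ha : 1 ≤ a := Nat.pos_of_ne_zero fun h0 => by simp [h0] at hn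
  have hw : 1 ≤ w := Nat.pos_of_ne_zero fun h0 => by simp [h0] at hn
  have hg : Nat.gcd (w ^ 3 * a) (w ^ 5) = w ^ 3 * Nat.gcd a (w ^ 2) := by
    rw [show w ^ 5 = w ^ 3 * w ^ 2 by ring, Nat.gcd_mul_left]
  have h3 : a ^ 50 ≤ w ^ 61 * Nat.gcd a (w ^ 2) ^ 22 := by
    rw [hg] at h
    refine Nat.le_of_mul_le_mul_left (c := w ^ 150) ?_ (Nat.pow_pos hw)
    calc w ^ 150 * a ^ 50 = (w ^ 3 * a) ^ 50 := by ring
      _ ≤ w ^ 145 * (w ^ 3 * Nat.gcd a (w ^ 2)) ^ 22 := h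
      _ = w ^ 150 * (w ^ 61 * Nat.gcd a (w ^ 2) ^ 22) := by ring
  rw [mul_comm (w ^ 3) a]
  exact hC a w ha hw h3

end Pool.Agent.Lib.MP_9c5702_nt.AC
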