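import Pool.Agent.Lib.MP_9c5702_nt.Defs

/-! The wide bound contains the bound for large cube divisors, for cubes and for cube-full
numbers. -/

set_option autoImplicit false

namespace Pool.Agent.Lib.MP_9c5702_nt.AC

open Pool.Agent.Lib.MP_9c5702_nt

theorem wide_implies_large (h : ∃ C : ℝ, ∀ n w : ℕ, 1 ≤ n → w ^ 3 ∣ n →
      n ^ 50 ≤ w ^ 145 * Nat.gcd n (w ^ 5) ^ 22 →
      (r33 n : ℝ) ≤ C * (n : ℝ) ^ ((1 : ℝ) / 3 - 1 / 10 ^ 8)) :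
    ∃ C : ℝ, ∀ n w : ℕ, 1 ≤ n → w ^ 3 ∣ n → n ^ 50 ≤ w ^ 211 →
      (r33 n : ℝ) ≤ C * (n : ℝ) ^ ((1 : ℝ) / 3 - 1 / 10 ^ 8) := by
  obtain ⟨C, hC⟩ := h
  refine ⟨C, fun n w hn hw h1 => hC n w hn hw (h1.trans ?_)⟩
  have h2 : w ^ 3 ≤ Nat.gcd n (w ^ 5) :=
    Nat.le_of_dvd (Nat.gcd_pos_of_pos_left _ hn)
      (Nat.dvd_gcd hw (pow_dvd_pow w (by norm_num)))
  calc w ^ 211 = w ^ 145 * (w ^ 3) ^ 22 := by ring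
    _ ≤ w ^ 145 * Nat.gcd n (w ^ 5) ^ 22 := by gcongr

theorem wide_implies_cube (h : ∃ C : ℝ, ∀ n w : ℕ, 1 ≤ n → w ^ 3 ∣ n →
      n ^ 50 ≤ w ^ 145 * Nat.gcd n (w ^ 5) ^ 22 →
      (r33 n : ℝ) ≤ C * (n : ℝ) ^ ((1 : ℝ) / 3 - 1 / 10 ^ 8)) :
    ∃ C : ℝ, ∀ w : ℕ, 1 ≤ w →
      (r33 (w ^ 3) : ℝ) ≤ C * ((w ^ 3 : ℕ) : ℝ) ^ ((1 : ℝ) / 3 - 1 / 10 ^ 8) := by
  obtain ⟨C, hC⟩ := wide_implies_large h
  refine ⟨C, fun w hw => hC _ w (Nat.pow_pos hw) dvd_rfl ?_⟩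
  rw [← pow_mul]
  exact Nat.pow_le_pow_right hw (by norm_num)

lemma cubefull_split {n : ℕ} (hn : 1 ≤ n) (h : ∀ p : ℕ, p.Prime → p ∣ n → p ^ 3 ∣ n) :
    ∃ w : ℕ, w ^ 3 ∣ n ∧ n ∣ w ^ 5 := by
  have hn0 : n ≠ 0 := by omega
  have hw0 : Nat.floorRoot 3 n ≠ 0 := Nat.floorRoot_ne_zero.2 ⟨by norm_num, hn0⟩
  refine ⟨Nat.floorRoot 3 n, Nat.floorRoot_pow_dvd, ?_⟩
  rw [← Nat.factorization_le_iff_dvd hn0 (pow_ne_zero 5 hw0), Nat.factorization_pow,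
    Nat.factorization_floorRoot]
  intro p
  rw [Finsupp.smul_apply, smul_eq_mul, Finsupp.floorDiv_apply, Nat.floorDiv_eq_div]
  by_cases hp : n.factorization p = 0
  · omega
  · have hm : p ∈ n.primeFactors := by
      rw [← Nat.support_factorization, Finsupp.mem_support_iff]
      exact hp
    have hpp := Nat.prime_of_mem_primeFactors hm
    have h3 := (hpp.pow_dvd_iff_le_factorization hn0).1 (h p hpp (Nat.dvd_of_mem_primeFactors hm))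
    omega

theorem wide_implies_cubefull (h : ∃ C : ℝ, ∀ n w : ℕ, 1 ≤ n → w ^ 3 ∣ n →
      n ^ 50 ≤ w ^ 145 * Nat.gcd n (w ^ 5) ^ 22 →
      (r33 n : ℝ) ≤ C * (n : ℝ) ^ ((1 : ℝ) / 3 - 1 / 10 ^ 8)) :
    ∃ C : ℝ, ∀ n F : ℕ, 1 ≤ n → F ∣ n → (∀ p : ℕ, p.Prime → p ∣ F → p ^ 3 ∣ F) →
      n ^ 50 ≤ F ^ 51 →
      (r33 n : ℝ) ≤ C * (n : ℝ) ^ ((1 : ℝ) / 3 - 1 / 10 ^ 8) := by
  obtain ⟨C, hC⟩ := h
  refine ⟨C, fun n F hn hF hf hb => ?_⟩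
  have hF1 : 1 ≤ F := Nat.pos_of_dvd_of_pos hF hn
  obtain ⟨w, h3, h5⟩ := cubefull_split hF1 hf
  refine hC n w hn (h3.trans hF) (hb.trans ?_)
  have hw : 1 ≤ w := Nat.pos_of_ne_zero fun h0 => by
    rw [h0] at h3
    simp at h3
    omega
  have h6 : F ≤ w ^ 5 := Nat.le_of_dvd (Nat.pow_pos hw) h5
  have h7 : F ≤ Nat.gcd n (w ^ 5) :=
    Nat.le_of_dvd (Nat.gcd_pos_of_pos_left _ hn) (Nat.dvd_gcd hF h5)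
  calc F ^ 51 = F ^ 29 * F ^ 22 := by ring
    _ ≤ (w ^ 5) ^ 29 * Nat.gcd n (w ^ 5) ^ 22 := by gcongr
    _ = w ^ 145 * Nat.gcd n (w ^ 5) ^ 22 := by ring

end Pool.Agent.Lib.MP_9c5702_nt.AC
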